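import Pool.Agent.FD4632.Core

/-! The triangle graph and its goal predicate. -/

set_option autoImplicit false

namespace FD4632

/-- three parallel edges -/
def es3 : List (Nat × Nat) := [(nat_lit 0, nat_lit 1), (nat_lit 0, nat_lit 1), (nat_lit 0, nat_lit 1)]

/-- arc `c` is contained in arc `d` -/
noncomputable def sub (c d : Nat) : Bool :=
  Nat.ble (Nat.add (Nat.mod (Nat.sub (Nat.add (Nat.mod c (nat_lit 256)) (nat_lit 256))
    (Nat.mod d (nat_lit 256))) (nat_lit 256)) (Nat.div c (nat_lit 256))) (Nat.div d (nat_lit 256))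

/-- goal predicate for three arcs -/
noncomputable def acc3' (c0 c1 c2 : Nat) : Bool :=
  Nat.beq (Nat.div c0 (nat_lit 256)) (nat_lit 1) &&
    ((sub c1 (upA c0) && sub c2 (dnA c0)) || (sub c1 (dnA c0) && sub c2 (upA c0)))

/-- goal predicate of the triangle lemma -/
noncomputable def acc3 (σ : Nat) : Bool :=
  acc3' (arcOf σ (nat_lit 0)) (arcOf σ (nat_lit 1)) (arcOf σ (nat_lit 2))

end FD4632
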