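import Pool.Agent.FD4632.Core

/-! Basic lemmas on arc codes and coded states. -/

set_option autoImplicit false

namespace FD4632

theorem bq_ble {α : Type} (x y : Nat) (a b : α) :
    bq (Nat.ble x y) a b = if x ≤ y then a else b := by
  by_cases h : x ≤ y
  · have : Nat.ble x y = true := Nat.ble_eq.mpr h
    rw [this, if_pos h]
  · have : Nat.ble x y = false := by
      cases h' : Nat.ble x y
      · rfl
      · exact absurd (Nat.ble_eq.mp h') h
    rw [this, if_neg h]

theorem bq_beq {α : Type} (x y : Nat) (a b : α) :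
    bq (Nat.beq x y) a b = if x = y then a else b := by
  by_cases h : x = y
  · have : Nat.beq x y = true := Nat.beq_eq.mpr h
    rw [this, if_pos h]
  · have : Nat.beq x y = false := by
      cases h' : Nat.beq x y
      · rfl
      · exact absurd (Nat.beq_eq.mp h') h
    rw [this, if_neg h]

theorem mn_eq (x y : Nat) : mn x y = min x y := by
  have : mn x y = bq (Nat.ble x y) x y := rfl
  rw [this, bq_ble]
  rfl

theorem mk_eq (i L : Nat) : mk i L = i % 256 + 256 * L := rfl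

theorem mk_mod (i L : Nat) : mk i L % 256 = i % 256 := by rw [mk_eq]; omega

theorem mk_div (i L : Nat) : mk i L / 256 = L := by rw [mk_eq]; omega

/-- `κ` lies in the arc with code `c` -/
def InArc (c κ : Nat) : Prop := (κ + 256 - c % 256) % 256 < c / 256

theorem inArc_mk (i L κ : Nat) : InArc (mk i L) κ ↔ (κ + 256 - i % 256) % 256 < L := by
  unfold InArc
  rw [mk_mod, mk_div]

theorem shA_eq (c s : Nat) : shA c s = mk (c % 256 + 128 * s) (c / 256) := rfl

theorem inArc_shA (c s κ : Nat) (hκ : κ < 256) (h : InArc c κ) :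
    InArc (shA c s) ((κ + 128 * s) % 256) := by
  rw [shA_eq, inArc_mk]
  unfold InArc at h
  omega

theorem inter_eq (c1 c2 : Nat) : inter c1 c2 =
    if 257 ≤ c1 / 256 + c2 / 256 then (if c2 / 256 ≤ c1 / 256 then c2 else c1)
    else if (c2 % 256 + 256 - c1 % 256) % 256 + 1 ≤ c1 / 256 then
      mk c2 (min (c1 / 256 - (c2 % 256 + 256 - c1 % 256) % 256) (c2 / 256))
    else if (c1 % 256 + 256 - c2 % 256) % 256 + 1 ≤ c2 / 256 then
      mk c1 (min (c2 / 256 - (c1 % 256 + 256 - c2 % 256) % 256) (c1 / 256))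
    else 0 := by
  rw [← mn_eq, ← mn_eq, ← bq_ble, ← bq_ble, ← bq_ble, ← bq_ble]
  rfl

theorem inter_sound (c1 c2 κ : Nat) (hκ : κ < 256) (h1 : InArc c1 κ) (h2 : InArc c2 κ)
    (b1 : c1 < 131072) (b2 : c2 < 131072) :
    inter c1 c2 ≠ 0 ∧ InArc (inter c1 c2) κ ∧ inter c1 c2 < 131072 := by
  rw [inter_eq]
  unfold InArc at h1 h2
  split_ifs with g1 g2 g3 g4
  · refine ⟨?_, h2, b2⟩
    omega
  · refine ⟨?_, h1, b1⟩
    omega
  · refine ⟨?_, ?_, ?_⟩
    · rw [mk_eq]; omega
    · rw [inArc_mk]; omega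
    · rw [mk_eq]; omega
  · refine ⟨?_, ?_, ?_⟩
    · rw [mk_eq]; omega
    · rw [inArc_mk]; omega
    · rw [mk_eq]; omega
  · exfalso
    omega

theorem arcOf_eq (σ e : Nat) : arcOf σ e = σ / 131072 ^ e % 131072 := by
  have : arcOf σ e = (σ >>> (17 * e)) % 131072 := rfl
  rw [this, Nat.shiftRight_eq_div_pow, pow_mul]
  norm_num

theorem arcOf_lt (σ e : Nat) : arcOf σ e < 131072 := by
  rw [arcOf_eq]
  exact Nat.mod_lt _ (by norm_num)

theorem setArc_eq (σ e c : Nat) :
    setArc σ e c = σ - arcOf σ e * 131072 ^ e + c * 131072 ^ e := by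
  have : setArc σ e c = σ - (arcOf σ e) <<< (17 * e) + c <<< (17 * e) := rfl
  rw [this, Nat.shiftLeft_eq, Nat.shiftLeft_eq, pow_mul]
  norm_num

theorem arcOf_setArc (σ e c e' : Nat) (hc : c < 131072) :
    arcOf (setArc σ e c) e' = if e' = e then c else arcOf σ e' := by
  have hB : (0 : Nat) < 131072 := by norm_num
  set B : Nat := 131072 with hBdef
  have hp : 0 < B ^ e := Nat.pow_pos hB
  have hσ : σ = σ / B ^ e / B * (B ^ e * B) + (σ / B ^ e % B) * B ^ e + σ % B ^ e := by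
    have h1 := Nat.div_add_mod σ (B ^ e)
    have h2 := Nat.div_add_mod (σ / B ^ e) B
    calc σ = B ^ e * (σ / B ^ e) + σ % B ^ e := h1.symm
      _ = B ^ e * (B * (σ / B ^ e / B) + σ / B ^ e % B) + σ % B ^ e := by rw [h2]
      _ = _ := by ring
  have hset : setArc σ e c = σ / B ^ e / B * (B ^ e * B) + c * B ^ e + σ % B ^ e := by
    rw [setArc_eq, arcOf_eq]
    have : σ - σ / B ^ e % B * B ^ e = σ / B ^ e / B * (B ^ e * B) + σ % B ^ e := by
      generalize σ / B ^ e / B * (B ^ e * B) = X at hσ ⊢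
      generalize σ / B ^ e % B * B ^ e = Y at hσ ⊢
      generalize σ % B ^ e = Z at hσ ⊢
      omega
    rw [this]
    ring
  have hr : σ % B ^ e < B ^ e := Nat.mod_lt _ hp
  set q := σ / B ^ e / B with hq
  set r := σ % B ^ e with hrdef
  set g := σ / B ^ e % B with hg
  have hgB : g < B := Nat.mod_lt _ hB
  rw [arcOf_eq, arcOf_eq, hset]
  rcases lt_trichotomy e' e with h | h | h
  · rw [if_neg (by omega)]
    obtain ⟨d, rfl⟩ : ∃ d, e = e' + 1 + d := ⟨e - e' - 1, by omega⟩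
    have e1 : q * (B ^ (e' + 1 + d) * B) + c * B ^ (e' + 1 + d) + r
        = r + B ^ e' * (B * (q * B ^ (d + 1) + c * B ^ d)) := by ring
    have e2 : σ = r + B ^ e' * (B * (q * B ^ (d + 1) + g * B ^ d)) := by
      rw [hσ]; ring
    rw [e1, Nat.add_mul_div_left _ _ (Nat.pow_pos hB), Nat.add_mul_mod_self_left]
    conv_rhs => rw [e2, Nat.add_mul_div_left _ _ (Nat.pow_pos hB), Nat.add_mul_mod_self_left]
  · subst h
    rw [if_pos rfl]
    have e1 : q * (B ^ e' * B) + c * B ^ e' + r = r + B ^ e' * (c + B * q) := by ring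
    rw [e1, Nat.add_mul_div_left _ _ hp, Nat.div_eq_of_lt hr, Nat.zero_add,
      Nat.add_mul_mod_self_left, Nat.mod_eq_of_lt hc]
  · rw [if_neg (by omega)]
    obtain ⟨d, rfl⟩ : ∃ d, e' = e + 1 + d := ⟨e' - e - 1, by omega⟩
    have hlt : ∀ c' < B, c' * B ^ e + r < B ^ (e + 1) := by
      intro c' hc'
      have : c' * B ^ e + B ^ e ≤ B * B ^ e := by
        have : (c' + 1) * B ^ e ≤ B * B ^ e := Nat.mul_le_mul_right _ hc'
        linarith
      rw [pow_succ]
      linarith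
    have e1 : q * (B ^ e * B) + c * B ^ e + r = (c * B ^ e + r) + B ^ (e + 1) * q := by ring
    have e2 : σ = (g * B ^ e + r) + B ^ (e + 1) * q := by rw [hσ]; ring
    rw [pow_add, ← Nat.div_div_eq_div_mul, ← Nat.div_div_eq_div_mul, e1,
      Nat.add_mul_div_left _ _ (Nat.pow_pos hB), Nat.div_eq_of_lt (hlt c hc)]
    conv_rhs => rw [e2, Nat.add_mul_div_left _ _ (Nat.pow_pos hB), Nat.div_eq_of_lt (hlt g hgB)]

/-- all arcs of the state contain the given sectors -/
def Cov (n : Nat) (κ : Nat → Nat) (σ : Nat) : Prop := ∀ e < n, InArc (arcOf σ e) (κ e)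

theorem cov_setArc {n : Nat} {κ : Nat → Nat} {σ : Nat} (h : Cov n κ σ) (e c : Nat)
    (hc : c < 131072) (hin : InArc c (κ e)) : Cov n κ (setArc σ e c) := by
  intro e' he'
  rw [arcOf_setArc σ e c e' hc]
  split_ifs with h1
  · rw [h1]; exact hin
  · exact h e' he'

theorem bstep_sound {n : Nat} {κ : Nat → Nat} {σ : Nat} (h : Cov n κ σ) (e p : Nat) (he : e < n)
    (hκ : κ e < 256) (kl kr : Nat → Bool) (hb : bstep σ e p kl kr = true) :
    (∃ σ', kl σ' = true ∧ Cov n κ σ') ∨ (∃ σ', kr σ' = true ∧ Cov n κ σ') := by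
  have h0 : bstep σ e p kl kr = bq (Nat.ble ((p + 256 - arcOf σ e % 256) % 256) (arcOf σ e / 256))
      (bq (kl (setArc σ e (mk (arcOf σ e) ((p + 256 - arcOf σ e % 256) % 256))))
        (kr (setArc σ e (mk p (arcOf σ e / 256 - (p + 256 - arcOf σ e % 256) % 256)))) false) false :=
    rfl
  rw [h0, bq_ble] at hb
  have hin := h e he
  have hlt := arcOf_lt σ e
  set c := arcOf σ e with hc
  unfold InArc at hin
  split_ifs at hb with h1
  cases hl : kl (setArc σ e (mk c ((p + 256 - c % 256) % 256))) with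
  | false => rw [hl] at hb; exact absurd hb (by simp)
  | true =>
    rw [hl] at hb
    have hr : kr (setArc σ e (mk p (c / 256 - (p + 256 - c % 256) % 256))) = true := hb
    by_cases h2 : (κ e + 256 - c % 256) % 256 < (p + 256 - c % 256) % 256
    · left
      refine ⟨_, hl, cov_setArc h _ _ ?_ ?_⟩
      · rw [mk_eq]; omega
      · rw [inArc_mk]; omega
    · right
      refine ⟨_, hr, cov_setArc h _ _ ?_ ?_⟩
      · rw [mk_eq]; omega
      · rw [inArc_mk]; omega

theorem tstep_sound {n : Nat} {κ : Nat → Nat} {σ : Nat} (h : Cov n κ σ) (e2 e3 x y : Nat)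
    (h2 : e2 < n) (h3 : e3 < n) (k2 : κ e2 < 256) (k3 : κ e3 < 256)
    (hx : InArc x (κ e2)) (hy : InArc y (κ e3)) (bx : x < 131072) (by_ : y < 131072)
    (k : Nat → Bool) (hs : tstep σ e2 e3 x y k = true) :
    ∃ σ', k σ' = true ∧ Cov n κ σ' := by
  have h0 : tstep σ e2 e3 x y k = bq (Nat.beq (inter (arcOf σ e2) x) 0) true
    (bq (Nat.beq (inter (arcOf σ e3) y) 0) true
      (k (setArc (setArc σ e2 (inter (arcOf σ e2) x)) e3 (inter (arcOf σ e3) y)))) := rfl
  obtain ⟨a1, a2, a3⟩ := inter_sound _ _ _ k2 (h e2 h2) hx (arcOf_lt _ _) bx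
  obtain ⟨b1, b2, b3⟩ := inter_sound _ _ _ k3 (h e3 h3) hy (arcOf_lt _ _) by_
  rw [h0, bq_beq, bq_beq, if_neg a1, if_neg b1] at hs
  exact ⟨_, hs, cov_setArc (cov_setArc h _ _ a3 a2) _ _ b3 b2⟩

end FD4632
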