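import Pool.Agent.FD4632.Leaf

/-! Soundness of the checker. -/

set_option autoImplicit false

namespace FD4632

theorem tlk_eq (T i : Nat) : tlk T i = (T >>> (8 * (i % 64))) % 256 := rfl

theorem tlk_congr (T : Nat) {i j : Nat} (h : i % 64 = j % 64) : tlk T i = tlk T j := by
  rw [tlk_eq, tlk_eq, h]

theorem c8_all : ∀ i < 64, ∀ u < 64, tlk TATAB i ≤ u + tlk TATAB (i + u) ∧
    tlk TBTAB i ≤ u + tlk TBTAB (i + u) ∧ tlk TCTAB (i + u) ≤ u + tlk TCTAB i ∧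
    tlk TDTAB (i + u) ≤ u + tlk TDTAB i := by
  decide +kernel

theorem c9_all : ∀ i < 64, tlk TBTAB i ≤ 128 ∧ tlk TDTAB i ≤ 128 ∧ tlk TCTAB i ≤ tlk TDTAB i ∧
    tlk TATAB i ≤ tlk TBTAB i := by
  decide +kernel

theorem c8 (i u : Nat) (hu : u < 64) : tlk TATAB i ≤ u + tlk TATAB (i + u) ∧
    tlk TBTAB i ≤ u + tlk TBTAB (i + u) ∧ tlk TCTAB (i + u) ≤ u + tlk TCTAB i ∧
    tlk TDTAB (i + u) ≤ u + tlk TDTAB i := by
  have h := c8_all (i % 64) (Nat.mod_lt _ (by norm_num)) u hu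
  rw [tlk_congr TATAB (i := i % 64) (j := i) (by omega),
    tlk_congr TBTAB (i := i % 64) (j := i) (by omega),
    tlk_congr TCTAB (i := i % 64) (j := i) (by omega),
    tlk_congr TDTAB (i := i % 64) (j := i) (by omega),
    tlk_congr TATAB (i := i % 64 + u) (j := i + u) (by omega),
    tlk_congr TBTAB (i := i % 64 + u) (j := i + u) (by omega),
    tlk_congr TCTAB (i := i % 64 + u) (j := i + u) (by omega),
    tlk_congr TDTAB (i := i % 64 + u) (j := i + u) (by omega)] at h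
  exact h

theorem c9 (i : Nat) : tlk TBTAB i ≤ 128 ∧ tlk TDTAB i ≤ 128 ∧ tlk TCTAB i ≤ tlk TDTAB i ∧
    tlk TATAB i ≤ tlk TBTAB i := by
  have h := c9_all (i % 64) (Nat.mod_lt _ (by norm_num))
  rw [tlk_congr TATAB (i := i % 64) (j := i) (by omega),
    tlk_congr TBTAB (i := i % 64) (j := i) (by omega),
    tlk_congr TCTAB (i := i % 64) (j := i) (by omega),
    tlk_congr TDTAB (i := i % 64) (j := i) (by omega)] at h
  exact h

/-- `κ2` is counterclockwise of `κ1` at an allowed distance -/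
def Up (κ1 κ2 : Nat) : Prop :=
  tlk TATAB κ1 ≤ (κ2 + 256 - κ1) % 256 ∧ (κ2 + 256 - κ1) % 256 < tlk TBTAB κ1

/-- `κ2` is clockwise of `κ1` at an allowed distance -/
def Dn (κ1 κ2 : Nat) : Prop :=
  256 ≤ (κ2 + 256 - κ1) % 256 + tlk TDTAB κ1 ∧ (κ2 + 256 - κ1) % 256 + tlk TCTAB κ1 < 256

/-- the conclusion of the triangle lemma -/
def TriOK (κ1 κ2 κ3 : Nat) : Prop := (Up κ1 κ2 ∧ Dn κ1 κ3) ∨ (Dn κ1 κ2 ∧ Up κ1 κ3)

theorem upA_eq (c : Nat) : upA c = mk (c + tlk TATAB c)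
    (c / 256 + tlk TBTAB (c + (c / 256 - 1)) - (tlk TATAB c + 1)) := rfl

theorem dnA_eq (c : Nat) : dnA c = mk (c + 256 - tlk TDTAB c)
    (c / 256 + tlk TDTAB c - (tlk TCTAB (c + (c / 256 - 1)) + 1)) := rfl

theorem modlem (s v κ : Nat) (hv : v < 256) (h : (s + v) % 256 = κ) :
    (κ + 256 - s % 256) % 256 = v := by
  omega

theorem modlem2 (c u r κ1 κ2 : Nat) (k1 : κ1 < 256) (k2 : κ2 < 256)
    (hu : u = (κ1 + 256 - c % 256) % 256) (hr : r = (κ2 + 256 - κ1) % 256) :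
    (c + u + r) % 256 = κ2 := by
  have h1 : (c + u) % 256 = κ1 := by omega
  have h2 : (κ1 + r) % 256 = κ2 := by omega
  rw [Nat.add_mod, h1]
  omega

theorem up_sound (c κ1 κ2 : Nat) (hc : c / 256 ≤ 64) (h1 : InArc c κ1) (k1 : κ1 < 256)
    (k2 : κ2 < 256) (h : Up κ1 κ2) : InArc (upA c) κ2 ∧ upA c < 131072 := by
  unfold InArc at h1
  unfold Up at h
  obtain ⟨u, hu⟩ : ∃ u, u = (κ1 + 256 - c % 256) % 256 := ⟨_, rfl⟩
  obtain ⟨r, hr⟩ : ∃ r, r = (κ2 + 256 - κ1) % 256 := ⟨_, rfl⟩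
  have hm := modlem2 c u r κ1 κ2 k1 k2 hu hr
  have e1 : tlk TATAB κ1 = tlk TATAB (c + u) := tlk_congr _ (by omega)
  have e2 : tlk TBTAB κ1 = tlk TBTAB (c + u) := tlk_congr _ (by omega)
  rw [← hu] at h1
  rw [← hr] at h
  have m1 := (c8 c u (by omega)).1
  have m2 := (c8 (c + u) (c / 256 - 1 - u) (by omega)).2.1
  have e3 : c + u + (c / 256 - 1 - u) = c + (c / 256 - 1) := by omega
  rw [e3] at m2
  rw [e1, e2] at h
  have b1 := c9 (c + u)
  have b2 := c9 (c + (c / 256 - 1))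
  rw [upA_eq]
  generalize tlk TATAB c = A at m1 ⊢
  generalize tlk TATAB (c + u) = A' at m1 h b1
  generalize tlk TBTAB (c + u) = B' at m2 h b1
  generalize tlk TBTAB (c + (c / 256 - 1)) = B at m2 b2 ⊢
  generalize c / 256 = L at *
  clear e1 e2 e3 hu hr
  constructor
  · have e4 : c + A + (u + r - A) = c + u + r := by omega
    rw [inArc_mk, modlem (c + A) (u + r - A) κ2 (by omega) (by rw [e4]; exact hm)]
    omega
  · rw [mk_eq]
    omega

theorem dn_sound (c κ1 κ2 : Nat) (hc : c / 256 ≤ 64) (h1 : InArc c κ1) (k1 : κ1 < 256)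
    (k2 : κ2 < 256) (h : Dn κ1 κ2) : InArc (dnA c) κ2 ∧ dnA c < 131072 := by
  unfold InArc at h1
  unfold Dn at h
  obtain ⟨u, hu⟩ : ∃ u, u = (κ1 + 256 - c % 256) % 256 := ⟨_, rfl⟩
  obtain ⟨r, hr⟩ : ∃ r, r = (κ2 + 256 - κ1) % 256 := ⟨_, rfl⟩
  have hm := modlem2 c u r κ1 κ2 k1 k2 hu hr
  have e1 : tlk TDTAB κ1 = tlk TDTAB (c + u) := tlk_congr _ (by omega)
  have e2 : tlk TCTAB κ1 = tlk TCTAB (c + u) := tlk_congr _ (by omega)
  rw [← hu] at h1
  rw [← hr] at h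
  have m1 := (c8 c u (by omega)).2.2.2
  have m2 := (c8 (c + u) (c / 256 - 1 - u) (by omega)).2.2.1
  have e3 : c + u + (c / 256 - 1 - u) = c + (c / 256 - 1) := by omega
  rw [e3] at m2
  rw [e1, e2] at h
  have b1 := (c9 (c + u)).2
  have b2 := (c9 (c + (c / 256 - 1))).2
  have b3 := (c9 c).2.1
  rw [dnA_eq]
  generalize tlk TDTAB c = A at m1 b3 ⊢
  generalize tlk TDTAB (c + u) = A' at m1 h b1
  generalize tlk TCTAB (c + u) = B' at m2 h b1
  generalize tlk TCTAB (c + (c / 256 - 1)) = B at m2 b2 ⊢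
  generalize c / 256 = L at *
  clear e1 e2 e3 hu hr
  constructor
  · have e4 : c + 256 - A + (u + r + A - 256) = c + u + r := by omega
    rw [inArc_mk, modlem (c + 256 - A) (u + r + A - 256) κ2 (by omega) (by rw [e4]; exact hm)]
    omega
  · rw [mk_eq]
    omega

/-- a valid triangle -/
structure TriValid (n : Nat) (t : TD) (κ : Nat → Nat) : Prop where
  l1 : t.e1 < n
  l2 : t.e2 < n
  l3 : t.e3 < n
  b1 : t.s1 ≤ 1
  b2 : t.s2 ≤ 1
  b3 : t.s3 ≤ 1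
  ok : TriOK ((κ t.e1 + 128 * t.s1) % 256) ((κ t.e2 + 128 * t.s2) % 256)
    ((κ t.e3 + 128 * t.s3) % 256)

theorem shA_div (c s : Nat) : shA c s / 256 = c / 256 := by rw [shA_eq, mk_div]

theorem inArc_shA' (c s κ : Nat) (hκ : κ < 256) (hc : c < 131072)
    (h : InArc c ((κ + 128 * s) % 256)) : InArc (shA c s) κ ∧ shA c s < 131072 := by
  have h1 := inArc_shA c s _ (Nat.mod_lt _ (by norm_num)) h
  have h2 : ((κ + 128 * s) % 256 + 128 * s) % 256 = κ := by omega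
  rw [h2] at h1
  refine ⟨h1, ?_⟩
  rw [shA_eq, mk_eq]
  omega

theorem tboth_sound {n : Nat} {κ : Nat → Nat} {σ : Nat} (h : Cov n κ σ) (t : TD)
    (hκ : ∀ e < n, κ e < 256) (ht : TriValid n t κ) (kl kr : Nat → Bool)
    (hb : tboth σ t kl kr = true) :
    (∃ σ', kl σ' = true ∧ Cov n κ σ') ∨ (∃ σ', kr σ' = true ∧ Cov n κ σ') := by
  have h0 : tboth σ t kl kr = bq (Nat.ble (arcOf σ t.e1 / 256) 64)
      (bq (tstep σ t.e2 t.e3 (shA (upA (shA (arcOf σ t.e1) t.s1)) t.s2)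
        (shA (dnA (shA (arcOf σ t.e1) t.s1)) t.s3) kl)
        (tstep σ t.e2 t.e3 (shA (dnA (shA (arcOf σ t.e1) t.s1)) t.s2)
        (shA (upA (shA (arcOf σ t.e1) t.s1)) t.s3) kr) false) false := rfl
  rw [h0, bq_ble] at hb
  split_ifs at hb with hL
  have hin := h t.e1 ht.l1
  have k1 := hκ _ ht.l1
  have k2 := hκ _ ht.l2
  have k3 := hκ _ ht.l3
  have hin1 := inArc_shA (arcOf σ t.e1) t.s1 (κ t.e1) k1 hin
  have hdiv : shA (arcOf σ t.e1) t.s1 / 256 ≤ 64 := by rw [shA_div]; exact hL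
  have q1 : (κ t.e1 + 128 * t.s1) % 256 < 256 := Nat.mod_lt _ (by norm_num)
  have q2 : (κ t.e2 + 128 * t.s2) % 256 < 256 := Nat.mod_lt _ (by norm_num)
  have q3 : (κ t.e3 + 128 * t.s3) % 256 < 256 := Nat.mod_lt _ (by norm_num)
  cases hl : tstep σ t.e2 t.e3 (shA (upA (shA (arcOf σ t.e1) t.s1)) t.s2)
        (shA (dnA (shA (arcOf σ t.e1) t.s1)) t.s3) kl with
  | false =>
    rw [hl] at hb
    exact absurd hb (by simp)
  | true =>
    rw [hl] at hb
    have hr : (tstep σ t.e2 t.e3 (shA (dnA (shA (arcOf σ t.e1) t.s1)) t.s2)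
        (shA (upA (shA (arcOf σ t.e1) t.s1)) t.s3) kr) = true := hb
    rcases ht.ok with ⟨u1, u2⟩ | ⟨u1, u2⟩
    · left
      obtain ⟨v1, v2⟩ := up_sound _ _ _ hdiv hin1 q1 q2 u1
      obtain ⟨w1, w2⟩ := dn_sound _ _ _ hdiv hin1 q1 q3 u2
      obtain ⟨x1, x2⟩ := inArc_shA' _ _ _ k2 v2 v1
      obtain ⟨y1, y2⟩ := inArc_shA' _ _ _ k3 w2 w1
      exact tstep_sound h _ _ _ _ ht.l2 ht.l3 k2 k3 x1 y1 x2 y2 kl hl
    · right
      obtain ⟨v1, v2⟩ := dn_sound _ _ _ hdiv hin1 q1 q2 u1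
      obtain ⟨w1, w2⟩ := up_sound _ _ _ hdiv hin1 q1 q3 u2
      obtain ⟨x1, x2⟩ := inArc_shA' _ _ _ k2 v2 v1
      obtain ⟨y1, y2⟩ := inArc_shA' _ _ _ k3 w2 w1
      exact tstep_sound h _ _ _ _ ht.l2 ht.l3 k2 k3 x1 y1 x2 y2 kr hr

theorem chk_sound (es : List (Nat × Nat)) (fx fy : Nat → ℝ) (κ : Nat → Nat)
    (adm : Adm es fx fy κ) (ts : List TD) (nt : Nat)
    (hts : ∀ n < nt, TriValid es.length (nth ts n) κ) (acc : Nat → Bool) (t : Tr) :
    ∀ σ, Cov es.length κ σ → chk es es.length ts nt acc t σ = true →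
      ∃ σ', acc σ' = true ∧ Cov es.length κ σ' := by
  induction t with
  | L w h =>
    intro σ hc hh
    exact (leaf_sound es fx fy κ adm σ w h hc hh).elim
  | B e p l r ihl ihr =>
    intro σ hc hh
    have h0 : bq (Nat.ble (e + 1) es.length)
      (bstep σ e p (chk es es.length ts nt acc l) (chk es es.length ts nt acc r)) false = true := hh
    rw [bq_ble] at h0
    split_ifs at h0 with he
    rcases bstep_sound hc e p he (adm.lt e he) _ _ h0 with ⟨σ', h1, h2⟩ | ⟨σ', h1, h2⟩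
    · exact ihl σ' h2 h1
    · exact ihr σ' h2 h1
  | T n l r ihl ihr =>
    intro σ hc hh
    have h0 : bq (Nat.ble (n + 1) nt)
      (tboth σ (nth ts n) (chk es es.length ts nt acc l) (chk es es.length ts nt acc r)) false
        = true := hh
    rw [bq_ble] at h0
    split_ifs at h0 with hn
    rcases tboth_sound hc _ adm.lt (hts n hn) _ _ h0 with ⟨σ', h1, h2⟩ | ⟨σ', h1, h2⟩
    · exact ihl σ' h2 h1
    · exact ihr σ' h2 h1
  | X =>
    intro σ _ hh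
    exact absurd hh (by simp [chk])
  | R =>
    intro σ hc hh
    exact ⟨σ, hh, hc⟩

end FD4632
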