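import Pool.Agent.FD4632.Tables

/-!
Kernel-friendly certificate checker.  All functions are written with raw natural number
operations, so that the kernel evaluates them quickly.
-/

set_option autoImplicit false

namespace FD4632

/-- Boolean case distinction. -/
@[reducible] noncomputable def bq {α : Type} (c : Bool) (x y : α) : α := Bool.rec y x c

/-- Minimum. -/
noncomputable def mn (x y : Nat) : Nat := Bool.rec y x (Nat.ble x y)

/-- `PX k + 2^20`. -/
noncomputable def U (k : Nat) : Nat :=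
  Nat.mod (Nat.shiftRight TAB (Nat.mul (nat_lit 22) (Nat.mod k (nat_lit 256)))) (nat_lit 4194304)

/-- `PY k + 2^20`. -/
noncomputable def V (k : Nat) : Nat := U (Nat.add k (nat_lit 192))

/-- shifted dot product -/
noncomputable def zf (a b C k : Nat) : Nat :=
  Nat.add (Nat.add (Nat.mul a (U k)) (Nat.mul b (V k)))
    (Nat.mul C (Nat.sub (nat_lit 4194304) (Nat.add (U k) (V k))))

/-- minimum over the sample points of a short arc -/
noncomputable def minS (a b C i L s : Nat) : Nat :=
  bq (Nat.ble L s) (mn (zf a b C i) (zf a b C (Nat.add i L)))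
    (mn (zf a b C i) (mn (zf a b C (Nat.add i s))
      (bq (Nat.ble L (Nat.mul (nat_lit 2) s)) (zf a b C (Nat.add i L))
        (mn (zf a b C (Nat.add i (Nat.mul (nat_lit 2) s)))
          (bq (Nat.ble L (Nat.mul (nat_lit 3) s)) (zf a b C (Nat.add i L))
            (mn (zf a b C (Nat.add i (Nat.mul (nat_lit 3) s))) (zf a b C (Nat.add i L))))))))

/-- minimum over sixteen sample points of the full circle -/
noncomputable def minF (a b C : Nat) : Nat :=
  Nat.rec (zf a b C (nat_lit 0))
    (fun r ih => mn ih (zf a b C (Nat.mul (nat_lit 16) (Nat.succ r)))) (nat_lit 15)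

/-- step width of the samples -/
noncomputable def sw (L : Nat) : Nat :=
  bq (Nat.ble L (nat_lit 64)) (Nat.div (Nat.add L (nat_lit 3)) (nat_lit 4)) (nat_lit 16)

/-- minimum over the sample points of an arc -/
noncomputable def minZ (a b C i L : Nat) : Nat :=
  bq (Nat.ble L (nat_lit 64)) (minS a b C i L (sw L)) (minF a b C)

/-- table lookup -/
noncomputable def RW (s : Nat) : Nat :=
  Nat.mod (Nat.shiftRight RWTAB (Nat.mul (nat_lit 22) s)) (nat_lit 4194304)

/-- arc code of an edge in a state -/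
noncomputable def arcOf (σ e : Nat) : Nat :=
  Nat.mod (Nat.shiftRight σ (Nat.mul (nat_lit 17) e)) (nat_lit 131072)

/-- potential number `j` -/
noncomputable def pot (w h j : Nat) : Nat :=
  Nat.mod (Nat.shiftRight h (Nat.mul w j)) (Nat.pow (nat_lit 2) w)

/-- difference of potentials, shifted by `C = 2^w` -/
noncomputable def pdf (w h C j k : Nat) : Nat := Nat.sub (Nat.add C (pot w h j)) (pot w h k)

/-- treat one edge: `c` arc code, `a b` shifted differences -/
noncomputable def estep (C c a b : Nat) (k : Nat → Nat → Bool) (pos neg : Nat) : Bool :=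
  bq (Bool.rec false (Nat.beq b C) (Nat.beq a C)) (k pos neg)
    (bq (Nat.ble (Nat.mul (nat_lit 1048576) (Nat.add (Nat.add a b) (Nat.mul (nat_lit 2) C)))
          (minZ a b C (Nat.mod c (nat_lit 256)) (Nat.div c (nat_lit 256))))
      (k (Nat.add pos (Nat.mul (nat_lit 1048576)
          (Nat.sub (minZ a b C (Nat.mod c (nat_lit 256)) (Nat.div c (nat_lit 256)))
            (Nat.mul (nat_lit 1048576) (Nat.add (Nat.add a b) (Nat.mul (nat_lit 2) C)))))) neg)
      (k pos (Nat.add neg (Nat.mul (RW (sw (Nat.div c (nat_lit 256))))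
          (Nat.sub (Nat.mul (nat_lit 1048576) (Nat.add (Nat.add a b) (Nat.mul (nat_lit 2) C)))
            (minZ a b C (Nat.mod c (nat_lit 256)) (Nat.div c (nat_lit 256))))))))

/-- leaf check, recursion over the list of (tail, head) pairs -/
noncomputable def leafGo (w h C : Nat) (es : List (Nat × Nat)) : Nat → Nat → Nat → Nat → Bool :=
  List.rec (fun _ _ pos neg => Nat.ble (Nat.succ neg) pos)
    (fun e _ ih σ n pos neg =>
      estep C (arcOf σ n)
        (pdf w h C (Nat.mul (nat_lit 2) e.1) (Nat.mul (nat_lit 2) e.2))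
        (pdf w h C (Nat.succ (Nat.mul (nat_lit 2) e.1)) (Nat.succ (Nat.mul (nat_lit 2) e.2)))
        (fun p q => ih σ (Nat.succ n) p q) pos neg) es

/-- leaf check -/
noncomputable def leafOK (es : List (Nat × Nat)) (σ w h : Nat) : Bool :=
  leafGo w h (Nat.pow (nat_lit 2) w) es σ (nat_lit 0) (nat_lit 0) (nat_lit 0)

/-- replace the arc of an edge -/
noncomputable def setArc (σ e c : Nat) : Nat :=
  Nat.add (Nat.sub σ (Nat.shiftLeft (arcOf σ e) (Nat.mul (nat_lit 17) e)))
    (Nat.shiftLeft c (Nat.mul (nat_lit 17) e))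

/-- make an arc code -/
noncomputable def mk (i L : Nat) : Nat :=
  Nat.add (Nat.mod i (nat_lit 256)) (Nat.mul (nat_lit 256) L)

/-- arc of the negative vector if `s = 1` -/
noncomputable def shA (c s : Nat) : Nat :=
  mk (Nat.add (Nat.mod c (nat_lit 256)) (Nat.mul (nat_lit 128) s)) (Nat.div c (nat_lit 256))

/-- intersection of arcs, `0` if empty -/
noncomputable def inter (c1 c2 : Nat) : Nat :=
  bq (Nat.ble (nat_lit 257) (Nat.add (Nat.div c1 (nat_lit 256)) (Nat.div c2 (nat_lit 256))))
    (bq (Nat.ble (Nat.div c2 (nat_lit 256)) (Nat.div c1 (nat_lit 256))) c2 c1)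
    (bq (Nat.ble (Nat.succ (Nat.mod (Nat.sub (Nat.add (Nat.mod c2 (nat_lit 256)) (nat_lit 256)) (Nat.mod c1 (nat_lit 256))) (nat_lit 256))) (Nat.div c1 (nat_lit 256)))
      (mk c2 (mn (Nat.sub (Nat.div c1 (nat_lit 256)) (Nat.mod (Nat.sub (Nat.add (Nat.mod c2 (nat_lit 256)) (nat_lit 256)) (Nat.mod c1 (nat_lit 256))) (nat_lit 256))) (Nat.div c2 (nat_lit 256))))
      (bq (Nat.ble (Nat.succ (Nat.mod (Nat.sub (Nat.add (Nat.mod c1 (nat_lit 256)) (nat_lit 256)) (Nat.mod c2 (nat_lit 256))) (nat_lit 256))) (Nat.div c2 (nat_lit 256)))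
        (mk c1 (mn (Nat.sub (Nat.div c2 (nat_lit 256)) (Nat.mod (Nat.sub (Nat.add (Nat.mod c1 (nat_lit 256)) (nat_lit 256)) (Nat.mod c2 (nat_lit 256))) (nat_lit 256))) (Nat.div c1 (nat_lit 256))))
        (nat_lit 0)))

/-- triangle table lookup -/
noncomputable def tlk (T i : Nat) : Nat :=
  Nat.mod (Nat.shiftRight T (Nat.mul (nat_lit 8) (Nat.mod i (nat_lit 64)))) (nat_lit 256)

/-- counterclockwise arc opposite to `c` in a triangle -/
noncomputable def upA (c : Nat) : Nat :=
  mk (Nat.add c (tlk TATAB c))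
    (Nat.sub (Nat.add (Nat.div c (nat_lit 256))
        (tlk TBTAB (Nat.add c (Nat.sub (Nat.div c (nat_lit 256)) (nat_lit 1)))))
      (Nat.succ (tlk TATAB c)))

/-- clockwise arc opposite to `c` in a triangle -/
noncomputable def dnA (c : Nat) : Nat :=
  mk (Nat.sub (Nat.add c (nat_lit 256)) (tlk TDTAB c))
    (Nat.sub (Nat.add (Nat.div c (nat_lit 256)) (tlk TDTAB c))
      (Nat.succ (tlk TCTAB (Nat.add c (Nat.sub (Nat.div c (nat_lit 256)) (nat_lit 1))))))

/-- data of a triangle: edges and signs -/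
structure TD where
  /-- first edge -/
  e1 : Nat
  /-- sign of the first edge -/
  s1 : Nat
  /-- second edge -/
  e2 : Nat
  /-- sign of the second edge -/
  s2 : Nat
  /-- third edge -/
  e3 : Nat
  /-- sign of the third edge -/
  s3 : Nat

/-- list lookup -/
noncomputable def nth (l : List TD) : Nat → TD :=
  List.rec (fun _ => ⟨nat_lit 0, nat_lit 0, nat_lit 0, nat_lit 0, nat_lit 0, nat_lit 0⟩)
    (fun a _ ih n => Nat.rec a (fun m _ => ih m) n) l

/-- one orientation of a triangle; `x` arc for edge 2, `y` arc for edge 3 -/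
noncomputable def tstep (σ e2 e3 x y : Nat) (k : Nat → Bool) : Bool :=
  bq (Nat.beq (inter (arcOf σ e2) x) (nat_lit 0)) true
    (bq (Nat.beq (inter (arcOf σ e3) y) (nat_lit 0)) true
      (k (setArc (setArc σ e2 (inter (arcOf σ e2) x)) e3 (inter (arcOf σ e3) y))))

/-- both orientations of a triangle -/
noncomputable def tboth (σ : Nat) (t : TD) (kl kr : Nat → Bool) : Bool :=
  bq (Nat.ble (Nat.div (arcOf σ t.e1) (nat_lit 256)) (nat_lit 64))
    (Bool.rec false
      (tstep σ t.e2 t.e3 (shA (dnA (shA (arcOf σ t.e1) t.s1)) t.s2)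
        (shA (upA (shA (arcOf σ t.e1) t.s1)) t.s3) kr)
      (tstep σ t.e2 t.e3 (shA (upA (shA (arcOf σ t.e1) t.s1)) t.s2)
        (shA (dnA (shA (arcOf σ t.e1) t.s1)) t.s3) kl)) false

/-- bisection of an arc -/
noncomputable def bstep (σ e p : Nat) (kl kr : Nat → Bool) : Bool :=
  Bool.rec false
    (Bool.rec false
      (kr (setArc σ e (mk p (Nat.sub (Nat.div (arcOf σ e) (nat_lit 256)) (Nat.mod (Nat.sub (Nat.add p (nat_lit 256)) (Nat.mod (arcOf σ e) (nat_lit 256))) (nat_lit 256))))))
      (kl (setArc σ e (mk (arcOf σ e) (Nat.mod (Nat.sub (Nat.add p (nat_lit 256)) (Nat.mod (arcOf σ e) (nat_lit 256))) (nat_lit 256))))))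
    (Nat.ble (Nat.mod (Nat.sub (Nat.add p (nat_lit 256)) (Nat.mod (arcOf σ e) (nat_lit 256))) (nat_lit 256)) (Nat.div (arcOf σ e) (nat_lit 256)))

/-- certificate trees -/
inductive Tr where
  /-- leaf with potentials -/
  | L (w h : Nat)
  /-- bisection -/
  | B (e p : Nat) (l r : Tr)
  /-- triangle rule -/
  | T (t : Nat) (l r : Tr)
  /-- unused branch -/
  | X
  /-- the state is accepted by the goal predicate -/
  | R

/-- the checker; `ne` number of edges, `nt` number of triangles -/
noncomputable def chk (es : List (Nat × Nat)) (ne : Nat) (ts : List TD) (nt : Nat)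
    (acc : Nat → Bool) (t : Tr) : Nat → Bool :=
  Tr.rec (fun w h σ => leafOK es σ w h)
    (fun e p _ _ kl kr σ => bq (Nat.ble (Nat.succ e) ne) (bstep σ e p kl kr) false)
    (fun n _ _ kl kr σ => bq (Nat.ble (Nat.succ n) nt) (tboth σ (nth ts n) kl kr) false)
    (fun _ => false)
    (fun σ => acc σ) t

end FD4632
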