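import Pool.Agent.FD4632.Grid

/-! The lower bound for the contribution of one edge. -/

set_option autoImplicit false

namespace FD4632

theorem U_mod (k : Nat) : U (k % 256) = U k := by
  have h : ∀ j, U j = (TAB >>> (22 * (j % 256))) % 4194304 := fun _ => rfl
  rw [h, h, Nat.mod_mod]

theorem V_eq (k : Nat) : V k = U (k + 192) := rfl

theorem V_mod (k : Nat) : V (k % 256) = V k := by
  rw [V_eq, V_eq, ← U_mod, ← U_mod (k + 192)]
  congr 1
  omega

theorem NU_mod (k : Nat) : NU (k % 512) = NU k := by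
  have h : ∀ j, NU j = (NTAB >>> (22 * (j % 512))) % 4194304 := fun _ => rfl
  rw [h, h, Nat.mod_mod]

theorem AF_mod (k : Nat) : AF (k % 256) = AF k := by
  have h : ∀ j, AF j = (ATAB >>> (41 * (j % 256))) % 2199023255552 := fun _ => rfl
  rw [h, h, Nat.mod_mod]

theorem BF_mod (k : Nat) : BF (k % 512) = BF k := by
  have h : ∀ j, BF j = (BTAB >>> (41 * (j % 512))) % 2199023255552 := fun _ => rfl
  rw [h, h, Nat.mod_mod]

theorem PX_eq (k : Nat) : PX k = (U k : Int) - 1048576 := Int.subNatNat_eq_coe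

theorem PY_eq (k : Nat) : PY k = (V k : Int) - 1048576 := Int.subNatNat_eq_coe

theorem NX_eq (k : Nat) : NX k = (NU k : Int) - 1048576 := Int.subNatNat_eq_coe

theorem NY_eq (k : Nat) : NY k = (NU (k + 384) : Int) - 1048576 := Int.subNatNat_eq_coe

theorem PX_mod (k : Nat) : PX (k % 256) = PX k := by rw [PX_eq, PX_eq, U_mod]

theorem PY_mod (k : Nat) : PY (k % 256) = PY k := by rw [PY_eq, PY_eq, V_mod]

theorem NX_mod (k : Nat) : NX (k % 512) = NX k := by rw [NX_eq, NX_eq, NU_mod]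

theorem NY_mod (k : Nat) : NY (k % 512) = NY k := by
  rw [NY_eq, NY_eq, ← NU_mod, ← NU_mod (k + 384)]
  congr 3
  omega

theorem PX_congr {j k : Nat} (h : j % 256 = k % 256) : PX j = PX k := by
  rw [← PX_mod, h, PX_mod]

theorem PY_congr {j k : Nat} (h : j % 256 = k % 256) : PY j = PY k := by
  rw [← PY_mod, h, PY_mod]

theorem NX_congr {j k : Nat} (h : j % 512 = k % 512) : NX j = NX k := by
  rw [← NX_mod, h, NX_mod]

theorem NY_congr {j k : Nat} (h : j % 512 = k % 512) : NY j = NY k := by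
  rw [← NY_mod, h, NY_mod]

theorem PY_eq_PX (k : Nat) : PY k = PX (k + 192) := by rw [PX_eq, PY_eq, V_eq]

theorem and_rec (a b : Bool) : (Bool.rec false b a : Bool) = (a && b) := by
  cases a <;> cases b <;> rfl

theorem ble_iff (x y : Nat) : Nat.ble x y = true ↔ x ≤ y := ⟨Nat.le_of_ble_eq_true, Nat.ble_eq.mpr⟩

theorem normP (k : Nat) : nrm ((PX k : ℝ) / 1048576) ((PY k : ℝ) / 1048576) ≤ 1 := by
  have key : ∀ k < 256, |(PX k : ℝ) / 1048576| ^ (9 / 5 : ℝ) ≤ (AF k : ℝ) / 1099511627776 := by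
    intro k hk
    have h := c1_all k hk
    unfold c1 at h
    rw [andb_eq, pcmp_eq, cmp_eq] at h
    have h1 := h.1
    have h2 : ((ad (U k) 1048576 : ℕ) : ℝ) ^ 9 * 1099511627776 ^ 5 ≤ (AF k : ℝ) ^ 5 * 1048576 ^ 9 := by
      exact_mod_cast h1
    have h3 : |(PX k : ℝ) / 1048576| = (ad (U k) 1048576 : ℕ) / 1048576 := by
      rw [ad_cast, PX_eq, abs_div]
      push_cast
      norm_num
    rw [h3]
    have h4 := rpow_le_of_pow_le (x := ((ad (U k) 1048576 : ℕ) : ℝ) / 1048576)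
      (y := (AF k : ℝ) / 1099511627776) (div_nonneg (Nat.cast_nonneg _) (by norm_num))
      (div_nonneg (Nat.cast_nonneg _) (by norm_num)) (a := 9) (b := 5)
      (by norm_num) (by
        rw [div_pow, div_pow, div_le_div_iff₀ (by norm_num) (by norm_num)]
        exact h2)
    have h5 : ((9 : ℕ) : ℝ) / ((5 : ℕ) : ℝ) = 9 / 5 := by norm_num
    rw [h5] at h4
    exact h4
  have hk : k % 256 < 256 := Nat.mod_lt _ (by norm_num)
  have h1 := key _ hk
  have h2 := key ((k + 192) % 256) (Nat.mod_lt _ (by norm_num))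
  rw [PX_mod, AF_mod] at h1 h2
  rw [← PY_eq_PX] at h2
  have h3 := c1_all _ hk
  unfold c1 at h3
  rw [andb_eq, pcmp_eq, cmp_eq] at h3
  have h4 : AF (k % 256) + AF (k % 256 + 192) ≤ 1099511627776 := h3.2
  have h5 : AF (k % 256 + 192) = AF (k + 192) := by
    rw [← AF_mod, ← AF_mod (k + 192)]
    congr 1
    omega
  rw [AF_mod, h5] at h4
  have h6 : (AF k : ℝ) + AF (k + 192) ≤ 1099511627776 := by exact_mod_cast h4
  apply nrm_le_one
  calc _ ≤ (AF k : ℝ) / 1099511627776 + (AF (k + 192) : ℝ) / 1099511627776 := add_le_add h1 h2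
    _ = ((AF k : ℝ) + AF (k + 192)) / 1099511627776 := by ring
    _ ≤ 1 := by rw [div_le_one (by norm_num)]; exact h6

theorem normN (k : Nat) : |(NX k : ℝ) / 1048576| ^ (9 / 4 : ℝ) + |(NY k : ℝ) / 1048576| ^ (9 / 4 : ℝ) ≤ 1 := by
  have key : ∀ k < 512, |(NX k : ℝ) / 1048576| ^ (9 / 4 : ℝ) ≤ (BF k : ℝ) / 1099511627776 := by
    intro k hk
    have h := c2_all k hk
    unfold c2 at h
    rw [andb_eq, pcmp_eq, cmp_eq] at h
    have h1 := h.1
    have h2 : ((ad (NU k) 1048576 : ℕ) : ℝ) ^ 9 * 1099511627776 ^ 4 ≤ (BF k : ℝ) ^ 4 * 1048576 ^ 9 := by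
      exact_mod_cast h1
    have h3 : |(NX k : ℝ) / 1048576| = (ad (NU k) 1048576 : ℕ) / 1048576 := by
      rw [ad_cast, NX_eq, abs_div]
      push_cast
      norm_num
    rw [h3]
    have h4 := rpow_le_of_pow_le (x := ((ad (NU k) 1048576 : ℕ) : ℝ) / 1048576)
      (y := (BF k : ℝ) / 1099511627776) (div_nonneg (Nat.cast_nonneg _) (by norm_num))
      (div_nonneg (Nat.cast_nonneg _) (by norm_num)) (a := 9) (b := 4)
      (by norm_num) (by
        rw [div_pow, div_pow, div_le_div_iff₀ (by norm_num) (by norm_num)]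
        exact h2)
    have h5 : ((9 : ℕ) : ℝ) / ((4 : ℕ) : ℝ) = 9 / 4 := by norm_num
    rw [h5] at h4
    exact h4
  have hk : k % 512 < 512 := Nat.mod_lt _ (by norm_num)
  have h1 := key _ hk
  have h2 := key ((k + 384) % 512) (Nat.mod_lt _ (by norm_num))
  rw [NX_mod, BF_mod] at h1 h2
  have h7 : NX (k + 384) = NY k := by rw [NX_eq, NY_eq]
  rw [h7] at h2
  have h3 := c2_all _ hk
  unfold c2 at h3
  rw [andb_eq, pcmp_eq, cmp_eq] at h3
  have h4 : BF (k % 512) + BF (k % 512 + 384) ≤ 1099511627776 := h3.2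
  have h5 : BF (k % 512 + 384) = BF (k + 384) := by
    rw [← BF_mod, ← BF_mod (k + 384)]
    congr 1
    omega
  rw [BF_mod, h5] at h4
  have h6 : (BF k : ℝ) + BF (k + 384) ≤ 1099511627776 := by exact_mod_cast h4
  calc _ ≤ (BF k : ℝ) / 1099511627776 + (BF (k + 384) : ℝ) / 1099511627776 := add_le_add h1 h2
    _ = ((BF k : ℝ) + BF (k + 384)) / 1099511627776 := by ring
    _ ≤ 1 := by rw [div_le_one (by norm_num)]; exact h6

theorem cross_pos (a d : Nat) (hd : 1 ≤ d) (hd' : d ≤ 16) :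
    0 < PX a * PY (a + d) - PY a * PX (a + d) := by
  have h := c4_all (a % 256) (Nat.mod_lt _ (by norm_num)) (d - 1) (by omega)
  have e : d - 1 + 1 = d := by omega
  rw [e, PX_mod, PY_mod, PX_congr (j := a % 256 + d) (k := a + d) (by omega),
    PY_congr (j := a % 256 + d) (k := a + d) (by omega)] at h
  exact h

theorem cross_nonneg (a k : Nat) (h1 : a ≤ k) (h2 : k ≤ a + 16) :
    0 ≤ PX a * PY k - PY a * PX k := by
  obtain ⟨d, rfl⟩ := Nat.exists_eq_add_of_le h1
  rcases Nat.eq_zero_or_pos d with rfl | hd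
  · simp only [Nat.add_zero]
    rw [mul_comm, sub_self]
  · exact (cross_pos a d hd (by omega)).le

theorem normal_ge (a d : Nat) (hd : 1 ≤ d) (hd' : d ≤ 16) :
    1152921504606846976 ≤ (NX (2 * a + d) * PX a + NY (2 * a + d) * PY a) * (OM d : Int) ∧
    1152921504606846976 ≤ (NX (2 * a + d) * PX (a + d) + NY (2 * a + d) * PY (a + d)) * (OM d : Int) := by
  have h := c3_all (a % 256) (Nat.mod_lt _ (by norm_num)) (d - 1) (by omega)
  have e : d - 1 + 1 = d := by omega
  rw [e, PX_mod, PY_mod, PX_congr (j := a % 256 + d) (k := a + d) (by omega),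
    PY_congr (j := a % 256 + d) (k := a + d) (by omega),
    NX_congr (j := 2 * (a % 256) + d) (k := 2 * a + d) (by omega),
    NY_congr (j := 2 * (a % 256) + d) (k := 2 * a + d) (by omega)] at h
  exact h

/-- the closed sector between the directions `k` and `k + 1` -/
def Sec (k : Nat) (x y : ℝ) : Prop :=
  0 ≤ (PX k : ℝ) * y - (PY k : ℝ) * x ∧ 0 ≤ x * (PY (k + 1) : ℝ) - y * (PX (k + 1) : ℝ)

theorem Sec_congr {j k : Nat} (h : j % 256 = k % 256) (x y : ℝ) : Sec j x y ↔ Sec k x y := by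
  unfold Sec
  rw [PX_congr h, PY_congr h, PX_congr (j := j + 1) (k := k + 1) (by omega),
    PY_congr (j := j + 1) (k := k + 1) (by omega)]

/-- writing a vector in the basis of two grid directions -/
theorem cone_repr (a d : Nat) (hd : 1 ≤ d) (hd' : d ≤ 16) (x y : ℝ)
    (h1 : 0 ≤ (PX a : ℝ) * y - (PY a : ℝ) * x)
    (h2 : 0 ≤ x * (PY (a + d) : ℝ) - y * (PX (a + d) : ℝ)) :
    ∃ α β : ℝ, 0 ≤ α ∧ 0 ≤ β ∧
      x = α * ((PX a : ℝ) / 1048576) + β * ((PX (a + d) : ℝ) / 1048576) ∧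
      y = α * ((PY a : ℝ) / 1048576) + β * ((PY (a + d) : ℝ) / 1048576) := by
  have hc : (0 : ℝ) < (PX a : ℝ) * PY (a + d) - PY a * PX (a + d) := by
    exact_mod_cast cross_pos a d hd hd'
  have key : ∀ u v Δ A B z : ℝ, 0 < Δ → u * A + v * B = z * Δ →
      z = (u / Δ * 1048576) * (A / 1048576) + (v / Δ * 1048576) * (B / 1048576) := by
    intro u v Δ A B z hΔ h
    have h3 : (u / Δ * 1048576) * (A / 1048576) + (v / Δ * 1048576) * (B / 1048576)
        = (u * A + v * B) / Δ := by ring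
    rw [h3, h, mul_div_assoc, div_self hΔ.ne', mul_one]
  refine ⟨(x * (PY (a + d) : ℝ) - y * (PX (a + d) : ℝ)) /
      ((PX a : ℝ) * PY (a + d) - PY a * PX (a + d)) * 1048576,
    ((PX a : ℝ) * y - (PY a : ℝ) * x) /
      ((PX a : ℝ) * PY (a + d) - PY a * PX (a + d)) * 1048576,
      mul_nonneg (div_nonneg h2 hc.le) (by norm_num),
      mul_nonneg (div_nonneg h1 hc.le) (by norm_num), ?_, ?_⟩
  · exact key _ _ _ _ _ _ hc (by ring)
  · exact key _ _ _ _ _ _ hc (by ring)

theorem sec_cone (k a b : Nat) (x y : ℝ) (hs : Sec k x y) (ha : a ≤ k) (hb : k < b)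
    (hab : b ≤ a + 16) :
    0 ≤ (PX a : ℝ) * y - (PY a : ℝ) * x ∧ 0 ≤ x * (PY b : ℝ) - y * (PX b : ℝ) := by
  obtain ⟨α, β, hα, hβ, hx, hy⟩ := cone_repr k 1 le_rfl (by norm_num) x y hs.1 hs.2
  have e1 : (0 : ℝ) ≤ (PX a : ℝ) * PY k - PY a * PX k := by
    exact_mod_cast cross_nonneg a k ha (by omega)
  have e2 : (0 : ℝ) ≤ (PX a : ℝ) * PY (k + 1) - PY a * PX (k + 1) := by
    exact_mod_cast cross_nonneg a (k + 1) (by omega) (by omega)
  have e3 : (0 : ℝ) ≤ (PX k : ℝ) * PY b - PY k * PX b := by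
    exact_mod_cast cross_nonneg k b (by omega) (by omega)
  have e4 : (0 : ℝ) ≤ (PX (k + 1) : ℝ) * PY b - PY (k + 1) * PX b := by
    exact_mod_cast cross_nonneg (k + 1) b (by omega) (by omega)
  constructor
  · have : (PX a : ℝ) * y - (PY a : ℝ) * x =
        (α * ((PX a : ℝ) * PY k - PY a * PX k) + β * ((PX a : ℝ) * PY (k + 1) - PY a * PX (k + 1)))
          / 1048576 := by
      rw [hx, hy]; ring
    rw [this]
    positivity
  · have : x * (PY b : ℝ) - y * (PX b : ℝ) =
        (α * ((PX k : ℝ) * PY b - PY k * PX b) + β * ((PX (k + 1) : ℝ) * PY b - PY (k + 1) * PX b))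
          / 1048576 := by
      rw [hx, hy]; ring
    rw [this]
    positivity

/-- lower bound for a linear functional on a piece of the annulus -/
theorem edge_lb (x y : ℝ) (k a b s : Nat) (hs : Sec k x y) (h1 : 1 ≤ nrm x y)
    (h2 : nrm x y ≤ 2293 / 2000) (ha : a ≤ k) (hb : k < b) (hab : b ≤ a + s)
    (hs16 : s ≤ 16) (p q t : Int) (hta : t ≤ p * PX a + q * PY a) (htb : t ≤ p * PX b + q * PY b) :
    (((if 0 ≤ t then t * 1048576 else t * (RW s : Int)) : Int) : ℝ) ≤
      1048576 * 1048576 * (p * x + q * y) := by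
  obtain ⟨d, rfl⟩ := Nat.exists_eq_add_of_le (show a ≤ b by omega)
  have hd : 1 ≤ d := by omega
  have hds : d ≤ s := by omega
  obtain ⟨g1, g2⟩ := sec_cone k a (a + d) x y hs ha hb (by omega)
  obtain ⟨α, β, hα, hβ, hx, hy⟩ := cone_repr a d hd (by omega) x y g1 g2
  have hab1 : 1 ≤ α + β := by
    calc 1 ≤ nrm x y := h1
      _ ≤ α + β := by
        rw [hx, hy]
        exact nrm_comb_le α β _ _ _ _ hα hβ (normP a) (normP (a + d))
  have hOM : (0 : ℝ) ≤ (OM d : ℝ) := Nat.cast_nonneg _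
  have hab2 : (α + β) * 1048576 ≤ 2293 / 2000 * (OM d : ℝ) := by
    have hH := holder_le _ _ x y (normN (2 * a + d))
    obtain ⟨n1, n2⟩ := normal_ge a d hd (by omega)
    have n1' : (1152921504606846976 : ℝ) ≤
        ((NX (2 * a + d) : ℝ) * PX a + NY (2 * a + d) * PY a) * (OM d : ℝ) := by
      exact_mod_cast n1
    have n2' : (1152921504606846976 : ℝ) ≤
        ((NX (2 * a + d) : ℝ) * PX (a + d) + NY (2 * a + d) * PY (a + d)) * (OM d : ℝ) := by
      exact_mod_cast n2
    have e1 : ((NX (2 * a + d) : ℝ) / 1048576 * x + (NY (2 * a + d) : ℝ) / 1048576 * y) * (OM d : ℝ)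
        = (α * (((NX (2 * a + d) : ℝ) * PX a + NY (2 * a + d) * PY a) * (OM d : ℝ))
          + β * (((NX (2 * a + d) : ℝ) * PX (a + d) + NY (2 * a + d) * PY (a + d)) * (OM d : ℝ)))
            / (1048576 * 1048576) := by
      rw [hx, hy]; ring
    have e2 : (α + β) * 1152921504606846976 / (1048576 * 1048576) ≤
        ((NX (2 * a + d) : ℝ) / 1048576 * x + (NY (2 * a + d) : ℝ) / 1048576 * y) * (OM d : ℝ) := by
      rw [e1]
      have : (α + β) * 1152921504606846976 ≤
        (α * (((NX (2 * a + d) : ℝ) * PX a + NY (2 * a + d) * PY a) * (OM d : ℝ))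
          + β * (((NX (2 * a + d) : ℝ) * PX (a + d) + NY (2 * a + d) * PY (a + d)) * (OM d : ℝ))) := by
        have h3 := mul_le_mul_of_nonneg_left n1' hα
        have h4 := mul_le_mul_of_nonneg_left n2' hβ
        linarith
      exact div_le_div_of_nonneg_right this (by positivity)
    have e3 : ((NX (2 * a + d) : ℝ) / 1048576 * x + (NY (2 * a + d) : ℝ) / 1048576 * y) * (OM d : ℝ)
        ≤ (2293 / 2000) * (OM d : ℝ) :=
      mul_le_mul_of_nonneg_right (hH.trans h2) hOM
    have e4 : (α + β) * 1152921504606846976 / (1048576 * 1048576) = (α + β) * 1048576 := by ring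
    rw [e4] at e2
    exact e2.trans e3
  have hRW : 2293 / 2000 * (OM d : ℝ) ≤ (RW s : ℝ) := by
    have h3 := c5_all s (by omega) d (by omega) hd hds
    have h4 : (2293 : ℝ) * (OM d : ℝ) ≤ 2000 * (RW s : ℝ) := by exact_mod_cast h3
    linarith
  have hdot : 1048576 * (p * x + q * y) =
      α * ((p : ℝ) * PX a + q * PY a) + β * ((p : ℝ) * PX (a + d) + q * PY (a + d)) := by
    rw [hx, hy]; ring
  have hta' : (t : ℝ) ≤ (p : ℝ) * PX a + q * PY a := by exact_mod_cast hta
  have htb' : (t : ℝ) ≤ (p : ℝ) * PX (a + d) + q * PY (a + d) := by exact_mod_cast htb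
  have hge : (α + β) * (t : ℝ) ≤ 1048576 * (p * x + q * y) := by
    rw [hdot]
    have h3 := mul_le_mul_of_nonneg_left hta' hα
    have h4 := mul_le_mul_of_nonneg_left htb' hβ
    linarith
  split_ifs with ht
  · have ht' : (0 : ℝ) ≤ t := by exact_mod_cast ht
    push_cast
    nlinarith
  · have ht' : (t : ℝ) < 0 := by exact_mod_cast not_le.mp ht
    push_cast
    nlinarith

end FD4632
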