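import Pool.Agent.FD4632.Core

/-! The graph: 13 vertices, 21 edges, ten vertices of degree three. -/

set_option autoImplicit false

namespace FD4632

/-- edges (tail, head) -/
def es : List (Nat × Nat) := [(nat_lit 0, nat_lit 10), (nat_lit 2, nat_lit 1), (nat_lit 1, nat_lit 0), (nat_lit 10, nat_lit 2), (nat_lit 11, nat_lit 10), (nat_lit 0, nat_lit 11), (nat_lit 3, nat_lit 4), (nat_lit 5, nat_lit 3), (nat_lit 7, nat_lit 6), (nat_lit 4, nat_lit 8), (nat_lit 6, nat_lit 5), (nat_lit 8, nat_lit 7), (nat_lit 3, nat_lit 11), (nat_lit 11, nat_lit 4), (nat_lit 5, nat_lit 10), (nat_lit 12, nat_lit 6), (nat_lit 7, nat_lit 12), (nat_lit 9, nat_lit 1), (nat_lit 2, nat_lit 12), (nat_lit 12, nat_lit 9), (nat_lit 9, nat_lit 8)]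

/-- triangles -/
def ts : List TD := [⟨nat_lit 0, nat_lit 0, nat_lit 2, nat_lit 1, nat_lit 5, nat_lit 0⟩,
  ⟨nat_lit 2, nat_lit 1, nat_lit 5, nat_lit 0, nat_lit 0, nat_lit 0⟩,
  ⟨nat_lit 5, nat_lit 0, nat_lit 0, nat_lit 0, nat_lit 2, nat_lit 1⟩,
  ⟨nat_lit 1, nat_lit 1, nat_lit 2, nat_lit 0, nat_lit 17, nat_lit 1⟩,
  ⟨nat_lit 2, nat_lit 0, nat_lit 17, nat_lit 1, nat_lit 1, nat_lit 1⟩,
  ⟨nat_lit 17, nat_lit 1, nat_lit 1, nat_lit 1, nat_lit 2, nat_lit 0⟩,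
  ⟨nat_lit 1, nat_lit 0, nat_lit 3, nat_lit 1, nat_lit 18, nat_lit 0⟩,
  ⟨nat_lit 3, nat_lit 1, nat_lit 18, nat_lit 0, nat_lit 1, nat_lit 0⟩,
  ⟨nat_lit 18, nat_lit 0, nat_lit 1, nat_lit 0, nat_lit 3, nat_lit 1⟩,
  ⟨nat_lit 6, nat_lit 0, nat_lit 7, nat_lit 1, nat_lit 12, nat_lit 0⟩,
  ⟨nat_lit 7, nat_lit 1, nat_lit 12, nat_lit 0, nat_lit 6, nat_lit 0⟩,
  ⟨nat_lit 12, nat_lit 0, nat_lit 6, nat_lit 0, nat_lit 7, nat_lit 1⟩,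
  ⟨nat_lit 6, nat_lit 1, nat_lit 9, nat_lit 0, nat_lit 13, nat_lit 1⟩,
  ⟨nat_lit 9, nat_lit 0, nat_lit 13, nat_lit 1, nat_lit 6, nat_lit 1⟩,
  ⟨nat_lit 13, nat_lit 1, nat_lit 6, nat_lit 1, nat_lit 9, nat_lit 0⟩,
  ⟨nat_lit 7, nat_lit 0, nat_lit 10, nat_lit 1, nat_lit 14, nat_lit 0⟩,
  ⟨nat_lit 10, nat_lit 1, nat_lit 14, nat_lit 0, nat_lit 7, nat_lit 0⟩,
  ⟨nat_lit 14, nat_lit 0, nat_lit 7, nat_lit 0, nat_lit 10, nat_lit 1⟩,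
  ⟨nat_lit 8, nat_lit 1, nat_lit 10, nat_lit 0, nat_lit 15, nat_lit 1⟩,
  ⟨nat_lit 10, nat_lit 0, nat_lit 15, nat_lit 1, nat_lit 8, nat_lit 1⟩,
  ⟨nat_lit 15, nat_lit 1, nat_lit 8, nat_lit 1, nat_lit 10, nat_lit 0⟩,
  ⟨nat_lit 8, nat_lit 0, nat_lit 11, nat_lit 1, nat_lit 16, nat_lit 0⟩,
  ⟨nat_lit 11, nat_lit 1, nat_lit 16, nat_lit 0, nat_lit 8, nat_lit 0⟩,
  ⟨nat_lit 16, nat_lit 0, nat_lit 8, nat_lit 0, nat_lit 11, nat_lit 1⟩,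
  ⟨nat_lit 9, nat_lit 1, nat_lit 11, nat_lit 0, nat_lit 20, nat_lit 1⟩,
  ⟨nat_lit 11, nat_lit 0, nat_lit 20, nat_lit 1, nat_lit 9, nat_lit 1⟩,
  ⟨nat_lit 20, nat_lit 1, nat_lit 9, nat_lit 1, nat_lit 11, nat_lit 0⟩,
  ⟨nat_lit 17, nat_lit 0, nat_lit 19, nat_lit 1, nat_lit 20, nat_lit 0⟩,
  ⟨nat_lit 19, nat_lit 1, nat_lit 20, nat_lit 0, nat_lit 17, nat_lit 0⟩,
  ⟨nat_lit 20, nat_lit 0, nat_lit 17, nat_lit 0, nat_lit 19, nat_lit 1⟩]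

/-- the state `s` is refuted by the tree `t` -/
def Ref (t : Tr) (s : Nat) : Prop :=
  chk es (nat_lit 21) ts (nat_lit 30) (fun _ => false) t s = true

end FD4632
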