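import Pool.Agent.FD4632.Arc
import Pool.Agent.FD4632.Tables2

/-! Facts on the grid of directions. -/

set_option autoImplicit false

namespace FD4632

/-- grid coordinates (integers, scale `2^20`) -/
noncomputable def PX (k : Nat) : Int := Int.subNatNat (U k) 1048576

/-- grid coordinates (integers, scale `2^20`) -/
noncomputable def PY (k : Nat) : Int := Int.subNatNat (V k) 1048576

/-- coded normals -/
noncomputable def NU (j : Nat) : Nat :=
  Nat.mod (Nat.shiftRight NTAB (Nat.mul (nat_lit 22) (Nat.mod j (nat_lit 512)))) (nat_lit 4194304)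

/-- normals -/
noncomputable def NX (j : Nat) : Int := Int.subNatNat (NU j) 1048576

/-- normals -/
noncomputable def NY (j : Nat) : Int := Int.subNatNat (NU (j + 384)) 1048576

/-- chord factors -/
noncomputable def OM (s : Nat) : Nat :=
  Nat.mod (Nat.shiftRight OMTAB (Nat.mul (nat_lit 22) s)) (nat_lit 4194304)

/-- certificate lookup -/
noncomputable def AF (k : Nat) : Nat :=
  Nat.mod (Nat.shiftRight ATAB (Nat.mul (nat_lit 41) (Nat.mod k (nat_lit 256)))) (nat_lit 2199023255552)

/-- certificate lookup -/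
noncomputable def BF (k : Nat) : Nat :=
  Nat.mod (Nat.shiftRight BTAB (Nat.mul (nat_lit 41) (Nat.mod k (nat_lit 512)))) (nat_lit 2199023255552)

/-- absolute difference -/
def ad (x y : Nat) : Nat := Nat.add (Nat.sub x y) (Nat.sub y x)

theorem ad_cast (x y : Nat) : (ad x y : ℝ) = |(x : ℝ) - y| := by
  have h : ad x y = (x - y) + (y - x) := rfl
  rw [h]
  rcases le_total x y with h1 | h1
  · have h2 : (x : ℝ) ≤ y := by exact_mod_cast h1
    rw [Nat.sub_eq_zero_of_le h1, Nat.zero_add, Nat.cast_sub h1, abs_sub_comm,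
      abs_of_nonneg (by linarith)]
  · have h2 : (y : ℝ) ≤ x := by exact_mod_cast h1
    rw [Nat.sub_eq_zero_of_le h1, Nat.add_zero, Nat.cast_sub h1,
      abs_of_nonneg (by linarith)]

/-- conjunction -/
def andb (a b : Bool) : Bool := Bool.rec false b a

theorem andb_eq (a b : Bool) : andb a b = true ↔ a = true ∧ b = true := by
  cases a <;> cases b <;> simp [andb]

/-- comparison of `x ^ 9 * s ^ e` with `y ^ e * m ^ 9` -/
def pcmp (x s e y m : Nat) : Bool :=
  Nat.ble (Nat.mul (Nat.pow x 9) (Nat.pow s e)) (Nat.mul (Nat.pow y e) (Nat.pow m 9))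

theorem pcmp_eq (x s e y m : Nat) : pcmp x s e y m = true ↔ x ^ 9 * s ^ e ≤ y ^ e * m ^ 9 :=
  ⟨Nat.le_of_ble_eq_true, Nat.ble_eq.mpr⟩

/-- comparison -/
def cmp (x y : Nat) : Bool := Nat.ble x y

theorem cmp_eq (x y : Nat) : cmp x y = true ↔ x ≤ y :=
  ⟨Nat.le_of_ble_eq_true, Nat.ble_eq.mpr⟩

/-- table check -/
noncomputable def c1 (k : Nat) : Bool :=
  andb (pcmp (ad (U k) 1048576) 1099511627776 5 (AF k) 1048576)
    (cmp (AF k + AF (k + 192)) 1099511627776)

theorem c1_all : ∀ k < 256, c1 k = true := by decide +kernel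

/-- table check -/
noncomputable def c2 (k : Nat) : Bool :=
  andb (pcmp (ad (NU k) 1048576) 1099511627776 4 (BF k) 1048576)
    (cmp (BF k + BF (k + 384)) 1099511627776)

theorem c2_all : ∀ k < 512, c2 k = true := by decide +kernel

theorem c3_all : ∀ a < 256, ∀ s < 16,
    1152921504606846976 ≤ (NX (2 * a + (s + 1)) * PX a + NY (2 * a + (s + 1)) * PY a) * (OM (s + 1) : Int) ∧
    1152921504606846976 ≤ (NX (2 * a + (s + 1)) * PX (a + (s + 1)) + NY (2 * a + (s + 1)) * PY (a + (s + 1))) * (OM (s + 1) : Int) := by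
  decide +kernel

theorem c4_all : ∀ a < 256, ∀ s < 16,
    0 < PX a * PY (a + (s + 1)) - PY a * PX (a + (s + 1)) := by
  decide +kernel

theorem c5_all : ∀ s < 17, ∀ d < 17, 1 ≤ d → d ≤ s → 2293 * OM d ≤ 2000 * RW s := by
  decide +kernel

theorem c6_all : ∀ k < 256, U k ≤ 2097152 := by decide +kernel

theorem c7_all : ∀ k < 256, PX (k + 64) = - PY k ∧ PY (k + 64) = PX k := by decide +kernel

end FD4632
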