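import Pool.Agent.FD4632.Norm

/-! Checking explicit flows on intervals of exponents. -/

set_option autoImplicit false

namespace FD4632

/-- four power certificates -/
structure C4 where
  /-- lower bound, first coordinate -/
  ax : Nat
  /-- lower bound, second coordinate -/
  ay : Nat
  /-- upper bound, first coordinate -/
  bx : Nat
  /-- upper bound, second coordinate -/
  by' : Nat

/-- an interval `[a1/1000, a2/1000]` with points in the plane and certificates -/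
structure Iv where
  /-- left end (times 1000) -/
  a1 : Nat
  /-- right end (times 1000) -/
  a2 : Nat
  /-- power of the bound -/
  R : Nat
  /-- points -/
  pos : List (Nat × Nat)
  /-- certificates -/
  cert : List C4

/-- edges of the dual graph -/
def eh : List (Nat × Nat) := [(0, 1), (0, 6), (0, 7), (0, 8), (1, 4), (1, 7), (2, 3), (2, 4), (2, 5),
  (2, 7), (2, 8), (2, 9), (3, 4), (3, 7), (4, 8), (5, 8), (5, 9), (6, 7), (6, 8), (6, 9), (7, 9)]

/-- absolute difference -/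
def adf (x y : Nat) : Nat := (x - y) + (y - x)

/-- comparison `x ^ a * s ^ b ≤ y ^ c * t ^ d` -/
def pw (x a s b y c t d : Nat) : Bool := Nat.ble (x ^ a * s ^ b) (y ^ c * t ^ d)

theorem pw_iff (x a s b y c t d : Nat) : pw x a s b y c t d = true ↔ x ^ a * s ^ b ≤ y ^ c * t ^ d :=
  ⟨Nat.le_of_ble_eq_true, Nat.ble_eq.mpr⟩

/-- comparison -/
def lq (x y : Nat) : Bool := Nat.ble x y

theorem lq_iff (x y : Nat) : lq x y = true ↔ x ≤ y :=
  ⟨Nat.le_of_ble_eq_true, Nat.ble_eq.mpr⟩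

/-- check one edge; `b` denominator of the exponents, `S` and `T` scales -/
def edgeOK (b S T a1 a2 R x y : Nat) (c : C4) : Bool :=
  (pw c.ax b S a2 x a2 T b && pw c.ay b S a2 y a2 T b) &&
  (lq T (c.ax + c.ay) && lq (c.bx + c.by') R) &&
  (pw x a1 T b c.bx b S a1 && pw y a1 T b c.by' b S a1)

/-- check all edges -/
def allOK (b S T : Nat) (v : Iv) : List (Nat × Nat) → List C4 → Bool
  | [], [] => true
  | e :: es, c :: cs => edgeOK b S T v.a1 v.a2 v.R
      (adf (v.pos.getD e.1 (0, 0)).1 (v.pos.getD e.2 (0, 0)).1)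
      (adf (v.pos.getD e.1 (0, 0)).2 (v.pos.getD e.2 (0, 0)).2) c && allOK b S T v es cs
  | _, _ => false

/-- check an interval -/
def ivOK (b S T : Nat) (v : Iv) : Bool :=
  (lq 1 v.a1 && pw v.R b 1250 v.a1 1433 v.a1 T b) && allOK b S T v eh v.cert

theorem adf_cast (x y : Nat) : (adf x y : ℝ) = |(x : ℝ) - y| := by
  unfold adf
  rcases le_total x y with h1 | h1
  · have h2 : (x : ℝ) ≤ y := by exact_mod_cast h1
    rw [Nat.sub_eq_zero_of_le h1, Nat.zero_add, Nat.cast_sub h1, abs_sub_comm,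
      abs_of_nonneg (by linarith)]
  · have h2 : (y : ℝ) ≤ x := by exact_mod_cast h1
    rw [Nat.sub_eq_zero_of_le h1, Nat.add_zero, Nat.cast_sub h1,
      abs_of_nonneg (by linarith)]

/-- the `ℓ_q` norm of the plane -/
noncomputable def Nq (q x y : ℝ) : ℝ := (|x| ^ q + |y| ^ q) ^ (1 / q)

theorem Nq_anti {q1 q2 : ℝ} (h1 : 0 < q1) (h : q1 ≤ q2) (x y : ℝ) : Nq q2 x y ≤ Nq q1 x y := by
  have h3 := NNReal.rpow_add_rpow_le (⟨|x|, abs_nonneg x⟩ : NNReal) ⟨|y|, abs_nonneg y⟩ h1 h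
  have h4 : (((⟨|x|, abs_nonneg x⟩ : NNReal) ^ q2 + (⟨|y|, abs_nonneg y⟩ : NNReal) ^ q2) ^ (1 / q2) : ℝ)
    ≤ ((⟨|x|, abs_nonneg x⟩ : NNReal) ^ q1 + (⟨|y|, abs_nonneg y⟩ : NNReal) ^ q1) ^ (1 / q1) := by
    exact_mod_cast h3
  exact h4

theorem edge_sound (b S T : Nat) (hb : 0 < b) (hS : 0 < S) (hT : 0 < T) (a1 a2 R x y : Nat) (c : C4)
    (h : edgeOK b S T a1 a2 R x y c = true) (ha1 : 1 ≤ a1)
    (h12 : a1 ≤ a2) (hR : R ^ b * 1250 ^ a1 ≤ 1433 ^ a1 * T ^ b) :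
    1 ≤ Nq ((a2 : ℝ) / b) ((x : ℝ) / S) ((y : ℝ) / S) ∧
      Nq ((a1 : ℝ) / b) ((x : ℝ) / S) ((y : ℝ) / S) ≤ 1433 / 1250 := by
  have hb' : (0 : ℝ) < b := by exact_mod_cast hb
  have hS' : (0 : ℝ) < S := by exact_mod_cast hS
  have hT' : (0 : ℝ) < T := by exact_mod_cast hT
  have hb0 : b ≠ 0 := hb.ne'
  unfold edgeOK at h
  simp only [Bool.and_eq_true, pw_iff, lq_iff] at h
  obtain ⟨⟨⟨h1, h2⟩, h3, h4⟩, h5, h6⟩ := h
  have ha1' : (0 : ℝ) < (a1 : ℝ) / b := by positivity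
  have ha2' : (0 : ℝ) < (a2 : ℝ) / b := by
    have : (0 : ℝ) < a2 := by exact_mod_cast (by omega : 0 < a2)
    positivity
  have lower : ∀ u A : Nat, A ^ b * S ^ a2 ≤ u ^ a2 * T ^ b →
      (A : ℝ) / T ≤ |(u : ℝ) / S| ^ ((a2 : ℝ) / b) := by
    intro u A hA
    have hA' : (A : ℝ) ^ b * S ^ a2 ≤ (u : ℝ) ^ a2 * T ^ b := by
      exact_mod_cast hA
    rw [abs_of_nonneg (div_nonneg (Nat.cast_nonneg u) hS'.le)]
    refine le_rpow_of_pow_le (div_nonneg (Nat.cast_nonneg u) hS'.le)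
      (div_nonneg (Nat.cast_nonneg A) hT'.le) hb0 ?_
    rw [div_pow, div_pow, div_le_div_iff₀ (pow_pos hT' _) (pow_pos hS' _)]
    exact hA'
  have upper : ∀ u B : Nat, u ^ a1 * T ^ b ≤ B ^ b * S ^ a1 →
      |(u : ℝ) / S| ^ ((a1 : ℝ) / b) ≤ (B : ℝ) / T := by
    intro u B hB
    have hB' : (u : ℝ) ^ a1 * T ^ b ≤ (B : ℝ) ^ b * S ^ a1 := by
      exact_mod_cast hB
    rw [abs_of_nonneg (div_nonneg (Nat.cast_nonneg u) hS'.le)]
    refine rpow_le_of_pow_le (div_nonneg (Nat.cast_nonneg u) hS'.le)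
      (div_nonneg (Nat.cast_nonneg B) hT'.le) hb0 ?_
    rw [div_pow, div_pow, div_le_div_iff₀ (pow_pos hS' _) (pow_pos hT' _)]
    exact hB'
  constructor
  · have g1 := lower x c.ax h1
    have g2 := lower y c.ay h2
    have g3 : (T : ℝ) ≤ (c.ax : ℝ) + c.ay := by exact_mod_cast h3
    have g4 : 1 ≤ |(x : ℝ) / S| ^ ((a2 : ℝ) / b)
        + |(y : ℝ) / S| ^ ((a2 : ℝ) / b) := by
      have : (1 : ℝ) ≤ (c.ax : ℝ) / T + (c.ay : ℝ) / T := by
        rw [← add_div, le_div_iff₀ hT']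
        linarith
      linarith
    unfold Nq
    exact Real.one_le_rpow g4 (by positivity)
  · have g1 := upper x c.bx h5
    have g2 := upper y c.by' h6
    have g3 : (c.bx : ℝ) + c.by' ≤ R := by exact_mod_cast h4
    have g4 : (R : ℝ) / T ≤ (1433 / 1250 : ℝ) ^ ((a1 : ℝ) / b) := by
      have hR' : (R : ℝ) ^ b * 1250 ^ a1 ≤ 1433 ^ a1 * T ^ b := by
        exact_mod_cast hR
      refine le_rpow_of_pow_le (by norm_num)
        (div_nonneg (Nat.cast_nonneg R) hT'.le) hb0 ?_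
      rw [div_pow, div_pow, div_le_div_iff₀ (pow_pos hT' _) (pow_pos (by norm_num) _)]
      exact hR'
    have g5 : |(x : ℝ) / S| ^ ((a1 : ℝ) / b)
        + |(y : ℝ) / S| ^ ((a1 : ℝ) / b) ≤ (1433 / 1250 : ℝ) ^ ((a1 : ℝ) / b) := by
      have : (c.bx : ℝ) / T + (c.by' : ℝ) / T ≤ (R : ℝ) / T := by
        rw [← add_div]
        exact div_le_div_of_nonneg_right g3 hT'.le
      linarith
    unfold Nq
    calc _ ≤ ((1433 / 1250 : ℝ) ^ ((a1 : ℝ) / b)) ^ (1 / ((a1 : ℝ) / b)) :=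
          Real.rpow_le_rpow (by positivity) g5 (by positivity)
      _ = 1433 / 1250 := by
          rw [← Real.rpow_mul (by norm_num), mul_one_div_cancel ha1'.ne', Real.rpow_one]

/-- coordinate of a point -/
noncomputable def cX (S : Nat) (v : Iv) (k : Nat) : ℝ := ((v.pos.getD k (0, 0)).1 : ℝ) / S

/-- coordinate of a point -/
noncomputable def cY (S : Nat) (v : Iv) (k : Nat) : ℝ := ((v.pos.getD k (0, 0)).2 : ℝ) / S

theorem allOK_sound (b S T : Nat) (hb : 0 < b) (hS : 0 < S) (hT : 0 < T) (v : Iv) (ha1 : 1 ≤ v.a1) (h12 : v.a1 ≤ v.a2)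
    (hR : v.R ^ b * 1250 ^ v.a1 ≤ 1433 ^ v.a1 * T ^ b) :
    ∀ (es : List (Nat × Nat)) (cs : List C4), allOK b S T v es cs = true → ∀ e ∈ es,
      1 ≤ Nq ((v.a2 : ℝ) / b) (cX S v e.1 - cX S v e.2) (cY S v e.1 - cY S v e.2) ∧
      Nq ((v.a1 : ℝ) / b) (cX S v e.1 - cX S v e.2) (cY S v e.1 - cY S v e.2) ≤ 1433 / 1250 := by
  intro es
  induction es with
  | nil => intro cs _ e he; exact absurd he (by simp)
  | cons e0 es ih =>
    intro cs h e he
    cases cs with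
    | nil => exact absurd h (by simp [allOK])
    | cons c cs =>
      unfold allOK at h
      rw [Bool.and_eq_true] at h
      rcases List.mem_cons.mp he with rfl | he'
      · have h1 := edge_sound b S T hb hS hT _ _ _ _ _ c h.1 ha1 h12 hR
        have key : ∀ u w : Nat, |((adf u w : Nat) : ℝ) / S| = |(u : ℝ) / S - (w : ℝ) / S| := by
          intro u w
          rw [adf_cast, ← sub_div, abs_div, abs_div, abs_abs]
        unfold Nq at h1 ⊢
        rw [key, key] at h1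
        exact h1
      · exact ih cs h.2 e he'

theorem iv_sound (b S T : Nat) (hb : 0 < b) (hS : 0 < S) (hT : 0 < T) (v : Iv) (h : ivOK b S T v = true) (q : ℝ) (h1 : (v.a1 : ℝ) ≤ b * q)
    (h2 : b * q ≤ v.a2) : ∀ e ∈ eh,
      1 ≤ Nq q (cX S v e.1 - cX S v e.2) (cY S v e.1 - cY S v e.2) ∧
      Nq q (cX S v e.1 - cX S v e.2) (cY S v e.1 - cY S v e.2) ≤ 1433 / 1250 := by
  unfold ivOK at h
  rw [Bool.and_eq_true, Bool.and_eq_true, lq_iff, pw_iff] at h
  obtain ⟨⟨ha, hR⟩, hall⟩ := h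
  intro e he
  have h12 : v.a1 ≤ v.a2 := by exact_mod_cast h1.trans h2
  obtain ⟨g1, g2⟩ := allOK_sound b S T hb hS hT v ha h12 hR eh v.cert hall e he
  have hb' : (0 : ℝ) < b := by exact_mod_cast hb
  have ha' : (0 : ℝ) < (v.a1 : ℝ) := by exact_mod_cast ha
  have q1 : (v.a1 : ℝ) / b ≤ q := by
    rw [div_le_iff₀ hb']
    linarith
  have q2 : q ≤ (v.a2 : ℝ) / b := by
    rw [le_div_iff₀ hb']
    linarith
  have q0 : (0 : ℝ) < (v.a1 : ℝ) / b := by positivity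
  exact ⟨g1.trans (Nq_anti (by linarith) q2 _ _), (Nq_anti q0 q1 _ _).trans g2⟩

end FD4632
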