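import Pool.Agent.FD4632.IvCore

/-! Explicit flows for `q` between `2` and `5.1`, generated. -/

set_option autoImplicit false
set_option maxRecDepth 100000

namespace FD4632

/-- data -/
def iv0 : Iv := ⟨nat_lit 2000, nat_lit 2009, nat_lit 1411146894,
  [(nat_lit 1602614, nat_lit 1820780), (nat_lit 910346, nat_lit 1030980), (nat_lit 1140864, nat_lit 1200647), (nat_lit 182627, nat_lit 772112), (nat_lit 1103868, nat_lit 0), (nat_lit 1003738, nat_lit 160809), (nat_lit 1042978, nat_lit 932303), (nat_lit 407874, nat_lit 1952835), (nat_lit 2071008, nat_lit 713780), (nat_lit 0, nat_lit 822135)],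
  [⟨nat_lit 466257280, nat_lit 607612300, nat_lit 468002914, nat_lit 609164102⟩, ⟨nat_lit 304128473, nat_lit 769741389, nat_lit 305852005, nat_lit 770890020⟩, ⟨nat_lit 1395586992, nat_lit 16715183, nat_lit 1393948895, nat_lit 17029808⟩, ⟨nat_lit 212702597, nat_lit 1197311667, nat_lit 214250918, nat_lit 1196727540⟩, ⟨nat_lit 36021011, nat_lit 1037849492, nat_lit 36573013, nat_lit 1038007579⟩, ⟨nat_lit 244933609, nat_lit 828937598, nat_lit 246560656, nat_lit 829899064⟩, ⟨nat_lit 895970628, nat_lit 177899659, nat_lit 896697411, nat_lit 179338132⟩, ⟨nat_lit 1296992, nat_lit 1409483714, nat_lit 1336626, nat_lit 1407766816⟩, ⟨nat_lit 18029693, nat_lit 1055841441, nat_lit 18362832, nat_lit 1055920964⟩, ⟨nat_lit 522993903, nat_lit 550876673, nat_lit 524681973, nat_lit 552526160⟩, ⟨nat_lit 843979647, nat_lit 229891024, nat_lit 844890490, nat_lit 231483863⟩, ⟨nat_lit 1272030431, nat_lit 138636206, nat_lit 1271065105, nat_lit 139913413⟩, ⟨nat_lit 827828777, nat_lit 580583075,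 nat_lit 828793926, nat_lit 582184513⟩, ⟨nat_lit 48865979, nat_lit 1362887545, nat_lit 49547082, nat_lit 1361432425⟩, ⟨nat_lit 912772904, nat_lit 495821635, nat_lit 913437285, nat_lit 497540907⟩, ⟨nat_lit 1112545334, nat_lit 296895542, nat_lit 1112368412, nat_lit 298610281⟩, ⟨nat_lit 983490025, nat_lit 425333489, nat_lit 983876927, nat_lit 427101639⟩, ⟨nat_lit 392129886, nat_lit 1016827628, nat_lit 393903409, nat_lit 1017075746⟩, ⟨nat_lit 1031892065, nat_lit 45979519, nat_lit 1032075861, nat_lit 46633107⟩, ⟨nat_lit 1062256545, nat_lit 11614595, nat_lit 1062307724, nat_lit 11852528⟩, ⟨nat_lit 161087344, nat_lit 1249365631, nat_lit 162462110, nat_lit 1248518057⟩]⟩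

theorem iv0_ok : ivOK (nat_lit 1000) (nat_lit 1048576) (nat_lit 1073741824) iv0 = true := by decide +kernel

/-- data -/
def iv1 : Iv := ⟨nat_lit 2009, nat_lit 2018, nat_lit 1412883163,
  [(nat_lit 1812484, nat_lit 1620962), (nat_lit 1034240, nat_lit 913396), (nat_lit 1199952, nat_lit 1148566), (nat_lit 789919, nat_lit 181308), (nat_lit 0, nat_lit 1089843), (nat_lit 162446, nat_lit 993191), (nat_lit 932888, nat_lit 1044896), (nat_lit 1966759, nat_lit 428604), (nat_lit 696836, nat_lit 2071438), (nat_lit 842599, nat_lit 0)],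
  [⟨nat_lit 588302767, nat_lit 485466159, nat_lit 589883500, nat_lit 487187862⟩, ⟨nat_lit 753169690, nat_lit 320599050, nat_lit 754361795, nat_lit 322331970⟩, ⟨nat_lit 22454825, nat_lit 1391611166, nat_lit 22845487, nat_lit 1390002701⟩, ⟨nat_lit 1216855800, nat_lit 195181499, nat_lit 1216176960, nat_lit 196671308⟩, ⟨nat_lit 1044323593, nat_lit 29444003, nat_lit 1044452989, nat_lit 29920079⟩, ⟨nat_lit 847419516, nat_lit 226349808, nat_lit 848314601, nat_lit 227926873⟩, ⟨nat_lit 161434965, nat_lit 912333595, nat_lit 162804962, nat_lit 912996654⟩, ⟨nat_lit 1409554727, nat_lit 3197306, nat_lit 1407845079, nat_lit 3281334⟩, ⟨nat_lit 1050989337, nat_lit 22779090, nat_lit 1051089733, nat_lit 23173913⟩, ⟨nat_lit 570986357, nat_lit 502782284, nat_lit 572596853, nat_lit 504486536⟩, ⟨nat_lit 243947026, nat_lit 829821591, nat_lit 245564688, nat_lit 830775838⟩, ⟨nat_lit 122315040, nat_lit 1290398841, nat_lit 123505810, nat_lit 1289341496⟩, ⟨nat_lit 606248743, nat_lit 804012350,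 nat_lit 607796238, nat_lit 805050352⟩, ⟨nat_lit 1355304877, nat_lit 58189059, nat_lit 1353897991, nat_lit 58950540⟩, ⟨nat_lit 470724446, nat_lit 939828697, nat_lit 472458839, nat_lit 940387203⟩, ⟨nat_lit 275516326, nat_lit 1135938163, nat_lit 277192844, nat_lit 1135652930⟩, ⟨nat_lit 448259394, nat_lit 962368469, nat_lit 450009146, nat_lit 962838595⟩, ⟨nat_lit 1043571827, nat_lit 367382498, nat_lit 1043704482, nat_lit 369143975⟩, ⟨nat_lit 52973510, nat_lit 1028696995, nat_lit 53689219, nat_lit 1028893635⟩, ⟨nat_lit 7617287, nat_lit 1066150938, nat_lit 7787267, nat_lit 1066184674⟩, ⟨nat_lit 1235664038, nat_lit 176530071, nat_lit 1234890227, nat_lit 177957211⟩]⟩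

theorem iv1_ok : ivOK (nat_lit 1000) (nat_lit 1048576) (nat_lit 1073741824) iv1 = true := by decide +kernel

/-- data -/
def iv2 : Iv := ⟨nat_lit 2018, nat_lit 2026, nat_lit 1414621569,
  [(nat_lit 1810348, nat_lit 1627119), (nat_lit 1035249, nat_lit 913992), (nat_lit 1199732, nat_lit 1151538), (nat_lit 796445, nat_lit 180566), (nat_lit 0, nat_lit 1085823), (nat_lit 162800, nat_lit 990700), (nat_lit 932844, nat_lit 1045533), (nat_lit 1972158, nat_lit 435512), (nat_lit 691758, nat_lit 2073048), (nat_lit 849539, nat_lit 0)],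
  [⟨nat_lit 582106012, nat_lit 491677736, nat_lit 583515004, nat_lit 493196526⟩, ⟨nat_lit 748491946, nat_lit 325291185, nat_lit 749559200, nat_lit 326828698⟩, ⟨nat_lit 24356187, nat_lit 1391265437, nat_lit 24723051, nat_lit 1389842960⟩, ⟨nat_lit 1223972766, nat_lit 189922661, nat_lit 1223340030, nat_lit 191226230⟩, ⟨nat_lit 1046273559, nat_lit 27509336, nat_lit 1046380629, nat_lit 27910275⟩, ⟨nat_lit 854719082, nat_lit 219062723, nat_lit 855489375, nat_lit 220442015⟩, ⟨nat_lit 154931191, nat_lit 918851296, nat_lit 156120074, nat_lit 919416680⟩, ⟨nat_lit 1410552066, nat_lit 3924214, nat_lit 1409033268, nat_lit 4012142⟩, ⟨nat_lit 1049722502, nat_lit 24060678, nat_lit 1049816283, nat_lit 24424269⟩, ⟨nat_lit 578046122, nat_lit 495735681, nat_lit 579461300, nat_lit 497250867⟩, ⟨nat_lit 247285864, nat_lit 826497514, nat_lit 248723809, nat_lit 827352057⟩, ⟨nat_lit 116394205, nat_lit 1298118169, nat_lit 117419899, nat_lit 1297145824⟩, ⟨nat_lit 615043844, nat_lit 797231221,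 nat_lit 616398580, nat_lit 798169122⟩, ⟨nat_lit 1353925975, nat_lit 61182681, nat_lit 1352686979, nat_lit 61878777⟩, ⟨nat_lit 462286951, nat_lit 950279925, nat_lit 463827828, nat_lit 950738378⟩, ⟨nat_lit 268420558, nat_lit 1144963978, nat_lit 269893986, nat_lit 1144673655⟩, ⟨nat_lit 455516857, nat_lit 957069040, nat_lit 457061794, nat_lit 957503853⟩, ⟨nat_lit 1054613719, nat_lit 358321594, nat_lit 1054688576, nat_lit 359877772⟩, ⟨nat_lit 54631723, nat_lit 1030498298, nat_lit 55278001, nat_lit 1030665582⟩, ⟨nat_lit 6345181, nat_lit 1067438141, nat_lit 6475055, nat_lit 1067462960⟩, ⟨nat_lit 1232921040, nat_lit 181041734, nat_lit 1232248235, nat_lit 182318820⟩]⟩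

theorem iv2_ok : ivOK (nat_lit 1000) (nat_lit 1048576) (nat_lit 1073741824) iv2 = true := by decide +kernel

/-- data -/
def iv3 : Iv := ⟨nat_lit 2026, nat_lit 2033, nat_lit 1416168613,
  [(nat_lit 444804, nat_lit 1809854), (nat_lit 1160792, nat_lit 1035692), (nat_lit 921613, nat_lit 1199677), (nat_lit 1894770, nat_lit 799822), (nat_lit 990348, nat_lit 0), (nat_lit 1084542, nat_lit 162847), (nat_lit 1028957, nat_lit 932705), (nat_lit 1636146, nat_lit 1975179), (nat_lit 0, nat_lit 689843), (nat_lit 2074811, nat_lit 852806)],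
  [⟨nat_lit 494360340, nat_lit 579449239, nat_lit 495682381, nat_lit 580681211⟩, ⟨nat_lit 326865321, nat_lit 746944635, nat_lit 328206638, nat_lit 747878587⟩, ⟨nat_lit 1391881795, nat_lit 25113224, nat_lit 1390638662, nat_lit 25440071⟩, ⟨nat_lit 187822311, nat_lit 1227691242, nat_lit 188953178, nat_lit 1227124993⟩, ⟨nat_lit 26719349, nat_lit 1047090212, nat_lit 27061322, nat_lit 1047180835⟩, ⟨nat_lit 214979039, nat_lit 858829970, nat_lit 216172875, nat_lit 859490649⟩, ⟨nat_lit 922563151, nat_lit 151247460, nat_lit 923045317, nat_lit 152271622⟩, ⟨nat_lit 4216994, nat_lit 1411750774, nat_lit 4298204, nat_lit 1410421059⟩, ⟨nat_lit 24378836, nat_lit 1049430555, nat_lit 24698649, nat_lit 1049513312⟩, ⟨nat_lit 492320096, nat_lit 581490102, nat_lit 493643710, nat_lit 582719359⟩, ⟨nat_lit 825938164, nat_lit 247869439, nat_lit 826684688, nat_lit 249123780⟩, ⟨nat_lit 1302779257, nat_lit 113287443, nat_lit 1301912233, nat_lit 114168107⟩, ⟨nat_lit 794918728, nat_lit 619164029,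 nat_lit 795742091, nat_lit 620338827⟩, ⟨nat_lit 62370031, nat_lit 1354177039, nat_lit 62984181, nat_lit 1353095522⟩, ⟨nat_lit 955997820, nat_lit 458352419, nat_lit 956380224, nat_lit 459697854⟩, ⟨nat_lit 1149942504, nat_lit 265127346, nat_lit 1149671067, nat_lit 266407271⟩, ⟨nat_lit 955842790, nat_lit 458509124, nat_lit 956225666, nat_lit 459854478⟩, ⟨nat_lit 353604452, nat_lit 1061076908, nat_lit 354959381, nat_lit 1061120259⟩, ⟨nat_lit 1033293760, nat_lit 54885325, nat_lit 1033430383, nat_lit 55450176⟩, ⟨nat_lit 1068082783, nat_lit 5726467, nat_lit 1068102218, nat_lit 5830600⟩, ⟨nat_lit 182589838, nat_lit 1232960591, nat_lit 183707071, nat_lit 1232373737⟩]⟩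

theorem iv3_ok : ivOK (nat_lit 1000) (nat_lit 1048576) (nat_lit 1073741824) iv3 = true := by decide +kernel

/-- data -/
def iv4 : Iv := ⟨nat_lit 2033, nat_lit 2039, nat_lit 1417523665,
  [(nat_lit 444739, nat_lit 167371), (nat_lit 1162553, nat_lit 941306), (nat_lit 922115, nat_lit 777571), (nat_lit 1896817, nat_lit 1175249), (nat_lit 992469, nat_lit 1977249), (nat_lit 1085992, nat_lit 1814446), (nat_lit 1030379, nat_lit 1044687), (nat_lit 1635977, nat_lit 0), (nat_lit 0, nat_lit 1288246), (nat_lit 2076443, nat_lit 1122510)],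
  [⟨nat_lit 495798217, nat_lit 578049588, nat_lit 496926879, nat_lit 579103873⟩, ⟨nat_lit 327412841, nat_lit 746434720, nat_lit 328559119, nat_lit 747233779⟩, ⟨nat_lit 1392700294, nat_lit 25467164, nat_lit 1391634785, nat_lit 25749104⟩, ⟨nat_lit 186802713, nat_lit 1230109414, nat_lit 187766517, nat_lit 1229617397⟩, ⟨nat_lit 26315973, nat_lit 1047529990, nat_lit 26604743, nat_lit 1047606176⟩, ⟨nat_lit 212193437, nat_lit 861655774, nat_lit 213208270, nat_lit 862213895⟩, ⟨nat_lit 925137666, nat_lit 148710457, nat_lit 925543280, nat_lit 149578069⟩, ⟨nat_lit 4350292, nat_lit 1412893929, nat_lit 4421386, nat_lit 1411753167⟩, ⟨nat_lit 24394889, nat_lit 1049452492, nat_lit 24668081, nat_lit 1049523155⟩, ⟨nat_lit 490248340, nat_lit 583600450, nat_lit 491380645, nat_lit 584648417⟩, ⟨nat_lit 826215690, nat_lit 247630127, nat_lit 826853041, nat_lit 248701391⟩, ⟨nat_lit 1306128624, nat_lit 111263622, nat_lit 1305375843, nat_lit 112008336⟩, ⟨nat_lit 794081173, nat_lit 621595960,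 nat_lit 794786507, nat_lit 622596589⟩, ⟨nat_lit 62933751, nat_lit 1354850865, nat_lit 63461302, nat_lit 1353924083⟩, ⟨nat_lit 959848097, nat_lit 456067889, nat_lit 960164857, nat_lit 457218473⟩, ⟨nat_lit 1153312866, nat_lit 263222625, nat_lit 1153070276, nat_lit 264313845⟩, ⟨nat_lit 955872842, nat_lit 460035208, nat_lit 956199968, nat_lit 461184046⟩, ⟨nat_lit 350566735, nat_lit 1065637485, nat_lit 351723347, nat_lit 1065661244⟩, ⟨nat_lit 1036090108, nat_lit 54724597, nat_lit 1036198943, nat_lit 55206035⟩, ⟨nat_lit 1068503455, nat_lit 5343991, nat_lit 1068518833, nat_lit 5428037⟩, ⟨nat_lit 183161423, nat_lit 1233770842, nat_lit 184117105, nat_lit 1233266575⟩]⟩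

theorem iv4_ok : ivOK (nat_lit 1000) (nat_lit 1048576) (nat_lit 1073741824) iv4 = true := by decide +kernel

/-- data -/
def iv5 : Iv := ⟨nat_lit 2039, nat_lit 2045, nat_lit 1418686170,
  [(nat_lit 445830, nat_lit 1810434), (nat_lit 1164568, nat_lit 1035968), (nat_lit 923093, nat_lit 1199729), (nat_lit 1898796, nat_lit 803027), (nat_lit 993705, nat_lit 0), (nat_lit 1086814, nat_lit 162698), (nat_lit 1031995, nat_lit 932383), (nat_lit 1637176, nat_lit 1978473), (nat_lit 0, nat_lit 689208), (nat_lit 2078129, nat_lit 855389)],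
  [⟨nat_lit 495975173, nat_lit 577807089, nat_lit 497100402, nat_lit 578858549⟩, ⟨nat_lit 326868980, nat_lit 746914549, nat_lit 328011590, nat_lit 747710364⟩, ⟨nat_lit 1394025041, nat_lit 25394325, nat_lit 1392957761, nat_lit 25674845⟩, ⟨nat_lit 186777364, nat_lit 1231389821, nat_lit 187738277, nat_lit 1230894979⟩, ⟨nat_lit 26274730, nat_lit 1047505504, nat_lit 26562319, nat_lit 1047581537⟩, ⟨nat_lit 210439728, nat_lit 863342534, nat_lit 211448363, nat_lit 863895149⟩, ⟨nat_lit 926675373, nat_lit 147106792, nat_lit 927075952, nat_lit 147967229⟩, ⟨nat_lit 4312504, nat_lit 1414158547, nat_lit 4382884, nat_lit 1413016404⟩, ⟨nat_lit 24077784, nat_lit 1049704728, nat_lit 24347563, nat_lit 1049774460⟩, ⟨nat_lit 489428355, nat_lit 584352944, nat_lit 490557855, nat_lit 585396967⟩, ⟨nat_lit 827370454, nat_lit 246411448, nat_lit 828003429, nat_lit 247477888⟩, ⟨nat_lit 1308521571, nat_lit 110131723, nat_lit 1307762600, nat_lit 110870016⟩, ⟨nat_lit 794710024, nat_lit 622223199,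 nat_lit 795411998, nat_lit 623220052⟩, ⟨nat_lit 62792839, nat_lit 1356243072, nat_lit 63318075, nat_lit 1355313975⟩, ⟨nat_lit 961976767, nat_lit 455197041, nat_lit 962287044, nat_lit 456344614⟩, ⟨nat_lit 1155341785, nat_lit 262451822, nat_lit 1155093524, nat_lit 263538915⟩, ⟨nat_lit 957251219, nat_lit 459913774, nat_lit 957573806, nat_lit 461059292⟩, ⟨nat_lit 348922081, nat_lit 1068542389, nat_lit 350074714, nat_lit 1068557608⟩, ⟨nat_lit 1039306695, nat_lit 54072599, nat_lit 1039406096, nat_lit 54548817⟩, ⟨nat_lit 1068634303, nat_lit 5147275, nat_lit 1068649253, nat_lit 5228562⟩, ⟨nat_lit 182622929, nat_lit 1235566367, nat_lit 183574583, nat_lit 1235057577⟩]⟩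

theorem iv5_ok : ivOK (nat_lit 1000) (nat_lit 1048576) (nat_lit 1073741824) iv5 = true := by decide +kernel

/-- data -/
def iv6 : Iv := ⟨nat_lit 2045, nat_lit 2050, nat_lit 1419849629,
  [(nat_lit 1810745, nat_lit 1633226), (nat_lit 1036106, nat_lit 913358), (nat_lit 1199762, nat_lit 1155795), (nat_lit 804404, nat_lit 179007), (nat_lit 0, nat_lit 1084439), (nat_lit 162610, nat_lit 991812), (nat_lit 932256, nat_lit 1046274), (nat_lit 1979880, nat_lit 441892), (nat_lit 689017, nat_lit 2079564), (nat_lit 856466, nat_lit 0)],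
  [⟨nat_lit 577196557, nat_lit 496636263, nat_lit 578071070, nat_lit 497571118⟩, ⟨nat_lit 747015339, nat_lit 326817535, nat_lit 747676685, nat_lit 327767084⟩, ⟨nat_lit 25500500, nat_lit 1394886263, nat_lit 25734192, nat_lit 1393996327⟩, ⟨nat_lit 1232933199, nat_lit 186415047, nat_lit 1232517541, nat_lit 187212847⟩, ⟨nat_lit 1047728202, nat_lit 26105601, nat_lit 1047790878, nat_lit 26343331⟩, ⟨nat_lit 865265655, nat_lit 208565909, nat_lit 865721345, nat_lit 209401155⟩, ⟨nat_lit 145378651, nat_lit 928454647, nat_lit 146089393, nat_lit 928783931⟩, ⟨nat_lit 1415190836, nat_lit 4347129, nat_lit 1414238096, nat_lit 4405939⟩, ⟨nat_lit 1049897705, nat_lit 23933578, nat_lit 1049955213, nat_lit 24156647⟩, ⟨nat_lit 585596752, nat_lit 488236700, nat_lit 586463325, nat_lit 489176095⟩, ⟨nat_lit 245747156, nat_lit 828085127, nat_lit 246632600, nat_lit 828609995⟩, ⟨nat_lit 108840611, nat_lit 1310918556, nat_lit 109449966, nat_lit 1310280587⟩, ⟨nat_lit 623580034, nat_lit 794738986,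 nat_lit 624407097, nat_lit 795322445⟩, ⟨nat_lit 1357088808, nat_lit 62978157, nat_lit 1356313860, nat_lit 63415311⟩, ⟨nat_lit 453984911, nat_lit 964537691, nat_lit 454939106, nat_lit 964790048⟩, ⟨nat_lit 261444459, nat_lit 1157594149, nat_lit 262346838, nat_lit 1157381866⟩, ⟨nat_lit 460545148, nat_lit 957966302, nat_lit 461496981, nat_lit 958232917⟩, ⟨nat_lit 1071744338, nat_lit 347023325, nat_lit 1071749206, nat_lit 347980661⟩, ⟨nat_lit 53707894, nat_lit 1041898977, nat_lit 54101707, nat_lit 1041975483⟩, ⟨nat_lit 4918973, nat_lit 1068915034, nat_lit 4984016, nat_lit 1068926782⟩, ⟨nat_lit 1236735145, nat_lit 182628323, nat_lit 1236308922, nat_lit 183419098⟩]⟩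

theorem iv6_ok : ivOK (nat_lit 1000) (nat_lit 1048576) (nat_lit 1073741824) iv6 = true := by decide +kernel

/-- data -/
def iv7 : Iv := ⟨nat_lit 2050, nat_lit 2055, nat_lit 1420819906,
  [(nat_lit 447514, nat_lit 1811347), (nat_lit 1167951, nat_lit 1036088), (nat_lit 924698, nat_lit 1199818), (nat_lit 1902209, nat_lit 805030), (nat_lit 995970, nat_lit 0), (nat_lit 1088299, nat_lit 162502), (nat_lit 1034677, nat_lit 932106), (nat_lit 1638975, nat_lit 1980731), (nat_lit 0, nat_lit 689436), (nat_lit 2080988, nat_lit 856739)],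
  [⟨nat_lit 496508681, nat_lit 577271685, nat_lit 497441331, nat_lit 578143999⟩, ⟨nat_lit 326111517, nat_lit 747668093, nat_lit 327058427, nat_lit 748326815⟩, ⟨nat_lit 1396082557, nat_lit 25345437, nat_lit 1395191115, nat_lit 25577521⟩, ⟨nat_lit 186627081, nat_lit 1233762519, nat_lit 187423323, nat_lit 1233345576⟩, ⟨nat_lit 26150464, nat_lit 1047628129, nat_lit 26387912, nat_lit 1047690890⟩, ⟨nat_lit 207333981, nat_lit 866447381, nat_lit 208165269, nat_lit 866899704⟩, ⟨nat_lit 929537779, nat_lit 144243068, nat_lit 929864006, nat_lit 144949304⟩, ⟨nat_lit 4278735, nat_lit 1416280056, nat_lit 4336646, nat_lit 1415326253⟩, ⟨nat_lit 23599194, nat_lit 1050181372, nat_lit 23819424, nat_lit 1050238066⟩, ⟨nat_lit 487823869, nat_lit 585956666, nat_lit 488761190, nat_lit 586820782⟩, ⟨nat_lit 829271767, nat_lit 244507390, nat_lit 829793217, nat_lit 245389240⟩, ⟨nat_lit 1312711409, nat_lit 108094101, nat_lit 1312069759, nat_lit 108699620⟩, ⟨nat_lit 795611213, nat_lit 623750406,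 nat_lit 796191765, nat_lit 624575265⟩, ⟨nat_lit 62714768, nat_lit 1358398371, nat_lit 63149675, nat_lit 1357621376⟩, ⟨nat_lit 965968815, nat_lit 453599043, nat_lit 966217446, nat_lit 454551045⟩, ⟨nat_lit 1159003269, nat_lit 261081491, nat_lit 1158787814, nat_lit 261981306⟩, ⟨nat_lit 959440823, nat_lit 460114041, nat_lit 959703608, nat_lit 461063718⟩, ⟨nat_lit 345969788, nat_lit 1073844938, nat_lit 346924459, nat_lit 1073844688⟩, ⟨nat_lit 1044698334, nat_lit 53060961, nat_lit 1044768038, nat_lit 53450656⟩, ⟨nat_lit 1068980969, nat_lit 4799262, nat_lit 1068992528, nat_lit 4862858⟩, ⟨nat_lit 181943297, nat_lit 1238469927, nat_lit 182730855, nat_lit 1238039922⟩]⟩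

theorem iv7_ok : ivOK (nat_lit 1000) (nat_lit 1048576) (nat_lit 1073741824) iv7 = true := by decide +kernel

/-- data -/
def iv8 : Iv := ⟨nat_lit 2055, nat_lit 2059, nat_lit 1421790847,
  [(nat_lit 170105, nat_lit 1634092), (nat_lit 945601, nat_lit 912850), (nat_lit 781935, nat_lit 1156850), (nat_lit 1175749, nat_lit 178515), (nat_lit 1981788, nat_lit 1085135), (nat_lit 1819376, nat_lit 993180), (nat_lit 1049783, nat_lit 1046420), (nat_lit 0, nat_lit 442628), (nat_lit 1292366, nat_lit 2082163), (nat_lit 1124312, nat_lit 0)],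
  [⟨nat_lit 576937763, nat_lit 496905090, nat_lit 577634399, nat_lit 497649443⟩, ⟨nat_lit 747906332, nat_lit 325936960, nat_lit 748431943, nat_lit 326692731⟩, ⟨nat_lit 25382308, nat_lit 1396803364, nat_lit 25567641, nat_lit 1396089782⟩, ⟨nat_lit 1234889018, nat_lit 186469490, nat_lit 1234553608, nat_lit 187104744⟩, ⟨nat_lit 1047784036, nat_lit 26056626, nat_lit 1047833851, nat_lit 26245545⟩, ⟨nat_lit 867895150, nat_lit 205947446, nat_lit 868254074, nat_lit 206609173⟩, ⟨nat_lit 142951635, nat_lit 930890499, nat_lit 143512710, nat_lit 931148713⟩, ⟨nat_lit 1417128676, nat_lit 4287317, nat_lit 1416364960, nat_lit 4333568⟩, ⟨nat_lit 1050396592, nat_lit 23444824, nat_lit 1050441450, nat_lit 23619653⟩, ⟨nat_lit 586844478, nat_lit 486998087, nat_lit 587533643, nat_lit 487746681⟩, ⟨nat_lit 243852391, nat_lit 829990281, nat_lit 244555633, nat_lit 830405568⟩, ⟨nat_lit 107159229, nat_lit 1314534825, nat_lit 107640069, nat_lit 1314018222⟩, ⟨nat_lit 624700375, nat_lit 795835543,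 nat_lit 625358047, nat_lit 796298743⟩, ⟨nat_lit 1359134532, nat_lit 62798576, nat_lit 1358512342, nat_lit 63145884⟩, ⟨nat_lit 452819944, nat_lit 967883513, nat_lit 453580115, nat_lit 968078696⟩, ⟨nat_lit 260441191, nat_lit 1160676238, nat_lit 261158880, nat_lit 1160500706⟩, ⟨nat_lit 460483106, nat_lit 960207799, nat_lit 461241104, nat_lit 960416289⟩, ⟨nat_lit 1076288233, nat_lit 344613043, nat_lit 1076283281, nat_lit 345374733⟩, ⟨nat_lit 52712320, nat_lit 1046859818, nat_lit 53021877, nat_lit 1046911384⟩, ⟨nat_lit 4640902, nat_lit 1069201027, nat_lit 4690245, nat_lit 1069209831⟩, ⟨nat_lit 1239540337, nat_lit 181835514, nat_lit 1239194613, nat_lit 182463901⟩]⟩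

theorem iv8_ok : ivOK (nat_lit 1000) (nat_lit 1048576) (nat_lit 1073741824) iv8 = true := by decide +kernel

/-- data -/
def iv9 : Iv := ⟨nat_lit 2059, nat_lit 2063, nat_lit 1422568077,
  [(nat_lit 1634198, nat_lit 1812217), (nat_lit 912576, nat_lit 1036162), (nat_lit 1157210, nat_lit 1199903), (nat_lit 178339, nat_lit 806457), (nat_lit 1085671, nat_lit 0), (nat_lit 993936, nat_lit 162321), (nat_lit 1046442, nat_lit 931888), (nat_lit 442619, nat_lit 1982405), (nat_lit 2083303, nat_lit 689849), (nat_lit 0, nat_lit 857600)],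
  [⟨nat_lit 496701297, nat_lit 577099209, nat_lit 497444296, nat_lit 577794374⟩, ⟨nat_lit 325278835, nat_lit 748522573, nat_lit 326032894, nat_lit 749046401⟩, ⟨nat_lit 1397795600, nat_lit 25223691, nat_lit 1397080972, nat_lit 25407816⟩, ⟨nat_lit 186722195, nat_lit 1235467493, nat_lit 187356582, nat_lit 1235131455⟩, ⟨nat_lit 26120604, nat_lit 1047682074, nat_lit 26309494, nat_lit 1047731986⟩, ⟨nat_lit 205049236, nat_lit 868751919, nat_lit 205708541, nat_lit 869108838⟩, ⟨nat_lit 931684515, nat_lit 142118390, nat_lit 931940908, nat_lit 142676728⟩, ⟨nat_lit 4220113, nat_lit 1418014702, nat_lit 4265682, nat_lit 1417250272⟩, ⟨nat_lit 23155282, nat_lit 1050646262, nat_lit 23328178, nat_lit 1050690559⟩, ⟨nat_lit 486769051, nat_lit 587033309, nat_lit 487516286, nat_lit 587720992⟩, ⟨nat_lit 831018499, nat_lit 242780824, nat_lit 831431498, nat_lit 243481696⟩, ⟨nat_lit 1315896015, nat_lit 106632976, nat_lit 1315377240, nat_lit 107111547⟩, ⟨nat_lit 796661770, nat_lit 624711207,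 nat_lit 797122948, nat_lit 625367594⟩, ⟨nat_lit 62534674, nat_lit 1360231838, nat_lit 62880363, nat_lit 1359608225⟩, ⟨nat_lit 968898144, nat_lit 452638854, nat_lit 969091184, nat_lit 453397598⟩, ⟨nat_lit 1161696429, nat_lit 260252403, nat_lit 1161519105, nat_lit 260968546⟩, ⟨nat_lit 961507488, nat_lit 460019771, nat_lit 961713333, nat_lit 460776436⟩, ⟨nat_lit 343889455, nat_lit 1077846244, nat_lit 344649475, nat_lit 1077838271⟩, ⟨nat_lit 1049140667, nat_lit 52162419, nat_lit 1049187818, nat_lit 52469218⟩, ⟨nat_lit 1069238599, nat_lit 4561497, nat_lit 1069247313, nat_lit 4610056⟩, ⟨nat_lit 181201691, nat_lit 1241008028, nat_lit 181827902, nat_lit 1240659719⟩]⟩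

theorem iv9_ok : ivOK (nat_lit 1000) (nat_lit 1048576) (nat_lit 1073741824) iv9 = true := by decide +kernel

/-- data -/
def iv10 : Iv := ⟨nat_lit 2063, nat_lit 2066, nat_lit 1423345732,
  [(nat_lit 1634666, nat_lit 1812489), (nat_lit 912434, nat_lit 1036248), (nat_lit 1157632, nat_lit 1199933), (nat_lit 178127, nat_lit 807246), (nat_lit 1085755, nat_lit 0), (nat_lit 994315, nat_lit 162244), (nat_lit 1046536, nat_lit 931817), (nat_lit 443094, nat_lit 1983223), (nat_lit 2084201, nat_lit 689852), (nat_lit 0, nat_lit 858172)],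
  [⟨nat_lit 497011647, nat_lit 576863922, nat_lit 497567880, nat_lit 577384591⟩, ⟨nat_lit 325141462, nat_lit 748732289, nat_lit 325705982, nat_lit 749124361⟩, ⟨nat_lit 1398314841, nat_lit 25253036, nat_lit 1397778661, nat_lit 25390921⟩, ⟨nat_lit 186616423, nat_lit 1236331542, nat_lit 187091205, nat_lit 1236078440⟩, ⟨nat_lit 26049956, nat_lit 1047824296, nat_lit 26191010, nat_lit 1047861474⟩, ⟨nat_lit 204001690, nat_lit 869872935, nat_lit 204494252, nat_lit 870138937⟩, ⟨nat_lit 932739143, nat_lit 141136897, nat_lit 932929837, nat_lit 141553375⟩, ⟨nat_lit 4227224, nat_lit 1418661573, nat_lit 4261351, nat_lit 1418087844⟩, ⟨nat_lit 23038983, nat_lit 1050836891, nat_lit 23167866, nat_lit 1050869795⟩, ⟨nat_lit 486134878, nat_lit 587738991, nat_lit 486694575, nat_lit 588253522⟩, ⟨nat_lit 831591255, nat_lit 242282990, nat_lit 831899916, nat_lit 242807339⟩, ⟨nat_lit 1317277125, nat_lit 105928089, nat_lit 1316886176, nat_lit 106284950⟩, ⟨nat_lit 796852867, nat_lit 625481749,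 nat_lit 797198029, nat_lit 625972745⟩, ⟨nat_lit 62611583, nat_lit 1360769063, nat_lit 62870500, nat_lit 1360301042⟩, ⟨nat_lit 970387144, nat_lit 452074692, nat_lit 970529768, nat_lit 452642916⟩, ⟨nat_lit 1162973309, nat_lit 259797964, nat_lit 1162838506, nat_lit 260333831⟩, ⟨nat_lit 962110633, nat_lit 460339576, nat_lit 962264010, nat_lit 460906063⟩, ⟨nat_lit 342873138, nat_lit 1079737539, nat_lit 343441962, nat_lit 1079728810⟩, ⟨nat_lit 1050786680, nat_lit 51900700, nat_lit 1050819655, nat_lit 52129525⟩, ⟨nat_lit 1069430507, nat_lit 4444863, nat_lit 1069436756, nat_lit 4480421⟩, ⟨nat_lit 181134390, nat_lit 1241830250, nat_lit 181603088, nat_lit 1241568022⟩]⟩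

theorem iv10_ok : ivOK (nat_lit 1000) (nat_lit 1048576) (nat_lit 1073741824) iv10 = true := by decide +kernel

/-- data -/
def iv11 : Iv := ⟨nat_lit 2066, nat_lit 2069, nat_lit 1423929252,
  [(nat_lit 1634707, nat_lit 1812910), (nat_lit 912222, nat_lit 1036223), (nat_lit 1157887, nat_lit 1199971), (nat_lit 178000, nat_lit 807523), (nat_lit 1086187, nat_lit 0), (nat_lit 994903, nat_lit 162173), (nat_lit 1046550, nat_lit 931729), (nat_lit 443044, nat_lit 1983657), (nat_lit 2085056, nat_lit 690209), (nat_lit 0, nat_lit 858224)],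
  [⟨nat_lit 496815925, nat_lit 577029076, nat_lit 497371416, nat_lit 577548899⟩, ⟨nat_lit 324608752, nat_lit 749235577, nat_lit 325172302, nat_lit 749626613⟩, ⟨nat_lit 1399072267, nat_lit 25119857, nat_lit 1398535476, nat_lit 25257009⟩, ⟨nat_lit 186840899, nat_lit 1236730558, nat_lit 187315236, nat_lit 1236477163⟩, ⟨nat_lit 26109243, nat_lit 1047734820, nat_lit 26250326, nat_lit 1047772070⟩, ⟨nat_lit 203365006, nat_lit 870479323, nat_lit 203856242, nat_lit 870744245⟩, ⟨nat_lit 933301115, nat_lit 140544500, nat_lit 933490832, nat_lit 140959487⟩, ⟨nat_lit 4172033, nat_lit 1419328528, nat_lit 4205746, nat_lit 1418754394⟩, ⟨nat_lit 22814271, nat_lit 1051032373, nat_lit 22942037, nat_lit 1051064952⟩, ⟨nat_lit 486004760, nat_lit 587839317, nat_lit 486563684, nat_lit 588353043⟩, ⟨nat_lit 832396831, nat_lit 241447059, nat_lit 832704175, nat_lit 241970052⟩, ⟨nat_lit 1318268793, nat_lit 105563479, nat_lit 1317876679, nat_lit 105919125⟩, ⟨nat_lit 797523163, nat_lit 625434939,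 nat_lit 797867142, nat_lit 625925254⟩, ⟨nat_lit 62391229, nat_lit 1361613280, nat_lit 62649180, nat_lit 1361144423⟩, ⟨nat_lit 971095201, nat_lit 451990750, nat_lit 971236695, nat_lit 452558167⟩, ⟨nat_lit 1163697743, nat_lit 259698534, nat_lit 1163562001, nat_lit 260233563⟩, ⟨nat_lit 963134636, nat_lit 459941933, nat_lit 963286467, nat_lit 460507686⟩, ⟨nat_lit 342380375, nat_lit 1080855694, nat_lit 342948272, nat_lit 1080845346⟩, ⟨nat_lit 1052516447, nat_lit 51476452, nat_lit 1052546918, nat_lit 51703692⟩, ⟨nat_lit 1069453859, nat_lit 4392262, nat_lit 1069460065, nat_lit 4427425⟩, ⟨nat_lit 180624726, nat_lit 1242965274, nat_lit 181092165, nat_lit 1242701540⟩]⟩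

theorem iv11_ok : ivOK (nat_lit 1000) (nat_lit 1048576) (nat_lit 1073741824) iv11 = true := by decide +kernel

/-- data -/
def iv12 : Iv := ⟨nat_lit 2069, nat_lit 2072, nat_lit 1424513012,
  [(nat_lit 1038257, nat_lit 0), (nat_lit 970085, nat_lit 1046851), (nat_lit 1038257, nat_lit 788597), (nat_lit 531288, nat_lit 1717660), (nat_lit 1731802, nat_lit 1785875), (nat_lit 1545226, nat_lit 1717660), (nat_lit 1106429, nat_lit 1046851), (nat_lit 0, nat_lit 628547), (nat_lit 2076514, nat_lit 628547), (nat_lit 344712, nat_lit 1785875)],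
  [⟨nat_lit 3727765, nat_lit 1070085070, nat_lit 3758457, nat_lit 1070090356⟩, ⟨nat_lit 3727765, nat_lit 1070085070, nat_lit 3758457, nat_lit 1070090356⟩, ⟨nat_lit 1051963171, nat_lit 371854193, nat_lit 1051994383, nat_lit 372425553⟩, ⟨nat_lit 1051963171, nat_lit 371854193, nat_lit 1051994383, nat_lit 372425553⟩, ⟨nat_lit 553723925, nat_lit 520088618, nat_lit 554255113, nat_lit 520634777⟩, ⟨nat_lit 913874865, nat_lit 159936765, nat_lit 914088202, nat_lit 160378311⟩, ⟨nat_lit 238198114, nat_lit 835615391, nat_lit 238718004, nat_lit 835918805⟩, ⟨nat_lit 455956608, nat_lit 967752041, nat_lit 456522399, nat_lit 967897676⟩, ⟨nat_lit 238198114, nat_lit 835615391, nat_lit 238718004, nat_lit 835918805⟩, ⟨nat_lit 1051963171, nat_lit 21849153, nat_lit 1051994383, nat_lit 21972712⟩, ⟨nat_lit 1051963171, nat_lit 21849153, nat_lit 1051994383, nat_lit 21972712⟩, ⟨nat_lit 455956608, nat_lit 967752041, nat_lit 456522399, nat_lit 967897676⟩, ⟨nat_lit 1421234522, nat_lit 3732638,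 nat_lit 1420657689, nat_lit 3763364⟩, ⟨nat_lit 262482663, nat_lit 1161534156, nat_lit 263018583, nat_lit 1161401992⟩, ⟨nat_lit 107109135, nat_lit 1317342294, nat_lit 107467203, nat_lit 1316952364⟩, ⟨nat_lit 262482663, nat_lit 1161534156, nat_lit 263018583, nat_lit 1161401992⟩, ⟨nat_lit 1421234522, nat_lit 3732638, nat_lit 1420657689, nat_lit 3763364⟩, ⟨nat_lit 1200124898, nat_lit 159936765, nat_lit 1199931557, nat_lit 160378311⟩, ⟨nat_lit 913874865, nat_lit 159936765, nat_lit 914088202, nat_lit 160378311⟩, ⟨nat_lit 553723925, nat_lit 520088618, nat_lit 554255113, nat_lit 520634777⟩, ⟨nat_lit 107109135, nat_lit 1317342294, nat_lit 107467203, nat_lit 1316952364⟩]⟩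

theorem iv12_ok : ivOK (nat_lit 1000) (nat_lit 1048576) (nat_lit 1073741824) iv12 = true := by decide +kernel

/-- data -/
def iv13 : Iv := ⟨nat_lit 2072, nat_lit 2075, nat_lit 1425097010,
  [(nat_lit 1786970, nat_lit 1038353), (nat_lit 740080, nat_lit 1105979), (nat_lit 997777, nat_lit 1038353), (nat_lit 68176, nat_lit 1545119), (nat_lit 0, nat_lit 344581), (nat_lit 68176, nat_lit 531587), (nat_lit 740080, nat_lit 970727), (nat_lit 1157605, nat_lit 2076706), (nat_lit 1157605, nat_lit 0), (nat_lit 0, nat_lit 1732125)],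
  [⟨nat_lit 1070162507, nat_lit 3636143, nat_lit 1070167674, nat_lit 3666169⟩, ⟨nat_lit 1070162507, nat_lit 3636143, nat_lit 1070167674, nat_lit 3666169⟩, ⟨nat_lit 372287040, nat_lit 1052133794, nat_lit 372857610, nat_lit 1052164720⟩, ⟨nat_lit 372287040, nat_lit 1052133794, nat_lit 372857610, nat_lit 1052164720⟩, ⟨nat_lit 521084657, nat_lit 552712635, nat_lit 521629627, nat_lit 553243548⟩, ⟨nat_lit 158880722, nat_lit 914916693, nat_lit 159320243, nat_lit 915128457⟩, ⟨nat_lit 836316100, nat_lit 237481918, nat_lit 836618316, nat_lit 238000532⟩, ⟨nat_lit 968611316, nat_lit 455700855, nat_lit 968755628, nat_lit 456265881⟩, ⟨nat_lit 836316100, nat_lit 237481918, nat_lit 836618316, nat_lit 238000532⟩, ⟨nat_lit 21663805, nat_lit 1052133794, nat_lit 21786406, nat_lit 1052164720⟩, ⟨nat_lit 21663805, nat_lit 1052133794, nat_lit 21786406, nat_lit 1052164720⟩, ⟨nat_lit 968611316, nat_lit 455700855, nat_lit 968755628, nat_lit 456265881⟩, ⟨nat_lit 3697774, nat_lit 1421870570,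 nat_lit 3728219, nat_lit 1421293394⟩, ⟨nat_lit 1162365826, nat_lit 262253824, nat_lit 1162232556, nat_lit 262788834⟩, ⟨nat_lit 1318386864, nat_lit 106668098, nat_lit 1317995678, nat_lit 107024814⟩, ⟨nat_lit 1162365826, nat_lit 262253824, nat_lit 1162232556, nat_lit 262788834⟩, ⟨nat_lit 3697774, nat_lit 1421870570, nat_lit 3728219, nat_lit 1421293394⟩, ⟨nat_lit 158880722, nat_lit 1199305505, nat_lit 159320243, nat_lit 1199113761⟩, ⟨nat_lit 158880722, nat_lit 914916693, nat_lit 159320243, nat_lit 915128457⟩, ⟨nat_lit 521084657, nat_lit 552712635, nat_lit 521629627, nat_lit 553243548⟩, ⟨nat_lit 1318386864, nat_lit 106668098, nat_lit 1317995678, nat_lit 107024814⟩]⟩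

theorem iv13_ok : ivOK (nat_lit 1000) (nat_lit 1048576) (nat_lit 1073741824) iv13 = true := by decide +kernel

/-- data -/
def iv14 : Iv := ⟨nat_lit 2075, nat_lit 2078, nat_lit 1425681249,
  [(nat_lit 1788060, nat_lit 1038449), (nat_lit 741132, nat_lit 971364), (nat_lit 998275, nat_lit 1038449), (nat_lit 68137, nat_lit 531885), (nat_lit 0, nat_lit 1732447), (nat_lit 68137, nat_lit 1545013), (nat_lit 741132, nat_lit 1105534), (nat_lit 1157881, nat_lit 0), (nat_lit 1157881, nat_lit 2076898), (nat_lit 0, nat_lit 344451)],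
  [⟨nat_lit 1070238061, nat_lit 3546670, nat_lit 1070243112, nat_lit 3576044⟩, ⟨nat_lit 1070238061, nat_lit 3546670, nat_lit 1070243112, nat_lit 3576044⟩, ⟨nat_lit 372717075, nat_lit 1052305010, nat_lit 373286856, nat_lit 1052335649⟩, ⟨nat_lit 372717075, nat_lit 1052305010, nat_lit 373286856, nat_lit 1052335649⟩, ⟨nat_lit 522079012, nat_lit 551707630, nat_lit 522622795, nat_lit 552238263⟩, ⟨nat_lit 157831105, nat_lit 915952714, nat_lit 158268606, nat_lit 916162915⟩, ⟨nat_lit 837017853, nat_lit 236768199, nat_lit 837318871, nat_lit 237285538⟩, ⟨nat_lit 969471743, nat_lit 455444675, nat_lit 969614731, nat_lit 456008937⟩, ⟨nat_lit 837017853, nat_lit 236768199, nat_lit 837318871, nat_lit 237285538⟩, ⟨nat_lit 21479764, nat_lit 1052305010, nat_lit 21601414, nat_lit 1052335649⟩, ⟨nat_lit 21479764, nat_lit 1052305010, nat_lit 21601414, nat_lit 1052335649⟩, ⟨nat_lit 969471743, nat_lit 455444675, nat_lit 969614731, nat_lit 456008937⟩, ⟨nat_lit 3663221, nat_lit 1422507072,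 nat_lit 3693387, nat_lit 1421929553⟩, ⟨nat_lit 1163197695, nat_lit 262024873, nat_lit 1163063320, nat_lit 262558974⟩, ⟨nat_lit 1319431631, nat_lit 106229244, nat_lit 1319039192, nat_lit 106584612⟩, ⟨nat_lit 1163197695, nat_lit 262024873, nat_lit 1163063320, nat_lit 262558974⟩, ⟨nat_lit 3663221, nat_lit 1422507072, nat_lit 3693387, nat_lit 1421929553⟩, ⟨nat_lit 157831105, nat_lit 1198494599, nat_lit 158268606, nat_lit 1198304430⟩, ⟨nat_lit 157831105, nat_lit 915952714, nat_lit 158268606, nat_lit 916162915⟩, ⟨nat_lit 522079012, nat_lit 551707630, nat_lit 522622795, nat_lit 552238263⟩, ⟨nat_lit 1319431631, nat_lit 106229244, nat_lit 1319039192, nat_lit 106584612⟩]⟩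

theorem iv14_ok : ivOK (nat_lit 1000) (nat_lit 1048576) (nat_lit 1073741824) iv14 = true := by decide +kernel

/-- data -/
def iv15 : Iv := ⟨nat_lit 2078, nat_lit 2081, nat_lit 1426265726,
  [(nat_lit 1789143, nat_lit 1038545), (nat_lit 742176, nat_lit 971997), (nat_lit 998769, nat_lit 1038545), (nat_lit 68096, nat_lit 532184), (nat_lit 0, nat_lit 1732769), (nat_lit 68096, nat_lit 1544906), (nat_lit 742176, nat_lit 1105093), (nat_lit 1158153, nat_lit 0), (nat_lit 1158153, nat_lit 2077090), (nat_lit 0, nat_lit 344321)],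
  [⟨nat_lit 1070315978, nat_lit 3459197, nat_lit 1070320910, nat_lit 3487931⟩, ⟨nat_lit 1070315978, nat_lit 3459197, nat_lit 1070320910, nat_lit 3487931⟩, ⟨nat_lit 373145513, nat_lit 1052476820, nat_lit 373714507, nat_lit 1052507171⟩, ⟨nat_lit 373145513, nat_lit 1052476820, nat_lit 373714507, nat_lit 1052507171⟩, ⟨nat_lit 523065796, nat_lit 550708914, nat_lit 523608396, nat_lit 551239263⟩, ⟨nat_lit 156788679, nat_lit 916984845, nat_lit 157224164, nat_lit 917193490⟩, ⟨nat_lit 837718769, nat_lit 236055013, nat_lit 838018594, nat_lit 236571078⟩, ⟨nat_lit 970327250, nat_lit 455189428, nat_lit 970468924, nat_lit 455752929⟩, ⟨nat_lit 837718769, nat_lit 236055013, nat_lit 838018594, nat_lit 236571078⟩, ⟨nat_lit 21297023, nat_lit 1052476820, nat_lit 21417728, nat_lit 1052507171⟩, ⟨nat_lit 21297023, nat_lit 1052476820, nat_lit 21417728, nat_lit 1052507171⟩, ⟨nat_lit 970327250, nat_lit 455189428, nat_lit 970468924, nat_lit 455752929⟩, ⟨nat_lit 3628753, nat_lit 1423141562,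 nat_lit 3658643, nat_lit 1422563703⟩, ⟨nat_lit 1164027532, nat_lit 261797855, nat_lit 1163892058, nat_lit 262331051⟩, ⟨nat_lit 1320469468, nat_lit 105791924, nat_lit 1320075790, nat_lit 106145950⟩, ⟨nat_lit 1164027532, nat_lit 261797855, nat_lit 1163892058, nat_lit 262331051⟩, ⟨nat_lit 3628753, nat_lit 1423141562, nat_lit 3658643, nat_lit 1422563703⟩, ⟨nat_lit 156788679, nat_lit 1197689966, nat_lit 157224164, nat_lit 1197501359⟩, ⟨nat_lit 156788679, nat_lit 916984845, nat_lit 157224164, nat_lit 917193490⟩, ⟨nat_lit 523065796, nat_lit 550708914, nat_lit 523608396, nat_lit 551239263⟩, ⟨nat_lit 1320469468, nat_lit 105791924, nat_lit 1320075790, nat_lit 106145950⟩]⟩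

theorem iv15_ok : ivOK (nat_lit 1000) (nat_lit 1048576) (nat_lit 1073741824) iv15 = true := by decide +kernel

/-- data -/
def iv16 : Iv := ⟨nat_lit 2081, nat_lit 2084, nat_lit 1426850444,
  [(nat_lit 0, nat_lit 1038641), (nat_lit 1047005, nat_lit 972626), (nat_lit 790958, nat_lit 1038641), (nat_lit 1722165, nat_lit 532482), (nat_lit 1790221, nat_lit 1733089), (nat_lit 1722165, nat_lit 1544800), (nat_lit 1047005, nat_lit 1104656), (nat_lit 631798, nat_lit 0), (nat_lit 631798, nat_lit 2077282), (nat_lit 1790221, nat_lit 344193)],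
  [⟨nat_lit 1070392007, nat_lit 3373687, nat_lit 1070396822, nat_lit 3401793⟩, ⟨nat_lit 1070392007, nat_lit 3373687, nat_lit 1070396822, nat_lit 3401793⟩, ⟨nat_lit 373572343, nat_lit 1052649222, nat_lit 374140552, nat_lit 1052679287⟩, ⟨nat_lit 373572343, nat_lit 1052649222, nat_lit 374140552, nat_lit 1052679287⟩, ⟨nat_lit 524050833, nat_lit 549713480, nat_lit 524592251, nat_lit 550243541⟩, ⟨nat_lit 155751850, nat_lit 918013047, nat_lit 156185324, nat_lit 918220144⟩, ⟨nat_lit 838420711, nat_lit 235344299, nat_lit 838719344, nat_lit 235859092⟩, ⟨nat_lit 971185899, nat_lit 454932382, nat_lit 971326257, nat_lit 455495124⟩, ⟨nat_lit 838420711, nat_lit 235344299, nat_lit 838719344, nat_lit 235859092⟩, ⟨nat_lit 21115023, nat_lit 1052649222, nat_lit 21234785, nat_lit 1052679287⟩, ⟨nat_lit 21115023, nat_lit 1052649222, nat_lit 21234785, nat_lit 1052679287⟩, ⟨nat_lit 971185899, nat_lit 454932382, nat_lit 971326257, nat_lit 455495124⟩, ⟨nat_lit 3594705, nat_lit 1423774026,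 nat_lit 3624320, nat_lit 1423195833⟩, ⟨nat_lit 1164853088, nat_lit 261570720, nat_lit 1164716525, nat_lit 262103013⟩, ⟨nat_lit 1321505078, nat_lit 105357410, nat_lit 1321110167, nat_lit 105710100⟩, ⟨nat_lit 1164853088, nat_lit 261570720, nat_lit 1164716525, nat_lit 262103013⟩, ⟨nat_lit 3594705, nat_lit 1423774026, nat_lit 3624320, nat_lit 1423195833⟩, ⟨nat_lit 155751850, nat_lit 1196891643, nat_lit 156185324, nat_lit 1196704581⟩, ⟨nat_lit 155751850, nat_lit 918013047, nat_lit 156185324, nat_lit 918220144⟩, ⟨nat_lit 524050833, nat_lit 549713480, nat_lit 524592251, nat_lit 550243541⟩, ⟨nat_lit 1321505078, nat_lit 105357410, nat_lit 1321110167, nat_lit 105710100⟩]⟩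

theorem iv16_ok : ivOK (nat_lit 1000) (nat_lit 1048576) (nat_lit 1073741824) iv16 = true := by decide +kernel

/-- data -/
def iv17 : Iv := ⟨nat_lit 2084, nat_lit 2086, nat_lit 1427435401,
  [(nat_lit 1791026, nat_lit 1038772), (nat_lit 743944, nat_lit 973112), (nat_lit 999700, nat_lit 1038772), (nat_lit 68029, nat_lit 532844), (nat_lit 0, nat_lit 1733409), (nat_lit 68029, nat_lit 1544700), (nat_lit 743944, nat_lit 1104432), (nat_lit 1158607, nat_lit 0), (nat_lit 1158607, nat_lit 2077544), (nat_lit 0, nat_lit 344135)],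
  [⟨nat_lit 1070553013, nat_lit 3317554, nat_lit 1070556067, nat_lit 3335990⟩, ⟨nat_lit 1070553013, nat_lit 3317554, nat_lit 1070556067, nat_lit 3335990⟩, ⟨nat_lit 373959604, nat_lit 1052906145, nat_lit 374337971, nat_lit 1052925928⟩, ⟨nat_lit 373959604, nat_lit 1052906145, nat_lit 374337971, nat_lit 1052925928⟩, ⟨nat_lit 524760821, nat_lit 549110269, nat_lit 525121165, nat_lit 549463439⟩, ⟨nat_lit 155038949, nat_lit 918831996, nat_lit 155326883, nat_lit 918969261⟩, ⟨nat_lit 839093172, nat_lit 234778061, nat_lit 839291573, nat_lit 235120521⟩, ⟨nat_lit 971978432, nat_lit 454815708, nat_lit 972071229, nat_lit 455190449⟩, ⟨nat_lit 839093172, nat_lit 234778061, nat_lit 839291573, nat_lit 235120521⟩, ⟨nat_lit 20965866, nat_lit 1052906145, nat_lit 21045136, nat_lit 1052925928⟩, ⟨nat_lit 20965866, nat_lit 1052906145, nat_lit 21045136, nat_lit 1052925928⟩, ⟨nat_lit 971978432, nat_lit 454815708, nat_lit 972071229, nat_lit 455190449⟩, ⟨nat_lit 3572138, nat_lit 1424055697,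 nat_lit 3591734, nat_lit 1423670232⟩, ⟨nat_lit 1165414439, nat_lit 261587036, nat_lit 1165322901, nat_lit 261941444⟩, ⟨nat_lit 1322206402, nat_lit 105085990, nat_lit 1321942555, nat_lit 105320416⟩, ⟨nat_lit 1165414439, nat_lit 261587036, nat_lit 1165322901, nat_lit 261941444⟩, ⟨nat_lit 3572138, nat_lit 1424055697, nat_lit 3591734, nat_lit 1423670232⟩, ⟨nat_lit 155038949, nat_lit 1196510092, nat_lit 155326883, nat_lit 1196385906⟩, ⟨nat_lit 155038949, nat_lit 918831996, nat_lit 155326883, nat_lit 918969261⟩, ⟨nat_lit 524760821, nat_lit 549110269, nat_lit 525121165, nat_lit 549463439⟩, ⟨nat_lit 1322206402, nat_lit 105085990, nat_lit 1321942555, nat_lit 105320416⟩]⟩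

theorem iv17_ok : ivOK (nat_lit 1000) (nat_lit 1048576) (nat_lit 1073741824) iv17 = true := by decide +kernel

/-- data -/
def iv18 : Iv := ⟨nat_lit 2086, nat_lit 2088, nat_lit 1427825505,
  [(nat_lit 1038835, nat_lit 1791739), (nat_lit 1104144, nat_lit 744632), (nat_lit 1038835, nat_lit 1000027), (nat_lit 1544628, nat_lit 68002), (nat_lit 344049, nat_lit 0), (nat_lit 533042, nat_lit 68002), (nat_lit 973526, nat_lit 744632), (nat_lit 2077670, nat_lit 1158784), (nat_lit 0, nat_lit 1158784), (nat_lit 1733621, nat_lit 0)],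
  [⟨nat_lit 3262503, nat_lit 1070603331, nat_lit 3280668, nat_lit 1070606333⟩, ⟨nat_lit 3262503, nat_lit 1070603331, nat_lit 3280668, nat_lit 1070606333⟩, ⟨nat_lit 1053019699, nat_lit 374243038, nat_lit 1053039356, nat_lit 374621057⟩, ⟨nat_lit 1053019699, nat_lit 374243038, nat_lit 1053039356, nat_lit 374621057⟩, ⟨nat_lit 548452948, nat_lit 525413844, nat_lit 548805986, nat_lit 525773664⟩, ⟨nat_lit 919511034, nat_lit 154353625, nat_lit 919647618, nat_lit 154640668⟩, ⟨nat_lit 234305502, nat_lit 839560504, nat_lit 234647398, nat_lit 839758377⟩, ⟨nat_lit 454644835, nat_lit 972549543, nat_lit 455019239, nat_lit 972641758⟩, ⟨nat_lit 234305502, nat_lit 839560504, nat_lit 234647398, nat_lit 839758377⟩, ⟨nat_lit 1053019699, nat_lit 20845749, nat_lit 1053039356, nat_lit 20924604⟩, ⟨nat_lit 1053019699, nat_lit 20845749, nat_lit 1053039356, nat_lit 20924604⟩, ⟨nat_lit 454644835, nat_lit 972549543, nat_lit 455019239, nat_lit 972641758⟩, ⟨nat_lit 1424475950, nat_lit 3549707,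 nat_lit 1424090338, nat_lit 3569182⟩, ⟨nat_lit 261435835, nat_lit 1165961249, nat_lit 261789844, nat_lit 1165869232⟩, ⟨nat_lit 104797382, nat_lit 1322892182, nat_lit 105031217, nat_lit 1322627795⟩, ⟨nat_lit 261435835, nat_lit 1165961249, nat_lit 261789844, nat_lit 1165869232⟩, ⟨nat_lit 1424475950, nat_lit 3549707, nat_lit 1424090338, nat_lit 3569182⟩, ⟨nat_lit 1195982837, nat_lit 154353625, nat_lit 1195859330, nat_lit 154640668⟩, ⟨nat_lit 919511034, nat_lit 154353625, nat_lit 919647618, nat_lit 154640668⟩, ⟨nat_lit 548452948, nat_lit 525413844, nat_lit 548805986, nat_lit 525773664⟩, ⟨nat_lit 104797382, nat_lit 1322892182, nat_lit 105031217, nat_lit 1322627795⟩]⟩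

theorem iv18_ok : ivOK (nat_lit 1000) (nat_lit 1048576) (nat_lit 1073741824) iv18 = true := by decide +kernel

/-- data -/
def iv19 : Iv := ⟨nat_lit 2088, nat_lit 2090, nat_lit 1428215716,
  [(nat_lit 1038899, nat_lit 1792449), (nat_lit 1103859, nat_lit 745317), (nat_lit 1038899, nat_lit 1000352), (nat_lit 1544558, nat_lit 67974), (nat_lit 343965, nat_lit 0), (nat_lit 533240, nat_lit 67974), (nat_lit 973939, nat_lit 745317), (nat_lit 2077798, nat_lit 1158960), (nat_lit 0, nat_lit 1158960), (nat_lit 1733833, nat_lit 0)],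
  [⟨nat_lit 3208309, nat_lit 1070653752, nat_lit 3226207, nat_lit 1070656704⟩, ⟨nat_lit 3208309, nat_lit 1070653752, nat_lit 3226207, nat_lit 1070656704⟩, ⟨nat_lit 1053135632, nat_lit 374524923, nat_lit 1053155161, nat_lit 374902595⟩, ⟨nat_lit 1053135632, nat_lit 374524923, nat_lit 1053155161, nat_lit 374902595⟩, ⟨nat_lit 547797257, nat_lit 526064260, nat_lit 548150163, nat_lit 526423558⟩, ⟨nat_lit 920189817, nat_lit 153671638, nat_lit 920325721, nat_lit 153957791⟩, ⟨nat_lit 233834577, nat_lit 840027236, nat_lit 234175910, nat_lit 840224583⟩, ⟨nat_lit 454473005, nat_lit 973117979, nat_lit 454847074, nat_lit 973209615⟩, ⟨nat_lit 233834577, nat_lit 840027236, nat_lit 234175910, nat_lit 840224583⟩, ⟨nat_lit 1053135632, nat_lit 20726476, nat_lit 1053155161, nat_lit 20804920⟩, ⟨nat_lit 1053135632, nat_lit 20726476, nat_lit 1053155161, nat_lit 20804920⟩, ⟨nat_lit 454473005, nat_lit 973117979, nat_lit 454847074, nat_lit 973209615⟩, ⟨nat_lit 1424896394, nat_lit 3527301,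 nat_lit 1424510635, nat_lit 3546657⟩, ⟨nat_lit 261285034, nat_lit 1166509103, nat_lit 261638645, nat_lit 1166416606⟩, ⟨nat_lit 104510720, nat_lit 1323576676, nat_lit 104743966, nat_lit 1323311750⟩, ⟨nat_lit 261285034, nat_lit 1166509103, nat_lit 261638645, nat_lit 1166416606⟩, ⟨nat_lit 1424896394, nat_lit 3527301, nat_lit 1424510635, nat_lit 3546657⟩, ⟨nat_lit 1195461189, nat_lit 153671638, nat_lit 1195338352, nat_lit 153957791⟩, ⟨nat_lit 920189817, nat_lit 153671638, nat_lit 920325721, nat_lit 153957791⟩, ⟨nat_lit 547797257, nat_lit 526064260, nat_lit 548150163, nat_lit 526423558⟩, ⟨nat_lit 104510720, nat_lit 1323576676, nat_lit 104743966, nat_lit 1323311750⟩]⟩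

theorem iv19_ok : ivOK (nat_lit 1000) (nat_lit 1048576) (nat_lit 1073741824) iv19 = true := by decide +kernel

/-- data -/
def iv20 : Iv := ⟨nat_lit 2090, nat_lit 2092, nat_lit 1428606034,
  [(nat_lit 1038962, nat_lit 1793157), (nat_lit 1103575, nat_lit 746001), (nat_lit 1038962, nat_lit 1000677), (nat_lit 1544486, nat_lit 67946), (nat_lit 343880, nat_lit 0), (nat_lit 533438, nat_lit 67946), (nat_lit 974349, nat_lit 746001), (nat_lit 2077924, nat_lit 1159136), (nat_lit 0, nat_lit 1159136), (nat_lit 1734044, nat_lit 0)],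
  [⟨nat_lit 3154961, nat_lit 1070702137, nat_lit 3172596, nat_lit 1070705040⟩, ⟨nat_lit 3154961, nat_lit 1070702137, nat_lit 3172596, nat_lit 1070705040⟩, ⟨nat_lit 1053249708, nat_lit 374805255, nat_lit 1053269112, nat_lit 375182580⟩, ⟨nat_lit 1053249708, nat_lit 374805255, nat_lit 1053269112, nat_lit 375182580⟩, ⟨nat_lit 547144704, nat_lit 526715011, nat_lit 547497477, nat_lit 527073787⟩, ⟨nat_lit 920864385, nat_lit 152992201, nat_lit 920999613, nat_lit 153277465⟩, ⟨nat_lit 233363351, nat_lit 840495249, nat_lit 233704121, nat_lit 840692070⟩, ⟨nat_lit 454301584, nat_lit 973687797, nat_lit 454675318, nat_lit 973778855⟩, ⟨nat_lit 233363351, nat_lit 840495249, nat_lit 233704121, nat_lit 840692070⟩, ⟨nat_lit 1053249708, nat_lit 20607771, nat_lit 1053269112, nat_lit 20685804⟩, ⟨nat_lit 1053249708, nat_lit 20607771, nat_lit 1053269112, nat_lit 20685804⟩, ⟨nat_lit 454301584, nat_lit 973687797, nat_lit 454675318, nat_lit 973778855⟩, ⟨nat_lit 1425314544, nat_lit 3505029,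 nat_lit 1424928641, nat_lit 3524266⟩, ⟨nat_lit 261134633, nat_lit 1167058001, nat_lit 261487846, nat_lit 1166965025⟩, ⟨nat_lit 104224092, nat_lit 1324262265, nat_lit 104456751, nat_lit 1323996799⟩, ⟨nat_lit 261134633, nat_lit 1167058001, nat_lit 261487846, nat_lit 1166965025⟩, ⟨nat_lit 1425314544, nat_lit 3505029, nat_lit 1424928641, nat_lit 3524266⟩, ⟨nat_lit 1194940632, nat_lit 152992201, nat_lit 1194818464, nat_lit 153277465⟩, ⟨nat_lit 920864385, nat_lit 152992201, nat_lit 920999613, nat_lit 153277465⟩, ⟨nat_lit 547144704, nat_lit 526715011, nat_lit 547497477, nat_lit 527073787⟩, ⟨nat_lit 104224092, nat_lit 1324262265, nat_lit 104456751, nat_lit 1323996799⟩]⟩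

theorem iv20_ok : ivOK (nat_lit 1000) (nat_lit 1048576) (nat_lit 1073741824) iv20 = true := by decide +kernel

/-- data -/
def iv21 : Iv := ⟨nat_lit 2092, nat_lit 2094, nat_lit 1428996459,
  [(nat_lit 1039025, nat_lit 1793862), (nat_lit 1103292, nat_lit 746681), (nat_lit 1039025, nat_lit 1001000), (nat_lit 1544414, nat_lit 67918), (nat_lit 343796, nat_lit 0), (nat_lit 533636, nat_lit 67918), (nat_lit 974758, nat_lit 746681), (nat_lit 2078050, nat_lit 1159309), (nat_lit 0, nat_lit 1159309), (nat_lit 1734254, nat_lit 0)],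
  [⟨nat_lit 3102348, nat_lit 1070752763, nat_lit 3119722, nat_lit 1070755615⟩, ⟨nat_lit 3102348, nat_lit 1070752763, nat_lit 3119722, nat_lit 1070755615⟩, ⟨nat_lit 1053364043, nat_lit 375086503, nat_lit 1053383322, nat_lit 375463481⟩, ⟨nat_lit 1053364043, nat_lit 375086503, nat_lit 1053383322, nat_lit 375463481⟩, ⟨nat_lit 546492277, nat_lit 527361658, nat_lit 546844916, nat_lit 527719913⟩, ⟨nat_lit 921538678, nat_lit 152315309, nat_lit 921673232, nat_lit 152599687⟩, ⟨nat_lit 232892790, nat_lit 840960770, nat_lit 233232998, nat_lit 841157066⟩, ⟨nat_lit 454129203, nat_lit 974254924, nat_lit 454502604, nat_lit 974345406⟩, ⟨nat_lit 232892790, nat_lit 840960770, nat_lit 233232998, nat_lit 841157066⟩, ⟨nat_lit 1053364043, nat_lit 20489359, nat_lit 1053383322, nat_lit 20566983⟩, ⟨nat_lit 1053364043, nat_lit 20489359, nat_lit 1053383322, nat_lit 20566983⟩, ⟨nat_lit 454129203, nat_lit 974254924, nat_lit 454502604, nat_lit 974345406⟩, ⟨nat_lit 1425730392, nat_lit 3482892,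 nat_lit 1425344348, nat_lit 3502009⟩, ⟨nat_lit 260984630, nat_lit 1167601226, nat_lit 261337447, nat_lit 1167507776⟩, ⟨nat_lit 103938768, nat_lit 1324941769, nat_lit 104170840, nat_lit 1324675773⟩, ⟨nat_lit 260984630, nat_lit 1167601226, nat_lit 261337447, nat_lit 1167507776⟩, ⟨nat_lit 1425730392, nat_lit 3482892, nat_lit 1425344348, nat_lit 3502009⟩, ⟨nat_lit 1194421174, nat_lit 152315309, nat_lit 1194299672, nat_lit 152599687⟩, ⟨nat_lit 921538678, nat_lit 152315309, nat_lit 921673232, nat_lit 152599687⟩, ⟨nat_lit 546492277, nat_lit 527361658, nat_lit 546844916, nat_lit 527719913⟩, ⟨nat_lit 103938768, nat_lit 1324941769, nat_lit 104170840, nat_lit 1324675773⟩]⟩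

theorem iv21_ok : ivOK (nat_lit 1000) (nat_lit 1048576) (nat_lit 1073741824) iv21 = true := by decide +kernel

/-- data -/
def iv22 : Iv := ⟨nat_lit 2094, nat_lit 2096, nat_lit 1429386990,
  [(nat_lit 1794564, nat_lit 1039089), (nat_lit 747359, nat_lit 1103013), (nat_lit 1001322, nat_lit 1039089), (nat_lit 67889, nat_lit 1544344), (nat_lit 0, nat_lit 343713), (nat_lit 67889, nat_lit 533834), (nat_lit 747359, nat_lit 975165), (nat_lit 1159482, nat_lit 2078178), (nat_lit 1159482, nat_lit 0), (nat_lit 0, nat_lit 1734465)],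
  [⟨nat_lit 1070801349, nat_lit 3050661, nat_lit 1070804152, nat_lit 3067779⟩, ⟨nat_lit 1070801349, nat_lit 3050661, nat_lit 1070804152, nat_lit 3067779⟩, ⟨nat_lit 375364952, nat_lit 1053480764, nat_lit 375741583, nat_lit 1053499914⟩, ⟨nat_lit 375364952, nat_lit 1053480764, nat_lit 375741583, nat_lit 1053499914⟩, ⟨nat_lit 528007144, nat_lit 545844498, nat_lit 528364878, nat_lit 546197001⟩, ⟨nat_lit 151641731, nat_lit 922210708, nat_lit 151925223, nat_lit 922344590⟩, ⟨nat_lit 841427565, nat_lit 232423860, nat_lit 841623337, nat_lit 232763506⟩, ⟨nat_lit 974821386, nat_lit 453957230, nat_lit 974911293, nat_lit 454330297⟩, ⟨nat_lit 841427565, nat_lit 232423860, nat_lit 841623337, nat_lit 232763506⟩, ⟨nat_lit 20371783, nat_lit 1053480764, nat_lit 20448999, nat_lit 1053499914⟩, ⟨nat_lit 20371783, nat_lit 1053480764, nat_lit 20448999, nat_lit 1053499914⟩, ⟨nat_lit 974821386, nat_lit 453957230, nat_lit 974911293, nat_lit 454330297⟩, ⟨nat_lit 3460780, nat_lit 1426148908,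 nat_lit 3479779, nat_lit 1425762719⟩, ⟨nat_lit 1168147723, nat_lit 260835026, nat_lit 1168053797, nat_lit 261187446⟩, ⟨nat_lit 1325622353, nat_lit 103654743, nat_lit 1325355823, nat_lit 103886231⟩, ⟨nat_lit 1168147723, nat_lit 260835026, nat_lit 1168053797, nat_lit 261187446⟩, ⟨nat_lit 3460780, nat_lit 1426148908, nat_lit 3479779, nat_lit 1425762719⟩, ⟨nat_lit 151641731, nat_lit 1193909627, nat_lit 151925223, nat_lit 1193788781⟩, ⟨nat_lit 151641731, nat_lit 922210708, nat_lit 151925223, nat_lit 922344590⟩, ⟨nat_lit 528007144, nat_lit 545844498, nat_lit 528364878, nat_lit 546197001⟩, ⟨nat_lit 1325622353, nat_lit 103654743, nat_lit 1325355823, nat_lit 103886231⟩]⟩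

theorem iv22_ok : ivOK (nat_lit 1000) (nat_lit 1048576) (nat_lit 1073741824) iv22 = true := by decide +kernel

/-- data -/
def iv23 : Iv := ⟨nat_lit 2096, nat_lit 2098, nat_lit 1429777628,
  [(nat_lit 1039152, nat_lit 1795264), (nat_lit 975570, nat_lit 748035), (nat_lit 1039152, nat_lit 1001643), (nat_lit 534032, nat_lit 67860), (nat_lit 1734674, nat_lit 0), (nat_lit 1544272, nat_lit 67860), (nat_lit 1102734, nat_lit 748035), (nat_lit 0, nat_lit 1159653), (nat_lit 2078304, nat_lit 1159653), (nat_lit 343630, nat_lit 0)],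
  [⟨nat_lit 2999689, nat_lit 1070850034, nat_lit 3016553, nat_lit 1070852788⟩, ⟨nat_lit 2999689, nat_lit 1070850034, nat_lit 3016553, nat_lit 1070852788⟩, ⟨nat_lit 1053595621, nat_lit 375644313, nat_lit 1053614646, nat_lit 376020598⟩, ⟨nat_lit 1053595621, nat_lit 375644313, nat_lit 1053614646, nat_lit 376020598⟩, ⟨nat_lit 545196848, nat_lit 528651461, nat_lit 545549214, nat_lit 529008675⟩, ⟨nat_lit 922880462, nat_lit 150969916, nat_lit 923013675, nat_lit 151252523⟩, ⟨nat_lit 231954631, nat_lit 841893744, nat_lit 232293715, nat_lit 842088993⟩, ⟨nat_lit 453784294, nat_lit 975387178, nat_lit 454157028, nat_lit 975476512⟩, ⟨nat_lit 231954631, nat_lit 841893744, nat_lit 232293715, nat_lit 842088993⟩, ⟨nat_lit 1053595621, nat_lit 20254498, nat_lit 1053614646, nat_lit 20331308⟩, ⟨nat_lit 1053595621, nat_lit 20254498, nat_lit 1053614646, nat_lit 20331308⟩, ⟨nat_lit 453784294, nat_lit 975387178, nat_lit 454157028, nat_lit 975476512⟩, ⟨nat_lit 1426562622, nat_lit 3438801,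 nat_lit 1426176296, nat_lit 3457683⟩, ⟨nat_lit 260685819, nat_lit 1168690766, nat_lit 261037844, nat_lit 1168596368⟩, ⟨nat_lit 103371381, nat_lit 1326299216, nat_lit 103602287, nat_lit 1326032159⟩, ⟨nat_lit 260685819, nat_lit 1168690766, nat_lit 261037844, nat_lit 1168596368⟩, ⟨nat_lit 1426562622, nat_lit 3438801, nat_lit 1426176296, nat_lit 3457683⟩, ⟨nat_lit 1193396932, nat_lit 150969916, nat_lit 1193276741, nat_lit 151252523⟩, ⟨nat_lit 922880462, nat_lit 150969916, nat_lit 923013675, nat_lit 151252523⟩, ⟨nat_lit 545196848, nat_lit 528651461, nat_lit 545549214, nat_lit 529008675⟩, ⟨nat_lit 103371381, nat_lit 1326299216, nat_lit 103602287, nat_lit 1326032159⟩]⟩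

theorem iv23_ok : ivOK (nat_lit 1000) (nat_lit 1048576) (nat_lit 1073741824) iv23 = true := by decide +kernel

/-- data -/
def iv24 : Iv := ⟨nat_lit 2098, nat_lit 2100, nat_lit 1430168373,
  [(nat_lit 1795962, nat_lit 1039215), (nat_lit 748709, nat_lit 975973), (nat_lit 1001964, nat_lit 1039215), (nat_lit 67831, nat_lit 534230), (nat_lit 0, nat_lit 1734883), (nat_lit 67831, nat_lit 1544200), (nat_lit 748709, nat_lit 1102457), (nat_lit 1159824, nat_lit 0), (nat_lit 1159824, nat_lit 2078430), (nat_lit 0, nat_lit 343547)],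
  [⟨nat_lit 1070898818, nat_lit 2949523, nat_lit 1070901524, nat_lit 2966136⟩, ⟨nat_lit 1070898818, nat_lit 2949523, nat_lit 1070901524, nat_lit 2966136⟩, ⟨nat_lit 375922105, nat_lit 1053710738, nat_lit 376298045, nat_lit 1053729638⟩, ⟨nat_lit 375922105, nat_lit 1053710738, nat_lit 376298045, nat_lit 1053729638⟩, ⟨nat_lit 529294601, nat_lit 544552342, nat_lit 529651296, nat_lit 544904570⟩, ⟨nat_lit 150301401, nat_lit 923547928, nat_lit 150583125, nat_lit 923680474⟩, ⟨nat_lit 842361196, nat_lit 231486066, nat_lit 842555922, nat_lit 231824590⟩, ⟨nat_lit 975954339, nat_lit 453611763, nat_lit 976043099, nat_lit 453984164⟩, ⟨nat_lit 842361196, nat_lit 231486066, nat_lit 842555922, nat_lit 231824590⟩, ⟨nat_lit 20137773, nat_lit 1053710738, nat_lit 20214180, nat_lit 1053729638⟩, ⟨nat_lit 20137773, nat_lit 1053710738, nat_lit 20214180, nat_lit 1053729638⟩, ⟨nat_lit 975954339, nat_lit 453611763, nat_lit 976043099, nat_lit 453984164⟩, ⟨nat_lit 3416955, nat_lit 1426976508,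 nat_lit 3435720, nat_lit 1426590044⟩, ⟨nat_lit 1169234836, nat_lit 260537009, nat_lit 1169139966, nat_lit 260888640⟩, ⟨nat_lit 1326977147, nat_lit 103088682, nat_lit 1326709563, nat_lit 103319006⟩, ⟨nat_lit 1169234836, nat_lit 260537009, nat_lit 1169139966, nat_lit 260888640⟩, ⟨nat_lit 3416955, nat_lit 1426976508, nat_lit 3435720, nat_lit 1426590044⟩, ⟨nat_lit 150301401, nat_lit 1192887634, nat_lit 150583125, nat_lit 1192768094⟩, ⟨nat_lit 150301401, nat_lit 923547928, nat_lit 150583125, nat_lit 923680474⟩, ⟨nat_lit 529294601, nat_lit 544552342, nat_lit 529651296, nat_lit 544904570⟩, ⟨nat_lit 1326977147, nat_lit 103088682, nat_lit 1326709563, nat_lit 103319006⟩]⟩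

theorem iv24_ok : ivOK (nat_lit 1000) (nat_lit 1048576) (nat_lit 1073741824) iv24 = true := by decide +kernel

/-- data -/
def iv25 : Iv := ⟨nat_lit 2100, nat_lit 2102, nat_lit 1430559224,
  [(nat_lit 1039278, nat_lit 1796657), (nat_lit 1102182, nat_lit 749380), (nat_lit 1039278, nat_lit 1002284), (nat_lit 1544129, nat_lit 67802), (nat_lit 343464, nat_lit 0), (nat_lit 534427, nat_lit 67802), (nat_lit 976374, nat_lit 749380), (nat_lit 2078556, nat_lit 1159993), (nat_lit 0, nat_lit 1159993), (nat_lit 1735092, nat_lit 0)],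
  [⟨nat_lit 2900150, nat_lit 1070947702, nat_lit 2916517, nat_lit 1070950358⟩, ⟨nat_lit 2900150, nat_lit 1070947702, nat_lit 2916517, nat_lit 1070950358⟩, ⟨nat_lit 1053826115, nat_lit 376199565, nat_lit 1053844889, nat_lit 376575160⟩, ⟨nat_lit 1053826115, nat_lit 376199565, nat_lit 1053844889, nat_lit 376575160⟩, ⟨nat_lit 543910980, nat_lit 529935071, nat_lit 544263069, nat_lit 530291247⟩, ⟨nat_lit 924213094, nat_lit 149635409, nat_lit 924344976, nat_lit 149916251⟩, ⟨nat_lit 231019129, nat_lit 842828026, nat_lit 231357092, nat_lit 843022231⟩, ⟨nat_lit 453439636, nat_lit 976520823, nat_lit 453811706, nat_lit 976609011⟩, ⟨nat_lit 231019129, nat_lit 842828026, nat_lit 231357092, nat_lit 843022231⟩, ⟨nat_lit 1053826115, nat_lit 20021341, nat_lit 1053844889, nat_lit 20097344⟩, ⟨nat_lit 1053826115, nat_lit 20021341, nat_lit 1053844889, nat_lit 20097344⟩, ⟨nat_lit 453439636, nat_lit 976520823, nat_lit 453811706, nat_lit 976609011⟩, ⟨nat_lit 1427393066, nat_lit 3395240,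 nat_lit 1427006460, nat_lit 3413889⟩, ⟨nat_lit 260387571, nat_lit 1169775431, nat_lit 260738807, nat_lit 1169680093⟩, ⟨nat_lit 102806644, nat_lit 1327651335, nat_lit 103036387, nat_lit 1327383228⟩, ⟨nat_lit 260387571, nat_lit 1169775431, nat_lit 260738807, nat_lit 1169680093⟩, ⟨nat_lit 1427393066, nat_lit 3395240, nat_lit 1427006460, nat_lit 3413889⟩, ⟨nat_lit 1192381745, nat_lit 149635409, nat_lit 1192262850, nat_lit 149916251⟩, ⟨nat_lit 924213094, nat_lit 149635409, nat_lit 924344976, nat_lit 149916251⟩, ⟨nat_lit 543910980, nat_lit 529935071, nat_lit 544263069, nat_lit 530291247⟩, ⟨nat_lit 102806644, nat_lit 1327651335, nat_lit 103036387, nat_lit 1327383228⟩]⟩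

theorem iv25_ok : ivOK (nat_lit 1000) (nat_lit 1048576) (nat_lit 1073741824) iv25 = true := by decide +kernel

/-- data -/
def iv26 : Iv := ⟨nat_lit 2102, nat_lit 2104, nat_lit 1430950182,
  [(nat_lit 0, nat_lit 1039341), (nat_lit 1047300, nat_lit 976773), (nat_lit 794748, nat_lit 1039341), (nat_lit 1729578, nat_lit 534625), (nat_lit 1797350, nat_lit 1735300), (nat_lit 1729578, nat_lit 1544057), (nat_lit 1047300, nat_lit 1101909), (nat_lit 637189, nat_lit 0), (nat_lit 637189, nat_lit 2078682), (nat_lit 1797350, nat_lit 343382)],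
  [⟨nat_lit 1070994533, nat_lit 2851562, nat_lit 1070997142, nat_lit 2867685⟩, ⟨nat_lit 1070994533, nat_lit 2851562, nat_lit 1070997142, nat_lit 2867685⟩, ⟨nat_lit 376476690, nat_lit 1053941753, nat_lit 376851941, nat_lit 1053960401⟩, ⟨nat_lit 376476690, nat_lit 1053941753, nat_lit 376851941, nat_lit 1053960401⟩, ⟨nat_lit 530575834, nat_lit 543271258, nat_lit 530931491, nat_lit 543623206⟩, ⟨nat_lit 148971172, nat_lit 924875945, nat_lit 149251132, nat_lit 925007166⟩, ⟨nat_lit 843294230, nat_lit 230551893, nat_lit 843487914, nat_lit 230889296⟩, ⟨nat_lit 977084573, nat_lit 453266542, nat_lit 977172192, nat_lit 453638281⟩, ⟨nat_lit 843294230, nat_lit 230551893, nat_lit 843487914, nat_lit 230889296⟩, ⟨nat_lit 19905733, nat_lit 1053941753, nat_lit 19981335, nat_lit 1053960401⟩, ⟨nat_lit 19905733, nat_lit 1053941753, nat_lit 19981335, nat_lit 1053960401⟩, ⟨nat_lit 977084573, nat_lit 453266542, nat_lit 977172192, nat_lit 453638281⟩, ⟨nat_lit 3373552, nat_lit 1427804798,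 nat_lit 3392084, nat_lit 1427418056⟩, ⟨nat_lit 1170317044, nat_lit 260239551, nat_lit 1170221237, nat_lit 260590395⟩, ⟨nat_lit 1328324172, nat_lit 102525894, nat_lit 1328055545, nat_lit 102755059⟩, ⟨nat_lit 1170317044, nat_lit 260239551, nat_lit 1170221237, nat_lit 260590395⟩, ⟨nat_lit 3373552, nat_lit 1427804798, nat_lit 3392084, nat_lit 1427418056⟩, ⟨nat_lit 148971172, nat_lit 1191879276, nat_lit 149251132, nat_lit 1191761022⟩, ⟨nat_lit 148971172, nat_lit 924875945, nat_lit 149251132, nat_lit 925007166⟩, ⟨nat_lit 530575834, nat_lit 543271258, nat_lit 530931491, nat_lit 543623206⟩, ⟨nat_lit 1328324172, nat_lit 102525894, nat_lit 1328055545, nat_lit 102755059⟩]⟩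

theorem iv26_ok : ivOK (nat_lit 1000) (nat_lit 1048576) (nat_lit 1073741824) iv26 = true := by decide +kernel

/-- data -/
def iv27 : Iv := ⟨nat_lit 2104, nat_lit 2106, nat_lit 1431341248,
  [(nat_lit 1798040, nat_lit 1039403), (nat_lit 750716, nat_lit 1101637), (nat_lit 1002920, nat_lit 1039403), (nat_lit 67742, nat_lit 1543985), (nat_lit 0, nat_lit 343299), (nat_lit 67742, nat_lit 534821), (nat_lit 750716, nat_lit 977169), (nat_lit 1160328, nat_lit 2078806), (nat_lit 1160328, nat_lit 0), (nat_lit 0, nat_lit 1735507)],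
  [⟨nat_lit 1071043613, nat_lit 2803746, nat_lit 1071046173, nat_lit 2819629⟩, ⟨nat_lit 1071043613, nat_lit 2803746, nat_lit 1071046173, nat_lit 2819629⟩, ⟨nat_lit 376752235, nat_lit 1054055515, nat_lit 377127141, nat_lit 1054074039⟩, ⟨nat_lit 376752235, nat_lit 1054055515, nat_lit 377127141, nat_lit 1054074039⟩, ⟨nat_lit 531212416, nat_lit 542634683, nat_lit 531567557, nat_lit 542986489⟩, ⟨nat_lit 148310977, nat_lit 925534475, nat_lit 148590059, nat_lit 925665038⟩, ⟨nat_lit 843761702, nat_lit 230086281, nat_lit 843954865, nat_lit 230423126⟩, ⟨nat_lit 977649682, nat_lit 453093851, nat_lit 977736731, nat_lit 453465260⟩, ⟨nat_lit 843761702, nat_lit 230086281, nat_lit 843954865, nat_lit 230423126⟩, ⟨nat_lit 19790414, nat_lit 1054055515, nat_lit 19865617, nat_lit 1054074039⟩, ⟨nat_lit 19790414, nat_lit 1054055515, nat_lit 19865617, nat_lit 1054074039⟩, ⟨nat_lit 977649682, nat_lit 453093851, nat_lit 977736731, nat_lit 453465260⟩, ⟨nat_lit 3351995, nat_lit 1428219201,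 nat_lit 3370412, nat_lit 1427832321⟩, ⟨nat_lit 1170857418, nat_lit 260089878, nat_lit 1170761145, nat_lit 260440329⟩, ⟨nat_lit 1328995649, nat_lit 102245174, nat_lit 1328726503, nat_lit 102473761⟩, ⟨nat_lit 1170857418, nat_lit 260089878, nat_lit 1170761145, nat_lit 260440329⟩, ⟨nat_lit 3351995, nat_lit 1428219201, nat_lit 3370412, nat_lit 1427832321⟩, ⟨nat_lit 148310977, nat_lit 1191377963, nat_lit 148590059, nat_lit 1191260347⟩, ⟨nat_lit 148310977, nat_lit 925534475, nat_lit 148590059, nat_lit 925665038⟩, ⟨nat_lit 531212416, nat_lit 542634683, nat_lit 531567557, nat_lit 542986489⟩, ⟨nat_lit 1328995649, nat_lit 102245174, nat_lit 1328726503, nat_lit 102473761⟩]⟩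

theorem iv27_ok : ivOK (nat_lit 1000) (nat_lit 1048576) (nat_lit 1073741824) iv27 = true := by decide +kernel

/-- data -/
def iv28 : Iv := ⟨nat_lit 2106, nat_lit 2108, nat_lit 1431732420,
  [(nat_lit 1798728, nat_lit 1039466), (nat_lit 751381, nat_lit 977565), (nat_lit 1003237, nat_lit 1039466), (nat_lit 67713, nat_lit 535019), (nat_lit 0, nat_lit 1735714), (nat_lit 67713, nat_lit 1543913), (nat_lit 751381, nat_lit 1101367), (nat_lit 1160494, nat_lit 0), (nat_lit 1160494, nat_lit 2078932), (nat_lit 0, nat_lit 343218)],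
  [⟨nat_lit 1071090636, nat_lit 2756601, nat_lit 1071093150, nat_lit 2772246⟩, ⟨nat_lit 1071090636, nat_lit 2756601, nat_lit 1071093150, nat_lit 2772246⟩, ⟨nat_lit 377027439, nat_lit 1054171670, nat_lit 377402001, nat_lit 1054190068⟩, ⟨nat_lit 377027439, nat_lit 1054171670, nat_lit 377402001, nat_lit 1054190068⟩, ⟨nat_lit 531849277, nat_lit 541998243, nat_lit 532203900, nat_lit 542349907⟩, ⟨nat_lit 147652527, nat_lit 926194654, nat_lit 147930730, nat_lit 926324561⟩, ⟨nat_lit 844226639, nat_lit 229620373, nat_lit 844419284, nat_lit 229956658⟩, ⟨nat_lit 978214096, nat_lit 452920190, nat_lit 978300577, nat_lit 453291269⟩, ⟨nat_lit 844226639, nat_lit 229620373, nat_lit 844419284, nat_lit 229956658⟩, ⟨nat_lit 19675650, nat_lit 1054171670, nat_lit 19750455, nat_lit 1054190068⟩, ⟨nat_lit 19675650, nat_lit 1054171670, nat_lit 19750455, nat_lit 1054190068⟩, ⟨nat_lit 978214096, nat_lit 452920190, nat_lit 978300577, nat_lit 453291269⟩, ⟨nat_lit 3330672, nat_lit 1428628760,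 nat_lit 3348975, nat_lit 1428241748⟩, ⟨nat_lit 1171394288, nat_lit 259942647, nat_lit 1171297553, nat_lit 260292707⟩, ⟨nat_lit 1329665757, nat_lit 101966363, nat_lit 1329396095, nat_lit 102194375⟩, ⟨nat_lit 1171394288, nat_lit 259942647, nat_lit 1171297553, nat_lit 260292707⟩, ⟨nat_lit 3330672, nat_lit 1428628760, nat_lit 3348975, nat_lit 1428241748⟩, ⟨nat_lit 147652527, nat_lit 1190880090, nat_lit 147930730, nat_lit 1190763107⟩, ⟨nat_lit 147652527, nat_lit 926194654, nat_lit 147930730, nat_lit 926324561⟩, ⟨nat_lit 531849277, nat_lit 541998243, nat_lit 532203900, nat_lit 542349907⟩, ⟨nat_lit 1329665757, nat_lit 101966363, nat_lit 1329396095, nat_lit 102194375⟩]⟩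

theorem iv28_ok : ivOK (nat_lit 1000) (nat_lit 1048576) (nat_lit 1073741824) iv28 = true := by decide +kernel

/-- data -/
def iv29 : Iv := ⟨nat_lit 2108, nat_lit 2110, nat_lit 1432123698,
  [(nat_lit 0, nat_lit 1039529), (nat_lit 1047370, nat_lit 977959), (nat_lit 795861, nat_lit 1039529), (nat_lit 1731731, nat_lit 535216), (nat_lit 1799414, nat_lit 1735921), (nat_lit 1731731, nat_lit 1543842), (nat_lit 1047370, nat_lit 1101099), (nat_lit 638754, nat_lit 0), (nat_lit 638754, nat_lit 2079058), (nat_lit 1799414, nat_lit 343137)],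
  [⟨nat_lit 1071137755, nat_lit 2710210, nat_lit 1071140221, nat_lit 2725621⟩, ⟨nat_lit 1071137755, nat_lit 2710210, nat_lit 1071140221, nat_lit 2725621⟩, ⟨nat_lit 377301053, nat_lit 1054288086, nat_lit 377675272, nat_lit 1054306358⟩, ⟨nat_lit 377301053, nat_lit 1054288086, nat_lit 377675272, nat_lit 1054306358⟩, ⟨nat_lit 532484918, nat_lit 541364952, nat_lit 532839026, nat_lit 541716473⟩, ⟨nat_lit 146997341, nat_lit 926852487, nat_lit 147274667, nat_lit 926981738⟩, ⟨nat_lit 844692839, nat_lit 229156086, nat_lit 844884965, nat_lit 229491814⟩, ⟨nat_lit 978777809, nat_lit 452746930, nat_lit 978863723, nat_lit 453117679⟩, ⟨nat_lit 844692839, nat_lit 229156086, nat_lit 844884965, nat_lit 229491814⟩, ⟨nat_lit 19561701, nat_lit 1054288086, nat_lit 19636110, nat_lit 1054306358⟩, ⟨nat_lit 19561701, nat_lit 1054288086, nat_lit 19636110, nat_lit 1054306358⟩, ⟨nat_lit 978777809, nat_lit 452746930, nat_lit 978863723, nat_lit 453117679⟩, ⟨nat_lit 3309375, nat_lit 1429040990,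 nat_lit 3327563, nat_lit 1428653843⟩, ⟨nat_lit 1171934424, nat_lit 259794784, nat_lit 1171837224, nat_lit 260144454⟩, ⟨nat_lit 1330336907, nat_lit 101688205, nat_lit 1330066729, nat_lit 101915643⟩, ⟨nat_lit 1171934424, nat_lit 259794784, nat_lit 1171837224, nat_lit 260144454⟩, ⟨nat_lit 3309375, nat_lit 1429040990, nat_lit 3327563, nat_lit 1428653843⟩, ⟨nat_lit 146997341, nat_lit 1190385669, nat_lit 147274667, nat_lit 1190269313⟩, ⟨nat_lit 146997341, nat_lit 926852487, nat_lit 147274667, nat_lit 926981738⟩, ⟨nat_lit 532484918, nat_lit 541364952, nat_lit 532839026, nat_lit 541716473⟩, ⟨nat_lit 1330336907, nat_lit 101688205, nat_lit 1330066729, nat_lit 101915643⟩]⟩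

theorem iv29_ok : ivOK (nat_lit 1000) (nat_lit 1048576) (nat_lit 1073741824) iv29 = true := by decide +kernel

/-- data -/
def iv30 : Iv := ⟨nat_lit 2110, nat_lit 2112, nat_lit 1432515084,
  [(nat_lit 1039591, nat_lit 0), (nat_lit 978350, nat_lit 1047394), (nat_lit 1039591, nat_lit 796229), (nat_lit 535413, nat_lit 1732444), (nat_lit 1736127, nat_lit 1800097), (nat_lit 1543769, nat_lit 1732444), (nat_lit 1100832, nat_lit 1047394), (nat_lit 0, nat_lit 639273), (nat_lit 2079182, nat_lit 639273), (nat_lit 343055, nat_lit 1800097)],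
  [⟨nat_lit 2664563, nat_lit 1071187128, nat_lit 2679744, nat_lit 1071189546⟩, ⟨nat_lit 2664563, nat_lit 1071187128, nat_lit 2679744, nat_lit 1071189546⟩, ⟨nat_lit 1054402620, nat_lit 377574320, nat_lit 1054420768, nat_lit 377948197⟩, ⟨nat_lit 1054402620, nat_lit 377574320, nat_lit 1054420768, nat_lit 377948197⟩, ⟨nat_lit 540734813, nat_lit 533116342, nat_lit 541086188, nat_lit 533469935⟩, ⟨nat_lit 927505957, nat_lit 146345407, nat_lit 927634558, nat_lit 146621859⟩, ⟨nat_lit 228691504, nat_lit 845158395, nat_lit 229026673, nat_lit 845350004⟩, ⟨nat_lit 452574070, nat_lit 979340815, nat_lit 452944490, nat_lit 979426164⟩, ⟨nat_lit 228691504, nat_lit 845158395, nat_lit 229026673, nat_lit 845350004⟩, ⟨nat_lit 1054402620, nat_lit 19448039, nat_lit 1054420768, nat_lit 19522053⟩, ⟨nat_lit 1054402620, nat_lit 19448039, nat_lit 1054420768, nat_lit 19522053⟩, ⟨nat_lit 452574070, nat_lit 979340815, nat_lit 452944490, nat_lit 979426164⟩, ⟨nat_lit 1429450873, nat_lit 3288206,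 nat_lit 1429063593, nat_lit 3306281⟩, ⟨nat_lit 259647314, nat_lit 1172471040, nat_lit 259996593, nat_lit 1172373379⟩, ⟨nat_lit 101410074, nat_lit 1331004257, nat_lit 101636939, nat_lit 1330733567⟩, ⟨nat_lit 259647314, nat_lit 1172471040, nat_lit 259996593, nat_lit 1172373379⟩, ⟨nat_lit 1429450873, nat_lit 3288206, nat_lit 1429063593, nat_lit 3306281⟩, ⟨nat_lit 1189892429, nat_lit 146345407, nat_lit 1189776699, nat_lit 146621859⟩, ⟨nat_lit 927505957, nat_lit 146345407, nat_lit 927634558, nat_lit 146621859⟩, ⟨nat_lit 540734813, nat_lit 533116342, nat_lit 541086188, nat_lit 533469935⟩, ⟨nat_lit 101410074, nat_lit 1331004257, nat_lit 101636939, nat_lit 1330733567⟩]⟩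

theorem iv30_ok : ivOK (nat_lit 1000) (nat_lit 1048576) (nat_lit 1073741824) iv30 = true := by decide +kernel

/-- data -/
def iv31 : Iv := ⟨nat_lit 2112, nat_lit 2114, nat_lit 1432906577,
  [(nat_lit 0, nat_lit 1039654), (nat_lit 1047417, nat_lit 978740), (nat_lit 796596, nat_lit 1039654), (nat_lit 1733156, nat_lit 535610), (nat_lit 1800778, nat_lit 1736333), (nat_lit 1733156, nat_lit 1543698), (nat_lit 1047417, nat_lit 1100568), (nat_lit 639791, nat_lit 0), (nat_lit 639791, nat_lit 2079308), (nat_lit 1800778, nat_lit 342975)],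
  [⟨nat_lit 1071234439, nat_lit 2619652, nat_lit 1071236809, nat_lit 2634605⟩, ⟨nat_lit 1071234439, nat_lit 2619652, nat_lit 1071236809, nat_lit 2634605⟩, ⟨nat_lit 377847238, nat_lit 1054519554, nat_lit 378220772, nat_lit 1054537577⟩, ⟨nat_lit 377847238, nat_lit 1054519554, nat_lit 378220772, nat_lit 1054537577⟩, ⟨nat_lit 533748021, nat_lit 540106319, nat_lit 534101100, nat_lit 540457548⟩, ⟨nat_lit 145695205, nat_lit 928159053, nat_lit 145970784, nat_lit 928287005⟩, ⟨nat_lit 845625212, nat_lit 228228541, nat_lit 845816303, nat_lit 228563153⟩, ⟨nat_lit 979903108, nat_lit 452400236, nat_lit 979987893, nat_lit 452770328⟩, ⟨nat_lit 845625212, nat_lit 228228541, nat_lit 845816303, nat_lit 228563153⟩, ⟨nat_lit 19334925, nat_lit 1054519554, nat_lit 19408545, nat_lit 1054537577⟩, ⟨nat_lit 19334925, nat_lit 1054519554, nat_lit 19408545, nat_lit 1054537577⟩, ⟨nat_lit 979903108, nat_lit 452400236, nat_lit 979987893, nat_lit 452770328⟩, ⟨nat_lit 3267064, nat_lit 1429860915,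 nat_lit 3285026, nat_lit 1429473503⟩, ⟨nat_lit 1173008656, nat_lit 259500235, nat_lit 1172910535, nat_lit 259849125⟩, ⟨nat_lit 1331670213, nat_lit 101133841, nat_lit 1331399013, nat_lit 101360135⟩, ⟨nat_lit 1173008656, nat_lit 259500235, nat_lit 1172910535, nat_lit 259849125⟩, ⟨nat_lit 3267064, nat_lit 1429860915, nat_lit 3285026, nat_lit 1429473503⟩, ⟨nat_lit 145695205, nat_lit 1189404945, nat_lit 145970784, nat_lit 1189289833⟩, ⟨nat_lit 145695205, nat_lit 928159053, nat_lit 145970784, nat_lit 928287005⟩, ⟨nat_lit 533748021, nat_lit 540106319, nat_lit 534101100, nat_lit 540457548⟩, ⟨nat_lit 1331670213, nat_lit 101133841, nat_lit 1331399013, nat_lit 101360135⟩]⟩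

theorem iv31_ok : ivOK (nat_lit 1000) (nat_lit 1048576) (nat_lit 1073741824) iv31 = true := by decide +kernel

/-- data -/
def iv32 : Iv := ⟨nat_lit 2114, nat_lit 2116, nat_lit 1433298177,
  [(nat_lit 1801456, nat_lit 1039716), (nat_lit 754016, nat_lit 979128), (nat_lit 1004495, nat_lit 1039716), (nat_lit 67591, nat_lit 535806), (nat_lit 0, nat_lit 1736537), (nat_lit 67591, nat_lit 1543626), (nat_lit 754016, nat_lit 1100304), (nat_lit 1161148, nat_lit 0), (nat_lit 1161148, nat_lit 2079432), (nat_lit 0, nat_lit 342895)],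
  [⟨nat_lit 1071281845, nat_lit 2575375, nat_lit 1071284168, nat_lit 2590103⟩, ⟨nat_lit 1071281845, nat_lit 2575375, nat_lit 1071284168, nat_lit 2590103⟩, ⟨nat_lit 378119804, nat_lit 1054634602, nat_lit 378492996, nat_lit 1054652501⟩, ⟨nat_lit 378119804, nat_lit 1054634602, nat_lit 378492996, nat_lit 1054652501⟩, ⟨nat_lit 534376955, nat_lit 539477963, nat_lit 534729521, nat_lit 539829047⟩, ⟨nat_lit 145047490, nat_lit 928809764, nat_lit 145322195, nat_lit 928937069⟩, ⟨nat_lit 846091379, nat_lit 227766240, nat_lit 846281954, nat_lit 228100295⟩, ⟨nat_lit 980464682, nat_lit 452225426, nat_lit 980548905, nat_lit 452595191⟩, ⟨nat_lit 846091379, nat_lit 227766240, nat_lit 846281954, nat_lit 228100295⟩, ⟨nat_lit 19222097, nat_lit 1054634602, nat_lit 19295326, nat_lit 1054652501⟩, ⟨nat_lit 19222097, nat_lit 1054634602, nat_lit 19295326, nat_lit 1054652501⟩, ⟨nat_lit 980464682, nat_lit 452225426, nat_lit 980548905, nat_lit 452595191⟩, ⟨nat_lit 3246050, nat_lit 1430268598,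 nat_lit 3263900, nat_lit 1429881056⟩, ⟨nat_lit 1173542733, nat_lit 259352522, nat_lit 1173444154, nat_lit 259701024⟩, ⟨nat_lit 1332332339, nat_lit 100858255, nat_lit 1332060635, nat_lit 101083980⟩, ⟨nat_lit 1173542733, nat_lit 259352522, nat_lit 1173444154, nat_lit 259701024⟩, ⟨nat_lit 3246050, nat_lit 1430268598, nat_lit 3263900, nat_lit 1429881056⟩, ⟨nat_lit 145047490, nat_lit 1188916376, nat_lit 145322195, nat_lit 1188801882⟩, ⟨nat_lit 145047490, nat_lit 928809764, nat_lit 145322195, nat_lit 928937069⟩, ⟨nat_lit 534376955, nat_lit 539477963, nat_lit 534729521, nat_lit 539829047⟩, ⟨nat_lit 1332332339, nat_lit 100858255, nat_lit 1332060635, nat_lit 101083980⟩]⟩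

theorem iv32_ok : ivOK (nat_lit 1000) (nat_lit 1048576) (nat_lit 1073741824) iv32 = true := by decide +kernel

/-- data -/
def iv33 : Iv := ⟨nat_lit 2116, nat_lit 2118, nat_lit 1433689884,
  [(nat_lit 1039778, nat_lit 1802132), (nat_lit 1100042, nat_lit 754669), (nat_lit 1039778, nat_lit 1004807), (nat_lit 1543553, nat_lit 67560), (nat_lit 342814, nat_lit 0), (nat_lit 536003, nat_lit 67560), (nat_lit 979514, nat_lit 754669), (nat_lit 2079556, nat_lit 1161309), (nat_lit 0, nat_lit 1161309), (nat_lit 1736742, nat_lit 0)],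
  [⟨nat_lit 2531815, nat_lit 1071329346, nat_lit 2546321, nat_lit 1071331622⟩, ⟨nat_lit 2531815, nat_lit 1071329346, nat_lit 2546321, nat_lit 1071331622⟩, ⟨nat_lit 1054749906, nat_lit 378390766, nat_lit 1054767682, nat_lit 378763616⟩, ⟨nat_lit 1054749906, nat_lit 378390766, nat_lit 1054767682, nat_lit 378763616⟩, ⟨nat_lit 538854270, nat_lit 535004633, nat_lit 539205205, nat_lit 535356685⟩, ⟨nat_lit 929458076, nat_lit 144403007, nat_lit 929584736, nat_lit 144676842⟩, ⟨nat_lit 227303643, nat_lit 846556893, nat_lit 227637142, nat_lit 846746953⟩, ⟨nat_lit 452052387, nat_lit 981025531, nat_lit 452421824, nat_lit 981109193⟩, ⟨nat_lit 227303643, nat_lit 846556893, nat_lit 227637142, nat_lit 846746953⟩, ⟨nat_lit 1054749906, nat_lit 19110074, nat_lit 1054767682, nat_lit 19182913⟩, ⟨nat_lit 1054749906, nat_lit 19110074, nat_lit 1054767682, nat_lit 19182913⟩, ⟨nat_lit 452052387, nat_lit 981025531, nat_lit 452421824, nat_lit 981109193⟩, ⟨nat_lit 1430676435, nat_lit 3225164,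 nat_lit 1430288763, nat_lit 3242902⟩, ⟨nat_lit 259206224, nat_lit 1174077800, nat_lit 259554339, nat_lit 1173978764⟩, ⟨nat_lit 100582693, nat_lit 1332995479, nat_lit 100807849, nat_lit 1332723271⟩, ⟨nat_lit 259206224, nat_lit 1174077800, nat_lit 259554339, nat_lit 1173978764⟩, ⟨nat_lit 1430676435, nat_lit 3225164, nat_lit 1430288763, nat_lit 3242902⟩, ⟨nat_lit 1188431299, nat_lit 144403007, nat_lit 1188317417, nat_lit 144676842⟩, ⟨nat_lit 929458076, nat_lit 144403007, nat_lit 929584736, nat_lit 144676842⟩, ⟨nat_lit 538854270, nat_lit 535004633, nat_lit 539205205, nat_lit 535356685⟩, ⟨nat_lit 100582693, nat_lit 1332995479, nat_lit 100807849, nat_lit 1332723271⟩]⟩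

theorem iv33_ok : ivOK (nat_lit 1000) (nat_lit 1048576) (nat_lit 1073741824) iv33 = true := by decide +kernel

/-- data -/
def iv34 : Iv := ⟨nat_lit 2118, nat_lit 2120, nat_lit 1434081698,
  [(nat_lit 1802806, nat_lit 1039840), (nat_lit 755321, nat_lit 1099782), (nat_lit 1005119, nat_lit 1039840), (nat_lit 67530, nat_lit 1543481), (nat_lit 0, nat_lit 342734), (nat_lit 67530, nat_lit 536199), (nat_lit 755321, nat_lit 979898), (nat_lit 1161469, nat_lit 2079680), (nat_lit 1161469, nat_lit 0), (nat_lit 0, nat_lit 1736946)],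
  [⟨nat_lit 1071374773, nat_lit 2488961, nat_lit 1071377005, nat_lit 2503249⟩, ⟨nat_lit 1071374773, nat_lit 2488961, nat_lit 1071377005, nat_lit 2503249⟩, ⟨nat_lit 378661369, nat_lit 1054865467, nat_lit 379033878, nat_lit 1054883119⟩, ⟨nat_lit 378661369, nat_lit 1054865467, nat_lit 379033878, nat_lit 1054883119⟩, ⟨nat_lit 535632548, nat_lit 538232225, nat_lit 535984088, nat_lit 538583011⟩, ⟨nat_lit 143760246, nat_lit 930103975, nat_lit 144033211, nat_lit 930229995⟩, ⟨nat_lit 847021747, nat_lit 226842663, nat_lit 847211293, nat_lit 227175607⟩, ⟨nat_lit 981587720, nat_lit 451878370, nat_lit 981670820, nat_lit 452247481⟩, ⟨nat_lit 847021747, nat_lit 226842663, nat_lit 847211293, nat_lit 227175607⟩, ⟨nat_lit 18998336, nat_lit 1054865467, nat_lit 19070786, nat_lit 1054883119⟩, ⟨nat_lit 18998336, nat_lit 1054865467, nat_lit 19070786, nat_lit 1054883119⟩, ⟨nat_lit 981587720, nat_lit 451878370, nat_lit 981670820, nat_lit 452247481⟩, ⟨nat_lit 3204506, nat_lit 1431084426,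 nat_lit 3222133, nat_lit 1430696624⟩, ⟨nat_lit 1174609307, nat_lit 259059291, nat_lit 1174509818, nat_lit 259407018⟩, ⟨nat_lit 1333657200, nat_lit 100308398, nat_lit 1333384489, nat_lit 100532986⟩, ⟨nat_lit 1174609307, nat_lit 259059291, nat_lit 1174509818, nat_lit 259407018⟩, ⟨nat_lit 3204506, nat_lit 1431084426, nat_lit 3222133, nat_lit 1430696624⟩, ⟨nat_lit 143760246, nat_lit 1187949725, nat_lit 144033211, nat_lit 1187836451⟩, ⟨nat_lit 143760246, nat_lit 930103975, nat_lit 144033211, nat_lit 930229995⟩, ⟨nat_lit 535632548, nat_lit 538232225, nat_lit 535984088, nat_lit 538583011⟩, ⟨nat_lit 1333657200, nat_lit 100308398, nat_lit 1333384489, nat_lit 100532986⟩]⟩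

theorem iv34_ok : ivOK (nat_lit 1000) (nat_lit 1048576) (nat_lit 1073741824) iv34 = true := by decide +kernel

/-- data -/
def iv35 : Iv := ⟨nat_lit 2120, nat_lit 2122, nat_lit 1434473619,
  [(nat_lit 1803478, nat_lit 1039902), (nat_lit 755970, nat_lit 980280), (nat_lit 1005430, nat_lit 1039902), (nat_lit 67499, nat_lit 536395), (nat_lit 0, nat_lit 1737149), (nat_lit 67499, nat_lit 1543409), (nat_lit 755970, nat_lit 1099524), (nat_lit 1161628, nat_lit 0), (nat_lit 1161628, nat_lit 2079804), (nat_lit 0, nat_lit 342655)],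
  [⟨nat_lit 1071422462, nat_lit 2446805, nat_lit 1071424647, nat_lit 2460878⟩, ⟨nat_lit 1071422462, nat_lit 2446805, nat_lit 1071424647, nat_lit 2460878⟩, ⟨nat_lit 378931612, nat_lit 1054981284, nat_lit 379303780, nat_lit 1054998812⟩, ⟨nat_lit 378931612, nat_lit 1054981284, nat_lit 379303780, nat_lit 1054998812⟩, ⟨nat_lit 536257689, nat_lit 537611830, nat_lit 536608718, nat_lit 537962466⟩, ⟨nat_lit 143120705, nat_lit 930747450, nat_lit 143392802, nat_lit 930872832⟩, ⟨nat_lit 847487854, nat_lit 226382343, nat_lit 847676886, nat_lit 226714732⟩, ⟨nat_lit 982149177, nat_lit 451703373, nat_lit 982231717, nat_lit 452072159⟩, ⟨nat_lit 847487854, nat_lit 226382343, nat_lit 847676886, nat_lit 226714732⟩, ⟨nat_lit 18887139, nat_lit 1054981284, nat_lit 18959202, nat_lit 1054998812⟩, ⟨nat_lit 18887139, nat_lit 1054981284, nat_lit 18959202, nat_lit 1054998812⟩, ⟨nat_lit 982149177, nat_lit 451703373, nat_lit 982231717, nat_lit 452072159⟩, ⟨nat_lit 3183873, nat_lit 1431490041,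 nat_lit 3201389, nat_lit 1431102113⟩, ⟨nat_lit 1175141795, nat_lit 258912746, nat_lit 1175041853, nat_lit 259260087⟩, ⟨nat_lit 1334317494, nat_lit 100035365, nat_lit 1334044283, nat_lit 100259389⟩, ⟨nat_lit 1175141795, nat_lit 258912746, nat_lit 1175041853, nat_lit 259260087⟩, ⟨nat_lit 3183873, nat_lit 1431490041, nat_lit 3201389, nat_lit 1431102113⟩, ⟨nat_lit 143120705, nat_lit 1187471665, nat_lit 143392802, nat_lit 1187358994⟩, ⟨nat_lit 143120705, nat_lit 930747450, nat_lit 143392802, nat_lit 930872832⟩, ⟨nat_lit 536257689, nat_lit 537611830, nat_lit 536608718, nat_lit 537962466⟩, ⟨nat_lit 1334317494, nat_lit 100035365, nat_lit 1334044283, nat_lit 100259389⟩]⟩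

theorem iv35_ok : ivOK (nat_lit 1000) (nat_lit 1048576) (nat_lit 1073741824) iv35 = true := by decide +kernel

/-- data -/
def iv36 : Iv := ⟨nat_lit 2122, nat_lit 2125, nat_lit 1434865647,
  [(nat_lit 1039932, nat_lit 1804393), (nat_lit 1099080, nat_lit 756902), (nat_lit 1039932, nat_lit 1005789), (nat_lit 1543332, nat_lit 67452), (nat_lit 342514, nat_lit 0), (nat_lit 536532, nat_lit 67452), (nat_lit 980784, nat_lit 756902), (nat_lit 2079864, nat_lit 1161861), (nat_lit 0, nat_lit 1161861), (nat_lit 1737350, nat_lit 0)],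
  [⟨nat_lit 2385051, nat_lit 1071382238, nat_lit 2405713, nat_lit 1071385566⟩, ⟨nat_lit 2385051, nat_lit 1071382238, nat_lit 2405713, nat_lit 1071385566⟩, ⟨nat_lit 1055019668, nat_lit 379228896, nat_lit 1055045869, nat_lit 379786514⟩, ⟨nat_lit 1055019668, nat_lit 379228896, nat_lit 1055045869, nat_lit 379786514⟩, ⟨nat_lit 536629504, nat_lit 537136068, nat_lit 537155228, nat_lit 537661572⟩, ⟨nat_lit 931576384, nat_lit 142191470, nat_lit 931763192, nat_lit 142597895⟩, ⟨nat_lit 225782682, nat_lit 847983872, nat_lit 226280270, nat_lit 848266500⟩, ⟨nat_lit 451385914, nat_lit 982770648, nat_lit 451938483, nat_lit 982893486⟩, ⟨nat_lit 225782682, nat_lit 847983872, nat_lit 226280270, nat_lit 848266500⟩, ⟨nat_lit 1055019668, nat_lit 18747383, nat_lit 1055045869, nat_lit 18854825⟩, ⟨nat_lit 1055019668, nat_lit 18747383, nat_lit 1055045869, nat_lit 18854825⟩, ⟨nat_lit 451385914, nat_lit 982770648, nat_lit 451938483, nat_lit 982893486⟩, ⟨nat_lit 1432234336, nat_lit 3153109,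 nat_lit 1431651952, nat_lit 3179171⟩, ⟨nat_lit 258532869, nat_lit 1175930955, nat_lit 259053092, nat_lit 1175780041⟩, ⟨nat_lit 99613110, nat_lit 1335296387, nat_lit 99948037, nat_lit 1334885487⟩, ⟨nat_lit 258532869, nat_lit 1175930955, nat_lit 259053092, nat_lit 1175780041⟩, ⟨nat_lit 1432234336, nat_lit 3153109, nat_lit 1431651952, nat_lit 3179171⟩, ⟨nat_lit 1186621812, nat_lit 142191470, nat_lit 1186454368, nat_lit 142597895⟩, ⟨nat_lit 931576384, nat_lit 142191470, nat_lit 931763192, nat_lit 142597895⟩, ⟨nat_lit 536629504, nat_lit 537136068, nat_lit 537155228, nat_lit 537661572⟩, ⟨nat_lit 99613110, nat_lit 1335296387, nat_lit 99948037, nat_lit 1334885487⟩]⟩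

theorem iv36_ok : ivOK (nat_lit 1000) (nat_lit 1048576) (nat_lit 1073741824) iv36 = true := by decide +kernel

/-- data -/
def iv37 : Iv := ⟨nat_lit 2125, nat_lit 2128, nat_lit 1435453890,
  [(nat_lit 1040025, nat_lit 1805391), (nat_lit 981350, nat_lit 757866), (nat_lit 1040025, nat_lit 1006252), (nat_lit 536826, nat_lit 67405), (nat_lit 1737654, nat_lit 0), (nat_lit 1543224, nat_lit 67405), (nat_lit 1098700, nat_lit 757866), (nat_lit 0, nat_lit 1162095), (nat_lit 2080050, nat_lit 1162095), (nat_lit 342396, nat_lit 0)],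
  [⟨nat_lit 2324510, nat_lit 1071452913, nat_lit 2344704, nat_lit 1071456138⟩, ⟨nat_lit 2324510, nat_lit 1071452913, nat_lit 2344704, nat_lit 1071456138⟩, ⟨nat_lit 1055194250, nat_lit 379630891, nat_lit 1055220172, nat_lit 380187744⟩, ⟨nat_lit 1055194250, nat_lit 379630891, nat_lit 1055220172, nat_lit 380187744⟩, ⟨nat_lit 535709302, nat_lit 538066473, nat_lit 536234681, nat_lit 538590830⟩, ⟨nat_lit 932533775, nat_lit 141242860, nat_lit 932719162, nat_lit 141647340⟩, ⟨nat_lit 225094811, nat_lit 848682090, nat_lit 225591154, nat_lit 848963567⟩, ⟨nat_lit 451124324, nat_lit 983610672, nat_lit 451676163, nat_lit 983732257⟩, ⟨nat_lit 225094811, nat_lit 848682090, nat_lit 225591154, nat_lit 848963567⟩, ⟨nat_lit 1055194250, nat_lit 18582401, nat_lit 1055220172, nat_lit 18688979⟩, ⟨nat_lit 1055194250, nat_lit 18582401, nat_lit 1055220172, nat_lit 18688979⟩, ⟨nat_lit 451124324, nat_lit 983610672, nat_lit 451676163, nat_lit 983732257⟩, ⟨nat_lit 1432842350, nat_lit 3122626,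 nat_lit 1432259683, nat_lit 3148443⟩, ⟨nat_lit 258314646, nat_lit 1176724574, nat_lit 258834004, nat_lit 1176572653⟩, ⟨nat_lit 99206537, nat_lit 1336279939, nat_lit 99540199, nat_lit 1335867929⟩, ⟨nat_lit 258314646, nat_lit 1176724574, nat_lit 258834004, nat_lit 1176572653⟩, ⟨nat_lit 1432842350, nat_lit 3122626, nat_lit 1432259683, nat_lit 3148443⟩, ⟨nat_lit 1185916281, nat_lit 141242860, nat_lit 1185750166, nat_lit 141647340⟩, ⟨nat_lit 932533775, nat_lit 141242860, nat_lit 932719162, nat_lit 141647340⟩, ⟨nat_lit 535709302, nat_lit 538066473, nat_lit 536234681, nat_lit 538590830⟩, ⟨nat_lit 99206537, nat_lit 1336279939, nat_lit 99540199, nat_lit 1335867929⟩]⟩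

theorem iv37_ok : ivOK (nat_lit 1000) (nat_lit 1048576) (nat_lit 1073741824) iv37 = true := by decide +kernel

/-- data -/
def iv38 : Iv := ⟨nat_lit 2128, nat_lit 2131, nat_lit 1436042374,
  [(nat_lit 0, nat_lit 1040118), (nat_lit 1047558, nat_lit 1098323), (nat_lit 799672, nat_lit 1040118), (nat_lit 1739027, nat_lit 1543115), (nat_lit 1806384, nat_lit 342279), (nat_lit 1739027, nat_lit 537121), (nat_lit 1047558, nat_lit 981913), (nat_lit 644057, nat_lit 2080236), (nat_lit 644057, nat_lit 0), (nat_lit 1806384, nat_lit 1737957)],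
  [⟨nat_lit 1071521620, nat_lit 2265331, nat_lit 1071524744, nat_lit 2285067⟩, ⟨nat_lit 1071521620, nat_lit 2265331, nat_lit 1071524744, nat_lit 2285067⟩, ⟨nat_lit 380031108, nat_lit 1055369408, nat_lit 380587198, nat_lit 1055395051⟩, ⟨nat_lit 380031108, nat_lit 1055369408, nat_lit 380587198, nat_lit 1055395051⟩, ⟨nat_lit 538994693, nat_lit 534792445, nat_lit 539517906, nat_lit 535317477⟩, ⟨nat_lit 140299566, nat_lit 933488643, nat_lit 140702106, nat_lit 933672612⟩, ⟨nat_lit 849379265, nat_lit 224407470, nat_lit 849659594, nat_lit 224902569⟩, ⟨nat_lit 984447437, nat_lit 450862240, nat_lit 984567775, nat_lit 451413351⟩, ⟨nat_lit 849379265, nat_lit 224407470, nat_lit 849659594, nat_lit 224902569⟩, ⟨nat_lit 18418875, nat_lit 1055369408, nat_lit 18524597, nat_lit 1055395051⟩, ⟨nat_lit 18418875, nat_lit 1055369408, nat_lit 18524597, nat_lit 1055395051⟩, ⟨nat_lit 984447437, nat_lit 450862240, nat_lit 984567775, nat_lit 451413351⟩, ⟨nat_lit 3092324, nat_lit 1433445605,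 nat_lit 3117897, nat_lit 1432862664⟩, ⟨nat_lit 1177518086, nat_lit 258098314, nat_lit 1177365159, nat_lit 258616812⟩, ⟨nat_lit 1337260812, nat_lit 98802009, nat_lit 1336847699, nat_lit 99134413⟩, ⟨nat_lit 1177518086, nat_lit 258098314, nat_lit 1177365159, nat_lit 258616812⟩, ⟨nat_lit 3092324, nat_lit 1433445605, nat_lit 3117897, nat_lit 1432862664⟩, ⟨nat_lit 140299566, nat_lit 1185215306, nat_lit 140702106, nat_lit 1185050509⟩, ⟨nat_lit 140299566, nat_lit 933488643, nat_lit 140702106, nat_lit 933672612⟩, ⟨nat_lit 538994693, nat_lit 534792445, nat_lit 539517906, nat_lit 535317477⟩, ⟨nat_lit 1337260812, nat_lit 98802009, nat_lit 1336847699, nat_lit 99134413⟩]⟩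

theorem iv38_ok : ivOK (nat_lit 1000) (nat_lit 1048576) (nat_lit 1073741824) iv38 = true := by decide +kernel

/-- data -/
def iv39 : Iv := ⟨nat_lit 2131, nat_lit 2134, nat_lit 1436631099,
  [(nat_lit 1040210, nat_lit 1807372), (nat_lit 1097949, nat_lit 759780), (nat_lit 1040210, nat_lit 1007170), (nat_lit 1543006, nat_lit 67309), (nat_lit 342162, nat_lit 0), (nat_lit 537414, nat_lit 67309), (nat_lit 982471, nat_lit 759780), (nat_lit 2080420, nat_lit 1162557), (nat_lit 0, nat_lit 1162557), (nat_lit 1738258, nat_lit 0)],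
  [⟨nat_lit 2207572, nat_lit 1071592715, nat_lit 2226858, nat_lit 1071595734⟩, ⟨nat_lit 2207572, nat_lit 1071592715, nat_lit 2226858, nat_lit 1071595734⟩, ⟨nat_lit 1055542978, nat_lit 380429534, nat_lit 1055568346, nat_lit 380984863⟩, ⟨nat_lit 1055542978, nat_lit 380429534, nat_lit 1055568346, nat_lit 380984863⟩, ⟨nat_lit 533880442, nat_lit 539917671, nat_lit 534405124, nat_lit 540439743⟩, ⟨nat_lit 934436900, nat_lit 139363050, nat_lit 934619463, nat_lit 139763656⟩, ⟨nat_lit 223722563, nat_lit 850075380, nat_lit 224216419, nat_lit 850354566⟩, ⟨nat_lit 450599657, nat_lit 985283001, nat_lit 451150042, nat_lit 985402096⟩, ⟨nat_lit 223722563, nat_lit 850075380, nat_lit 224216419, nat_lit 850354566⟩, ⟨nat_lit 1055542978, nat_lit 18256544, nat_lit 1055568346, nat_lit 18361415⟩, ⟨nat_lit 1055542978, nat_lit 18256544, nat_lit 1055568346, nat_lit 18361415⟩, ⟨nat_lit 450599657, nat_lit 985283001, nat_lit 451150042, nat_lit 985402096⟩, ⟨nat_lit 1434049172, nat_lit 3062299,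 nat_lit 1433465957, nat_lit 3087631⟩, ⟨nat_lit 257880800, nat_lit 1178309185, nat_lit 258398438, nat_lit 1178155258⟩, ⟨nat_lit 98398904, nat_lit 1338238981, nat_lit 98730053, nat_lit 1337824772⟩, ⟨nat_lit 257880800, nat_lit 1178309185, nat_lit 258398438, nat_lit 1178155258⟩, ⟨nat_lit 1434049172, nat_lit 3062299, nat_lit 1433465957, nat_lit 3087631⟩, ⟨nat_lit 1184518915, nat_lit 139363050, nat_lit 1184355425, nat_lit 139763656⟩, ⟨nat_lit 934436900, nat_lit 139363050, nat_lit 934619463, nat_lit 139763656⟩, ⟨nat_lit 533880442, nat_lit 539917671, nat_lit 534405124, nat_lit 540439743⟩, ⟨nat_lit 98398904, nat_lit 1338238981, nat_lit 98730053, nat_lit 1337824772⟩]⟩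

theorem iv39_ok : ivOK (nat_lit 1000) (nat_lit 1048576) (nat_lit 1073741824) iv39 = true := by decide +kernel

/-- data -/
def iv40 : Iv := ⟨nat_lit 2134, nat_lit 2137, nat_lit 1437220066,
  [(nat_lit 1040302, nat_lit 1808355), (nat_lit 1097579, nat_lit 760730), (nat_lit 1040302, nat_lit 1007627), (nat_lit 1542896, nat_lit 67260), (nat_lit 342045, nat_lit 0), (nat_lit 537708, nat_lit 67260), (nat_lit 983025, nat_lit 760730), (nat_lit 2080604, nat_lit 1162784), (nat_lit 0, nat_lit 1162784), (nat_lit 1738559, nat_lit 0)],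
  [⟨nat_lit 2151204, nat_lit 1071661835, nat_lit 2170049, nat_lit 1071664753⟩, ⟨nat_lit 2151204, nat_lit 1071661835, nat_lit 2170049, nat_lit 1071664753⟩, ⟨nat_lit 1055717120, nat_lit 380827420, nat_lit 1055742211, nat_lit 381381989⟩, ⟨nat_lit 1055717120, nat_lit 380827420, nat_lit 1055742211, nat_lit 381381989⟩, ⟨nat_lit 532974806, nat_lit 540838408, nat_lit 533499134, nat_lit 541359341⟩, ⟨nat_lit 935380530, nat_lit 138431074, nat_lit 935561695, nat_lit 138829749⟩, ⟨nat_lit 223038186, nat_lit 850774288, nat_lit 223530801, nat_lit 851052329⟩, ⟨nat_lit 450337950, nat_lit 986119438, nat_lit 450887610, nat_lit 986237292⟩, ⟨nat_lit 223038186, nat_lit 850774288, nat_lit 223530801, nat_lit 851052329⟩, ⟨nat_lit 1055717120, nat_lit 18094903, nat_lit 1055742211, nat_lit 18198927⟩, ⟨nat_lit 1055717120, nat_lit 18094903, nat_lit 1055742211, nat_lit 18198927⟩, ⟨nat_lit 450337950, nat_lit 986119438, nat_lit 450887610, nat_lit 986237292⟩, ⟨nat_lit 1434650497, nat_lit 3032454,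 nat_lit 1434067012, nat_lit 3057545⟩, ⟨nat_lit 257665172, nat_lit 1179097850, nat_lit 258181953, nat_lit 1178942928⟩, ⟨nat_lit 97997219, nat_lit 1339211959, nat_lit 98327117, nat_lit 1338796665⟩, ⟨nat_lit 257665172, nat_lit 1179097850, nat_lit 258181953, nat_lit 1178942928⟩, ⟨nat_lit 1434650497, nat_lit 3032454, nat_lit 1434067012, nat_lit 3057545⟩, ⟨nat_lit 1183829441, nat_lit 138431074, nat_lit 1183667243, nat_lit 138829749⟩, ⟨nat_lit 935380530, nat_lit 138431074, nat_lit 935561695, nat_lit 138829749⟩, ⟨nat_lit 532974806, nat_lit 540838408, nat_lit 533499134, nat_lit 541359341⟩, ⟨nat_lit 97997219, nat_lit 1339211959, nat_lit 98327117, nat_lit 1338796665⟩]⟩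

theorem iv40_ok : ivOK (nat_lit 1000) (nat_lit 1048576) (nat_lit 1073741824) iv40 = true := by decide +kernel

/-- data -/
def iv41 : Iv := ⟨nat_lit 2137, nat_lit 2140, nat_lit 1437809274,
  [(nat_lit 1040394, nat_lit 1809333), (nat_lit 983576, nat_lit 761675), (nat_lit 1040394, nat_lit 1008081), (nat_lit 538001, nat_lit 67211), (nat_lit 1738858, nat_lit 0), (nat_lit 1542787, nat_lit 67211), (nat_lit 1097212, nat_lit 761675), (nat_lit 0, nat_lit 1163009), (nat_lit 2080788, nat_lit 1163009), (nat_lit 341930, nat_lit 0)],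
  [⟨nat_lit 2096119, nat_lit 1071731159, nat_lit 2114533, nat_lit 1071733976⟩, ⟨nat_lit 2096119, nat_lit 1071731159, nat_lit 2114533, nat_lit 1071733976⟩, ⟨nat_lit 1055891833, nat_lit 381223497, nat_lit 1055916648, nat_lit 381777307⟩, ⟨nat_lit 1055891833, nat_lit 381223497, nat_lit 1055916648, nat_lit 381777307⟩, ⟨nat_lit 532071018, nat_lit 541755359, nat_lit 532594989, nat_lit 542275155⟩, ⟨nat_lit 936321532, nat_lit 137505096, nat_lit 936501305, nat_lit 137901846⟩, ⟨nat_lit 222356237, nat_lit 851470183, nat_lit 222847613, nat_lit 851747085⟩, ⟨nat_lit 450074360, nat_lit 986952552, nat_lit 450623297, nat_lit 987069171⟩, ⟨nat_lit 222356237, nat_lit 851470183, nat_lit 222847613, nat_lit 851747085⟩, ⟨nat_lit 1055891833, nat_lit 17934698, nat_lit 1055916648, nat_lit 18037880⟩, ⟨nat_lit 1055891833, nat_lit 17934698, nat_lit 1055916648, nat_lit 18037880⟩, ⟨nat_lit 450074360, nat_lit 986952552, nat_lit 450623297, nat_lit 987069171⟩, ⟨nat_lit 1435249567, nat_lit 3002883,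 nat_lit 1434665817, nat_lit 3027736⟩, ⟨nat_lit 257449381, nat_lit 1179884057, nat_lit 257965308, nat_lit 1179728147⟩, ⟨nat_lit 97598170, nat_lit 1340182174, nat_lit 97926823, nat_lit 1339765801⟩, ⟨nat_lit 257449381, nat_lit 1179884057, nat_lit 257965308, nat_lit 1179728147⟩, ⟨nat_lit 1435249567, nat_lit 3002883, nat_lit 1434665817, nat_lit 3027736⟩, ⟨nat_lit 1183144610, nat_lit 137505096, nat_lit 1182983693, nat_lit 137901846⟩, ⟨nat_lit 936321532, nat_lit 137505096, nat_lit 936501305, nat_lit 137901846⟩, ⟨nat_lit 532071018, nat_lit 541755359, nat_lit 532594989, nat_lit 542275155⟩, ⟨nat_lit 97598170, nat_lit 1340182174, nat_lit 97926823, nat_lit 1339765801⟩]⟩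

theorem iv41_ok : ivOK (nat_lit 1000) (nat_lit 1048576) (nat_lit 1073741824) iv41 = true := by decide +kernel

/-- data -/
def iv42 : Iv := ⟨nat_lit 2140, nat_lit 2143, nat_lit 1438398724,
  [(nat_lit 1040486, nat_lit 1810307), (nat_lit 1096849, nat_lit 762616), (nat_lit 1040486, nat_lit 1008535), (nat_lit 1542678, nat_lit 67162), (nat_lit 341815, nat_lit 0), (nat_lit 538294, nat_lit 67162), (nat_lit 984123, nat_lit 762616), (nat_lit 2080972, nat_lit 1163233), (nat_lit 0, nat_lit 1163233), (nat_lit 1739157, nat_lit 0)],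
  [⟨nat_lit 2042370, nat_lit 1071800688, nat_lit 2060362, nat_lit 1071803404⟩, ⟨nat_lit 2042370, nat_lit 1071800688, nat_lit 2060362, nat_lit 1071803404⟩, ⟨nat_lit 1056067117, nat_lit 381617753, nat_lit 1056091656, nat_lit 382170806⟩, ⟨nat_lit 1056067117, nat_lit 381617753, nat_lit 1056091656, nat_lit 382170806⟩, ⟨nat_lit 531173602, nat_lit 542670016, nat_lit 531697214, nat_lit 543188678⟩, ⟨nat_lit 937257838, nat_lit 136585093, nat_lit 937436227, nat_lit 136979923⟩, ⟨nat_lit 221675764, nat_lit 852168859, nat_lit 222165904, nat_lit 852444621⟩, ⟨nat_lit 449811638, nat_lit 987788609, nat_lit 450359855, nat_lit 987903994⟩, ⟨nat_lit 221675764, nat_lit 852168859, nat_lit 222165904, nat_lit 852444621⟩, ⟨nat_lit 1056067117, nat_lit 17775423, nat_lit 1056091656, nat_lit 17877769⟩, ⟨nat_lit 1056067117, nat_lit 17775423, nat_lit 1056091656, nat_lit 17877769⟩, ⟨nat_lit 449811638, nat_lit 987788609, nat_lit 450359855, nat_lit 987903994⟩, ⟨nat_lit 1435848930, nat_lit 2973583,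 nat_lit 1435264914, nat_lit 2998201⟩, ⟨nat_lit 257234448, nat_lit 1180670093, nat_lit 257749523, nat_lit 1180513197⟩, ⟨nat_lit 97200527, nat_lit 1341152070, nat_lit 97527939, nat_lit 1340734622⟩, ⟨nat_lit 257234448, nat_lit 1180670093, nat_lit 257749523, nat_lit 1180513197⟩, ⟨nat_lit 1435848930, nat_lit 2973583, nat_lit 1435264914, nat_lit 2998201⟩, ⟨nat_lit 1182466761, nat_lit 136585093, nat_lit 1182307109, nat_lit 136979923⟩, ⟨nat_lit 937257838, nat_lit 136585093, nat_lit 937436227, nat_lit 136979923⟩, ⟨nat_lit 531173602, nat_lit 542670016, nat_lit 531697214, nat_lit 543188678⟩, ⟨nat_lit 97200527, nat_lit 1341152070, nat_lit 97527939, nat_lit 1340734622⟩]⟩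

theorem iv42_ok : ivOK (nat_lit 1000) (nat_lit 1048576) (nat_lit 1073741824) iv42 = true := by decide +kernel

/-- data -/
def iv43 : Iv := ⟨nat_lit 2143, nat_lit 2146, nat_lit 1438988415,
  [(nat_lit 1040578, nat_lit 1811275), (nat_lit 1096490, nat_lit 763551), (nat_lit 1040578, nat_lit 1008985), (nat_lit 1542569, nat_lit 67112), (nat_lit 341701, nat_lit 0), (nat_lit 538587, nat_lit 67112), (nat_lit 984666, nat_lit 763551), (nat_lit 2081156, nat_lit 1163454), (nat_lit 0, nat_lit 1163454), (nat_lit 1739455, nat_lit 0)],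
  [⟨nat_lit 1989932, nat_lit 1071870422, nat_lit 2007510, nat_lit 1071873037⟩, ⟨nat_lit 1989932, nat_lit 1071870422, nat_lit 2007510, nat_lit 1071873037⟩, ⟨nat_lit 1056242973, nat_lit 382010177, nat_lit 1056267237, nat_lit 382562475⟩, ⟨nat_lit 1056242973, nat_lit 382010177, nat_lit 1056267237, nat_lit 382562475⟩, ⟨nat_lit 530281056, nat_lit 543579302, nat_lit 530804305, nat_lit 544096833⟩, ⟨nat_lit 938189409, nat_lit 135671042, nat_lit 938366423, nat_lit 136063957⟩, ⟨nat_lit 220996768, nat_lit 852864492, nat_lit 221485672, nat_lit 853139120⟩, ⟨nat_lit 449548405, nat_lit 988619206, nat_lit 450095903, nat_lit 988733364⟩, ⟨nat_lit 220996768, nat_lit 852864492, nat_lit 221485672, nat_lit 853139120⟩, ⟨nat_lit 1056242973, nat_lit 17617568, nat_lit 1056267237, nat_lit 17719083⟩, ⟨nat_lit 1056242973, nat_lit 17617568, nat_lit 1056267237, nat_lit 17719083⟩, ⟨nat_lit 449548405, nat_lit 988619206, nat_lit 450095903, nat_lit 988733364⟩, ⟨nat_lit 1436446019, nat_lit 2944459,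 nat_lit 1435861742, nat_lit 2968842⟩, ⟨nat_lit 257020370, nat_lit 1181453636, nat_lit 257534596, nat_lit 1181295760⟩, ⟨nat_lit 96804892, nat_lit 1342116686, nat_lit 97131070, nat_lit 1341698172⟩, ⟨nat_lit 257020370, nat_lit 1181453636, nat_lit 257534596, nat_lit 1181295760⟩, ⟨nat_lit 1436446019, nat_lit 2944459, nat_lit 1435861742, nat_lit 2968842⟩, ⟨nat_lit 1181795927, nat_lit 135671042, nat_lit 1181637527, nat_lit 136063957⟩, ⟨nat_lit 938189409, nat_lit 135671042, nat_lit 938366423, nat_lit 136063957⟩, ⟨nat_lit 530281056, nat_lit 543579302, nat_lit 530804305, nat_lit 544096833⟩, ⟨nat_lit 96804892, nat_lit 1342116686, nat_lit 97131070, nat_lit 1341698172⟩]⟩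

theorem iv43_ok : ivOK (nat_lit 1000) (nat_lit 1048576) (nat_lit 1073741824) iv43 = true := by decide +kernel

/-- data -/
def iv44 : Iv := ⟨nat_lit 2146, nat_lit 2150, nat_lit 1439578348,
  [(nat_lit 1040638, nat_lit 1812473), (nat_lit 985318, nat_lit 764756), (nat_lit 1040638, nat_lit 1009483), (nat_lit 538821, nat_lit 67047), (nat_lit 1739747, nat_lit 0), (nat_lit 1542455, nat_lit 67047), (nat_lit 1095958, nat_lit 764756), (nat_lit 0, nat_lit 1163744), (nat_lit 2081276, nat_lit 1163744), (nat_lit 341529, nat_lit 0)],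
  [⟨nat_lit 1922236, nat_lit 1071851540, nat_lit 1944991, nat_lit 1071855055⟩, ⟨nat_lit 1922236, nat_lit 1071851540, nat_lit 1944991, nat_lit 1071855055⟩, ⟨nat_lit 1056341567, nat_lit 382424914, nat_lit 1056373677, nat_lit 383160142⟩, ⟨nat_lit 1056341567, nat_lit 382424914, nat_lit 1056373677, nat_lit 383160142⟩, ⟨nat_lit 529041280, nat_lit 544733740, nat_lit 529738439, nat_lit 545421916⟩, ⟨nat_lit 939289250, nat_lit 134484954, nat_lit 939523065, nat_lit 135005749⟩, ⟨nat_lit 220182400, nat_lit 853594427, nat_lit 220832414, nat_lit 853958889⟩, ⟨nat_lit 449139836, nat_lit 989516242, nat_lit 449868720, nat_lit 989666640⟩, ⟨nat_lit 220182400, nat_lit 853594427, nat_lit 220832414, nat_lit 853958889⟩, ⟨nat_lit 1056341567, nat_lit 17432543, nat_lit 1056373677, nat_lit 17566699⟩, ⟨nat_lit 1056341567, nat_lit 17432543, nat_lit 1056373677, nat_lit 17566699⟩, ⟨nat_lit 449139836, nat_lit 989516242, nat_lit 449868720, nat_lit 989666640⟩, ⟨nat_lit 1437374673, nat_lit 2906201,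 nat_lit 1436594909, nat_lit 2938344⟩, ⟨nat_lit 256575840, nat_lit 1182486974, nat_lit 257260070, nat_lit 1182274762⟩, ⟨nat_lit 96267427, nat_lit 1343394556, nat_lit 96700353, nat_lit 1342834697⟩, ⟨nat_lit 256575840, nat_lit 1182486974, nat_lit 257260070, nat_lit 1182274762⟩, ⟨nat_lit 1437374673, nat_lit 2906201, nat_lit 1436594909, nat_lit 2938344⟩, ⟨nat_lit 1180774499, nat_lit 134484954, nat_lit 1180565777, nat_lit 135005749⟩, ⟨nat_lit 939289250, nat_lit 134484954, nat_lit 939523065, nat_lit 135005749⟩, ⟨nat_lit 529041280, nat_lit 544733740, nat_lit 529738439, nat_lit 545421916⟩, ⟨nat_lit 96267427, nat_lit 1343394556, nat_lit 96700353, nat_lit 1342834697⟩]⟩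

theorem iv44_ok : ivOK (nat_lit 1000) (nat_lit 1048576) (nat_lit 1073741824) iv44 = true := by decide +kernel

/-- data -/
def iv45 : Iv := ⟨nat_lit 2150, nat_lit 2154, nat_lit 1440365302,
  [(nat_lit 1040760, nat_lit 1813748), (nat_lit 986030, nat_lit 765987), (nat_lit 1040760, nat_lit 1010077), (nat_lit 539211, nat_lit 66980), (nat_lit 1740141, nat_lit 0), (nat_lit 1542309, nat_lit 66980), (nat_lit 1095490, nat_lit 765987), (nat_lit 0, nat_lit 1164032), (nat_lit 2081520, nat_lit 1164032), (nat_lit 341379, nat_lit 0)],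
  [⟨nat_lit 1856373, nat_lit 1071944987, nat_lit 1878429, nat_lit 1071948322⟩, ⟨nat_lit 1856373, nat_lit 1071944987, nat_lit 1878429, nat_lit 1071948322⟩, ⟨nat_lit 1056576222, nat_lit 382943065, nat_lit 1056607844, nat_lit 383676955⟩, ⟨nat_lit 1056576222, nat_lit 382943065, nat_lit 1056607844, nat_lit 383676955⟩, ⟨nat_lit 527865454, nat_lit 545934512, nat_lit 528561954, nat_lit 546620688⟩, ⟨nat_lit 940517744, nat_lit 133285086, nat_lit 940749147, nat_lit 133802501⟩, ⟨nat_lit 219281833, nat_lit 854519668, nat_lit 219929659, nat_lit 854882128⟩, ⟨nat_lit 448788010, nat_lit 990620272, nat_lit 449515623, nat_lit 990768506⟩, ⟨nat_lit 219281833, nat_lit 854519668, nat_lit 219929659, nat_lit 854882128⟩, ⟨nat_lit 1056576222, nat_lit 17225581, nat_lit 1056607844, nat_lit 17358282⟩, ⟨nat_lit 1056576222, nat_lit 17225581, nat_lit 1056607844, nat_lit 17358282⟩, ⟨nat_lit 448788010, nat_lit 990620272, nat_lit 449515623, nat_lit 990768506⟩, ⟨nat_lit 1438165179, nat_lit 2868226,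 nat_lit 1437384967, nat_lit 2899961⟩, ⟨nat_lit 256292554, nat_lit 1183524014, nat_lit 256975284, nat_lit 1183310084⟩, ⟨nat_lit 95745799, nat_lit 1344671169, nat_lit 96176547, nat_lit 1344109447⟩, ⟨nat_lit 256292554, nat_lit 1183524014, nat_lit 256975284, nat_lit 1183310084⟩, ⟨nat_lit 1438165179, nat_lit 2868226, nat_lit 1437384967, nat_lit 2899961⟩, ⟨nat_lit 1179897247, nat_lit 133285086, nat_lit 1179690696, nat_lit 133802501⟩, ⟨nat_lit 940517744, nat_lit 133285086, nat_lit 940749147, nat_lit 133802501⟩, ⟨nat_lit 527865454, nat_lit 545934512, nat_lit 528561954, nat_lit 546620688⟩, ⟨nat_lit 95745799, nat_lit 1344671169, nat_lit 96176547, nat_lit 1344109447⟩]⟩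

theorem iv45_ok : ivOK (nat_lit 1000) (nat_lit 1048576) (nat_lit 1073741824) iv45 = true := by decide +kernel

/-- data -/
def iv46 : Iv := ⟨nat_lit 2154, nat_lit 2158, nat_lit 1441152686,
  [(nat_lit 1040881, nat_lit 1815016), (nat_lit 986734, nat_lit 767211), (nat_lit 1040881, nat_lit 1010669), (nat_lit 539601, nat_lit 66913), (nat_lit 1740533, nat_lit 0), (nat_lit 1542161, nat_lit 66913), (nat_lit 1095028, nat_lit 767211), (nat_lit 0, nat_lit 1164317), (nat_lit 2081762, nat_lit 1164317), (nat_lit 341229, nat_lit 0)],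
  [⟨nat_lit 1792663, nat_lit 1072038799, nat_lit 1814041, nat_lit 1072041954⟩, ⟨nat_lit 1792663, nat_lit 1072038799, nat_lit 1814041, nat_lit 1072041954⟩, ⟨nat_lit 1056809698, nat_lit 383459584, nat_lit 1056840835, nat_lit 384192142⟩, ⟨nat_lit 1056809698, nat_lit 383459584, nat_lit 1056840835, nat_lit 384192142⟩, ⟨nat_lit 526699309, nat_lit 547131149, nat_lit 527395144, nat_lit 547815330⟩, ⟨nat_lit 941735750, nat_lit 132094694, nat_lit 941964764, nat_lit 132608740⟩, ⟨nat_lit 218382941, nat_lit 855445892, nat_lit 219028582, nat_lit 855806353⟩, ⟨nat_lit 448436325, nat_lit 991725225, nat_lit 449162673, nat_lit 991871300⟩, ⟨nat_lit 218382941, nat_lit 855445892, nat_lit 219028582, nat_lit 855806353⟩, ⟨nat_lit 1056809698, nat_lit 17020422, nat_lit 1056840835, nat_lit 17151679⟩, ⟨nat_lit 1056809698, nat_lit 17020422, nat_lit 1056840835, nat_lit 17151679⟩, ⟨nat_lit 448436325, nat_lit 991725225, nat_lit 449162673, nat_lit 991871300⟩, ⟨nat_lit 1438950986, nat_lit 2830720,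 nat_lit 1438170339, nat_lit 2862051⟩, ⟨nat_lit 256010773, nat_lit 1184557775, nat_lit 256692011, nat_lit 1184342138⟩, ⟨nat_lit 95226622, nat_lit 1345943997, nat_lit 95655203, nat_lit 1345380426⟩, ⟨nat_lit 256010773, nat_lit 1184557775, nat_lit 256692011, nat_lit 1184342138⟩, ⟨nat_lit 1438950986, nat_lit 2830720, nat_lit 1438170339, nat_lit 2862051⟩, ⟨nat_lit 1179030095, nat_lit 132094694, nat_lit 1178825685, nat_lit 132608740⟩, ⟨nat_lit 941735750, nat_lit 132094694, nat_lit 941964764, nat_lit 132608740⟩, ⟨nat_lit 526699309, nat_lit 547131149, nat_lit 527395144, nat_lit 547815330⟩, ⟨nat_lit 95226622, nat_lit 1345943997, nat_lit 95655203, nat_lit 1345380426⟩]⟩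

theorem iv46_ok : ivOK (nat_lit 1000) (nat_lit 1048576) (nat_lit 1073741824) iv46 = true := by decide +kernel

/-- data -/
def iv47 : Iv := ⟨nat_lit 2158, nat_lit 2162, nat_lit 1441940501,
  [(nat_lit 1816275, nat_lit 1041002), (nat_lit 768427, nat_lit 987432), (nat_lit 1011258, nat_lit 1041002), (nat_lit 66844, nat_lit 539990), (nat_lit 0, nat_lit 1740923), (nat_lit 66844, nat_lit 1542014), (nat_lit 768427, nat_lit 1094572), (nat_lit 1164598, nat_lit 0), (nat_lit 1164598, nat_lit 2082004), (nat_lit 0, nat_lit 341081)],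
  [⟨nat_lit 1072130763, nat_lit 1730977, nat_lit 1072133743, nat_lit 1751694⟩, ⟨nat_lit 1072130763, nat_lit 1730977, nat_lit 1072133743, nat_lit 1751694⟩, ⟨nat_lit 383973181, nat_lit 1057044177, nat_lit 384704408, nat_lit 1057074830⟩, ⟨nat_lit 383973181, nat_lit 1057044177, nat_lit 384704408, nat_lit 1057074830⟩, ⟨nat_lit 548322053, nat_lit 525539838, nat_lit 549004246, nat_lit 526235002⟩, ⟨nat_lit 130913735, nat_lit 942947293, nat_lit 131424425, nat_lit 943173933⟩, ⟨nat_lit 856375041, nat_lit 217487604, nat_lit 856733506, nat_lit 218131064⟩, ⟨nat_lit 992828961, nat_lit 448083392, nat_lit 992972885, nat_lit 448808477⟩, ⟨nat_lit 856375041, nat_lit 217487604, nat_lit 856733506, nat_lit 218131064⟩, ⟨nat_lit 16817055, nat_lit 1057044177, nat_lit 16946880, nat_lit 1057074830⟩, ⟨nat_lit 16817055, nat_lit 1057044177, nat_lit 16946880, nat_lit 1057074830⟩, ⟨nat_lit 992828961, nat_lit 448083392, nat_lit 992972885, nat_lit 448808477⟩, ⟨nat_lit 2793494, nat_lit 1439734650,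 nat_lit 2824425, nat_lit 1438953573⟩, ⟨nat_lit 1185590548, nat_lit 255729469, nat_lit 1185373211, nat_lit 256409219⟩, ⟨nat_lit 1347210489, nat_lit 94711089, nat_lit 1346645088, nat_lit 95137515⟩, ⟨nat_lit 1185590548, nat_lit 255729469, nat_lit 1185373211, nat_lit 256409219⟩, ⟨nat_lit 2793494, nat_lit 1439734650, nat_lit 2824425, nat_lit 1438953573⟩, ⟨nat_lit 130913735, nat_lit 1178173115, nat_lit 131424425, nat_lit 1177970815⟩, ⟨nat_lit 130913735, nat_lit 942947293, nat_lit 131424425, nat_lit 943173933⟩, ⟨nat_lit 548322053, nat_lit 525539838, nat_lit 549004246, nat_lit 526235002⟩, ⟨nat_lit 1347210489, nat_lit 94711089, nat_lit 1346645088, nat_lit 95137515⟩]⟩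

theorem iv47_ok : ivOK (nat_lit 1000) (nat_lit 1048576) (nat_lit 1073741824) iv47 = true := by decide +kernel

/-- data -/
def iv48 : Iv := ⟨nat_lit 2162, nat_lit 2167, nat_lit 1442728746,
  [(nat_lit 1041092, nat_lit 1817751), (nat_lit 1093953, nat_lit 769899), (nat_lit 1041092, nat_lit 1011888), (nat_lit 1541863, nat_lit 66759), (nat_lit 340877, nat_lit 0), (nat_lit 540321, nat_lit 66759), (nat_lit 988231, nat_lit 769899), (nat_lit 2082184, nat_lit 1164942), (nat_lit 0, nat_lit 1164942), (nat_lit 1741307, nat_lit 0)],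
  [⟨nat_lit 1656892, nat_lit 1072135909, nat_lit 1681828, nat_lit 1072139613⟩, ⟨nat_lit 1656892, nat_lit 1072135909, nat_lit 1681828, nat_lit 1072139613⟩, ⟨nat_lit 1057203902, nat_lit 384504483, nat_lit 1057241767, nat_lit 385416655⟩, ⟨nat_lit 1057203902, nat_lit 384504483, nat_lit 1057241767, nat_lit 385416655⟩, ⟨nat_lit 524046172, nat_lit 549745655, nat_lit 524914245, nat_lit 550595474⟩, ⟨nat_lit 944317785, nat_lit 129475682, nat_lit 944597685, nat_lit 130109195⟩, ⟨nat_lit 216460142, nat_lit 857332027, nat_lit 217261486, nat_lit 857777386⟩, ⟨nat_lit 447585824, nat_lit 993989661, nat_lit 448490415, nat_lit 994166684⟩, ⟨nat_lit 216460142, nat_lit 857332027, nat_lit 217261486, nat_lit 857777386⟩, ⟨nat_lit 1057203902, nat_lit 16588926, nat_lit 1057241767, nat_lit 16749316⟩, ⟨nat_lit 1057203902, nat_lit 16588926, nat_lit 1057241767, nat_lit 16749316⟩, ⟨nat_lit 447585824, nat_lit 993989661, nat_lit 448490415, nat_lit 994166684⟩, ⟨nat_lit 1440849381, nat_lit 2747721,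 nat_lit 1439872026, nat_lit 2785821⟩, ⟨nat_lit 255221002, nat_lit 1186866764, nat_lit 256068497, nat_lit 1186592488⟩, ⟨nat_lit 94058721, nat_lit 1348780514, nat_lit 94588663, nat_lit 1348070985⟩, ⟨nat_lit 255221002, nat_lit 1186866764, nat_lit 256068497, nat_lit 1186592488⟩, ⟨nat_lit 1440849381, nat_lit 2747721, nat_lit 1439872026, nat_lit 2785821⟩, ⟨nat_lit 1176982381, nat_lit 129475682, nat_lit 1176733096, nat_lit 130109195⟩, ⟨nat_lit 944317785, nat_lit 129475682, nat_lit 944597685, nat_lit 130109195⟩, ⟨nat_lit 524046172, nat_lit 549745655, nat_lit 524914245, nat_lit 550595474⟩, ⟨nat_lit 94058721, nat_lit 1348780514, nat_lit 94588663, nat_lit 1348070985⟩]⟩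

theorem iv48_ok : ivOK (nat_lit 1000) (nat_lit 1048576) (nat_lit 1073741824) iv48 = true := by decide +kernel

/-- data -/
def iv49 : Iv := ⟨nat_lit 2167, nat_lit 2172, nat_lit 1443714658,
  [(nat_lit 1041243, nat_lit 1819301), (nat_lit 1093401, nat_lit 771395), (nat_lit 1041243, nat_lit 1012615), (nat_lit 1541679, nat_lit 66672), (nat_lit 340695, nat_lit 0), (nat_lit 540807, nat_lit 66672), (nat_lit 989085, nat_lit 771395), (nat_lit 2082486, nat_lit 1165282), (nat_lit 0, nat_lit 1165282), (nat_lit 1741791, nat_lit 0)],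
  [⟨nat_lit 1585542, nat_lit 1072252216, nat_lit 1609513, nat_lit 1072255643⟩, ⟨nat_lit 1585542, nat_lit 1072252216, nat_lit 1609513, nat_lit 1072255643⟩, ⟨nat_lit 1057499104, nat_lit 385140448, nat_lit 1057536212, nat_lit 386050554⟩, ⟨nat_lit 1057499104, nat_lit 385140448, nat_lit 1057536212, nat_lit 386050554⟩, ⟨nat_lit 522621388, nat_lit 551216374, nat_lit 523488387, nat_lit 552063108⟩, ⟨nat_lit 945810805, nat_lit 128027739, nat_lit 946087061, nat_lit 128656052⟩, ⟨nat_lit 215348522, nat_lit 858490647, nat_lit 216146473, nat_lit 858932910⟩, ⟨nat_lit 447144580, nat_lit 995364162, nat_lit 448047215, nat_lit 995537854⟩, ⟨nat_lit 215348522, nat_lit 858490647, nat_lit 216146473, nat_lit 858932910⟩, ⟨nat_lit 1057499104, nat_lit 16339974, nat_lit 1057536212, nat_lit 16498166⟩, ⟨nat_lit 1057499104, nat_lit 16339974, nat_lit 1057536212, nat_lit 16498166⟩, ⟨nat_lit 447144580, nat_lit 995364162, nat_lit 448047215, nat_lit 995537854⟩, ⟨nat_lit 1441822184, nat_lit 2702477,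 nat_lit 1440844182, nat_lit 2739968⟩, ⟨nat_lit 254873535, nat_lit 1188143904, nat_lit 255718726, nat_lit 1187867024⟩, ⟨nat_lit 93423318, nat_lit 1350346032, nat_lit 93949930, nat_lit 1349633711⟩, ⟨nat_lit 254873535, nat_lit 1188143904, nat_lit 255718726, nat_lit 1187867024⟩, ⟨nat_lit 1441822184, nat_lit 2702477, nat_lit 1440844182, nat_lit 2739968⟩, ⟨nat_lit 1175941886, nat_lit 128027739, nat_lit 1175695788, nat_lit 128656052⟩, ⟨nat_lit 945810805, nat_lit 128027739, nat_lit 946087061, nat_lit 128656052⟩, ⟨nat_lit 522621388, nat_lit 551216374, nat_lit 523488387, nat_lit 552063108⟩, ⟨nat_lit 93423318, nat_lit 1350346032, nat_lit 93949930, nat_lit 1349633711⟩]⟩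

theorem iv49_ok : ivOK (nat_lit 1000) (nat_lit 1048576) (nat_lit 1073741824) iv49 = true := by decide +kernel

/-- data -/
def iv50 : Iv := ⟨nat_lit 2172, nat_lit 2178, nat_lit 1444701244,
  [(nat_lit 1041362, nat_lit 1821060), (nat_lit 1092693, nat_lit 773138), (nat_lit 1041362, nat_lit 1013382), (nat_lit 1541490, nat_lit 66569), (nat_lit 340458, nat_lit 0), (nat_lit 541234, nat_lit 66569), (nat_lit 990031, nat_lit 773138), (nat_lit 2082724, nat_lit 1165684), (nat_lit 0, nat_lit 1165684), (nat_lit 1742266, nat_lit 0)],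
  [⟨nat_lit 1503973, nat_lit 1072283761, nat_lit 1531446, nat_lit 1072287776⟩, ⟨nat_lit 1503973, nat_lit 1072283761, nat_lit 1531446, nat_lit 1072287776⟩, ⟨nat_lit 1057717811, nat_lit 385788822, nat_lit 1057761625, nat_lit 386878235⟩, ⟨nat_lit 1057717811, nat_lit 385788822, nat_lit 1057761625, nat_lit 386878235⟩, ⟨nat_lit 520872298, nat_lit 552913313, nat_lit 521911348, nat_lit 553925177⟩, ⟨nat_lit 947450067, nat_lit 126335932, nat_lit 947776722, nat_lit 127082909⟩, ⟨nat_lit 214107581, nat_lit 859679782, nat_lit 215060752, nat_lit 860206515⟩, ⟨nat_lit 446557672, nat_lit 996798229, nat_lit 447638266, nat_lit 997002434⟩, ⟨nat_lit 214107581, nat_lit 859679782, nat_lit 215060752, nat_lit 860206515⟩, ⟨nat_lit 1057717811, nat_lit 16068157, nat_lit 1057761625, nat_lit 16255242⟩, ⟨nat_lit 1057717811, nat_lit 16068157, nat_lit 1057761625, nat_lit 16255242⟩, ⟨nat_lit 446557672, nat_lit 996798229, nat_lit 447638266, nat_lit 997002434⟩, ⟨nat_lit 1443122279, nat_lit 2649230,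 nat_lit 1441947351, nat_lit 2693418⟩, ⟨nat_lit 254299755, nat_lit 1189666429, nat_lit 255310827, nat_lit 1189330475⟩, ⟨nat_lit 92654743, nat_lit 1352216772, nat_lit 93282221, nat_lit 1351358050⟩, ⟨nat_lit 254299755, nat_lit 1189666429, nat_lit 255310827, nat_lit 1189330475⟩, ⟨nat_lit 1443122279, nat_lit 2649230, nat_lit 1441947351, nat_lit 2693418⟩, ⟨nat_lit 1174579057, nat_lit 126335932, nat_lit 1174288652, nat_lit 127082909⟩, ⟨nat_lit 947450067, nat_lit 126335932, nat_lit 947776722, nat_lit 127082909⟩, ⟨nat_lit 520872298, nat_lit 552913313, nat_lit 521911348, nat_lit 553925177⟩, ⟨nat_lit 92654743, nat_lit 1352216772, nat_lit 93282221, nat_lit 1351358050⟩]⟩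

theorem iv50_ok : ivOK (nat_lit 1000) (nat_lit 1048576) (nat_lit 1073741824) iv50 = true := by decide +kernel

/-- data -/
def iv51 : Iv := ⟨nat_lit 2178, nat_lit 2184, nat_lit 1445886037,
  [(nat_lit 1041541, nat_lit 1822887), (nat_lit 1092053, nat_lit 774901), (nat_lit 1041541, nat_lit 1014240), (nat_lit 1541267, nat_lit 66463), (nat_lit 340243, nat_lit 0), (nat_lit 541815, nat_lit 66463), (nat_lit 991029, nat_lit 774901), (nat_lit 2083082, nat_lit 1166079), (nat_lit 0, nat_lit 1166079), (nat_lit 1742839, nat_lit 0)],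
  [⟨nat_lit 1426012, nat_lit 1072422778, nat_lit 1452201, nat_lit 1072426400⟩, ⟨nat_lit 1426012, nat_lit 1072422778, nat_lit 1452201, nat_lit 1072426400⟩, ⟨nat_lit 1058071100, nat_lit 386540673, nat_lit 1058113838, nat_lit 387627132⟩, ⟨nat_lit 1058071100, nat_lit 386540673, nat_lit 1058113838, nat_lit 387627132⟩, ⟨nat_lit 519194096, nat_lit 554655605, nat_lit 520231562, nat_lit 555663064⟩, ⟨nat_lit 949209938, nat_lit 124639413, nat_lit 949531459, nat_lit 125378986⟩, ⟨nat_lit 212784617, nat_lit 861064975, nat_lit 213732929, nat_lit 861587297⟩, ⟨nat_lit 446026783, nat_lit 998437819, nat_lit 447104584, nat_lit 998637289⟩, ⟨nat_lit 212784617, nat_lit 861064975, nat_lit 213732929, nat_lit 861587297⟩, ⟨nat_lit 1058071100, nat_lit 15777960, nat_lit 1058113838, nat_lit 15961958⟩, ⟨nat_lit 1058071100, nat_lit 15777960, nat_lit 1058113838, nat_lit 15961958⟩, ⟨nat_lit 446026783, nat_lit 998437819, nat_lit 447104584, nat_lit 998637289⟩, ⟨nat_lit 1444277153, nat_lit 2596714,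 nat_lit 1443101343, nat_lit 2640052⟩, ⟨nat_lit 253886901, nat_lit 1191187461, nat_lit 254894691, nat_lit 1190847822⟩, ⟨nat_lit 91904604, nat_lit 1354077603, nat_lit 92527353, nat_lit 1353214949⟩, ⟨nat_lit 253886901, nat_lit 1191187461, nat_lit 254894691, nat_lit 1190847822⟩, ⟨nat_lit 1444277153, nat_lit 2596714, nat_lit 1443101343, nat_lit 2640052⟩, ⟨nat_lit 1173367177, nat_lit 124639413, nat_lit 1173081195, nat_lit 125378986⟩, ⟨nat_lit 949209938, nat_lit 124639413, nat_lit 949531459, nat_lit 125378986⟩, ⟨nat_lit 519194096, nat_lit 554655605, nat_lit 520231562, nat_lit 555663064⟩, ⟨nat_lit 91904604, nat_lit 1354077603, nat_lit 92527353, nat_lit 1353214949⟩]⟩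

theorem iv51_ok : ivOK (nat_lit 1000) (nat_lit 1048576) (nat_lit 1073741824) iv51 = true := by decide +kernel

/-- data -/
def iv52 : Iv := ⟨nat_lit 2184, nat_lit 2191, nat_lit 1447071802,
  [(nat_lit 0, nat_lit 1041690), (nat_lit 1048013, nat_lit 1091268), (nat_lit 809776, nat_lit 1041690), (nat_lit 1758572, nat_lit 1541041), (nat_lit 1824912, nat_lit 339977), (nat_lit 1758572, nat_lit 542339), (nat_lit 1048013, nat_lit 992112), (nat_lit 658382, nat_lit 2083380), (nat_lit 658382, nat_lit 0), (nat_lit 1824912, nat_lit 1743403)],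
  [⟨nat_lit 1072479090, nat_lit 1340119, nat_lit 1072483122, nat_lit 1369055⟩, ⟨nat_lit 1072479090, nat_lit 1340119, nat_lit 1072483122, nat_lit 1369055⟩, ⟨nat_lit 387302808, nat_lit 1058352896, nat_lit 388566629, nat_lit 1058401710⟩, ⟨nat_lit 387302808, nat_lit 1058352896, nat_lit 388566629, nat_lit 1058401710⟩, ⟨nat_lit 556614116, nat_lit 517203191, nat_lit 557783758, nat_lit 518411633⟩, ⟨nat_lit 122712070, nat_lit 951108273, nat_lit 123565409, nat_lit 951476868⟩, ⟨nat_lit 862484231, nat_lit 211335686, nat_lit 863088149, nat_lit 212436041⟩, ⟨nat_lit 1000138272, nat_lit 445349504, nat_lit 1000365203, nat_lit 446603433⟩, ⟨nat_lit 862484231, nat_lit 211335686, nat_lit 863088149, nat_lit 212436041⟩, ⟨nat_lit 15466197, nat_lit 1058352896, nat_lit 15677146, nat_lit 1058401710⟩, ⟨nat_lit 15466197, nat_lit 1058352896, nat_lit 15677146, nat_lit 1058401710⟩, ⟨nat_lit 1000138272, nat_lit 445349504, nat_lit 1000365203, nat_lit 446603433⟩, ⟨nat_lit 2536737, nat_lit 1445755637,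 nat_lit 2586231, nat_lit 1444382210⟩, ⟨nat_lit 1192947072, nat_lit 253251987, nat_lit 1192545894, nat_lit 254423467⟩, ⟨nat_lit 1356233299, nat_lit 91027244, nat_lit 1355221652, nat_lit 91747756⟩, ⟨nat_lit 1192947072, nat_lit 253251987, nat_lit 1192545894, nat_lit 254423467⟩, ⟨nat_lit 2536737, nat_lit 1445755637, nat_lit 2586231, nat_lit 1444382210⟩, ⟨nat_lit 122712070, nat_lit 1171853176, nat_lit 123565409, nat_lit 1171525865⟩, ⟨nat_lit 122712070, nat_lit 951108273, nat_lit 123565409, nat_lit 951476868⟩, ⟨nat_lit 556614116, nat_lit 517203191, nat_lit 557783758, nat_lit 518411633⟩, ⟨nat_lit 1356233299, nat_lit 91027244, nat_lit 1355221652, nat_lit 91747756⟩]⟩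

theorem iv52_ok : ivOK (nat_lit 1000) (nat_lit 1048576) (nat_lit 1073741824) iv52 = true := by decide +kernel

/-- data -/
def iv53 : Iv := ⟨nat_lit 2191, nat_lit 2199, nat_lit 1448456424,
  [(nat_lit 1041868, nat_lit 1827211), (nat_lit 1090400, nat_lit 779160), (nat_lit 1041868, nat_lit 1016163), (nat_lit 1540776, nat_lit 66198), (nat_lit 339679, nat_lit 0), (nat_lit 542960, nat_lit 66198), (nat_lit 993336, nat_lit 779160), (nat_lit 2083736, nat_lit 1167034), (nat_lit 0, nat_lit 1167034), (nat_lit 1744057, nat_lit 0)],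
  [⟨nat_lit 1247890, nat_lit 1072559996, nat_lit 1278949, nat_lit 1072564294⟩, ⟨nat_lit 1247890, nat_lit 1072559996, nat_lit 1278949, nat_lit 1072564294⟩, ⟨nat_lit 1058694815, nat_lit 388180627, nat_lit 1058749173, nat_lit 389620119⟩, ⟨nat_lit 1058694815, nat_lit 388180627, nat_lit 1058749173, nat_lit 389620119⟩, ⟨nat_lit 514965369, nat_lit 558840228, nat_lit 516343834, nat_lit 560169486⟩, ⟨nat_lit 953268297, nat_lit 120540070, nat_lit 953681109, nat_lit 121502921⟩, ⟨nat_lit 209675491, nat_lit 864131194, nat_lit 210925121, nat_lit 864814220⟩, ⟨nat_lit 444583207, nat_lit 1002104766, nat_lit 446011670, nat_lit 1002356522⟩, ⟨nat_lit 209675491, nat_lit 864131194, nat_lit 210925121, nat_lit 864814220⟩, ⟨nat_lit 1058694815, nat_lit 15113141, nat_lit 1058749173, nat_lit 15349376⟩, ⟨nat_lit 1058694815, nat_lit 15113141, nat_lit 1058749173, nat_lit 15349376⟩, ⟨nat_lit 444583207, nat_lit 1002104766, nat_lit 446011670, nat_lit 1002356522⟩, ⟨nat_lit 1447414314, nat_lit 2469667,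 nat_lit 1445842672, nat_lit 2524856⟩, ⟨nat_lit 252554512, nat_lit 1194947183, nat_lit 253887775, nat_lit 1194482327⟩, ⟨nat_lit 90036940, nat_lit 1358680356, nat_lit 90852520, nat_lit 1357517472⟩, ⟨nat_lit 252554512, nat_lit 1194947183, nat_lit 253887775, nat_lit 1194482327⟩, ⟨nat_lit 1447414314, nat_lit 2469667, nat_lit 1445842672, nat_lit 2524856⟩, ⟨nat_lit 1170178000, nat_lit 120540070, nat_lit 1169811918, nat_lit 121502921⟩, ⟨nat_lit 953268297, nat_lit 120540070, nat_lit 953681109, nat_lit 121502921⟩, ⟨nat_lit 514965369, nat_lit 558840228, nat_lit 516343834, nat_lit 560169486⟩, ⟨nat_lit 90036940, nat_lit 1358680356, nat_lit 90852520, nat_lit 1357517472⟩]⟩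

theorem iv53_ok : ivOK (nat_lit 1000) (nat_lit 1048576) (nat_lit 1073741824) iv53 = true := by decide +kernel

/-- data -/
def iv54 : Iv := ⟨nat_lit 2199, nat_lit 2208, nat_lit 1450040471,
  [(nat_lit 1042074, nat_lit 1829774), (nat_lit 1089455, nat_lit 781674), (nat_lit 1042074, nat_lit 1017318), (nat_lit 1540472, nat_lit 66036), (nat_lit 339349, nat_lit 0), (nat_lit 543676, nat_lit 66036), (nat_lit 994693, nat_lit 781674), (nat_lit 2084148, nat_lit 1167587), (nat_lit 0, nat_lit 1167587), (nat_lit 1744799, nat_lit 0)],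
  [⟨nat_lit 1151196, nat_lit 1072665886, nat_lit 1183735, nat_lit 1072670271⟩, ⟨nat_lit 1151196, nat_lit 1072665886, nat_lit 1183735, nat_lit 1072670271⟩, ⟨nat_lit 1059095889, nat_lit 389171060, nat_lit 1059155181, nat_lit 390784304⟩, ⟨nat_lit 1059095889, nat_lit 389171060, nat_lit 1059155181, nat_lit 390784304⟩, ⟨nat_lit 512490771, nat_lit 561327001, nat_lit 514038142, nat_lit 562812976⟩, ⟨nat_lit 955680466, nat_lit 118136438, nat_lit 956134320, nat_lit 119204012⟩, ⟨nat_lit 207808693, nat_lit 866008490, nat_lit 209204453, nat_lit 866767793⟩, ⟨nat_lit 443728612, nat_lit 1004337592, nat_lit 445329807, nat_lit 1004611181⟩, ⟨nat_lit 207808693, nat_lit 866008490, nat_lit 209204453, nat_lit 866767793⟩, ⟨nat_lit 1059095889, nat_lit 14721188, nat_lit 1059155181, nat_lit 14980851⟩, ⟨nat_lit 1059095889, nat_lit 14721188, nat_lit 1059155181, nat_lit 14980851⟩, ⟨nat_lit 443728612, nat_lit 1004337592, nat_lit 445329807, nat_lit 1004611181⟩, ⟨nat_lit 1449253721, nat_lit 2396024,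 nat_lit 1447483215, nat_lit 2456397⟩, ⟨nat_lit 251794557, nat_lit 1197185472, nat_lit 253287453, nat_lit 1196654549⟩, ⟨nat_lit 88937086, nat_lit 1361413106, nat_lit 89844703, nat_lit 1360096501⟩, ⟨nat_lit 251794557, nat_lit 1197185472, nat_lit 253287453, nat_lit 1196654549⟩, ⟨nat_lit 1449253721, nat_lit 2396024, nat_lit 1447483215, nat_lit 2456397⟩, ⟨nat_lit 1168351143, nat_lit 118136438, nat_lit 1167949066, nat_lit 119204012⟩, ⟨nat_lit 955680466, nat_lit 118136438, nat_lit 956134320, nat_lit 119204012⟩, ⟨nat_lit 512490771, nat_lit 561327001, nat_lit 514038142, nat_lit 562812976⟩, ⟨nat_lit 88937086, nat_lit 1361413106, nat_lit 89844703, nat_lit 1360096501⟩]⟩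

theorem iv54_ok : ivOK (nat_lit 1000) (nat_lit 1048576) (nat_lit 1073741824) iv54 = true := by decide +kernel

/-- data -/
def iv55 : Iv := ⟨nat_lit 2208, nat_lit 2218, nat_lit 1451824594,
  [(nat_lit 1042308, nat_lit 1832589), (nat_lit 1088441, nat_lit 784428), (nat_lit 1042308, nat_lit 1018595), (nat_lit 1540130, nat_lit 65854), (nat_lit 338991, nat_lit 0), (nat_lit 544486, nat_lit 65854), (nat_lit 996175, nat_lit 784428), (nat_lit 2084616, nat_lit 1168183), (nat_lit 0, nat_lit 1168183), (nat_lit 1745625, nat_lit 0)],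
  [⟨nat_lit 1051930, nat_lit 1072799489, nat_lit 1085309, nat_lit 1072803737⟩, ⟨nat_lit 1051930, nat_lit 1072799489, nat_lit 1085309, nat_lit 1072803737⟩, ⟨nat_lit 1059557543, nat_lit 390271526, nat_lit 1059621073, nat_lit 392056385⟩, ⟨nat_lit 1059557543, nat_lit 390271526, nat_lit 1059621073, nat_lit 392056385⟩, ⟨nat_lit 509786688, nat_lit 564063515, nat_lit 511501679, nat_lit 565702996⟩, ⟨nat_lit 958335791, nat_lit 115515733, nat_lit 958827213, nat_lit 116682735⟩, ⟨nat_lit 205740401, nat_lit 868111462, nat_lit 207278779, nat_lit 868943905⟩, ⟨nat_lit 442782486, nat_lit 1006831229, nat_lit 444554411, nat_lit 1007123343⟩, ⟨nat_lit 205740401, nat_lit 868111462, nat_lit 207278779, nat_lit 868943905⟩, ⟨nat_lit 1059557543, nat_lit 14293226, nat_lit 1059621073, nat_lit 14574287⟩, ⟨nat_lit 1059557543, nat_lit 14293226, nat_lit 1059621073, nat_lit 14574287⟩, ⟨nat_lit 442782486, nat_lit 1006831229, nat_lit 444554411, nat_lit 1007123343⟩, ⟨nat_lit 1451266370, nat_lit 2316458,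 nat_lit 1449296349, nat_lit 2381468⟩, ⟨nat_lit 250973462, nat_lit 1199652813, nat_lit 252623609, nat_lit 1199053232⟩, ⟨nat_lit 87733735, nat_lit 1364421010, nat_lit 88730053, nat_lit 1362948006⟩, ⟨nat_lit 250973462, nat_lit 1199652813, nat_lit 252623609, nat_lit 1199053232⟩, ⟨nat_lit 1451266370, nat_lit 2316458, nat_lit 1449296349, nat_lit 2381468⟩, ⟨nat_lit 1166386580, nat_lit 115515733, nat_lit 1165951444, nat_lit 116682735⟩, ⟨nat_lit 958335791, nat_lit 115515733, nat_lit 958827213, nat_lit 116682735⟩, ⟨nat_lit 509786688, nat_lit 564063515, nat_lit 511501679, nat_lit 565702996⟩, ⟨nat_lit 87733735, nat_lit 1364421010, nat_lit 88730053, nat_lit 1362948006⟩]⟩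

theorem iv55_ok : ivOK (nat_lit 1000) (nat_lit 1048576) (nat_lit 1073741824) iv55 = true := by decide +kernel

/-- data -/
def iv56 : Iv := ⟨nat_lit 2218, nat_lit 2230, nat_lit 1453809528,
  [(nat_lit 1042542, nat_lit 1835845), (nat_lit 1087226, nat_lit 787648), (nat_lit 1042542, nat_lit 1020032), (nat_lit 1539745, nat_lit 65635), (nat_lit 338555, nat_lit 0), (nat_lit 545339, nat_lit 65635), (nat_lit 997858, nat_lit 787648), (nat_lit 2085084, nat_lit 1168877), (nat_lit 0, nat_lit 1168877), (nat_lit 1746529, nat_lit 0)],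
  [⟨nat_lit 943628, nat_lit 1072876562, nat_lit 980047, nat_lit 1072881217⟩, ⟨nat_lit 943628, nat_lit 1072876562, nat_lit 980047, nat_lit 1072881217⟩, ⟨nat_lit 1060011805, nat_lit 391485975, nat_lit 1060085218, nat_lit 393617273⟩, ⟨nat_lit 1060011805, nat_lit 391485975, nat_lit 1060085218, nat_lit 393617273⟩, ⟨nat_lit 506560145, nat_lit 567260851, nat_lit 508612143, nat_lit 569211972⟩, ⟨nat_lit 961358479, nat_lit 112462229, nat_lit 961930589, nat_lit 113836008⟩, ⟨nat_lit 203344441, nat_lit 870478160, nat_lit 205173421, nat_lit 871461750⟩, ⟨nat_lit 441602180, nat_lit 1009649953, nat_lit 443718599, nat_lit 1009984394⟩, ⟨nat_lit 203344441, nat_lit 870478160, nat_lit 205173421, nat_lit 871461750⟩, ⟨nat_lit 1060011805, nat_lit 13808911, nat_lit 1060085218, nat_lit 14136238⟩, ⟨nat_lit 1060011805, nat_lit 13808911, nat_lit 1060085218, nat_lit 14136238⟩, ⟨nat_lit 441602180, nat_lit 1009649953, nat_lit 443718599, nat_lit 1009984394⟩, ⟨nat_lit 1453771572, nat_lit 2224201,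 nat_lit 1451403048, nat_lit 2299407⟩, ⟨nat_lit 249878267, nat_lit 1202590913, nat_lit 251846365, nat_lit 1201857749⟩, ⟨nat_lit 86304859, nat_lit 1368001320, nat_lit 87483651, nat_lit 1366219532⟩, ⟨nat_lit 249878267, nat_lit 1202590913, nat_lit 251846365, nat_lit 1201857749⟩, ⟨nat_lit 1453771572, nat_lit 2224201, nat_lit 1451403048, nat_lit 2299407⟩, ⟨nat_lit 1164006172, nat_lit 112462229, nat_lit 1163500688, nat_lit 113836008⟩, ⟨nat_lit 961358479, nat_lit 112462229, nat_lit 961930589, nat_lit 113836008⟩, ⟨nat_lit 506560145, nat_lit 567260851, nat_lit 508612143, nat_lit 569211972⟩, ⟨nat_lit 86304859, nat_lit 1368001320, nat_lit 87483651, nat_lit 1366219532⟩]⟩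

theorem iv56_ok : ivOK (nat_lit 1000) (nat_lit 1048576) (nat_lit 1073741824) iv56 = true := by decide +kernel

/-- data -/
def iv57 : Iv := ⟨nat_lit 2230, nat_lit 2244, nat_lit 1456195032,
  [(nat_lit 1042832, nat_lit 1839597), (nat_lit 1085882, nat_lit 791338), (nat_lit 1042832, nat_lit 1021711), (nat_lit 1539281, nat_lit 65377), (nat_lit 338061, nat_lit 0), (nat_lit 546383, nat_lit 65377), (nat_lit 999782, nat_lit 791338), (nat_lit 2085664, nat_lit 1169655), (nat_lit 0, nat_lit 1169655), (nat_lit 1747603, nat_lit 0)],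
  [⟨nat_lit 830442, nat_lit 1073013540, nat_lit 868405, nat_lit 1073018083⟩, ⟨nat_lit 830442, nat_lit 1073013540, nat_lit 868405, nat_lit 1073018083⟩, ⟨nat_lit 1060587891, nat_lit 392917302, nat_lit 1060669456, nat_lit 395389409⟩, ⟨nat_lit 1060587891, nat_lit 392917302, nat_lit 1060669456, nat_lit 395389409⟩, ⟨nat_lit 502893018, nat_lit 570949950, nat_lit 505278522, nat_lit 573204209⟩, ⟨nat_lit 964853080, nat_lit 108988884, nat_lit 965496964, nat_lit 110555570⟩, ⟨nat_lit 200547086, nat_lit 873296256, nat_lit 202657421, nat_lit 874422780⟩, ⟨nat_lit 440243987, nat_lit 1012991617, nat_lit 442699631, nat_lit 1013359767⟩, ⟨nat_lit 200547086, nat_lit 873296256, nat_lit 202657421, nat_lit 874422780⟩, ⟨nat_lit 1060587891, nat_lit 13254768, nat_lit 1060669456, nat_lit 13623202⟩, ⟨nat_lit 1060587891, nat_lit 13254768, nat_lit 1060669456, nat_lit 13623202⟩, ⟨nat_lit 440243987, nat_lit 1012991617, nat_lit 442699631, nat_lit 1013359767⟩, ⟨nat_lit 1456621368, nat_lit 2120739,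 nat_lit 1453852541, nat_lit 2204753⟩, ⟨nat_lit 248666529, nat_lit 1205984258, nat_lit 250946286, nat_lit 1205110693⟩, ⟨nat_lit 84671763, nat_lit 1372130211, nat_lit 86024286, nat_lit 1370032648⟩, ⟨nat_lit 248666529, nat_lit 1205984258, nat_lit 250946286, nat_lit 1205110693⟩, ⟨nat_lit 1456621368, nat_lit 2120739, nat_lit 1453852541, nat_lit 2204753⟩, ⟨nat_lit 1161368107, nat_lit 108988884, nat_lit 1160799835, nat_lit 110555570⟩, ⟨nat_lit 964853080, nat_lit 108988884, nat_lit 965496964, nat_lit 110555570⟩, ⟨nat_lit 502893018, nat_lit 570949950, nat_lit 505278522, nat_lit 573204209⟩, ⟨nat_lit 84671763, nat_lit 1372130211, nat_lit 86024286, nat_lit 1370032648⟩]⟩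

theorem iv57_ok : ivOK (nat_lit 1000) (nat_lit 1048576) (nat_lit 1073741824) iv57 = true := by decide +kernel

/-- data -/
def iv58 : Iv := ⟨nat_lit 2244, nat_lit 2261, nat_lit 1458983067,
  [(nat_lit 1043150, nat_lit 1844004), (nat_lit 1084299, nat_lit 795693), (nat_lit 1043150, nat_lit 1023659), (nat_lit 1538736, nat_lit 65062), (nat_lit 337466, nat_lit 0), (nat_lit 547564, nat_lit 65062), (nat_lit 1002001, nat_lit 795693), (nat_lit 2086300, nat_lit 1170561), (nat_lit 0, nat_lit 1170561), (nat_lit 1748834, nat_lit 0)],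
  [⟨nat_lit 710214, nat_lit 1073128376, nat_lit 750406, nat_lit 1073132988⟩, ⟨nat_lit 710214, nat_lit 1073128376, nat_lit 750406, nat_lit 1073132988⟩, ⟨nat_lit 1061220169, nat_lit 394558743, nat_lit 1061313771, nat_lit 397539930⟩, ⟨nat_lit 1061220169, nat_lit 394558743, nat_lit 1061313771, nat_lit 397539930⟩, ⟨nat_lit 498519095, nat_lit 575319542, nat_lit 501403312, nat_lit 578025038⟩, ⟨nat_lit 968916528, nat_lit 104921009, nat_lit 969665188, nat_lit 106771840⟩, ⟨nat_lit 197236638, nat_lit 876602308, nat_lit 199765629, nat_lit 877940322⟩, ⟨nat_lit 438562292, nat_lit 1016914921, nat_lit 441524810, nat_lit 1017330765⟩, ⟨nat_lit 197236638, nat_lit 876602308, nat_lit 199765629, nat_lit 877940322⟩, ⟨nat_lit 1061220169, nat_lit 12617494, nat_lit 1061313771, nat_lit 13046195⟩, ⟨nat_lit 1061220169, nat_lit 12617494, nat_lit 1061313771, nat_lit 13046195⟩, ⟨nat_lit 438562292, nat_lit 1016914921, nat_lit 441524810, nat_lit 1017330765⟩, ⟨nat_lit 1460128014, nat_lit 2001044,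 nat_lit 1456757428, nat_lit 2097879⟩, ⟨nat_lit 247129588, nat_lit 1210065571, nat_lit 249874278, nat_lit 1208978594⟩, ⟨nat_lit 82727814, nat_lit 1377090283, nat_lit 84337717, nat_lit 1374516362⟩, ⟨nat_lit 247129588, nat_lit 1210065571, nat_lit 249874278, nat_lit 1208978594⟩, ⟨nat_lit 1460128014, nat_lit 2001044, nat_lit 1456757428, nat_lit 2097879⟩, ⟨nat_lit 1158231799, nat_lit 104921009, nat_lit 1157572362, nat_lit 106771840⟩, ⟨nat_lit 968916528, nat_lit 104921009, nat_lit 969665188, nat_lit 106771840⟩, ⟨nat_lit 498519095, nat_lit 575319542, nat_lit 501403312, nat_lit 578025038⟩, ⟨nat_lit 82727814, nat_lit 1377090283, nat_lit 84337717, nat_lit 1374516362⟩]⟩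

theorem iv58_ok : ivOK (nat_lit 1000) (nat_lit 1048576) (nat_lit 1073741824) iv58 = true := by decide +kernel

/-- data -/
def iv59 : Iv := ⟨nat_lit 2261, nat_lit 2282, nat_lit 1462375716,
  [(nat_lit 1043524, nat_lit 1849275), (nat_lit 1082443, nat_lit 800906), (nat_lit 1043524, nat_lit 1025982), (nat_lit 1538067, nat_lit 64670), (nat_lit 336747, nat_lit 0), (nat_lit 548981, nat_lit 64670), (nat_lit 1004605, nat_lit 800906), (nat_lit 2087048, nat_lit 1171621), (nat_lit 0, nat_lit 1171621), (nat_lit 1750301, nat_lit 0)],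
  [⟨nat_lit 584305, nat_lit 1073258174, nat_lit 626151, nat_lit 1073262625⟩, ⟨nat_lit 584305, nat_lit 1073258174, nat_lit 626151, nat_lit 1073262625⟩, ⟨nat_lit 1061972914, nat_lit 396507254, nat_lit 1062080627, nat_lit 400158981⟩, ⟨nat_lit 1061972914, nat_lit 396507254, nat_lit 1062080627, nat_lit 400158981⟩, ⟨nat_lit 493261167, nat_lit 580582523, nat_lit 496804735, nat_lit 583876969⟩, ⟨nat_lit 973742718, nat_lit 100101482, nat_lit 974619103, nat_lit 102311221⟩, ⟨nat_lit 193225540, nat_lit 880617568, nat_lit 196299342, nat_lit 882225878⟩, ⟨nat_lit 436468919, nat_lit 1021672627, nat_lit 440099618, nat_lit 1022140089⟩, ⟨nat_lit 193225540, nat_lit 880617568, nat_lit 196299342, nat_lit 882225878⟩, ⟨nat_lit 1061972914, nat_lit 11871088, nat_lit 1062080627, nat_lit 12373551⟩, ⟨nat_lit 1061972914, nat_lit 11871088, nat_lit 1062080627, nat_lit 12373551⟩, ⟨nat_lit 436468919, nat_lit 1021672627, nat_lit 440099618, nat_lit 1022140089⟩, ⟨nat_lit 1464441535, nat_lit 1861721,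 nat_lit 1460265429, nat_lit 1973889⟩, ⟨nat_lit 245222693, nat_lit 1215043620, nat_lit 248577922, nat_lit 1213662048⟩, ⟨nat_lit 80389252, nat_lit 1383130435, nat_lit 82329829, nat_lit 1379911412⟩, ⟨nat_lit 245222693, nat_lit 1215043620, nat_lit 248577922, nat_lit 1213662048⟩, ⟨nat_lit 1464441535, nat_lit 1861721, nat_lit 1460265429, nat_lit 1973889⟩, ⟨nat_lit 1154524518, nat_lit 100101482, nat_lit 1153754089, nat_lit 102311221⟩, ⟨nat_lit 973742718, nat_lit 100101482, nat_lit 974619103, nat_lit 102311221⟩, ⟨nat_lit 493261167, nat_lit 580582523, nat_lit 496804735, nat_lit 583876969⟩, ⟨nat_lit 80389252, nat_lit 1383130435, nat_lit 82329829, nat_lit 1379911412⟩]⟩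

theorem iv59_ok : ivOK (nat_lit 1000) (nat_lit 1048576) (nat_lit 1073741824) iv59 = true := by decide +kernel

/-- data -/
def iv60 : Iv := ⟨nat_lit 2282, nat_lit 2309, nat_lit 1466577529,
  [(nat_lit 1043954, nat_lit 1855757), (nat_lit 1007719, nat_lit 807337), (nat_lit 1043954, nat_lit 1028809), (nat_lit 550679, nat_lit 64166), (nat_lit 1752069, nat_lit 0), (nat_lit 1537229, nat_lit 64166), (nat_lit 1080189, nat_lit 807337), (nat_lit 0, nat_lit 1172897), (nat_lit 2087908, nat_lit 1172897), (nat_lit 335839, nat_lit 0)],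
  [⟨nat_lit 453275, nat_lit 1073373011, nat_lit 496389, nat_lit 1073377323⟩, ⟨nat_lit 453275, nat_lit 1073373011, nat_lit 496389, nat_lit 1073377323⟩, ⟨nat_lit 1062845006, nat_lit 398847160, nat_lit 1062971787, nat_lit 403492761⟩, ⟨nat_lit 1062845006, nat_lit 398847160, nat_lit 1062971787, nat_lit 403492761⟩, ⟨nat_lit 486707689, nat_lit 587116565, nat_lit 491231742, nat_lit 591275727⟩, ⟨nat_lit 979592504, nat_lit 94233698, nat_lit 980644250, nat_lit 96953290⟩, ⟨nat_lit 188225046, nat_lit 885599146, nat_lit 192096834, nat_lit 887596311⟩, ⟨nat_lit 433734862, nat_lit 1027579943, nat_lit 438356778, nat_lit 1028108095⟩, ⟨nat_lit 188225046, nat_lit 885599146, nat_lit 192096834, nat_lit 887596311⟩, ⟨nat_lit 1062845006, nat_lit 10980099, nat_lit 1062971787, nat_lit 11584560⟩, ⟨nat_lit 1062845006, nat_lit 10980099, nat_lit 1062971787, nat_lit 11584560⟩, ⟨nat_lit 433734862, nat_lit 1027579943, nat_lit 438356778, nat_lit 1028108095⟩, ⟨nat_lit 1470026133, nat_lit 1695906,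 nat_lit 1464636271, nat_lit 1828778⟩, ⟨nat_lit 242699756, nat_lit 1221344958, nat_lit 246956966, nat_lit 1219506824⟩, ⟨nat_lit 77476758, nat_lit 1390771308, nat_lit 79895461, nat_lit 1386570333⟩, ⟨nat_lit 242699756, nat_lit 1221344958, nat_lit 246956966, nat_lit 1219506824⟩, ⟨nat_lit 1470026133, nat_lit 1695906, nat_lit 1464636271, nat_lit 1828778⟩, ⟨nat_lit 1149967571, nat_lit 94233698, nat_lit 1149045691, nat_lit 96953290⟩, ⟨nat_lit 979592504, nat_lit 94233698, nat_lit 980644250, nat_lit 96953290⟩, ⟨nat_lit 486707689, nat_lit 587116565, nat_lit 491231742, nat_lit 591275727⟩, ⟨nat_lit 77476758, nat_lit 1390771308, nat_lit 79895461, nat_lit 1386570333⟩]⟩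

theorem iv60_ok : ivOK (nat_lit 1000) (nat_lit 1048576) (nat_lit 1073741824) iv60 = true := by decide +kernel

/-- data -/
def iv61 : Iv := ⟨nat_lit 2309, nat_lit 2345, nat_lit 1471997604,
  [(nat_lit 1044471, nat_lit 1863953), (nat_lit 1077422, nat_lit 815484), (nat_lit 1044471, nat_lit 1032355), (nat_lit 1536135, nat_lit 63494), (nat_lit 334664, nat_lit 0), (nat_lit 552807, nat_lit 63494), (nat_lit 1011520, nat_lit 815484), (nat_lit 2088942, nat_lit 1174461), (nat_lit 0, nat_lit 1174461), (nat_lit 1754278, nat_lit 0)],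
  [⟨nat_lit 321362, nat_lit 1073484904, nat_lit 363994, nat_lit 1073488849⟩, ⟨nat_lit 321362, nat_lit 1073484904, nat_lit 363994, nat_lit 1073488849⟩, ⟨nat_lit 1063910509, nat_lit 401739117, nat_lit 1064060756, nat_lit 407848309⟩, ⟨nat_lit 1063910509, nat_lit 401739117, nat_lit 1064060756, nat_lit 407848309⟩, ⟨nat_lit 478332710, nat_lit 595473296, nat_lit 484307477, nat_lit 600887171⟩, ⟨nat_lit 986866064, nat_lit 86940934, nat_lit 988145122, nat_lit 90361516⟩, ⟨nat_lit 181783932, nat_lit 892023366, nat_lit 186808671, nat_lit 894566056⟩, ⟨nat_lit 430048091, nat_lit 1035195157, nat_lit 436131618, nat_lit 1035776331⟩, ⟨nat_lit 181783932, nat_lit 892023366, nat_lit 186808671, nat_lit 894566056⟩, ⟨nat_lit 1063910509, nat_lit 9896216, nat_lit 1064060756, nat_lit 10634492⟩, ⟨nat_lit 1063910509, nat_lit 9896216, nat_lit 1064060756, nat_lit 10634492⟩, ⟨nat_lit 430048091, nat_lit 1035195157, nat_lit 436131618, nat_lit 1035776331⟩, ⟨nat_lit 1477477053, nat_lit 1496239, nat_lit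 1470254993, nat_lit 1655178⟩, ⟨nat_lit 239291906, nat_lit 1229595573, nat_lit 244870778, nat_lit 1227039790⟩, ⟨nat_lit 73756648, nat_lit 1400762768, nat_lit 76852296, nat_lit 1395057144⟩, ⟨nat_lit 239291906, nat_lit 1229595573, nat_lit 244870778, nat_lit 1227039790⟩, ⟨nat_lit 1477477053, nat_lit 1496239, nat_lit 1470254993, nat_lit 1655178⟩, ⟨nat_lit 1144294646, nat_lit 86940934, nat_lit 1143177250, nat_lit 90361516⟩, ⟨nat_lit 986866064, nat_lit 86940934, nat_lit 988145122, nat_lit 90361516⟩, ⟨nat_lit 478332710, nat_lit 595473296, nat_lit 484307477, nat_lit 600887171⟩, ⟨nat_lit 73756648, nat_lit 1400762768, nat_lit 76852296, nat_lit 1395057144⟩]⟩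

theorem iv61_ok : ivOK (nat_lit 1000) (nat_lit 1048576) (nat_lit 1073741824) iv61 = true := by decide +kernel

/-- data -/
def iv62 : Iv := ⟨nat_lit 2345, nat_lit 2395, nat_lit 1479255543,
  [(nat_lit 1045108, nat_lit 1874589), (nat_lit 1016218, nat_lit 826062), (nat_lit 1045108, nat_lit 1036919), (nat_lit 555572, nat_lit 62572), (nat_lit 1757122, nat_lit 0), (nat_lit 1534644, nat_lit 62572), (nat_lit 1073998, nat_lit 826062), (nat_lit 0, nat_lit 1176403), (nat_lit 2090216, nat_lit 1176403), (nat_lit 333094, nat_lit 0)],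
  [⟨nat_lit 197266, nat_lit 1073621656, nat_lit 236073, nat_lit 1073624165⟩, ⟨nat_lit 197266, nat_lit 1073621656, nat_lit 236073, nat_lit 1073624165⟩, ⟨nat_lit 1065256235, nat_lit 405390856, nat_lit 1065432701, nat_lit 413718925⟩, ⟨nat_lit 1065256235, nat_lit 405390856, nat_lit 1065432701, nat_lit 413718925⟩, ⟨nat_lit 467350727, nat_lit 606468657, nat_lit 475537556, nat_lit 613744658⟩, ⟨nat_lit 996085602, nat_lit 77735418, nat_lit 997647950, nat_lit 82115358⟩, ⟨nat_lit 173219698, nat_lit 900600689, nat_lit 179944279, nat_lit 903912908⟩, ⟨nat_lit 424886677, nat_lit 1045374618, nat_lit 433190261, nat_lit 1045959106⟩, ⟨nat_lit 173219698, nat_lit 900600689, nat_lit 179944279, nat_lit 903912908⟩, ⟨nat_lit 1065256235, nat_lit 8564440, nat_lit 1065432701, nat_lit 9473333⟩, ⟨nat_lit 1065256235, nat_lit 8564440, nat_lit 1065432701, nat_lit 9473333⟩, ⟨nat_lit 424886677, nat_lit 1045374618, nat_lit 433190261, nat_lit 1045959106⟩, ⟨nat_lit 1487800851, nat_lit 1255721, nat_lit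 1477704876, nat_lit 1445787⟩, ⟨nat_lit 234539619, nat_lit 1240781482, nat_lit 242108030, nat_lit 1237041684⟩, ⟨nat_lit 68882767, nat_lit 1414311240, nat_lit 72947808, nat_lit 1406200288⟩, ⟨nat_lit 234539619, nat_lit 1240781482, nat_lit 242108030, nat_lit 1237041684⟩, ⟨nat_lit 1487800851, nat_lit 1255721, nat_lit 1477704876, nat_lit 1445787⟩, ⟨nat_lit 1137146435, nat_lit 77735418, nat_lit 1135785230, nat_lit 82115358⟩, ⟨nat_lit 996085602, nat_lit 77735418, nat_lit 997647950, nat_lit 82115358⟩, ⟨nat_lit 467350727, nat_lit 606468657, nat_lit 475537556, nat_lit 613744658⟩, ⟨nat_lit 68882767, nat_lit 1414311240, nat_lit 72947808, nat_lit 1406200288⟩]⟩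

theorem iv62_ok : ivOK (nat_lit 1000) (nat_lit 1048576) (nat_lit 1073741824) iv62 = true := by decide +kernel

/-- data -/
def iv63 : Iv := ⟨nat_lit 2395, nat_lit 2470, nat_lit 1489395421,
  [(nat_lit 1045867, nat_lit 1889037), (nat_lit 1069612, nat_lit 840472), (nat_lit 1045867, nat_lit 1042998), (nat_lit 1532504, nat_lit 61235), (nat_lit 330848, nat_lit 0), (nat_lit 559230, nat_lit 61235), (nat_lit 1022122, nat_lit 840472), (nat_lit 2091734, nat_lit 1178907), (nat_lit 0, nat_lit 1178907), (nat_lit 1760886, nat_lit 0)],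
  [⟨nat_lit 92828, nat_lit 1073714002, nat_lit 123328, nat_lit 1073714847⟩, ⟨nat_lit 92828, nat_lit 1073714002, nat_lit 123328, nat_lit 1073714847⟩, ⟨nat_lit 1066903009, nat_lit 410036576, nat_lit 1067110024, nat_lit 422199051⟩, ⟨nat_lit 1066903009, nat_lit 410036576, nat_lit 1067110024, nat_lit 422199051⟩, ⟨nat_lit 452092417, nat_lit 621713804, nat_lit 464124279, nat_lit 632115240⟩, ⟨nat_lit 1008068031, nat_lit 65738834, nat_lit 1010001760, nat_lit 71557697⟩, ⟨nat_lit 161218451, nat_lit 912587542, nat_lit 170773058, nat_lit 917104935⟩, ⟨nat_lit 417044609, nat_lit 1059688616, nat_lit 429194045, nat_lit 1060112614⟩, ⟨nat_lit 161218451, nat_lit 912587542, nat_lit 170773058, nat_lit 917104935⟩, ⟨nat_lit 1066903009, nat_lit 6904642, nat_lit 1067110024, nat_lit 8048086⟩, ⟨nat_lit 1066903009, nat_lit 6904642, nat_lit 1067110024, nat_lit 8048086⟩, ⟨nat_lit 417044609, nat_lit 1059688616, nat_lit 429194045, nat_lit 1060112614⟩, ⟨nat_lit 1503401840, nat_lit 963623, nat_lit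 1488115222, nat_lit 1192415⟩, ⟨nat_lit 227282774, nat_lit 1257055870, nat_lit 238255115, nat_lit 1251053829⟩, ⟨nat_lit 62158498, nat_lit 1434077307, nat_lit 67775600, nat_lit 1421531839⟩, ⟨nat_lit 227282774, nat_lit 1257055870, nat_lit 238255115, nat_lit 1251053829⟩, ⟨nat_lit 1503401840, nat_lit 963623, nat_lit 1488115222, nat_lit 1192415⟩, ⟨nat_lit 1127734749, nat_lit 65738834, nat_lit 1126055993, nat_lit 71557697⟩, ⟨nat_lit 1008068031, nat_lit 65738834, nat_lit 1010001760, nat_lit 71557697⟩, ⟨nat_lit 452092417, nat_lit 621713804, nat_lit 464124279, nat_lit 632115240⟩, ⟨nat_lit 62158498, nat_lit 1434077307, nat_lit 67775600, nat_lit 1421531839⟩]⟩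

theorem iv63_ok : ivOK (nat_lit 1000) (nat_lit 1048576) (nat_lit 1073741824) iv63 = true := by decide +kernel

/-- data -/
def iv64 : Iv := ⟨nat_lit 2470, nat_lit 2595, nat_lit 1504735710,
  [(nat_lit 1046780, nat_lit 1909861), (nat_lit 1063949, nat_lit 861269), (nat_lit 1046780, nat_lit 1051525), (nat_lit 1529121, nat_lit 59167), (nat_lit 327349, nat_lit 0), (nat_lit 564439, nat_lit 59167), (nat_lit 1029611, nat_lit 861269), (nat_lit 2093560, nat_lit 1182235), (nat_lit 0, nat_lit 1182235), (nat_lit 1766211, nat_lit 0)],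
  [⟨nat_lit 24923, nat_lit 1073784340, nat_lit 41672, nat_lit 1073782293⟩, ⟨nat_lit 24923, nat_lit 1073784340, nat_lit 41672, nat_lit 1073782293⟩, ⟨nat_lit 1068975865, nat_lit 416001501, nat_lit 1069204955, nat_lit 435443048⟩, ⟨nat_lit 1068975865, nat_lit 416001501, nat_lit 1069204955, nat_lit 435443048⟩, ⟨nat_lit 429446822, nat_lit 644359627, nat_lit 448828493, nat_lit 660405923⟩, ⟨nat_lit 1024070795, nat_lit 49739827, nat_lit 1026409879, nat_lit 57672914⟩, ⟨nat_lit 143135444, nat_lit 930673886, nat_lit 157725862, nat_lit 937106545⟩, ⟨nat_lit 403952158, nat_lit 1081595728, nat_lit 423429663, nat_lit 1081216096⟩, ⟨nat_lit 143135444, nat_lit 930673886, nat_lit 157725862, nat_lit 937106545⟩, ⟨nat_lit 1068975865, nat_lit 4833530, nat_lit 1069204955, nat_lit 6270482⟩, ⟨nat_lit 1068975865, nat_lit 4833530, nat_lit 1069204955, nat_lit 6270482⟩, ⟨nat_lit 403952158, nat_lit 1081595728, nat_lit 423429663, nat_lit 1081216096⟩, ⟨nat_lit 1529612400, nat_lit 618001, nat_lit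 1503760334, nat_lit 885227⟩, ⟨nat_lit 215223279, nat_lit 1283059516, nat_lit 232547732, nat_lit 1272099362⟩, ⟨nat_lit 52347589, nat_lit 1465917361, nat_lit 60547373, nat_lit 1444097450⟩, ⟨nat_lit 215223279, nat_lit 1283059516, nat_lit 232547732, nat_lit 1272099362⟩, ⟨nat_lit 1529612400, nat_lit 618001, nat_lit 1503760334, nat_lit 885227⟩, ⟨nat_lit 1115071199, nat_lit 49739827, nat_lit 1113044394, nat_lit 57672914⟩, ⟨nat_lit 1024070795, nat_lit 49739827, nat_lit 1026409879, nat_lit 57672914⟩, ⟨nat_lit 429446822, nat_lit 644359627, nat_lit 448828493, nat_lit 660405923⟩, ⟨nat_lit 52347589, nat_lit 1465917361, nat_lit 60547373, nat_lit 1444097450⟩]⟩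

theorem iv64_ok : ivOK (nat_lit 1000) (nat_lit 1048576) (nat_lit 1073741824) iv64 = true := by decide +kernel

/-- data -/
def iv65 : Iv := ⟨nat_lit 2595, nat_lit 2846, nat_lit 1530654772,
  [(nat_lit 1047776, nat_lit 1942567), (nat_lit 1056812, nat_lit 893971), (nat_lit 1047776, nat_lit 1064211), (nat_lit 1522869, nat_lit 55726), (nat_lit 320966, nat_lit 0), (nat_lit 572683, nat_lit 55726), (nat_lit 1038740, nat_lit 893971), (nat_lit 2095552, nat_lit 1186857), (nat_lit 0, nat_lit 1186857), (nat_lit 1774586, nat_lit 0)],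
  [⟨nat_lit 1428, nat_lit 1073800111, nat_lit 4712, nat_lit 1073794971⟩, ⟨nat_lit 1428, nat_lit 1073800111, nat_lit 4712, nat_lit 1073794971⟩, ⟨nat_lit 1071412022, nat_lit 422738038, nat_lit 1071617294, nat_lit 458959918⟩, ⟨nat_lit 1071412022, nat_lit 422738038, nat_lit 1071617294, nat_lit 458959918⟩, ⟨nat_lit 391875515, nat_lit 681928749, nat_lit 428307015, nat_lit 709785949⟩, ⟨nat_lit 1045324257, nat_lit 28477166, nat_lit 1047799981, nat_lit 39221663⟩, ⟨nat_lit 112819586, nat_lit 960983102, nat_lit 137620663, nat_lit 970432426⟩, ⟨nat_lit 378334879, nat_lit 1119936696, nat_lit 414791946, nat_lit 1115783898⟩, ⟨nat_lit 112819586, nat_lit 960983102, nat_lit 137620663, nat_lit 970432426⟩, ⟨nat_lit 1071412022, nat_lit 2391002, nat_lit 1071617294, nat_lit 4097309⟩, ⟨nat_lit 1071412022, nat_lit 2391002, nat_lit 1071617294, nat_lit 4097309⟩, ⟨nat_lit 378334879, nat_lit 1119936696, nat_lit 414791946, nat_lit 1115783898⟩, ⟨nat_lit 1583364427, nat_lit 253252, nat_lit 1530045119,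 nat_lit 529010⟩, ⟨nat_lit 191997949, nat_lit 1332202499, nat_lit 223475893, nat_lit 1307100809⟩, ⟨nat_lit 36953443, nat_lit 1527602465, nat_lit 49739828, nat_lit 1480835890⟩, ⟨nat_lit 191997949, nat_lit 1332202499, nat_lit 223475893, nat_lit 1307100809⟩, ⟨nat_lit 1583364427, nat_lit 253252, nat_lit 1530045119, nat_lit 529010⟩, ⟨nat_lit 1097918425, nat_lit 28477166, nat_lit 1095764484, nat_lit 39221663⟩, ⟨nat_lit 1045324257, nat_lit 28477166, nat_lit 1047799981, nat_lit 39221663⟩, ⟨nat_lit 391875515, nat_lit 681928749, nat_lit 428307015, nat_lit 709785949⟩, ⟨nat_lit 36953443, nat_lit 1527602465, nat_lit 49739828, nat_lit 1480835890⟩]⟩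

theorem iv65_ok : ivOK (nat_lit 1000) (nat_lit 1048576) (nat_lit 1073741824) iv65 = true := by decide +kernel

/-- data -/
def iv66 : Iv := ⟨nat_lit 2846, nat_lit 3603, nat_lit 1584056363,
  [(nat_lit 1048503, nat_lit 2001043), (nat_lit 1049878, nat_lit 952454), (nat_lit 1048503, nat_lit 1083653), (nat_lit 1506210, nat_lit 50022), (nat_lit 304187, nat_lit 0), (nat_lit 590796, nat_lit 50022), (nat_lit 1047128, nat_lit 952454), (nat_lit 2097006, nat_lit 1193560), (nat_lit 0, nat_lit 1193560), (nat_lit 1792819, nat_lit 0)],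
  [⟨nat_lit 0, nat_lit 1073789787, nat_lit 7, nat_lit 1073779711⟩, ⟨nat_lit 0, nat_lit 1073789787, nat_lit 7, nat_lit 1073779711⟩, ⟨nat_lit 1073472516, nat_lit 418870696, nat_lit 1073529094, nat_lit 510474602⟩, ⟨nat_lit 1073472516, nat_lit 418870696, nat_lit 1073529094, nat_lit 510474602⟩, ⟨nat_lit 314418509, nat_lit 759369851, nat_lit 406981952, nat_lit 816700026⟩, ⟨nat_lit 1068409063, nat_lit 5379895, nat_lit 1069527289, nat_lit 16369543⟩, ⟨nat_lit 54172058, nat_lit 1019617714, nat_lit 101462299, nat_lit 1030758213⟩, ⟨nat_lit 312334624, nat_lit 1208893127, nat_lit 404849819, nat_lit 1179152927⟩, ⟨nat_lit 54172058, nat_lit 1019617714, nat_lit 101462299, nat_lit 1030758213⟩, ⟨nat_lit 1073472516, nat_lit 317316, nat_lit 1073529094, nat_lit 1749971⟩, ⟨nat_lit 1073472516, nat_lit 317316, nat_lit 1073529094, nat_lit 1749971⟩, ⟨nat_lit 312334624, nat_lit 1208893127, nat_lit 404849819, nat_lit 1179152927⟩, ⟨nat_lit 1756321915, nat_lit 18610, nat_lit 1583814382, nat_lit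 186246⟩, ⟨nat_lit 135883855, nat_lit 1467422917, nat_lit 209789513, nat_lit 1374211970⟩, ⟨nat_lit 12428941, nat_lit 1712175332, nat_lit 31716906, nat_lit 1552284314⟩, ⟨nat_lit 135883855, nat_lit 1467422917, nat_lit 209789513, nat_lit 1374211970⟩, ⟨nat_lit 1756321915, nat_lit 18610, nat_lit 1583814382, nat_lit 186246⟩, ⟨nat_lit 1078553284, nat_lit 5379895, nat_lit 1077540599, nat_lit 16369543⟩, ⟨nat_lit 1068409063, nat_lit 5379895, nat_lit 1069527289, nat_lit 16369543⟩, ⟨nat_lit 314418509, nat_lit 759369851, nat_lit 406981952, nat_lit 816700026⟩, ⟨nat_lit 12428941, nat_lit 1712175332, nat_lit 31716906, nat_lit 1552284314⟩]⟩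

theorem iv66_ok : ivOK (nat_lit 1000) (nat_lit 1048576) (nat_lit 1073741824) iv66 = true := by decide +kernel

/-- data -/
def iv67 : Iv := ⟨nat_lit 3603, nat_lit 5100, nat_lit 1756661636,
  [(nat_lit 0, nat_lit 1060429), (nat_lit 1060430, nat_lit 1060454), (nat_lit 964452, nat_lit 1060429), (nat_lit 2023620, nat_lit 1450032), (nat_lit 2066296, nat_lit 261384), (nat_lit 2023620, nat_lit 670826), (nat_lit 1060430, nat_lit 1060404), (nat_lit 879055, nat_lit 2120858), (nat_lit 879055, nat_lit 0), (nat_lit 2066296, nat_lit 1859474)],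
  [⟨nat_lit 1137099689, nat_lit 0, nat_lit 1118124204, nat_lit 1⟩, ⟨nat_lit 1137099689, nat_lit 0, nat_lit 1118124204, nat_lit 1⟩, ⟨nat_lit 436839759, nat_lit 1137094220, nat_lit 568811287, nat_lit 1118120405⟩, ⟨nat_lit 436839759, nat_lit 1137094220, nat_lit 568811287, nat_lit 1118120405⟩, ⟨nat_lit 868550285, nat_lit 268548619, nat_lit 924337272, nat_lit 403358776⟩, ⟨nat_lit 139503, nat_lit 1136957509, nat_lit 1929003, nat_lit 1118025433⟩, ⟨nat_lit 1130214964, nat_lit 6886745, nat_lit 1113337254, nat_lit 30317299⟩, ⟨nat_lit 1382460969, nat_lit 268505772, nat_lit 1283621973, nat_lit 403313310⟩, ⟨nat_lit 1130214964, nat_lit 6886745, nat_lit 1113337254, nat_lit 30317299⟩, ⟨nat_lit 2993, nat_lit 1137094220, nat_lit 127840, nat_lit 1118120405⟩, ⟨nat_lit 2993, nat_lit 1137094220, nat_lit 127840, nat_lit 1118120405⟩, ⟨nat_lit 1382460969, nat_lit 268505772, nat_lit 1283621973, nat_lit 403313310⟩, ⟨nat_lit 87, nat_lit 2035222795, nat_lit 10501, nat_lit 1686923128⟩, ⟨nat_lit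 1678443262, nat_lit 110040038, nat_lit 1472176784, nat_lit 214760203⟩, ⟨nat_lit 2022966220, nat_lit 899421, nat_lit 1679739709, nat_lit 7196721⟩, ⟨nat_lit 1678443262, nat_lit 110040038, nat_lit 1472176784, nat_lit 214760203⟩, ⟨nat_lit 87, nat_lit 2035222795, nat_lit 10501, nat_lit 1686923128⟩, ⟨nat_lit 139503, nat_lit 1137230944, nat_lit 1929003, nat_lit 1118215383⟩, ⟨nat_lit 139503, nat_lit 1136957509, nat_lit 1929003, nat_lit 1118025433⟩, ⟨nat_lit 868550285, nat_lit 268548619, nat_lit 924337272, nat_lit 403358776⟩, ⟨nat_lit 2022966220, nat_lit 899421, nat_lit 1679739709, nat_lit 7196721⟩]⟩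

theorem iv67_ok : ivOK (nat_lit 1000) (nat_lit 1048576) (nat_lit 1073741824) iv67 = true := by decide +kernel

/-- all intervals -/
def ivs : List Iv := [iv0, iv1, iv2, iv3, iv4, iv5, iv6, iv7, iv8, iv9, iv10, iv11, iv12, iv13, iv14, iv15, iv16, iv17, iv18, iv19, iv20, iv21, iv22, iv23, iv24, iv25, iv26, iv27, iv28, iv29, iv30, iv31, iv32, iv33, iv34, iv35, iv36, iv37, iv38, iv39, iv40, iv41, iv42, iv43, iv44, iv45, iv46, iv47, iv48, iv49, iv50, iv51, iv52, iv53, iv54, iv55, iv56, iv57, iv58, iv59, iv60, iv61, iv62, iv63, iv64, iv65, iv66, iv67]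

theorem ivs_ok : ∀ v ∈ ivs, ivOK (nat_lit 1000) (nat_lit 1048576) (nat_lit 1073741824) v = true :=
  List.forall_mem_cons.mpr ⟨iv0_ok,
  List.forall_mem_cons.mpr ⟨iv1_ok,
  List.forall_mem_cons.mpr ⟨iv2_ok,
  List.forall_mem_cons.mpr ⟨iv3_ok,
  List.forall_mem_cons.mpr ⟨iv4_ok,
  List.forall_mem_cons.mpr ⟨iv5_ok,
  List.forall_mem_cons.mpr ⟨iv6_ok,
  List.forall_mem_cons.mpr ⟨iv7_ok,
  List.forall_mem_cons.mpr ⟨iv8_ok,
  List.forall_mem_cons.mpr ⟨iv9_ok,
  List.forall_mem_cons.mpr ⟨iv10_ok,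
  List.forall_mem_cons.mpr ⟨iv11_ok,
  List.forall_mem_cons.mpr ⟨iv12_ok,
  List.forall_mem_cons.mpr ⟨iv13_ok,
  List.forall_mem_cons.mpr ⟨iv14_ok,
  List.forall_mem_cons.mpr ⟨iv15_ok,
  List.forall_mem_cons.mpr ⟨iv16_ok,
  List.forall_mem_cons.mpr ⟨iv17_ok,
  List.forall_mem_cons.mpr ⟨iv18_ok,
  List.forall_mem_cons.mpr ⟨iv19_ok,
  List.forall_mem_cons.mpr ⟨iv20_ok,
  List.forall_mem_cons.mpr ⟨iv21_ok,
  List.forall_mem_cons.mpr ⟨iv22_ok,
  List.forall_mem_cons.mpr ⟨iv23_ok,
  List.forall_mem_cons.mpr ⟨iv24_ok,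
  List.forall_mem_cons.mpr ⟨iv25_ok,
  List.forall_mem_cons.mpr ⟨iv26_ok,
  List.forall_mem_cons.mpr ⟨iv27_ok,
  List.forall_mem_cons.mpr ⟨iv28_ok,
  List.forall_mem_cons.mpr ⟨iv29_ok,
  List.forall_mem_cons.mpr ⟨iv30_ok,
  List.forall_mem_cons.mpr ⟨iv31_ok,
  List.forall_mem_cons.mpr ⟨iv32_ok,
  List.forall_mem_cons.mpr ⟨iv33_ok,
  List.forall_mem_cons.mpr ⟨iv34_ok,
  List.forall_mem_cons.mpr ⟨iv35_ok,
  List.forall_mem_cons.mpr ⟨iv36_ok,
  List.forall_mem_cons.mpr ⟨iv37_ok,
  List.forall_mem_cons.mpr ⟨iv38_ok,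
  List.forall_mem_cons.mpr ⟨iv39_ok,
  List.forall_mem_cons.mpr ⟨iv40_ok,
  List.forall_mem_cons.mpr ⟨iv41_ok,
  List.forall_mem_cons.mpr ⟨iv42_ok,
  List.forall_mem_cons.mpr ⟨iv43_ok,
  List.forall_mem_cons.mpr ⟨iv44_ok,
  List.forall_mem_cons.mpr ⟨iv45_ok,
  List.forall_mem_cons.mpr ⟨iv46_ok,
  List.forall_mem_cons.mpr ⟨iv47_ok,
  List.forall_mem_cons.mpr ⟨iv48_ok,
  List.forall_mem_cons.mpr ⟨iv49_ok,
  List.forall_mem_cons.mpr ⟨iv50_ok,
  List.forall_mem_cons.mpr ⟨iv51_ok,
  List.forall_mem_cons.mpr ⟨iv52_ok,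
  List.forall_mem_cons.mpr ⟨iv53_ok,
  List.forall_mem_cons.mpr ⟨iv54_ok,
  List.forall_mem_cons.mpr ⟨iv55_ok,
  List.forall_mem_cons.mpr ⟨iv56_ok,
  List.forall_mem_cons.mpr ⟨iv57_ok,
  List.forall_mem_cons.mpr ⟨iv58_ok,
  List.forall_mem_cons.mpr ⟨iv59_ok,
  List.forall_mem_cons.mpr ⟨iv60_ok,
  List.forall_mem_cons.mpr ⟨iv61_ok,
  List.forall_mem_cons.mpr ⟨iv62_ok,
  List.forall_mem_cons.mpr ⟨iv63_ok,
  List.forall_mem_cons.mpr ⟨iv64_ok,
  List.forall_mem_cons.mpr ⟨iv65_ok,
  List.forall_mem_cons.mpr ⟨iv66_ok,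
  List.forall_mem_cons.mpr ⟨iv67_ok,
  List.forall_mem_nil _⟩⟩⟩⟩⟩⟩⟩⟩⟩⟩⟩⟩⟩⟩⟩⟩⟩⟩⟩⟩⟩⟩⟩⟩⟩⟩⟩⟩⟩⟩⟩⟩⟩⟩⟩⟩⟩⟩⟩⟩⟩⟩⟩⟩⟩⟩⟩⟩⟩⟩⟩⟩⟩⟩⟩⟩⟩⟩⟩⟩⟩⟩⟩⟩⟩⟩⟩⟩

end FD4632
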