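import Pool.Agent.FD4632.Edge

/-! Soundness of the leaf check. -/

set_option autoImplicit false

namespace FD4632

theorem U_le (k : Nat) : U k ≤ 2097152 := by
  rw [← U_mod]
  exact c6_all _ (Nat.mod_lt _ (by norm_num))

theorem zf_nat (a b C k : Nat) :
    zf a b C k = a * U k + b * V k + C * (4194304 - (U k + V k)) := rfl

theorem zf_eq (a b C k : Nat) : (zf a b C k : Int) =
    ((a : Int) - C) * PX k + ((b : Int) - C) * PY k + 1048576 * ((a : Int) + b + 2 * C) := by
  have h1 := U_le k
  have h2 := U_le (k + 192)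
  rw [← V_eq] at h2
  rw [zf_nat, PX_eq, PY_eq]
  push_cast [Nat.cast_sub (show U k + V k ≤ 4194304 by omega)]
  ring

theorem zf_congr (a b C : Nat) {j k : Nat} (h : j % 256 = k % 256) : zf a b C j = zf a b C k := by
  have : (zf a b C j : Int) = zf a b C k := by
    rw [zf_eq, zf_eq, PX_congr h, PY_congr h]
  exact_mod_cast this

theorem sw_eq (L : Nat) : sw L = if L ≤ 64 then (L + 3) / 4 else 16 := by
  rw [← bq_ble]
  rfl

theorem minS_eq (a b C i L s : Nat) : minS a b C i L s =
    if L ≤ s then min (zf a b C i) (zf a b C (i + L)) else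
      min (zf a b C i) (min (zf a b C (i + s))
        (if L ≤ 2 * s then zf a b C (i + L) else
          min (zf a b C (i + 2 * s)) (if L ≤ 3 * s then zf a b C (i + L) else
            min (zf a b C (i + 3 * s)) (zf a b C (i + L))))) := by
  simp only [← mn_eq, ← bq_ble]
  rfl

theorem minF_le (a b C r : Nat) (hr : r ≤ 15) : minF a b C ≤ zf a b C (16 * r) := by
  have key : ∀ n r, r ≤ n → (Nat.rec (zf a b C (nat_lit 0))
    (fun r ih => mn ih (zf a b C (Nat.mul (nat_lit 16) (Nat.succ r)))) n : Nat) ≤ zf a b C (16 * r) := by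
    intro n
    induction n with
    | zero =>
      intro r hr
      obtain rfl : r = 0 := by omega
      exact le_rfl
    | succ n ih =>
      intro r hr
      show mn (Nat.rec (zf a b C (nat_lit 0))
        (fun r ih => mn ih (zf a b C (Nat.mul (nat_lit 16) (Nat.succ r)))) n)
          (zf a b C (Nat.mul (nat_lit 16) (Nat.succ n))) ≤ _
      rw [mn_eq]
      rcases Nat.lt_or_ge r (n + 1) with h | h
      · exact (min_le_left _ _).trans (ih r (by omega))
      · obtain rfl : r = n + 1 := by omega
        exact min_le_right _ _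
  exact key 15 r hr

theorem minZ_eq (a b C i L : Nat) : minZ a b C i L =
    if L ≤ 64 then minS a b C i L (sw L) else minF a b C := by
  rw [← bq_ble]
  rfl

theorem minZ_spec (a b C i L v : Nat) (hv : v < L) :
    ∃ p q k, k % 256 = (i + v) % 256 ∧ p ≤ k ∧ k < q ∧ q ≤ p + sw L ∧
      minZ a b C i L ≤ zf a b C p ∧ minZ a b C i L ≤ zf a b C q := by
  rw [minZ_eq]
  by_cases hL : L ≤ 64
  · rw [if_pos hL]
    have hs : sw L = (L + 3) / 4 := by rw [sw_eq, if_pos hL]
    rw [minS_eq]
    generalize sw L = s at hs ⊢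
    have h1 : 1 ≤ s := by omega
    have h4 : L ≤ 4 * s := by omega
    by_cases c1 : L ≤ s
    · rw [if_pos c1]
      exact ⟨i, i + L, i + v, rfl, by omega, by omega, by omega, min_le_left _ _,
        min_le_right _ _⟩
    · rw [if_neg c1]
      by_cases d1 : v < s
      · exact ⟨i, i + s, i + v, rfl, by omega, by omega, by omega, min_le_left _ _,
          (min_le_right _ _).trans (min_le_left _ _)⟩
      · by_cases c2 : L ≤ 2 * s
        · rw [if_pos c2]
          exact ⟨i + s, i + L, i + v, rfl, by omega, by omega, by omega,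
            (min_le_right _ _).trans (min_le_left _ _), (min_le_right _ _).trans (min_le_right _ _)⟩
        · rw [if_neg c2]
          by_cases d2 : v < 2 * s
          · exact ⟨i + s, i + 2 * s, i + v, rfl, by omega, by omega, by omega,
              (min_le_right _ _).trans (min_le_left _ _),
              (min_le_right _ _).trans ((min_le_right _ _).trans (min_le_left _ _))⟩
          · by_cases c3 : L ≤ 3 * s
            · rw [if_pos c3]
              exact ⟨i + 2 * s, i + L, i + v, rfl, by omega, by omega, by omega,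
                (min_le_right _ _).trans ((min_le_right _ _).trans (min_le_left _ _)),
                (min_le_right _ _).trans ((min_le_right _ _).trans (min_le_right _ _))⟩
            · rw [if_neg c3]
              by_cases d3 : v < 3 * s
              · exact ⟨i + 2 * s, i + 3 * s, i + v, rfl, by omega, by omega, by omega,
                  (min_le_right _ _).trans ((min_le_right _ _).trans (min_le_left _ _)),
                  (min_le_right _ _).trans ((min_le_right _ _).trans
                    ((min_le_right _ _).trans (min_le_left _ _)))⟩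
              · exact ⟨i + 3 * s, i + L, i + v, rfl, by omega, by omega, by omega,
                  (min_le_right _ _).trans ((min_le_right _ _).trans
                    ((min_le_right _ _).trans (min_le_left _ _))),
                  (min_le_right _ _).trans ((min_le_right _ _).trans
                    ((min_le_right _ _).trans (min_le_right _ _)))⟩
  · rw [if_neg hL, sw_eq, if_neg hL]
    have hk : (i + v) % 256 < 256 := Nat.mod_lt _ (by norm_num)
    generalize (i + v) % 256 = k at hk ⊢
    refine ⟨16 * (k / 16), 16 * (k / 16) + 16, k, by omega, by omega, by omega, le_rfl,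
      minF_le _ _ _ _ (by omega), ?_⟩
    by_cases h15 : k / 16 < 15
    · have := minF_le a b C (k / 16 + 1) (by omega)
      rwa [mul_add, mul_one] at this
    · rw [zf_congr a b C (j := 16 * (k / 16) + 16) (k := 16 * 0) (by omega)]
      exact minF_le _ _ _ _ (by omega)

theorem sw_le (L : Nat) : sw L ≤ 16 := by
  rw [sw_eq]
  split_ifs <;> omega

/-- the integer contribution of an edge -/
noncomputable def cb (C c a b : Nat) : Int :=
  if 0 ≤ (minZ a b C (c % 256) (c / 256) : Int) - 1048576 * ((a : Int) + b + 2 * C) then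
    ((minZ a b C (c % 256) (c / 256) : Int) - 1048576 * ((a : Int) + b + 2 * C)) * 1048576
  else ((minZ a b C (c % 256) (c / 256) : Int) - 1048576 * ((a : Int) + b + 2 * C)) * (RW (sw (c / 256)) : Int)

theorem cb_le (C c a b κ : Nat) (x y : ℝ) (hκ : κ < 256) (hin : InArc c κ) (hs : Sec κ x y)
    (h1 : 1 ≤ nrm x y) (h2 : nrm x y ≤ 2293 / 2000) :
    (cb C c a b : ℝ) ≤ 1048576 * 1048576 * (((a : ℝ) - C) * x + ((b : ℝ) - C) * y) := by
  unfold InArc at hin
  obtain ⟨p, q, k, hk, hpk, hkq, hqp, hp, hq⟩ :=
    minZ_spec a b C (c % 256) (c / 256) ((κ + 256 - c % 256) % 256) hin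
  have hsk : Sec k x y := (Sec_congr (by omega) x y).mp hs
  have hz1 := zf_eq a b C p
  have hz2 := zf_eq a b C q
  have hp' : (minZ a b C (c % 256) (c / 256) : Int) ≤ zf a b C p := by exact_mod_cast hp
  have hq' : (minZ a b C (c % 256) (c / 256) : Int) ≤ zf a b C q := by exact_mod_cast hq
  have h := edge_lb x y k p q (sw (c / 256)) hsk h1 h2 hpk hkq hqp (sw_le _)
    ((a : Int) - C) ((b : Int) - C)
    ((minZ a b C (c % 256) (c / 256) : Int) - 1048576 * ((a : Int) + b + 2 * C))
    (by linarith) (by linarith)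
  unfold cb
  refine h.trans_eq ?_
  push_cast
  ring

/-- contribution including the case of a vanishing functional -/
noncomputable def cb' (C c a b : Nat) : Int := if a = C ∧ b = C then 0 else cb C c a b

theorem cb'_le (C c a b κ : Nat) (x y : ℝ) (hκ : κ < 256) (hin : InArc c κ) (hs : Sec κ x y)
    (h1 : 1 ≤ nrm x y) (h2 : nrm x y ≤ 2293 / 2000) :
    (cb' C c a b : ℝ) ≤ 1048576 * 1048576 * (((a : ℝ) - C) * x + ((b : ℝ) - C) * y) := by
  unfold cb'
  split_ifs with h
  · rw [h.1, h.2]
    simp
  · exact cb_le C c a b κ x y hκ hin hs h1 h2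

theorem estep_eq (C c a b : Nat) (k : Nat → Nat → Bool) (pos neg : Nat) :
    ∃ pos' neg', estep C c a b k pos neg = k pos' neg' ∧
      (pos' : Int) - neg' = pos - neg + cb' C c a b := by
  have h0 : estep C c a b k pos neg = bq (bq (Nat.beq a C) (Nat.beq b C) false) (k pos neg)
      (bq (Nat.ble (1048576 * (a + b + 2 * C)) (minZ a b C (c % 256) (c / 256)))
        (k (pos + 1048576 * (minZ a b C (c % 256) (c / 256) - 1048576 * (a + b + 2 * C))) neg)
        (k pos (neg + RW (sw (c / 256)) *
          (1048576 * (a + b + 2 * C) - minZ a b C (c % 256) (c / 256))))) := rfl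
  rw [bq_beq, bq_ble] at h0
  by_cases hac : a = C ∧ b = C
  · refine ⟨pos, neg, ?_, ?_⟩
    · rw [h0, if_pos hac.1]
      have : Nat.beq b C = true := Nat.beq_eq.mpr hac.2
      rw [this]
    · unfold cb'
      rw [if_pos hac, add_zero]
  · have hf : (if a = C then Nat.beq b C else false) = false := by
      split_ifs with h1
      · cases h' : Nat.beq b C
        · rfl
        · exact absurd ⟨h1, Nat.beq_eq.mp h'⟩ hac
      · rfl
    rw [hf] at h0
    have h0' : estep C c a b k pos neg =
      (if 1048576 * (a + b + 2 * C) ≤ minZ a b C (c % 256) (c / 256) then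
        (k (pos + 1048576 * (minZ a b C (c % 256) (c / 256) - 1048576 * (a + b + 2 * C))) neg)
      else (k pos (neg + RW (sw (c / 256)) *
          (1048576 * (a + b + 2 * C) - minZ a b C (c % 256) (c / 256))))) := h0
    unfold cb' cb
    rw [if_neg hac]
    generalize minZ a b C (c % 256) (c / 256) = Z at h0' ⊢
    by_cases hz : 1048576 * (a + b + 2 * C) ≤ Z
    · rw [if_pos hz] at h0'
      refine ⟨_, _, h0', ?_⟩
      have hz' : (1048576 * ((a : Int) + b + 2 * C)) ≤ (Z : Int) := by exact_mod_cast hz
      rw [if_pos (by linarith)]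
      push_cast [Nat.cast_sub hz]
      ring
    · rw [if_neg hz] at h0'
      refine ⟨_, _, h0', ?_⟩
      have hz1 : Z ≤ 1048576 * (a + b + 2 * C) := by omega
      have hz' : (Z : Int) < 1048576 * ((a : Int) + b + 2 * C) := by
        have := not_le.mp hz
        exact_mod_cast this
      rw [if_neg (by linarith)]
      push_cast [Nat.cast_sub hz1]
      ring

/-- sum of contributions over the edges of a list, starting at index `n` -/
noncomputable def csum (w h C σ : Nat) : List (Nat × Nat) → Nat → Int
  | [], _ => 0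
  | e :: es, n => cb' C (arcOf σ n) (pdf w h C (2 * e.1) (2 * e.2))
      (pdf w h C (2 * e.1 + 1) (2 * e.2 + 1)) + csum w h C σ es (n + 1)

theorem leafGo_eq (w h C σ : Nat) (es : List (Nat × Nat)) : ∀ n pos neg,
    leafGo w h C es σ n pos neg = true → 0 < (pos : Int) - neg + csum w h C σ es n := by
  induction es with
  | nil =>
    intro n pos neg hh
    have h1 : Nat.ble (neg + 1) pos = true := hh
    have h2 : neg + 1 ≤ pos := Nat.le_of_ble_eq_true h1
    unfold csum
    omega
  | cons e es ih =>
    intro n pos neg hh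
    have h1 : estep C (arcOf σ n) (pdf w h C (2 * e.1) (2 * e.2))
      (pdf w h C (2 * e.1 + 1) (2 * e.2 + 1))
      (fun p q => leafGo w h C es σ (n + 1) p q) pos neg = true := hh
    obtain ⟨pos', neg', h2, h3⟩ := estep_eq C (arcOf σ n) (pdf w h C (2 * e.1) (2 * e.2))
      (pdf w h C (2 * e.1 + 1) (2 * e.2 + 1))
      (fun p q => leafGo w h C es σ (n + 1) p q) pos neg
    rw [h2] at h1
    have h4 := ih (n + 1) pos' neg' h1
    unfold csum
    linarith

theorem pot_lt (w h j : Nat) : pot w h j < 2 ^ w := Nat.mod_lt _ (Nat.pow_pos (by norm_num))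

theorem pdf_cast (w h j k : Nat) : (pdf w h (2 ^ w) j k : ℝ) - ((2 ^ w : Nat) : ℝ) =
    pot w h j - pot w h k := by
  have h1 := pot_lt w h k
  have h2 : pdf w h (2 ^ w) j k = 2 ^ w + pot w h j - pot w h k := rfl
  rw [h2, Nat.cast_sub (by omega)]
  push_cast
  ring

/-- weighted sum of the flow along the edges of a list, starting at index `n` -/
noncomputable def wsum (g : Nat → ℝ) (f : Nat → ℝ) : List (Nat × Nat) → Nat → ℝ
  | [], _ => 0
  | e :: es, n => (g e.1 - g e.2) * f n + wsum g f es (n + 1)

/-- the pair `fx, fy` of flows and the sector indices `κ` are admissible -/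
structure Adm (es : List (Nat × Nat)) (fx fy : Nat → ℝ) (κ : Nat → Nat) : Prop where
  lt : ∀ n < es.length, κ n < 256
  sec : ∀ n < es.length, Sec (κ n) (fx n) (fy n)
  ge : ∀ n < es.length, 1 ≤ nrm (fx n) (fy n)
  le : ∀ n < es.length, nrm (fx n) (fy n) ≤ 2293 / 2000
  cx : ∀ g : Nat → ℝ, wsum g fx es 0 = 0
  cy : ∀ g : Nat → ℝ, wsum g fy es 0 = 0

theorem csum_le (w h σ : Nat) (fx fy : Nat → ℝ) (κ : Nat → Nat) (es : List (Nat × Nat)) : ∀ n,
    (∀ m, n ≤ m → m < n + es.length → κ m < 256 ∧ InArc (arcOf σ m) (κ m) ∧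
      Sec (κ m) (fx m) (fy m) ∧ 1 ≤ nrm (fx m) (fy m) ∧ nrm (fx m) (fy m) ≤ 2293 / 2000) →
    (csum w h (2 ^ w) σ es n : ℝ) ≤ 1048576 * 1048576 *
      (wsum (fun v => (pot w h (2 * v) : ℝ)) fx es n +
        wsum (fun v => (pot w h (2 * v + 1) : ℝ)) fy es n) := by
  induction es with
  | nil =>
    intro n _
    simp [csum, wsum]
  | cons e es ih =>
    intro n hh
    have h1 := ih (n + 1) (fun m hm hm' => hh m (by omega) (by
      rw [List.length_cons]; omega))
    obtain ⟨a1, a2, a3, a4, a5⟩ := hh n le_rfl (by rw [List.length_cons]; omega)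
    have h2 := cb'_le (2 ^ w) (arcOf σ n) (pdf w h (2 ^ w) (2 * e.1) (2 * e.2))
      (pdf w h (2 ^ w) (2 * e.1 + 1) (2 * e.2 + 1)) (κ n) (fx n) (fy n) a1 a2 a3 a4 a5
    rw [pdf_cast, pdf_cast] at h2
    unfold csum wsum
    push_cast
    push_cast at h1 h2
    linarith

theorem leaf_sound (es : List (Nat × Nat)) (fx fy : Nat → ℝ) (κ : Nat → Nat)
    (adm : Adm es fx fy κ) (σ w h : Nat) (hc : Cov es.length κ σ)
    (hl : leafOK es σ w h = true) : False := by
  have h1 : leafGo w h (2 ^ w) es σ 0 0 0 = true := hl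
  have h2 := leafGo_eq w h (2 ^ w) σ es 0 0 0 h1
  have h3 := csum_le w h σ fx fy κ es 0 (fun m _ hm => by
    rw [Nat.zero_add] at hm
    exact ⟨adm.lt m hm, hc m hm, adm.sec m hm, adm.ge m hm, adm.le m hm⟩)
  rw [adm.cx, adm.cy] at h3
  have h4 : (0 : ℝ) < (csum w h (2 ^ w) σ es 0 : ℝ) := by
    have : (0 : Int) < csum w h (2 ^ w) σ es 0 := by simpa using h2
    exact_mod_cast this
  linarith

end FD4632
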