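import Pool.Agent.FD4632.Acc

set_option autoImplicit false
set_option maxRecDepth 100000

namespace FD4632

/-- certificate tree -/
def t3_0 : Tr := (.B 1 80 (.B 0 16 (.B 1 60 (.L 3 47) (.L 3 61)) (.B 1 60 (.L 3 63) (.L 3 61))) (.B 1 123 (.B 2 163 (.B 1 98 (.B 1 90 (.B 1 87 (.B 1 85 (.B 1 83 (.B 1 82 (.B 0 8 (.B 2 122 (.B 2 91 (.B 0 2 (.B 2 68 (.B 2 17 (.L 3 31) (.L 3 60)) (.L 3 56)) (.B 2 68 (.B 2 17 (.L 3 31) (.L 3 60)) (.L 3 56))) (.L 3 57)) (.L 3 56)) (.L 3 61)) (.B 0 8 (.B 2 122 (.B 2 91 (.B 2 68 (.B 2 17 (.L 3 31) (.L 3 60)) (.L 3 56)) (.L 3 56)) (.L 3 56)) (.L 3 61))) (.B 1 84 (.B 0 8 (.B 2 122 (.B 2 91 (.B 2 68 (.B 2 17 (.L 3 31) (.L 3 60)) (.L 3 56)) (.L 3 56)) (.L 3 56)) (.L 3 61)) (.B 0 8 (.B 2 122 (.B 2 91 (.B 2 68 (.B 2 17 (.L 3 39) (.L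 3 60)) (.L 3 56)) (.L 3 56)) (.L 3 312)) (.L 3 61)))) (.B 1 86 (.B 0 8 (.B 2 122 (.B 2 91 (.B 2 68 (.B 2 17 (.L 3 39) (.L 3 60)) (.L 3 56)) (.L 3 56)) (.L 3 496)) (.L 6 4076)) (.B 0 8 (.B 2 122 (.B 2 91 (.B 2 68 (.B 2 17 (.L 3 39) (.L 3 60)) (.L 3 56)) (.L 3 56)) (.L 3 496)) (.B 0 14 (.B 0 10 (.B 0 9 (.B 2 122 (.B 2 91 (.B 2 23 (.L 3 39) (.B 2 74 (.L 3 59) (.L 3 120))) (.L 3 120)) (.L 3 120)) (.B 2 122 (.B 2 91 (.B 2 23 (.L 3 39) (.B 2 74 (.L 3 59) (.L 3 120))) (.L 3 120)) (.L 3 120))) (.L 3 61)) (.L 3 61))))) (.B 1 89 (.B 1 88 (.B 0 8 (.B 2 122 (.B 2 91 (.B 2 68 (.B 2 17 (.L 3 39) (.L 3 60)) (.L 3 56)) (.L 3 56)) (.L 3 496)) (.B 0 14 (.B 0 10 (.B 0 9 (.B 2 122 (.B 2 91 (.B 2 23 (.L 3 39) (.B 2 74 (.L 3 59) (.L 3 120))) (.L 3 120)) (.L 3 376)) (.B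 2 122 (.B 2 91 (.B 2 23 (.L 3 39) (.B 2 74 (.L 3 59) (.L 3 120))) (.L 3 120)) (.L 3 376))) (.B 0 11 (.B 2 122 (.B 2 91 (.B 2 23 (.L 3 39) (.B 2 74 (.L 3 59) (.L 3 184))) (.L 3 184)) (.L 3 376)) (.B 2 122 (.B 2 91 (.B 2 23 (.L 3 39) (.B 2 74 (.L 3 59) (.L 3 184))) (.L 3 184)) (.L 3 184)))) (.L 3 58))) (.B 0 8 (.B 2 122 (.B 2 91 (.B 2 68 (.B 2 17 (.L 3 47) (.L 3 60)) (.L 3 56)) (.L 3 56)) (.L 3 496)) (.B 0 14 (.B 0 10 (.B 0 9 (.B 2 122 (.B 2 91 (.B 2 23 (.L 3 47) (.B 2 74 (.L 3 59) (.L 3 120))) (.L 3 120)) (.L 3 496)) (.B 2 122 (.B 2 91 (.B 2 23 (.L 3 47) (.B 2 74 (.L 3 59) (.L 3 120))) (.L 3 120)) (.L 3 496))) (.B 0 11 (.B 2 122 (.B 2 91 (.B 2 23 (.L 3 47) (.B 2 74 (.L 3 59) (.L 3 184))) (.L 3 184)) (.L 3 496)) (.B 0 12 (.B 2 122 (.B 2 91 (.B 2 23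 (.L 3 47) (.B 2 74 (.L 3 59) (.L 3 184))) (.L 3 184)) (.L 3 376)) (.B 2 122 (.B 2 91 (.B 2 23 (.L 3 47) (.B 2 74 (.L 3 59) (.L 3 184))) (.L 3 184)) (.L 3 376))))) (.L 3 58)))) (.B 0 8 (.B 0 5 (.B 0 3 (.B 2 122 (.B 2 91 (.B 2 68 (.B 2 17 (.L 3 47) (.L 3 60)) (.L 3 56)) (.L 3 56)) (.L 3 496)) (.B 0 4 (.B 2 122 (.B 2 91 (.B 2 68 (.B 2 17 (.L 3 47) (.L 3 60)) (.L 3 56)) (.L 3 56)) (.L 3 496)) (.B 2 122 (.B 2 91 (.B 2 23 (.L 3 47) (.B 2 74 (.L 3 59) (.L 3 120))) (.L 3 120)) (.L 3 496)))) (.B 0 6 (.B 2 122 (.B 2 91 (.B 2 23 (.L 3 47) (.B 2 74 (.L 3 59) (.L 3 120))) (.L 3 120)) (.L 3 496)) (.B 0 7 (.B 2 122 (.B 2 91 (.B 2 23 (.L 3 47) (.B 2 74 (.L 3 59) (.L 3 120))) (.L 3 120)) (.L 3 496)) (.B 2 122 (.B 2 91 (.B 2 23 (.L 3 47) (.B 2 74 (.L 3 59) (.L 3 120)))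 (.L 3 120)) (.L 3 496))))) (.B 0 14 (.B 0 10 (.B 0 9 (.B 2 122 (.B 2 91 (.B 2 23 (.L 3 47) (.B 2 74 (.L 3 59) (.L 3 120))) (.L 3 120)) (.L 3 496)) (.B 2 122 (.B 2 91 (.B 2 23 (.L 3 47) (.B 2 74 (.L 3 59) (.L 3 120))) (.L 3 120)) (.L 3 496))) (.B 0 11 (.B 2 122 (.B 2 91 (.B 2 23 (.L 3 47) (.B 2 74 (.L 3 59) (.L 3 184))) (.L 3 184)) (.L 3 496)) (.B 0 12 (.B 2 122 (.B 2 91 (.B 2 23 (.L 3 47) (.B 2 74 (.L 3 59) (.L 3 184))) (.L 3 184)) (.L 3 496)) (.B 0 13 (.B 2 122 (.B 2 91 (.B 2 23 (.L 3 47) (.B 2 74 (.L 3 59) (.L 3 184))) (.L 3 184)) (.L 3 496)) (.B 2 122 (.B 2 91 (.B 2 23 (.L 3 47) (.B 2 74 (.L 3 59) (.L 3 184))) (.L 3 184)) (.L 3 496)))))) (.L 3 58))))) (.B 1 94 (.B 1 92 (.B 1 91 (.B 0 8 (.B 2 122 (.B 2 91 (.B 2 23 (.L 3 47) (.B 2 74 (.L 3 59) (.L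 3 56))) (.L 3 56)) (.L 3 496)) (.B 0 14 (.B 0 10 (.B 0 9 (.B 2 122 (.B 2 91 (.B 2 23 (.L 3 47) (.B 2 74 (.L 3 59) (.L 3 120))) (.L 3 120)) (.L 3 496)) (.B 2 122 (.B 2 91 (.B 2 23 (.L 3 47) (.B 2 74 (.L 3 59) (.L 3 120))) (.L 3 120)) (.L 3 496))) (.B 0 11 (.B 2 122 (.B 2 91 (.B 2 23 (.L 3 47) (.B 2 74 (.L 3 59) (.L 3 184))) (.L 3 184)) (.L 3 496)) (.B 0 12 (.B 2 122 (.B 2 91 (.B 2 23 (.L 3 47) (.B 2 74 (.L 3 59) (.L 3 184))) (.L 3 184)) (.L 3 496)) (.B 0 13 (.B 2 122 (.B 2 91 (.B 2 23 (.L 3 47) (.B 2 74 (.L 3 59) (.L 3 184))) (.L 3 184)) (.L 3 496)) (.B 2 122 (.B 2 91 (.B 2 23 (.L 3 47) (.B 2 74 (.L 3 59) (.L 3 184))) (.L 3 184)) (.L 3 496)))))) (.B 0 19 (.B 0 16 (.B 0 15 (.B 2 122 (.B 2 91 (.B 2 23 (.L 3 47) (.B 2 74 (.L 3 59) (.L 3 184))) (.L 3 184))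 (.L 3 496)) (.L 7 16287)) (.L 3 58)) (.L 3 58)))) (.B 0 8 (.B 2 122 (.B 2 91 (.B 2 23 (.L 3 55) (.B 2 74 (.L 3 59) (.L 3 56))) (.L 3 56)) (.L 3 496)) (.B 0 14 (.B 2 122 (.B 2 91 (.B 2 23 (.L 3 55) (.B 2 74 (.L 3 59) (.L 3 120))) (.L 3 120)) (.L 3 496)) (.B 0 19 (.B 0 16 (.B 0 15 (.B 2 122 (.B 2 91 (.B 2 23 (.L 3 55) (.B 2 74 (.L 3 59) (.L 3 184))) (.L 3 184)) (.L 3 496)) (.B 2 122 (.B 2 91 (.B 2 23 (.L 3 55) (.B 2 74 (.L 3 59) (.L 3 184))) (.L 3 184)) (.L 3 496))) (.B 2 122 (.B 2 91 (.B 2 23 (.L 3 55) (.B 2 74 (.L 3 59) (.L 3 248))) (.L 3 248)) (.L 3 496))) (.L 3 58))))) (.B 1 93 (.B 0 10 (.B 2 122 (.B 2 91 (.B 2 23 (.L 3 55) (.B 0 7 (.B 2 74 (.L 3 59) (.L 3 56)) (.B 0 9 (.B 0 8 (.B 2 74 (.L 3 59) (.L 3 120)) (.B 2 74 (.L 3 59) (.L 3 120))) (.B 2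 74 (.L 3 59) (.L 3 120))))) (.L 3 56)) (.L 3 496)) (.B 0 16 (.B 0 12 (.B 0 11 (.B 2 122 (.B 2 91 (.B 2 23 (.L 3 55) (.B 2 74 (.L 3 59) (.L 3 184))) (.L 3 184)) (.L 3 496)) (.B 2 122 (.B 2 91 (.B 2 23 (.L 3 55) (.B 2 74 (.L 3 59) (.L 3 184))) (.L 3 184)) (.L 3 496))) (.B 0 13 (.B 2 122 (.B 2 91 (.B 2 23 (.L 3 55) (.B 2 74 (.L 3 59) (.L 3 184))) (.L 3 184)) (.L 3 496)) (.B 0 14 (.B 2 122 (.B 2 91 (.B 2 23 (.L 3 55) (.B 2 74 (.L 3 59) (.L 3 184))) (.L 3 184)) (.L 3 496)) (.B 0 15 (.B 2 122 (.B 2 91 (.B 2 23 (.L 3 55) (.B 2 74 (.L 3 59) (.L 3 184))) (.L 3 184)) (.L 3 496)) (.B 2 122 (.B 2 91 (.B 2 23 (.L 3 55) (.B 2 74 (.L 3 59) (.L 3 184))) (.L 3 184)) (.L 3 496)))))) (.B 0 20 (.B 0 17 (.B 2 122 (.B 2 91 (.B 2 23 (.L 3 55) (.B 2 74 (.L 3 59) (.L 3 248)))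 (.L 3 248)) (.L 3 496)) (.B 2 122 (.B 2 91 (.B 2 23 (.L 3 55) (.B 2 74 (.L 3 59) (.L 3 248))) (.L 3 248)) (.L 3 496))) (.L 3 58)))) (.B 0 10 (.B 2 122 (.B 2 91 (.B 2 23 (.L 3 55) (.B 0 7 (.B 2 74 (.L 3 59) (.L 3 56)) (.B 0 9 (.B 0 8 (.B 2 74 (.L 3 59) (.L 3 120)) (.B 2 74 (.L 3 59) (.L 3 120))) (.B 2 74 (.L 3 59) (.L 3 120))))) (.L 3 56)) (.L 3 448)) (.B 0 16 (.B 2 122 (.B 2 91 (.B 2 23 (.L 3 55) (.B 2 74 (.L 3 59) (.L 3 184))) (.L 3 184)) (.L 3 496)) (.B 0 20 (.B 0 17 (.B 2 122 (.B 2 91 (.B 2 23 (.L 3 55) (.B 2 74 (.L 3 59) (.L 3 248))) (.L 3 248)) (.L 3 496)) (.B 0 18 (.B 2 122 (.B 2 91 (.B 2 23 (.L 3 55) (.B 2 74 (.L 3 59) (.L 3 248))) (.L 3 248)) (.L 3 496)) (.B 2 122 (.B 2 91 (.B 2 23 (.L 3 55) (.B 2 74 (.L 3 59) (.L 3 248))) (.L 3 248)) (.L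 3 496)))) (.L 3 58)))))) (.B 1 96 (.B 1 95 (.B 0 11 (.B 2 122 (.B 2 91 (.B 0 8 (.B 2 23 (.L 3 63) (.B 2 74 (.L 3 59) (.L 3 56))) (.B 0 10 (.B 0 9 (.B 2 23 (.L 3 63) (.B 2 74 (.L 3 59) (.L 3 120))) (.B 2 23 (.L 3 63) (.B 2 74 (.L 3 59) (.L 3 120)))) (.B 2 23 (.L 3 63) (.B 2 74 (.L 3 59) (.L 3 184))))) (.L 3 56)) (.L 3 448)) (.B 0 17 (.B 2 122 (.B 2 91 (.B 2 23 (.L 3 63) (.B 2 74 (.L 3 59) (.L 3 184))) (.L 3 184)) (.L 3 496)) (.B 0 21 (.B 0 18 (.B 2 122 (.B 2 91 (.B 2 23 (.L 3 63) (.B 2 74 (.L 3 59) (.L 3 248))) (.L 3 248)) (.L 3 496)) (.B 2 122 (.B 2 91 (.B 2 23 (.L 3 63) (.B 2 74 (.L 3 59) (.L 3 248))) (.L 3 248)) (.L 3 496))) (.L 3 58)))) (.B 0 12 (.B 2 122 (.B 2 91 (.B 0 9 (.B 2 23 (.L 3 63) (.B 2 74 (.L 3 59) (.L 3 56))) (.B 0 11 (.B 2 23 (.L 3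 63) (.B 2 74 (.L 3 59) (.L 3 120))) (.B 2 23 (.L 3 63) (.B 2 74 (.L 3 59) (.L 3 184))))) (.L 3 56)) (.L 3 448)) (.B 0 17 (.B 2 122 (.B 2 91 (.B 2 23 (.L 3 63) (.B 2 74 (.L 3 59) (.L 3 184))) (.L 3 184)) (.L 3 496)) (.B 0 21 (.B 0 18 (.B 2 122 (.B 2 91 (.B 2 23 (.L 3 63) (.B 2 74 (.L 3 59) (.L 3 248))) (.L 3 248)) (.L 3 496)) (.B 2 122 (.B 2 91 (.B 2 23 (.L 3 63) (.B 2 74 (.L 3 59) (.L 3 248))) (.L 3 248)) (.L 3 496))) (.L 4 244))))) (.B 1 97 (.B 0 13 (.B 2 122 (.B 2 91 (.B 0 9 (.B 2 23 (.L 3 63) (.B 2 74 (.L 3 59) (.L 3 56))) (.B 0 12 (.B 2 23 (.L 3 63) (.B 2 74 (.L 3 59) (.L 3 120))) (.B 2 23 (.L 3 63) (.B 2 74 (.L 3 59) (.L 3 184))))) (.L 3 56)) (.L 3 448)) (.B 2 122 (.B 0 18 (.B 2 91 (.B 2 23 (.L 3 63) (.B 2 74 (.L 3 59) (.L 3 184))) (.L 3 184))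 (.B 0 22 (.B 2 91 (.B 2 23 (.L 3 63) (.B 2 40 (.L 3 63) (.L 3 56))) (.L 3 248)) (.L 6 4047))) (.L 3 496))) (.B 0 14 (.B 2 122 (.B 2 91 (.B 0 10 (.B 2 23 (.L 3 62) (.B 2 74 (.L 3 59) (.L 3 56))) (.B 0 13 (.B 2 23 (.L 3 62) (.B 2 74 (.L 3 59) (.L 3 184))) (.B 2 23 (.L 3 62) (.B 2 74 (.L 3 59) (.L 3 184))))) (.L 3 56)) (.L 3 448)) (.B 2 122 (.B 0 19 (.B 2 91 (.B 2 23 (.L 3 62) (.B 2 74 (.L 3 59) (.L 3 184))) (.L 3 184)) (.B 0 23 (.B 0 20 (.B 2 91 (.B 2 23 (.L 3 62) (.B 2 40 (.L 3 62) (.L 3 56))) (.L 3 248)) (.B 0 21 (.B 2 91 (.B 2 23 (.L 3 62) (.B 2 40 (.L 3 62) (.L 3 56))) (.L 3 248)) (.B 0 22 (.B 2 91 (.B 2 23 (.L 3 62) (.B 2 40 (.L 3 62) (.L 3 56))) (.L 3 312)) (.B 2 91 (.B 2 23 (.L 3 62) (.B 2 40 (.L 3 62) (.L 3 56))) (.L 3 312))))) (.B 2 91 (.B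 2 23 (.L 3 62) (.B 2 40 (.L 3 62) (.L 3 56))) (.L 3 312)))) (.L 3 496))))))) (.B 1 112 (.B 1 106 (.B 1 102 (.B 1 100 (.B 1 99 (.B 0 15 (.B 2 122 (.B 2 91 (.B 2 23 (.L 3 62) (.B 2 74 (.L 3 59) (.L 3 56))) (.L 3 56)) (.L 3 448)) (.B 2 122 (.B 0 20 (.B 2 91 (.B 2 23 (.L 3 62) (.B 2 74 (.L 3 59) (.L 3 184))) (.L 3 184)) (.B 0 23 (.B 0 21 (.B 2 91 (.B 2 23 (.L 3 62) (.B 2 40 (.L 3 62) (.L 3 56))) (.L 3 248)) (.B 0 22 (.B 2 91 (.B 2 23 (.L 3 62) (.B 2 40 (.L 3 62) (.L 3 56))) (.L 3 312)) (.B 2 91 (.B 2 23 (.L 3 62) (.B 2 40 (.L 3 62) (.L 3 56))) (.L 3 312)))) (.B 0 26 (.B 0 24 (.B 2 91 (.B 2 23 (.L 3 62) (.B 2 40 (.L 3 62) (.L 3 56))) (.L 3 312)) (.B 2 91 (.B 2 23 (.L 3 62) (.B 2 40 (.L 3 62) (.L 3 56))) (.L 3 312))) (.L 3 58)))) (.L 3 496))) (.B 0 17 (.B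 2 122 (.B 0 12 (.B 2 91 (.B 2 23 (.L 3 62) (.B 2 74 (.L 3 59) (.L 3 56))) (.L 3 56)) (.B 2 91 (.B 2 23 (.L 3 62) (.B 2 40 (.L 3 62) (.L 3 56))) (.L 3 184))) (.L 3 960)) (.B 2 122 (.B 0 21 (.B 0 18 (.B 2 91 (.B 2 23 (.L 3 62) (.B 2 40 (.L 3 62) (.L 3 56))) (.L 3 248)) (.B 2 91 (.B 2 23 (.L 3 62) (.B 2 40 (.L 3 62) (.L 3 56))) (.L 3 248))) (.B 0 24 (.B 0 22 (.B 2 91 (.B 2 23 (.L 3 62) (.B 2 40 (.L 3 62) (.L 3 56))) (.L 3 312)) (.B 0 23 (.B 2 91 (.B 2 23 (.L 3 62) (.B 2 40 (.L 3 62) (.L 3 56))) (.L 3 312)) (.B 2 91 (.B 2 23 (.L 3 62) (.B 2 40 (.L 3 62) (.L 3 56))) (.L 3 312)))) (.B 0 26 (.B 0 25 (.B 2 31 (.L 3 62) (.B 2 99 (.B 2 82 (.L 3 57) (.L 3 312)) (.L 3 312))) (.B 2 31 (.L 3 62) (.B 2 99 (.B 2 82 (.L 3 57) (.L 3 376)) (.L 3 376)))) (.L 6 4047))))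 (.L 3 496)))) (.B 1 101 (.B 0 18 (.B 2 122 (.B 0 13 (.B 2 91 (.B 2 23 (.L 3 61) (.B 2 74 (.L 3 59) (.L 3 56))) (.L 3 56)) (.B 2 91 (.B 2 23 (.L 3 61) (.B 2 40 (.L 3 61) (.L 3 56))) (.L 3 184))) (.L 3 960)) (.B 2 122 (.B 2 91 (.B 0 22 (.B 2 23 (.L 3 61) (.B 2 40 (.L 3 61) (.L 3 56))) (.B 0 25 (.B 0 23 (.B 2 23 (.L 3 61) (.B 2 40 (.L 3 61) (.L 3 56))) (.B 0 24 (.B 2 23 (.L 3 61) (.B 2 40 (.L 3 61) (.L 3 56))) (.B 2 23 (.L 3 61) (.B 2 40 (.L 3 61) (.L 3 56))))) (.B 0 27 (.B 0 26 (.B 2 23 (.L 3 61) (.B 2 40 (.L 3 61) (.L 3 56))) (.B 2 23 (.L 3 61) (.B 2 40 (.L 3 61) (.L 3 56)))) (.B 2 23 (.L 3 61) (.B 2 40 (.L 3 61) (.L 3 56)))))) (.L 3 248)) (.L 3 496))) (.B 0 19 (.B 2 122 (.B 0 14 (.B 2 91 (.B 2 23 (.L 3 61) (.B 2 40 (.L 3 61) (.L 3 56))) (.L 3 56))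 (.B 2 91 (.B 2 23 (.L 3 61) (.B 2 40 (.L 3 61) (.L 3 56))) (.L 3 184))) (.L 3 960)) (.B 2 122 (.B 2 91 (.B 0 23 (.B 0 20 (.B 2 23 (.L 3 61) (.B 2 40 (.L 3 61) (.L 3 56))) (.B 0 21 (.B 2 23 (.L 3 61) (.B 2 40 (.L 3 61) (.L 3 56))) (.B 0 22 (.B 2 23 (.L 3 61) (.B 2 40 (.L 3 61) (.L 3 56))) (.B 2 23 (.L 3 61) (.B 2 40 (.L 3 61) (.L 3 56)))))) (.B 0 26 (.B 0 24 (.B 2 23 (.L 3 61) (.B 2 40 (.L 3 61) (.L 3 56))) (.B 0 25 (.B 2 23 (.L 3 61) (.B 2 40 (.L 3 61) (.L 3 56))) (.B 2 23 (.L 3 61) (.B 2 40 (.L 3 61) (.L 3 56))))) (.B 0 28 (.B 0 27 (.B 2 23 (.L 3 61) (.B 2 40 (.L 3 61) (.L 3 56))) (.B 2 23 (.L 3 61) (.B 2 40 (.L 3 61) (.L 3 56)))) (.L 6 65472)))) (.L 3 248)) (.L 3 496))))) (.B 1 104 (.B 1 103 (.B 0 20 (.B 0 15 (.B 2 122 (.B 2 91 (.B 2 23 (.L 3 61)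 (.B 2 40 (.L 3 61) (.L 3 56))) (.L 3 56)) (.L 3 960)) (.B 2 122 (.B 2 91 (.B 2 23 (.L 3 61) (.B 2 40 (.L 3 61) (.L 3 56))) (.L 3 184)) (.L 3 496))) (.B 2 122 (.B 2 91 (.B 0 23 (.B 0 21 (.B 2 23 (.L 3 61) (.B 2 40 (.L 3 61) (.L 3 56))) (.B 0 22 (.B 2 23 (.L 3 61) (.B 2 40 (.L 3 61) (.L 3 56))) (.B 2 23 (.L 3 61) (.B 2 40 (.L 3 61) (.L 3 56))))) (.B 0 26 (.B 0 24 (.B 2 23 (.L 3 61) (.B 2 40 (.L 3 61) (.L 3 56))) (.B 0 25 (.B 2 23 (.L 3 61) (.B 2 40 (.L 3 61) (.L 3 56))) (.B 2 23 (.L 3 61) (.B 2 40 (.L 3 61) (.L 3 56))))) (.B 0 28 (.B 0 27 (.B 2 23 (.L 3 61) (.B 2 40 (.L 3 61) (.L 3 56))) (.B 2 23 (.L 3 61) (.B 2 40 (.L 3 61) (.L 3 56)))) (.B 2 23 (.L 3 61) (.B 2 40 (.L 3 61) (.L 3 56)))))) (.L 3 248)) (.L 3 496))) (.B 0 22 (.B 0 16 (.B 2 122 (.B 2 91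 (.B 2 23 (.L 3 60) (.B 2 40 (.L 3 60) (.L 3 56))) (.L 3 56)) (.L 3 960)) (.B 2 122 (.B 2 31 (.L 3 60) (.B 2 99 (.B 2 82 (.L 3 57) (.L 3 248)) (.L 3 248))) (.L 3 496))) (.B 2 122 (.B 2 31 (.L 3 60) (.B 2 99 (.B 0 25 (.B 0 23 (.B 2 82 (.L 3 57) (.L 3 312)) (.B 0 24 (.B 2 82 (.L 3 57) (.L 3 312)) (.B 2 82 (.L 3 57) (.L 3 312)))) (.B 0 27 (.B 0 26 (.B 2 82 (.L 3 57) (.L 3 376)) (.B 2 48 (.L 3 60) (.L 3 184))) (.B 0 29 (.B 0 28 (.B 2 48 (.L 3 60) (.L 3 184)) (.B 2 48 (.L 3 60) (.L 3 184))) (.B 2 48 (.L 3 60) (.L 3 184))))) (.L 3 312))) (.L 3 496)))) (.B 1 105 (.B 0 23 (.B 0 17 (.B 2 122 (.B 2 91 (.B 2 23 (.L 3 60) (.B 2 40 (.L 3 60) (.L 3 56))) (.L 3 56)) (.L 3 1472)) (.B 2 122 (.B 2 31 (.L 3 60) (.B 2 99 (.B 2 82 (.L 3 57) (.L 3 248)) (.L 3 248))) (.L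 3 496))) (.B 2 122 (.B 2 31 (.L 3 60) (.B 2 99 (.B 0 26 (.B 0 24 (.B 2 82 (.L 3 57) (.L 3 312)) (.B 0 25 (.B 2 82 (.L 3 57) (.L 3 312)) (.B 2 48 (.L 3 60) (.L 3 184)))) (.B 0 28 (.B 0 27 (.B 2 48 (.L 3 60) (.L 3 184)) (.B 2 48 (.L 3 60) (.L 3 184))) (.B 0 29 (.B 2 48 (.L 3 60) (.L 3 184)) (.B 0 30 (.B 2 48 (.L 3 60) (.L 3 184)) (.B 2 48 (.L 3 60) (.L 3 184)))))) (.L 3 312))) (.L 3 496))) (.B 0 24 (.B 0 18 (.B 2 122 (.B 2 91 (.B 2 23 (.L 3 60) (.B 2 40 (.L 3 60) (.L 3 56))) (.L 3 56)) (.L 3 1472)) (.B 2 122 (.B 2 31 (.L 3 60) (.B 2 99 (.B 2 82 (.L 3 57) (.L 3 248)) (.L 3 248))) (.L 3 496))) (.B 2 122 (.B 2 31 (.L 3 60) (.B 2 99 (.B 2 82 (.L 3 57) (.L 3 312)) (.L 3 312))) (.L 3 496)))))) (.B 1 108 (.B 1 107 (.B 0 24 (.B 0 18 (.B 2 122 (.B 2 31 (.L 3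 60) (.B 2 99 (.B 2 82 (.L 3 57) (.L 3 56)) (.L 3 56))) (.L 3 1472)) (.B 2 122 (.B 2 31 (.L 3 60) (.B 2 99 (.B 2 48 (.L 3 60) (.L 3 184)) (.L 3 248))) (.L 3 496))) (.B 2 122 (.B 2 31 (.L 3 60) (.B 2 99 (.B 2 48 (.L 3 60) (.L 3 184)) (.L 3 312))) (.L 3 496))) (.B 0 24 (.B 2 122 (.B 2 31 (.L 3 59) (.B 2 99 (.B 2 48 (.L 3 59) (.L 3 56)) (.L 3 56))) (.L 3 1472)) (.B 2 122 (.B 2 31 (.L 3 59) (.B 2 99 (.B 2 48 (.L 3 59) (.L 3 184)) (.L 3 312))) (.L 3 496)))) (.B 1 110 (.B 1 109 (.B 0 24 (.B 2 122 (.B 2 31 (.L 3 59) (.B 2 99 (.B 2 48 (.L 3 59) (.L 3 56)) (.L 3 56))) (.L 3 1472)) (.B 2 122 (.B 2 31 (.L 3 59) (.B 2 99 (.B 2 48 (.L 3 59) (.L 3 184)) (.L 3 312))) (.L 3 496))) (.B 0 24 (.B 2 122 (.B 2 31 (.L 3 59) (.B 2 99 (.B 2 48 (.L 3 59) (.L 3 56)) (.L 3 56)))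 (.L 3 1472)) (.B 0 27 (.B 0 26 (.B 2 122 (.B 2 31 (.L 3 59) (.B 2 99 (.B 2 48 (.L 3 59) (.L 3 184)) (.L 3 312))) (.L 3 496)) (.B 2 122 (.B 2 31 (.L 3 59) (.B 2 99 (.B 2 48 (.L 3 59) (.L 3 184)) (.L 3 376))) (.L 3 496))) (.B 0 29 (.B 0 28 (.B 2 122 (.B 2 31 (.L 3 59) (.B 2 99 (.B 2 48 (.L 3 59) (.L 3 184)) (.L 3 376))) (.L 3 496)) (.B 2 122 (.B 2 31 (.L 3 59) (.B 2 99 (.B 2 48 (.L 3 59) (.L 3 184)) (.L 3 440))) (.L 3 496))) (.B 0 30 (.B 2 122 (.B 2 31 (.L 3 59) (.B 2 99 (.B 2 48 (.L 3 59) (.L 3 184)) (.L 3 440))) (.L 3 496)) (.B 0 31 (.B 2 122 (.B 2 31 (.L 3 59) (.B 2 99 (.B 2 48 (.L 3 59) (.L 3 184)) (.L 3 440))) (.L 3 496)) (.B 2 122 (.B 2 31 (.L 3 59) (.B 2 99 (.B 2 48 (.L 3 59) (.L 3 184)) (.L 3 504))) (.L 3 496)))))))) (.B 1 111 (.B 0 24 (.B 2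 122 (.B 2 31 (.L 3 59) (.B 2 99 (.B 2 48 (.L 3 59) (.L 3 56)) (.L 3 56))) (.L 3 1472)) (.B 2 122 (.B 2 31 (.L 3 59) (.B 2 99 (.B 2 48 (.L 3 59) (.L 3 184)) (.L 3 312))) (.L 3 496))) (.B 0 24 (.B 2 122 (.B 2 31 (.L 3 59) (.B 2 99 (.B 2 48 (.L 3 59) (.L 3 56)) (.L 3 56))) (.L 3 1472)) (.B 2 122 (.B 2 31 (.L 3 59) (.B 2 99 (.B 2 48 (.L 3 59) (.L 3 184)) (.L 3 312))) (.L 3 496))))))) (.B 1 118 (.B 1 114 (.B 1 113 (.B 0 24 (.B 2 122 (.B 2 31 (.L 3 58) (.B 2 99 (.B 2 48 (.L 3 58) (.L 3 56)) (.L 3 56))) (.L 3 1472)) (.B 2 122 (.B 2 31 (.L 3 58) (.B 2 99 (.B 2 48 (.L 3 58) (.L 3 184)) (.L 3 312))) (.L 3 496))) (.B 0 24 (.B 2 122 (.B 2 31 (.L 3 58) (.B 2 99 (.B 2 48 (.L 3 58) (.L 3 56)) (.L 3 56))) (.L 3 1472)) (.B 2 122 (.B 2 31 (.L 3 58) (.B 2 99 (.B 2 48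 (.L 3 58) (.L 3 184)) (.L 3 312))) (.L 3 496)))) (.B 2 122 (.B 2 31 (.L 3 58) (.B 2 99 (.B 2 48 (.L 3 58) (.L 3 56)) (.L 3 56))) (.L 3 1472))) (.B 2 122 (.B 2 31 (.L 3 57) (.B 2 54 (.L 3 57) (.B 2 105 (.L 3 56) (.L 3 56)))) (.L 3 1472))))) (.B 2 213 (.B 0 16 (.B 1 105 (.B 2 191 (.B 0 8 (.B 1 98 (.B 2 182 (.B 0 4 (.B 1 95 (.B 2 178 (.B 0 2 (.B 1 94 (.B 2 177 (.B 0 1 (.B 1 93 (.B 2 176 .R (.L 3 3589)) (.B 2 172 (.L 3 3904) (.L 3 3584))) (.B 1 81 (.L 3 62) (.B 2 164 (.L 3 376) .R))) (.L 3 3589)) (.L 4 63744)) (.B 1 82 (.L 3 61) (.B 2 165 (.B 1 86 (.L 4 496) (.L 4 3312)) (.B 0 3 .R .R)))) (.B 1 91 (.L 3 1031) (.L 3 3590))) (.B 2 174 (.L 3 4032) (.L 3 3776))) (.B 1 83 (.L 3 60) (.B 2 166 (.L 4 3312) (.B 0 6 (.B 1 97 (.B 2 180 (.B 0 5 (.B 1 96 (.B 2 179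 .R (.L 3 3590)) (.L 3 3840)) (.B 1 84 (.L 3 61) (.B 2 167 (.L 8 13172480) .R))) (.L 3 3590)) (.L 3 3840)) (.B 1 84 (.L 3 60) (.B 2 168 (.B 1 89 (.L 4 2800) (.L 4 4000)) (.B 0 7 (.B 1 97 (.B 2 181 .R (.L 3 3590)) (.B 2 177 (.L 3 3840) (.L 3 3585))) (.B 1 85 (.L 3 60) (.B 2 169 (.B 1 90 (.B 1 88 (.L 3 120) (.B 1 89 (.L 3 120) (.L 5 24544))) (.L 3 480)) .R))))))))) (.L 3 3591)) (.B 2 178 (.L 4 63744) (.L 3 3585))) (.B 1 86 (.L 3 60) (.B 2 169 (.L 3 504) (.B 0 12 (.B 1 101 (.B 2 186 (.B 0 10 (.B 1 100 (.B 2 184 (.B 0 9 (.B 1 99 (.B 2 183 .R (.L 3 3591)) (.L 5 1030144)) (.B 1 87 (.L 3 60) (.B 2 170 (.L 3 440) .R))) (.L 3 3591)) (.L 3 3776)) (.B 1 87 (.L 3 60) (.B 2 171 (.L 4 3824) (.B 0 11 (.B 1 100 (.B 2 185 .R (.L 3 3591)) (.B 2 181 (.B 2 178 (.L 3 3968)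 (.L 3 3776)) (.L 4 61444))) (.B 1 88 (.L 3 60) (.B 2 172 (.L 4 3824) .R)))))) (.L 3 3079)) (.B 2 182 (.L 4 63232) (.L 3 3586))) (.B 1 89 (.L 3 59) (.B 2 173 (.B 1 93 (.L 3 184) (.L 3 496)) (.B 0 14 (.B 1 103 (.B 2 188 (.B 0 13 (.B 1 102 (.B 2 187 .R (.L 3 3079)) (.B 2 183 (.L 3 3776) (.L 3 3586))) (.B 1 90 (.L 3 59) (.B 2 174 (.L 7 2096640) .R))) (.L 3 3079)) (.B 2 184 (.L 3 3904) (.L 3 3648))) (.B 1 90 (.L 3 59) (.B 2 175 (.B 1 95 (.L 3 440) (.L 3 472)) (.B 0 15 (.B 1 104 (.B 2 190 .R (.L 3 3079)) (.L 3 3712)) (.B 1 91 (.L 3 59) (.B 2 176 (.B 1 96 (.L 3 440) (.L 3 472)) .R)))))))))))) (.L 3 2567)) (.B 2 187 (.L 4 63232) (.L 3 3587))) (.B 1 92 (.L 3 58) (.B 2 177 (.B 1 100 (.L 3 504) (.L 3 464)) (.B 0 24 (.B 1 113 (.B 2 203 (.B 0 20 (.B 1 108 (.B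 2 197 (.B 0 18 (.B 1 106 (.B 2 194 (.B 0 17 (.B 1 105 (.B 2 193 .R (.L 3 2567)) (.B 2 187 (.L 3 3840) (.B 2 189 (.B 2 188 (.L 3 3648) (.L 3 3587)) (.L 3 3587)))) (.B 1 93 (.L 4 245) (.B 2 178 (.B 1 97 (.L 3 248) (.L 3 488)) .R))) (.L 3 2567)) (.B 2 189 (.L 3 3712) (.L 3 3587))) (.B 1 94 (.B 2 182 (.L 3 58) (.L 3 55)) (.B 2 179 (.B 1 98 (.L 3 504) (.L 3 464)) (.B 0 19 (.B 1 107 (.B 2 196 .R (.L 3 2567)) (.B 2 190 (.L 3 3840) (.L 4 61441))) (.B 2 180 (.B 1 99 (.L 3 504) (.L 3 464)) .R))))) (.L 3 2055)) (.B 2 192 (.L 3 3776) (.L 4 61443))) (.B 1 95 (.L 3 58) (.B 2 181 (.B 1 100 (.L 3 504) (.L 3 464)) (.B 0 22 (.B 1 110 (.B 2 200 (.B 0 21 (.B 1 109 (.B 2 199 .R (.L 3 2055)) (.B 2 194 (.L 3 3648) (.L 3 3588))) (.B 1 96 (.L 3 58) (.B 2 182 (.L 3 488) .R)))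 (.L 3 2055)) (.B 2 195 (.L 3 3776) (.L 4 61443))) (.B 1 97 (.L 3 58) (.B 2 183 (.L 4 4000) (.B 0 23 (.B 1 111 (.B 2 201 .R (.L 3 2055)) (.B 2 197 (.B 2 193 (.L 3 3776) (.B 2 196 (.L 3 3776) (.L 3 3585))) (.L 3 3588))) (.B 1 98 (.L 3 57) (.B 2 185 (.B 1 102 (.L 3 312) (.B 1 105 (.B 1 103 (.L 5 32480) (.L 3 456)) (.L 3 456))) .R))))))))) (.L 3 1543)) (.B 2 199 (.L 3 3648) (.L 3 3588))) (.B 1 99 (.B 2 188 (.L 3 312) (.B 2 195 (.L 3 57) (.L 3 62))) (.B 2 186 (.B 1 105 (.L 4 4032) (.L 3 456)) (.B 0 28 (.B 1 117 (.B 2 208 (.B 0 26 (.B 1 115 (.B 2 205 (.B 0 25 (.B 1 114 (.B 2 204 .R (.L 3 1543)) (.B 2 200 (.L 3 3584) (.L 3 3589))) (.B 1 100 (.B 2 191 (.L 5 995) (.L 3 62)) (.B 2 187 (.B 1 104 (.L 3 488) (.L 3 456)) .R))) (.L 3 1543)) (.B 2 201 (.L 3 3712)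 (.L 3 3587))) (.B 1 100 (.L 3 57) (.B 2 188 (.L 9 134102016) (.B 0 27 (.B 1 116 (.B 2 207 .R (.L 3 1543)) (.B 2 202 (.L 3 3712) (.L 3 3587))) (.B 1 101 (.L 3 56) (.B 2 190 (.B 1 106 (.L 3 488) (.L 4 3856)) .R)))))) (.L 3 1543)) (.B 2 203 (.L 4 62464) (.B 2 206 (.L 5 1015819) (.L 3 3590)))) (.B 1 103 (.B 2 194 (.L 4 3312) (.B 2 199 (.L 5 4064) (.L 3 61))) (.B 2 191 (.B 1 108 (.L 3 488) (.L 3 448)) (.B 0 30 (.B 1 120 (.B 2 210 (.B 0 29 (.B 1 119 (.B 2 209 .R (.L 3 1031)) (.B 2 205 (.L 3 3648) (.L 3 3587))) (.B 1 104 (.L 4 496) (.B 2 193 (.B 1 108 (.L 3 480) (.L 3 448)) .R))) (.B 1 115 (.L 3 31) (.L 3 1031))) (.B 2 206 (.L 3 3648) (.L 3 3588))) (.B 1 105 (.L 5 8160) (.B 2 194 (.L 4 3936) (.B 0 31 (.B 1 121 (.B 2 212 .R (.L 3 1031)) (.B 2 207 (.L 3 3648)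 (.L 3 3588))) (.B 1 106 (.L 3 120) (.B 2 196 (.B 1 111 (.L 3 480) (.L 3 960)) .R))))))))))))))) (.L 3 1031))) (.B 1 163 (.B 0 16 (.B 2 192 (.B 2 144 (.B 2 108 (.B 2 27 (.L 3 23) (.B 2 87 (.B 2 72 (.L 3 55) (.L 3 248)) (.L 3 496))) (.L 3 1472)) (.L 3 3904)) (.L 3 3591)) (.B 2 192 (.B 2 144 (.B 2 36 (.L 3 39) (.B 2 117 (.B 2 96 (.L 3 56) (.L 3 496)) (.L 3 960))) (.L 3 3520)) (.B 2 208 (.L 3 3648) (.B 2 220 (.L 4 61450) (.L 3 7))))) (.B 1 213 (.B 2 80 (.B 1 186 (.B 2 60 (.L 3 31) (.L 3 61)) (.B 0 24 (.B 0 18 (.B 1 193 (.B 1 188 (.B 1 187 (.B 0 13 (.B 0 9 (.L 3 2567) (.B 0 12 (.B 2 60 (.L 3 519) (.L 3 31)) (.B 2 60 (.L 3 519) (.L 3 31)))) (.B 2 60 (.L 3 519) (.L 3 31))) (.B 0 13 (.B 2 60 (.L 3 519) (.L 3 15)) (.B 2 60 (.L 3 519) (.L 3 31)))) (.B 1 190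 (.B 1 189 (.B 0 13 (.L 3 2567) (.B 2 60 (.L 3 519) (.L 3 31))) (.B 0 13 (.L 3 2567) (.B 2 60 (.L 3 7) (.L 3 31)))) (.B 1 191 (.B 0 13 (.L 3 2567) (.B 2 60 (.L 3 7) (.L 3 31))) (.B 1 192 (.B 0 13 (.L 3 2567) (.B 2 60 (.L 3 7) (.L 3 31))) (.B 0 13 (.L 3 2567) (.B 2 60 (.L 3 7) (.L 3 31))))))) (.B 1 198 (.B 1 195 (.B 1 194 (.B 0 13 (.L 3 2567) (.B 2 60 (.L 3 7) (.L 3 31))) (.B 2 60 (.L 3 7) (.L 3 23))) (.L 3 2567)) (.L 3 2567))) (.B 1 193 (.B 1 191 (.B 2 60 (.L 3 519) (.L 3 31)) (.B 2 60 (.L 3 7) (.L 3 31))) (.B 0 22 (.B 1 198 (.B 1 195 (.B 1 194 (.B 0 21 (.B 0 20 (.B 0 19 (.B 2 60 (.L 3 7) (.L 3 31)) (.B 2 60 (.L 3 7) (.L 3 31))) (.B 2 60 (.L 3 7) (.L 3 31))) (.B 2 60 (.L 3 7) (.L 3 31))) (.B 0 21 (.B 0 20 (.B 0 19 (.B 2 60 (.L 3 7) (.L 3 31)) (.B 2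 60 (.L 3 7) (.L 3 31))) (.B 2 60 (.L 3 7) (.L 3 31))) (.B 2 60 (.L 3 7) (.L 3 31)))) (.B 1 196 (.B 0 21 (.B 0 20 (.B 0 19 (.B 2 60 (.L 3 7) (.L 3 31)) (.B 2 60 (.L 3 7) (.L 3 31))) (.B 2 60 (.L 3 7) (.L 3 31))) (.B 2 60 (.L 3 7) (.L 3 31))) (.B 1 197 (.B 0 21 (.B 0 20 (.B 0 19 (.L 3 2567) (.B 2 60 (.L 3 15) (.L 3 31))) (.B 2 60 (.L 3 15) (.L 3 31))) (.B 2 60 (.L 3 15) (.L 3 31))) (.B 0 21 (.B 0 20 (.L 6 11534399) (.B 2 60 (.L 3 15) (.L 3 31))) (.B 2 60 (.L 3 15) (.L 3 31)))))) (.B 1 202 (.B 1 199 (.B 0 21 (.B 0 20 (.L 3 2567) (.B 2 60 (.L 3 15) (.L 3 31))) (.B 2 60 (.L 3 15) (.L 3 31))) (.B 0 21 (.L 3 2567) (.B 1 200 (.B 2 60 (.L 3 15) (.L 3 31)) (.L 6 11534399)))) (.L 3 2567))) (.B 0 23 (.B 1 198 (.B 1 195 (.B 1 194 (.B 2 60 (.L 3 7) (.L 3 31)) (.B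 2 60 (.L 3 7) (.L 3 31))) (.B 1 196 (.B 2 60 (.L 3 7) (.L 3 31)) (.B 1 197 (.B 2 60 (.L 3 15) (.L 3 31)) (.B 2 60 (.L 3 15) (.L 3 31))))) (.B 1 202 (.B 1 199 (.B 2 60 (.L 3 15) (.L 3 31)) (.B 1 200 (.B 2 60 (.L 3 15) (.L 3 31)) (.B 1 201 (.B 2 60 (.L 3 15) (.L 3 31)) (.B 2 60 (.L 3 15) (.L 3 31))))) (.L 3 2567))) (.B 1 198 (.B 1 195 (.B 1 194 (.B 2 60 (.L 3 7) (.L 3 31)) (.B 2 60 (.L 3 7) (.L 3 31))) (.B 1 196 (.B 2 60 (.L 3 7) (.L 3 31)) (.B 1 197 (.B 2 60 (.L 3 15) (.L 3 31)) (.B 2 60 (.L 3 15) (.L 3 31))))) (.B 1 202 (.B 1 199 (.B 2 60 (.L 3 15) (.L 3 31)) (.B 1 200 (.B 2 60 (.L 3 15) (.L 3 31)) (.B 1 201 (.B 2 60 (.L 3 15) (.L 3 31)) (.B 2 60 (.L 3 15) (.L 3 31))))) (.B 1 205 (.B 1 203 (.B 2 60 (.L 3 23) (.L 3 31)) (.B 2 60 (.L 3 23) (.L 3 31)))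 (.L 3 2567)))))))) (.B 1 202 (.B 1 198 (.B 2 60 (.L 3 519) (.L 3 31)) (.B 2 60 (.L 3 15) (.L 3 31))) (.B 1 205 (.B 1 204 (.B 1 203 (.B 2 60 (.L 3 23) (.L 3 31)) (.B 0 30 (.B 0 28 (.B 0 27 (.B 0 26 (.B 0 25 (.B 2 60 (.L 3 23) (.L 3 31)) (.B 2 60 (.L 3 23) (.L 3 31))) (.B 2 60 (.L 3 23) (.L 3 31))) (.B 2 60 (.L 3 23) (.L 3 31))) (.B 0 29 (.B 2 60 (.L 3 23) (.L 3 31)) (.B 2 60 (.L 3 23) (.L 3 31)))) (.B 0 31 (.B 2 60 (.L 3 23) (.L 3 31)) (.B 2 60 (.L 3 23) (.L 3 31))))) (.B 2 60 (.L 3 23) (.L 3 31))) (.B 0 30 (.B 0 28 (.B 1 207 (.B 1 206 (.B 0 27 (.B 0 26 (.B 2 60 (.L 3 23) (.L 3 31)) (.B 2 60 (.L 3 23) (.L 3 31))) (.B 2 60 (.L 3 23) (.L 3 31))) (.B 0 27 (.B 0 26 (.L 3 1031) (.B 2 60 (.L 3 23) (.L 3 31))) (.B 2 60 (.L 3 23) (.L 3 31)))) (.B 1 209 (.B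 1 208 (.B 0 27 (.L 7 65011839) (.B 2 60 (.L 3 23) (.L 3 31))) (.B 2 60 (.L 3 31) (.L 3 31))) (.L 3 1031))) (.B 1 207 (.B 0 29 (.B 1 206 (.B 2 60 (.L 3 23) (.L 3 31)) (.B 2 60 (.L 3 23) (.L 3 31))) (.B 1 206 (.B 2 60 (.L 3 23) (.L 3 31)) (.B 2 60 (.L 3 23) (.L 3 31)))) (.B 1 209 (.B 1 208 (.B 0 29 (.B 2 60 (.L 3 23) (.L 3 31)) (.B 2 60 (.L 3 23) (.L 3 31))) (.B 0 29 (.B 2 60 (.L 3 31) (.L 3 31)) (.B 2 60 (.L 3 31) (.L 3 31)))) (.B 0 29 (.B 2 60 (.L 3 31) (.L 3 31)) (.B 1 210 (.B 2 60 (.L 3 31) (.L 3 31)) (.B 2 60 (.L 3 31) (.L 3 31))))))) (.B 0 31 (.B 1 207 (.B 1 206 (.B 2 60 (.L 3 23) (.L 3 31)) (.B 2 60 (.L 3 23) (.L 3 31))) (.B 1 209 (.B 1 208 (.B 2 60 (.L 3 23) (.L 3 31)) (.B 2 60 (.L 3 31) (.L 3 31))) (.B 1 210 (.B 2 60 (.L 3 31) (.L 3 31)) (.B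 2 60 (.L 3 31) (.L 3 31))))) (.B 1 207 (.B 1 206 (.B 2 60 (.L 3 23) (.L 3 31)) (.B 2 60 (.L 3 23) (.L 3 31))) (.B 1 209 (.B 1 208 (.B 2 60 (.L 3 23) (.L 3 31)) (.B 2 60 (.L 3 31) (.L 3 31))) (.B 1 210 (.B 2 60 (.L 3 31) (.L 3 31)) (.B 2 60 (.L 3 31) (.L 3 31))))))))))) (.B 2 123 (.B 0 16 (.B 1 191 (.B 2 105 (.B 0 8 (.B 1 182 (.B 2 98 (.B 0 4 (.B 1 178 (.B 2 95 (.B 0 2 (.B 1 177 (.B 2 94 (.B 0 1 (.B 1 176 (.B 2 93 .R (.B 1 172 (.L 3 3904) (.L 3 3584))) (.L 3 3589)) (.B 1 164 (.B 2 85 (.L 3 56) (.L 3 376)) (.B 2 81 (.L 3 61) .R))) (.L 4 64000)) (.L 3 3589)) (.B 1 165 (.B 2 86 (.L 4 496) (.L 4 3312)) (.B 2 82 (.L 3 61) (.B 0 3 .R .R)))) (.B 1 174 (.L 3 4032) (.L 3 3776))) (.L 3 3590)) (.B 1 166 (.B 2 87 (.L 3 120) (.L 3 440)) (.B 2 83 (.L 3 61) (.B 0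 6 (.B 1 180 (.B 2 97 (.B 0 5 (.B 1 179 (.B 2 96 .R (.L 3 3840)) (.L 3 3590)) (.B 1 167 (.B 2 88 (.L 3 120) (.L 3 440)) (.B 2 84 (.L 3 61) .R))) (.L 3 3840)) (.L 3 3590)) (.B 1 168 (.B 2 89 (.L 3 312) (.L 4 4000)) (.B 2 84 (.L 3 60) (.B 0 7 (.B 1 181 (.B 2 97 .R (.B 1 177 (.L 3 3840) (.L 3 3585))) (.L 3 3590)) (.B 1 169 (.B 2 90 (.B 2 88 (.L 3 120) (.B 2 89 (.L 3 120) (.L 5 24544))) (.L 3 480)) (.B 2 85 (.L 3 60) .R))))))))) (.B 1 177 (.L 3 3968) (.L 3 3776))) (.L 3 3591)) (.B 1 169 (.B 2 90 (.L 3 120) (.L 3 504)) (.B 2 86 (.L 3 60) (.B 0 12 (.B 1 186 (.B 2 101 (.B 0 10 (.B 1 184 (.B 2 100 (.B 0 9 (.B 1 183 (.B 2 99 .R (.L 4 63232)) (.L 3 3591)) (.B 1 170 (.L 3 440) (.B 2 87 (.L 3 60) .R))) (.L 3 3776)) (.L 3 3591)) (.B 1 171 (.L 5 29664) (.B 2 87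 (.L 3 60) (.B 0 11 (.B 1 185 (.B 2 100 .R (.B 1 181 (.B 1 178 (.L 3 3968) (.L 3 3776)) (.L 4 61444))) (.L 3 3591)) (.B 1 172 (.L 6 241600) (.B 2 88 (.L 3 60) .R)))))) (.B 1 181 (.L 3 3904) (.L 3 3712))) (.L 3 3079)) (.B 1 173 (.B 2 93 (.L 3 184) (.L 3 496)) (.B 2 89 (.L 3 59) (.B 0 14 (.B 1 188 (.B 2 103 (.B 0 13 (.B 1 187 (.B 2 102 .R (.L 8 4284022784)) (.L 3 3079)) (.B 1 174 (.B 2 94 (.L 3 184) (.L 3 496)) (.B 2 90 (.L 3 59) .R))) (.L 4 62720)) (.L 3 3079)) (.B 1 175 (.B 2 95 (.L 3 440) (.L 3 472)) (.B 2 90 (.L 3 59) (.B 0 15 (.B 1 190 (.B 2 104 .R (.L 3 3712)) (.L 3 3079)) (.B 1 176 (.B 2 96 (.L 3 440) (.L 3 472)) (.B 2 91 (.L 3 59) .R)))))))))))) (.B 1 184 (.L 3 3840) (.L 3 3648))) (.B 2 102 (.L 3 3079) (.L 3 3587))) (.B 1 177 (.B 2 96 (.L 3 248)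 (.L 4 3968)) (.B 2 92 (.L 3 58) (.B 0 24 (.B 1 203 (.B 2 113 (.B 0 20 (.B 1 197 (.B 2 108 (.B 0 18 (.B 1 194 (.B 2 106 (.B 0 17 (.B 1 193 (.B 2 105 .R (.B 1 187 (.L 3 3840) (.B 1 189 (.B 1 188 (.L 3 3648) (.L 3 3587)) (.L 3 3587)))) (.L 3 2567)) (.B 1 178 (.B 2 97 (.L 3 248) (.L 3 488)) (.B 2 93 (.L 3 58) .R))) (.B 1 189 (.L 3 3712) (.L 3 3587))) (.L 3 2567)) (.B 1 179 (.B 2 98 (.L 3 504) (.L 3 464)) (.B 2 94 (.L 5 1001) (.B 0 19 (.B 1 196 (.B 2 107 .R (.B 1 190 (.L 3 3840) (.L 3 3584))) (.L 3 2567)) (.B 1 180 (.B 2 99 (.L 3 504) (.L 3 464)) .R))))) (.B 1 192 (.L 3 3776) (.L 3 3585))) (.L 3 2055)) (.B 1 181 (.B 2 100 (.L 3 504) (.L 3 464)) (.B 2 95 (.L 3 58) (.B 0 22 (.B 1 200 (.B 2 110 (.B 0 21 (.B 1 199 (.B 2 109 .R (.B 1 194 (.L 3 3648) (.L 3 3588)))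 (.L 3 2055)) (.B 1 182 (.L 4 4016) (.B 2 96 (.L 3 58) .R))) (.B 1 195 (.L 3 3776) (.L 4 61443))) (.L 3 2055)) (.B 1 183 (.B 2 101 (.L 3 312) (.L 3 480)) (.B 2 97 (.L 3 57) (.B 0 23 (.B 1 201 (.B 2 111 .R (.B 1 196 (.L 3 3776) (.B 1 198 (.B 1 197 (.L 3 3585) (.L 3 3588)) (.L 3 3588)))) (.L 3 2055)) (.B 1 185 (.B 2 102 (.L 3 312) (.B 2 105 (.B 2 103 (.L 5 32480) (.L 3 456)) (.L 3 456))) (.B 2 98 (.L 3 57) .R))))))))) (.B 1 196 (.L 3 3712) (.L 3 3586))) (.L 3 1543)) (.B 1 186 (.B 2 103 (.L 4 2800) (.L 3 472)) (.B 2 99 (.L 5 995) (.B 0 28 (.B 1 208 (.B 2 117 (.B 0 26 (.B 1 205 (.B 2 115 (.B 0 25 (.B 1 204 (.B 2 114 .R (.B 1 199 (.L 3 3712) (.L 3 3586))) (.L 3 1543)) (.B 1 187 (.B 2 104 (.L 3 488) (.L 3 456)) (.B 2 100 (.B 1 192 (.L 4 241) (.L 3 62)) .R)))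 (.B 1 200 (.L 3 3712) (.L 3 3586))) (.L 3 1543)) (.B 1 188 (.B 2 105 (.L 3 488) (.L 3 456)) (.B 2 100 (.L 3 56) (.B 0 27 (.B 1 207 (.B 2 116 .R (.B 1 202 (.L 3 3712) (.L 3 3587))) (.L 3 1543)) (.B 1 190 (.B 2 106 (.L 3 488) (.L 4 3856)) (.B 2 101 (.L 3 56) .R)))))) (.B 1 202 (.L 3 3712) (.B 1 204 (.L 3 3586) (.L 3 3590)))) (.L 3 1543)) (.B 1 191 (.B 2 107 (.L 3 488) (.L 3 448)) (.B 2 103 (.B 1 197 (.L 4 496) (.L 3 61)) (.B 0 30 (.B 1 210 (.B 2 120 (.B 0 29 (.B 1 209 (.B 2 119 .R (.L 7 266338335)) (.L 4 20495)) (.B 1 193 (.B 2 108 (.L 3 488) (.L 3 448)) (.B 2 104 (.L 3 120) .R))) (.B 1 205 (.L 3 3648) (.L 3 3587))) (.B 2 118 (.L 4 20495) (.L 3 3590))) (.B 1 194 (.B 2 109 (.L 3 480) (.L 3 448)) (.B 2 105 (.L 3 120) (.B 0 31 (.B 1 212 (.B 2 121 .R (.B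 1 207 (.L 3 3648) (.L 5 1015823))) (.L 3 1031)) (.B 1 196 (.B 2 110 (.L 3 504) (.L 3 464)) (.B 2 106 (.L 3 120) .R))))))))))))))) (.B 1 186 (.B 2 157 (.L 3 3520) (.B 2 182 (.L 3 3840) (.B 2 201 (.L 3 3591) (.L 3 3079)))) (.B 0 24 (.B 0 18 (.B 1 193 (.B 1 188 (.B 1 187 (.B 0 13 (.B 0 9 (.L 3 2567) (.B 0 12 (.B 2 157 (.L 3 3648) (.B 2 182 (.L 3 3586) (.B 2 201 (.L 3 3586) (.L 3 3079)))) (.B 2 157 (.L 3 3648) (.B 2 182 (.L 3 3586) (.B 2 201 (.L 3 3586) (.L 3 3079)))))) (.B 2 157 (.L 3 3648) (.B 2 182 (.L 3 3587) (.B 2 201 (.L 3 3587) (.L 3 3079))))) (.B 0 13 (.B 2 157 (.L 3 3648) (.B 2 182 (.L 3 3586) (.B 2 201 (.L 3 3586) (.L 3 3079)))) (.B 2 157 (.L 3 3648) (.B 2 182 (.L 3 3587) (.B 2 201 (.L 3 3587) (.L 3 3079)))))) (.B 1 190 (.B 1 189 (.B 0 13 (.L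 3 2567) (.B 2 157 (.L 3 3648) (.B 2 182 (.L 3 3587) (.B 2 201 (.L 3 3587) (.L 3 3079))))) (.B 0 13 (.L 3 2567) (.B 2 157 (.L 3 3648) (.B 2 182 (.L 3 3587) (.B 2 201 (.L 3 3587) (.L 3 3079)))))) (.B 1 191 (.B 0 13 (.L 3 2567) (.B 2 157 (.L 3 3648) (.B 2 182 (.L 3 3587) (.B 2 201 (.L 3 3587) (.L 3 3079))))) (.B 1 192 (.B 0 13 (.L 3 2567) (.B 2 157 (.L 3 3648) (.B 2 182 (.L 3 3587) (.B 2 201 (.L 3 3587) (.L 3 3079))))) (.B 0 13 (.L 3 2567) (.B 2 157 (.L 3 3648) (.B 2 182 (.L 3 3587) (.B 2 201 (.L 3 3587) (.L 3 3079))))))))) (.B 1 198 (.B 1 195 (.B 1 194 (.B 0 13 (.L 3 2567) (.B 2 157 (.L 3 3648) (.B 2 182 (.L 3 3590) (.B 2 201 (.L 3 3587) (.L 3 3079))))) (.B 2 157 (.L 3 3648) (.B 2 182 (.L 3 3590) (.B 2 201 (.L 3 3587) (.L 3 3079))))) (.L 3 2567)) (.L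 3 2567))) (.B 1 193 (.B 1 191 (.B 2 157 (.L 3 3648) (.B 2 182 (.L 3 3588) (.B 2 201 (.L 3 3588) (.L 3 3079)))) (.B 2 157 (.L 3 3648) (.B 2 182 (.L 3 3588) (.B 2 201 (.L 3 3588) (.L 3 3079))))) (.B 0 22 (.B 1 198 (.B 1 195 (.B 1 194 (.B 0 21 (.B 0 20 (.B 0 19 (.B 2 157 (.L 3 3648) (.B 2 182 (.L 3 3587) (.B 2 201 (.L 3 3587) (.L 3 3079)))) (.B 2 157 (.L 3 3648) (.B 2 182 (.L 3 3587) (.B 2 201 (.L 3 3587) (.L 3 3079))))) (.B 2 157 (.L 3 3648) (.B 2 182 (.L 3 3588) (.B 2 201 (.L 3 3588) (.L 3 3079))))) (.B 2 157 (.L 3 3648) (.B 2 182 (.L 3 3588) (.B 2 201 (.L 3 3588) (.L 3 3079))))) (.B 0 21 (.B 0 20 (.B 0 19 (.B 2 157 (.L 3 3648) (.B 2 182 (.L 3 3590) (.B 2 201 (.L 3 3587) (.L 3 3079)))) (.B 2 157 (.L 3 3648) (.B 2 182 (.L 3 3590) (.B 2 201 (.L 3 3587)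 (.L 3 3079))))) (.B 2 157 (.L 3 3648) (.B 2 182 (.L 3 3588) (.B 2 201 (.L 3 3588) (.L 3 3079))))) (.B 2 157 (.L 3 3648) (.B 2 182 (.L 3 3588) (.B 2 201 (.L 3 3588) (.L 3 3079)))))) (.B 1 196 (.B 0 21 (.B 0 20 (.B 0 19 (.B 2 157 (.L 3 3648) (.B 2 182 (.L 3 3590) (.B 2 201 (.L 3 3587) (.L 3 3079)))) (.B 2 157 (.L 3 3648) (.B 2 182 (.L 3 3590) (.B 2 201 (.L 3 3587) (.L 3 3079))))) (.B 2 157 (.L 3 3648) (.B 2 182 (.L 3 3590) (.B 2 201 (.L 3 3588) (.L 3 3079))))) (.B 2 157 (.L 3 3648) (.B 2 182 (.L 3 3590) (.B 2 201 (.L 3 3588) (.L 3 3079))))) (.B 1 197 (.B 0 21 (.B 0 20 (.B 0 19 (.L 3 2567) (.B 2 157 (.L 3 3648) (.B 2 182 (.L 3 3590) (.B 2 201 (.L 3 3587) (.L 3 3079))))) (.B 2 157 (.L 3 3648) (.B 2 182 (.L 3 3590) (.B 2 201 (.L 3 3588) (.L 3 3079)))))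 (.B 2 157 (.L 3 3648) (.B 2 182 (.L 3 3590) (.B 2 201 (.L 3 3588) (.L 3 3079))))) (.B 0 21 (.B 0 20 (.L 6 11534399) (.B 2 157 (.L 3 3648) (.B 2 182 (.L 3 3590) (.B 2 201 (.L 3 3588) (.L 3 3079))))) (.B 2 157 (.L 3 3648) (.B 2 182 (.L 3 3590) (.B 2 201 (.L 3 3588) (.L 3 3079)))))))) (.B 1 202 (.B 1 199 (.B 0 21 (.B 0 20 (.L 3 2567) (.B 2 157 (.L 3 3648) (.B 2 182 (.L 3 3590) (.B 2 201 (.L 3 3588) (.L 3 3079))))) (.B 2 157 (.L 3 3648) (.B 2 182 (.L 3 3590) (.B 2 201 (.L 3 3588) (.L 3 3079))))) (.B 0 21 (.L 3 2567) (.B 1 200 (.B 2 157 (.L 3 3648) (.B 2 182 (.L 3 3590) (.B 2 201 (.L 3 3588) (.L 3 3079)))) (.L 6 11534399)))) (.L 3 2567))) (.B 0 23 (.B 1 198 (.B 1 195 (.B 1 194 (.B 2 157 (.L 3 3648) (.B 2 182 (.L 3 3588) (.B 2 201 (.L 3 3588) (.L 3 3079))))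 (.B 2 157 (.L 3 3648) (.B 2 182 (.L 3 3588) (.B 2 201 (.L 3 3588) (.L 3 3079))))) (.B 1 196 (.B 2 157 (.L 3 3648) (.B 2 182 (.L 3 3588) (.B 2 201 (.L 3 3588) (.L 3 3079)))) (.B 1 197 (.B 2 157 (.L 3 3648) (.B 2 182 (.L 3 3590) (.B 2 201 (.L 3 3588) (.L 3 3079)))) (.B 2 157 (.L 3 3648) (.B 2 182 (.L 3 3590) (.B 2 201 (.L 3 3588) (.L 3 3079))))))) (.B 1 202 (.B 1 199 (.B 2 157 (.L 3 3648) (.B 2 182 (.L 3 3590) (.B 2 201 (.L 3 3588) (.L 3 3079)))) (.B 1 200 (.B 2 157 (.L 3 3648) (.B 2 182 (.L 3 3590) (.B 2 201 (.L 3 3588) (.L 3 3079)))) (.B 1 201 (.B 2 157 (.L 3 3648) (.B 2 182 (.L 3 3590) (.B 2 201 (.L 3 3588) (.L 3 3079)))) (.B 2 157 (.L 3 3648) (.B 2 182 (.L 3 3590) (.B 2 201 (.L 3 3588) (.L 3 3079))))))) (.L 3 2567))) (.B 1 198 (.B 1 195 (.B 1 194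 (.B 2 157 (.L 3 3648) (.B 2 182 (.L 3 3588) (.B 2 201 (.L 3 3588) (.L 3 3079)))) (.B 2 157 (.L 3 3648) (.B 2 182 (.L 3 3588) (.B 2 201 (.L 3 3588) (.L 3 3079))))) (.B 1 196 (.B 2 157 (.L 3 3648) (.B 2 182 (.L 3 3588) (.B 2 201 (.L 3 3588) (.L 3 3079)))) (.B 1 197 (.B 2 157 (.L 3 3648) (.B 2 182 (.L 3 3590) (.B 2 201 (.L 3 3588) (.L 3 3079)))) (.B 2 157 (.L 3 3648) (.B 2 182 (.L 3 3590) (.B 2 201 (.L 3 3588) (.L 3 3079))))))) (.B 1 202 (.B 1 199 (.B 2 157 (.L 3 3648) (.B 2 182 (.L 3 3590) (.B 2 201 (.L 3 3588) (.L 3 3079)))) (.B 1 200 (.B 2 157 (.L 3 3648) (.B 2 182 (.L 3 3590) (.B 2 201 (.L 3 3588) (.L 3 3079)))) (.B 1 201 (.B 2 157 (.L 3 3648) (.B 2 182 (.L 3 3590) (.B 2 201 (.L 3 3588) (.L 3 3079)))) (.B 2 157 (.L 3 3648) (.B 2 182 (.L 3 3590) (.B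 2 201 (.L 3 3588) (.L 3 3079))))))) (.B 1 205 (.B 1 203 (.B 2 157 (.L 3 3648) (.B 2 182 (.L 3 3590) (.B 2 201 (.L 3 3588) (.L 3 3079)))) (.B 2 157 (.L 3 3648) (.B 2 182 (.L 3 3590) (.B 2 201 (.L 3 3588) (.L 3 3079))))) (.L 3 2567)))))))) (.B 1 202 (.B 1 198 (.B 2 157 (.L 3 3648) (.B 2 182 (.L 3 3590) (.B 2 201 (.L 3 3591) (.L 3 3079)))) (.B 2 157 (.L 3 3648) (.B 2 182 (.L 3 3590) (.B 2 201 (.L 3 3591) (.L 3 3079))))) (.B 1 205 (.B 1 204 (.B 1 203 (.B 2 157 (.L 3 3648) (.B 2 182 (.L 3 3590) (.B 2 201 (.L 3 3591) (.L 3 3079)))) (.B 0 30 (.B 0 28 (.B 0 27 (.B 0 26 (.B 0 25 (.B 2 157 (.L 3 3648) (.B 2 182 (.L 3 3590) (.B 2 201 (.L 3 3589) (.L 3 3079)))) (.B 2 157 (.L 3 3648) (.B 2 182 (.L 3 3590) (.B 2 201 (.L 3 3589) (.L 3 3079))))) (.B 2 157 (.L 3 3648)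 (.B 2 182 (.L 3 3590) (.B 2 201 (.L 3 3589) (.L 3 3079))))) (.B 2 157 (.L 3 3648) (.B 2 182 (.L 3 3590) (.B 2 201 (.L 3 3590) (.L 3 3079))))) (.B 0 29 (.B 2 157 (.L 3 3648) (.B 2 182 (.L 3 3590) (.B 2 201 (.L 3 3590) (.L 3 3079)))) (.B 2 157 (.L 3 3648) (.B 2 182 (.L 3 3590) (.B 2 201 (.L 3 3590) (.L 3 3079)))))) (.B 0 31 (.B 2 157 (.L 3 3648) (.B 2 182 (.L 3 3590) (.B 2 201 (.L 3 3591) (.L 3 3079)))) (.B 2 157 (.L 3 3648) (.B 2 182 (.L 3 3590) (.B 2 201 (.L 3 3591) (.L 3 3079))))))) (.B 2 157 (.L 3 3648) (.B 2 182 (.L 3 3590) (.B 2 201 (.L 3 3591) (.L 3 3079))))) (.B 0 30 (.B 0 28 (.B 1 207 (.B 1 206 (.B 0 27 (.B 0 26 (.B 2 157 (.L 3 3648) (.B 2 182 (.L 3 3590) (.B 2 201 (.L 3 3589) (.L 3 3079)))) (.B 2 157 (.L 3 3648) (.B 2 182 (.L 3 3590) (.B 2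 201 (.L 3 3589) (.L 3 3079))))) (.B 2 157 (.L 3 3648) (.B 2 182 (.L 3 3590) (.B 2 201 (.L 3 3590) (.L 3 3079))))) (.B 0 27 (.B 0 26 (.L 3 1031) (.B 2 157 (.L 3 3587) (.B 2 182 (.L 3 3590) (.B 2 201 (.L 3 3589) (.L 3 3079))))) (.B 2 157 (.L 3 3648) (.B 2 182 (.L 3 3590) (.B 2 201 (.L 3 3590) (.L 3 3079)))))) (.B 1 209 (.B 1 208 (.B 0 27 (.L 7 65011839) (.B 2 157 (.L 3 3587) (.B 2 182 (.L 3 3590) (.B 2 201 (.L 3 3590) (.L 3 3079))))) (.B 2 157 (.L 3 3590) (.B 2 182 (.L 3 3590) (.B 2 201 (.L 3 3590) (.L 3 3079))))) (.L 3 1031))) (.B 1 207 (.B 0 29 (.B 1 206 (.B 2 157 (.L 3 3648) (.B 2 182 (.L 3 3590) (.B 2 201 (.L 3 3590) (.L 3 3079)))) (.B 2 157 (.L 3 3648) (.B 2 182 (.L 3 3590) (.B 2 201 (.L 3 3590) (.L 3 3079))))) (.B 1 206 (.B 2 157 (.L 3 3648) (.B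 2 182 (.L 3 3590) (.B 2 201 (.L 3 3590) (.L 3 3079)))) (.B 2 157 (.L 3 3648) (.B 2 182 (.L 3 3590) (.B 2 201 (.L 3 3590) (.L 3 3079)))))) (.B 1 209 (.B 1 208 (.B 0 29 (.B 2 157 (.L 3 3587) (.B 2 182 (.L 3 3590) (.B 2 201 (.L 3 3590) (.L 3 3079)))) (.B 2 157 (.L 3 3648) (.B 2 182 (.L 3 3590) (.B 2 201 (.L 3 3590) (.L 3 3079))))) (.B 0 29 (.B 2 157 (.L 3 3590) (.B 2 182 (.L 3 3590) (.B 2 201 (.L 3 3590) (.L 3 3079)))) (.B 2 157 (.L 3 3587) (.B 2 182 (.L 3 3590) (.B 2 201 (.L 3 3590) (.L 3 3079)))))) (.B 0 29 (.B 2 157 (.L 3 3590) (.B 2 182 (.L 3 3590) (.B 2 201 (.L 3 3590) (.L 3 3079)))) (.B 1 210 (.B 2 157 (.L 3 3590) (.B 2 182 (.L 3 3590) (.B 2 201 (.L 3 3590) (.L 3 3079)))) (.B 2 157 (.L 3 3590) (.B 2 182 (.L 3 3590) (.B 2 201 (.L 3 3590) (.L 3 3079)))))))))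 (.B 0 31 (.B 1 207 (.B 1 206 (.B 2 157 (.L 3 3648) (.B 2 182 (.L 3 3590) (.B 2 201 (.L 3 3591) (.L 3 3079)))) (.B 2 157 (.L 3 3648) (.B 2 182 (.L 3 3590) (.B 2 201 (.L 3 3591) (.L 3 3079))))) (.B 1 209 (.B 1 208 (.B 2 157 (.L 3 3648) (.B 2 182 (.L 3 3590) (.B 2 201 (.L 3 3591) (.L 3 3079)))) (.B 2 157 (.L 3 3587) (.B 2 182 (.L 3 3590) (.B 2 201 (.L 3 3591) (.L 3 3079))))) (.B 1 210 (.B 2 157 (.L 3 3591) (.B 2 182 (.L 3 3590) (.B 2 201 (.L 3 3591) (.L 3 3079)))) (.B 2 157 (.L 3 3591) (.B 2 182 (.L 3 3590) (.B 2 201 (.L 3 3591) (.L 3 3079))))))) (.B 1 207 (.B 1 206 (.B 2 157 (.L 3 3648) (.B 2 182 (.L 3 3590) (.B 2 201 (.L 3 3591) (.L 3 3079)))) (.B 2 157 (.L 3 3648) (.B 2 182 (.L 3 3590) (.B 2 201 (.L 3 3591) (.L 3 3079))))) (.B 1 209 (.B 1 208 (.B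 2 157 (.L 3 3648) (.B 2 182 (.L 3 3590) (.B 2 201 (.L 3 3591) (.L 3 3079)))) (.B 2 157 (.L 3 3648) (.B 2 182 (.L 3 3590) (.B 2 201 (.L 3 3591) (.L 3 3079))))) (.B 1 210 (.B 2 157 (.L 3 3587) (.B 2 182 (.L 3 3590) (.B 2 201 (.L 3 3591) (.L 3 3079)))) (.B 2 157 (.L 3 3591) (.B 2 182 (.L 3 3590) (.B 2 201 (.L 3 3591) (.L 3 3079))))))))))))))) (.L 4 16399)))))

theorem t3_0_ok : chk es3 (nat_lit 3) [] (nat_lit 0) acc3 t3_0 (nat_lit 1125908496785408) = true := by decide +kernel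

end FD4632
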