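import Pool.Agent.FD4632.Acc

set_option autoImplicit false
set_option maxRecDepth 100000

namespace FD4632

/-- certificate tree -/
def t3_1 : Tr := (.B 1 107 (.B 0 48 (.B 1 27 (.L 3 47) (.B 1 47 (.L 3 61) (.L 4 1264))) (.B 1 27 (.L 3 47) (.B 1 47 (.L 3 61) (.L 3 184)))) (.B 1 157 (.B 2 197 (.B 1 134 (.B 0 40 (.B 1 118 (.B 1 115 (.B 1 113 (.B 0 34 (.B 0 33 (.B 1 111 (.B 1 110 (.B 2 147 (.B 2 110 (.B 2 28 (.L 3 59) (.B 2 49 (.L 3 59) (.L 3 248))) (.L 3 504)) (.L 3 504)) (.B 2 147 (.B 2 110 (.B 2 28 (.L 3 59) (.B 2 49 (.L 3 59) (.L 3 248))) (.L 3 504)) (.L 3 472))) (.B 1 112 (.B 2 147 (.B 2 37 (.L 3 59) (.B 2 119 (.B 2 98 (.L 3 120) (.L 3 504)) (.L 3 504))) (.L 3 960)) (.B 2 147 (.B 2 37 (.L 3 58) (.B 2 119 (.B 2 98 (.L 3 120) (.L 3 504)) (.L 3 504)))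 (.L 3 960)))) (.B 1 111 (.B 1 110 (.B 2 147 (.B 2 110 (.B 2 28 (.L 3 59) (.B 2 49 (.L 3 59) (.L 3 248))) (.L 3 504)) (.L 3 504)) (.B 2 147 (.B 2 37 (.L 3 59) (.B 2 119 (.B 2 98 (.L 3 120) (.L 3 504)) (.L 3 504))) (.L 3 504))) (.B 1 112 (.B 2 147 (.B 2 37 (.L 3 59) (.B 2 119 (.B 2 98 (.L 3 120) (.L 3 504)) (.L 3 504))) (.L 3 472)) (.B 2 147 (.B 2 37 (.L 3 58) (.B 2 119 (.B 2 98 (.L 3 120) (.L 3 504)) (.L 3 504))) (.L 3 960))))) (.B 1 111 (.B 0 36 (.B 0 35 (.B 1 110 (.B 2 147 (.B 2 37 (.L 3 59) (.B 2 119 (.B 2 98 (.L 3 120) (.L 3 496)) (.L 3 496))) (.L 3 496)) (.B 2 147 (.B 2 37 (.L 3 59) (.B 2 119 (.B 2 98 (.L 3 120) (.L 3 496)) (.L 3 496))) (.L 3 496))) (.B 2 147 (.B 2 37 (.L 3 59) (.B 2 119 (.B 2 98 (.L 3 120) (.L 3 496)) (.L 3 496))) (.L 3 496)))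 (.L 3 184)) (.B 1 112 (.B 0 36 (.B 0 35 (.B 2 147 (.B 2 37 (.L 3 59) (.B 2 119 (.B 2 98 (.L 3 120) (.L 3 496)) (.L 3 496))) (.L 3 472)) (.B 2 147 (.B 2 37 (.L 3 59) (.B 2 119 (.B 2 98 (.L 3 120) (.L 3 496)) (.L 3 496))) (.L 3 496))) (.B 2 147 (.B 2 37 (.L 3 59) (.B 2 119 (.B 2 98 (.L 3 120) (.L 3 496)) (.L 3 496))) (.L 3 496))) (.B 0 36 (.B 0 35 (.B 2 147 (.B 2 37 (.L 3 58) (.B 2 119 (.B 2 98 (.L 3 120) (.L 3 496)) (.L 3 496))) (.L 3 960)) (.B 2 147 (.B 2 37 (.L 3 58) (.B 2 119 (.B 2 98 (.L 3 120) (.L 3 496)) (.L 3 496))) (.L 3 472))) (.B 0 37 (.B 2 147 (.B 2 37 (.L 3 58) (.B 2 119 (.B 2 98 (.L 3 120) (.L 3 496)) (.L 3 496))) (.L 3 472)) (.L 7 524160)))))) (.B 1 114 (.B 0 34 (.B 0 33 (.B 2 147 (.B 2 37 (.L 3 58) (.B 2 119 (.B 2 98 (.L 3 120) (.L 3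 504)) (.L 3 504))) (.L 3 960)) (.B 2 147 (.B 2 37 (.L 3 58) (.B 2 119 (.B 2 98 (.L 3 120) (.L 3 504)) (.L 3 504))) (.L 3 960))) (.B 0 36 (.B 0 35 (.B 2 147 (.B 2 37 (.L 3 58) (.B 2 119 (.B 2 98 (.L 3 120) (.L 3 496)) (.L 3 496))) (.L 3 960)) (.B 2 147 (.B 2 37 (.L 3 58) (.B 2 119 (.B 2 98 (.L 3 120) (.L 3 496)) (.L 3 496))) (.L 3 960))) (.B 0 37 (.B 2 147 (.B 2 37 (.L 3 58) (.B 2 119 (.B 2 98 (.L 3 120) (.L 3 496)) (.L 3 496))) (.L 3 960)) (.B 0 38 (.B 2 147 (.B 2 37 (.L 3 58) (.B 2 119 (.B 2 98 (.L 3 120) (.L 3 488)) (.L 3 488))) (.L 3 472)) (.L 3 184))))) (.B 2 147 (.B 2 37 (.L 3 58) (.B 2 119 (.B 2 98 (.L 3 120) (.L 3 504)) (.L 3 504))) (.L 3 960)))) (.B 2 147 (.B 2 37 (.L 3 58) (.B 2 119 (.B 2 98 (.L 3 120) (.L 3 504)) (.L 3 504))) (.L 3 960)))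 (.B 1 122 (.B 2 147 (.B 2 37 (.L 3 57) (.B 2 119 (.B 2 98 (.L 3 120) (.L 3 504)) (.L 3 504))) (.L 3 960)) (.B 2 147 (.B 2 37 (.L 3 56) (.B 2 119 (.B 2 58 (.L 3 120) (.L 3 376)) (.L 3 504))) (.L 3 960)))) (.B 0 46 (.B 1 127 (.B 0 42 (.B 0 41 (.B 1 122 (.B 1 118 (.B 1 115 (.L 3 376) (.B 1 117 (.B 2 147 (.B 2 37 (.L 3 58) (.B 2 119 (.B 2 58 (.L 3 58) (.L 3 376)) (.L 3 480))) (.L 3 960)) (.B 2 147 (.B 2 37 (.L 3 58) (.B 2 119 (.B 2 58 (.L 3 58) (.L 3 376)) (.L 3 480))) (.L 3 960)))) (.B 1 121 (.B 1 120 (.B 1 119 (.B 2 147 (.B 2 37 (.L 3 57) (.B 2 119 (.B 2 58 (.L 3 57) (.L 3 376)) (.L 3 480))) (.L 3 960)) (.B 2 147 (.B 2 37 (.L 3 57) (.B 2 119 (.B 2 58 (.L 3 57) (.L 3 376)) (.L 3 480))) (.L 3 960))) (.B 2 147 (.B 2 37 (.L 3 57) (.B 2 119 (.B 2 58 (.L 3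 57) (.L 3 376)) (.L 3 480))) (.L 3 960))) (.B 2 147 (.B 2 37 (.L 3 57) (.B 2 119 (.B 2 58 (.L 3 57) (.L 3 376)) (.L 3 480))) (.L 3 960)))) (.B 1 125 (.B 1 124 (.B 1 123 (.B 2 147 (.B 2 37 (.L 3 57) (.B 2 119 (.B 2 58 (.L 3 57) (.L 3 376)) (.L 3 480))) (.L 3 960)) (.B 2 147 (.B 2 37 (.L 3 57) (.B 2 119 (.B 2 58 (.L 3 57) (.L 3 376)) (.L 3 480))) (.L 3 960))) (.B 2 147 (.B 2 37 (.L 3 56) (.B 2 119 (.B 2 58 (.L 3 56) (.L 3 376)) (.L 3 480))) (.L 3 960))) (.B 1 126 (.B 2 147 (.B 2 37 (.L 3 56) (.B 2 119 (.B 2 58 (.L 3 56) (.L 3 376)) (.L 3 480))) (.L 3 960)) (.B 2 147 (.B 2 37 (.L 3 56) (.B 2 119 (.B 2 58 (.L 3 56) (.L 3 376)) (.L 3 480))) (.L 3 960))))) (.B 1 122 (.B 1 118 (.L 3 376) (.B 1 121 (.B 1 120 (.B 1 119 (.B 2 147 (.B 2 37 (.L 3 57) (.B 2 119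 (.B 2 58 (.L 3 57) (.L 3 376)) (.L 3 480))) (.L 3 960)) (.B 2 147 (.B 2 37 (.L 3 57) (.B 2 119 (.B 2 58 (.L 3 57) (.L 3 376)) (.L 3 480))) (.L 3 960))) (.B 2 147 (.B 2 37 (.L 3 57) (.B 2 119 (.B 2 58 (.L 3 57) (.L 3 376)) (.L 3 480))) (.L 3 960))) (.B 2 147 (.B 2 37 (.L 3 57) (.B 2 119 (.B 2 58 (.L 3 57) (.L 3 376)) (.L 3 480))) (.L 3 960)))) (.B 1 125 (.B 1 124 (.B 1 123 (.B 2 147 (.B 2 37 (.L 3 57) (.B 2 119 (.B 2 58 (.L 3 57) (.L 3 376)) (.L 3 480))) (.L 3 960)) (.B 2 147 (.B 2 37 (.L 3 57) (.B 2 119 (.B 2 58 (.L 3 57) (.L 3 376)) (.L 3 480))) (.L 3 960))) (.B 2 147 (.B 2 37 (.L 3 56) (.B 2 119 (.B 2 58 (.L 3 56) (.L 3 376)) (.L 3 480))) (.L 3 960))) (.B 1 126 (.B 2 147 (.B 2 37 (.L 3 56) (.B 2 119 (.B 2 58 (.L 3 56) (.L 3 376)) (.L 3 480))) (.L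 3 960)) (.B 2 147 (.B 2 37 (.L 3 56) (.B 2 119 (.B 2 58 (.L 3 56) (.L 3 376)) (.L 3 480))) (.L 3 960)))))) (.B 1 122 (.B 1 118 (.L 3 376) (.B 1 121 (.B 0 43 (.B 1 120 (.L 6 184256) (.B 2 147 (.B 2 37 (.L 3 57) (.B 2 119 (.B 2 58 (.L 3 57) (.L 3 376)) (.L 3 480))) (.L 3 960))) (.L 3 376)) (.B 0 43 (.B 2 147 (.B 2 37 (.L 3 57) (.B 2 119 (.B 2 58 (.L 3 57) (.L 3 376)) (.L 3 480))) (.L 3 960)) (.B 0 44 (.B 2 147 (.B 2 37 (.L 3 57) (.B 2 119 (.B 2 58 (.L 3 57) (.L 3 376)) (.L 3 480))) (.L 3 960)) (.L 3 376))))) (.B 1 125 (.B 1 124 (.B 1 123 (.B 0 43 (.B 2 147 (.B 2 37 (.L 3 57) (.B 2 119 (.B 2 58 (.L 3 57) (.L 3 376)) (.L 3 480))) (.L 3 960)) (.B 0 44 (.B 2 147 (.B 2 37 (.L 3 57) (.B 2 119 (.B 2 58 (.L 3 57) (.L 3 376)) (.L 3 480))) (.L 3 960)) (.L 6 184256)))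 (.B 0 43 (.B 2 147 (.B 2 37 (.L 3 57) (.B 2 119 (.B 2 58 (.L 3 57) (.L 3 376)) (.L 3 480))) (.L 3 960)) (.B 0 44 (.B 2 147 (.B 2 37 (.L 3 57) (.B 2 119 (.B 2 58 (.L 3 57) (.L 3 376)) (.L 3 480))) (.L 3 960)) (.B 0 45 (.B 2 147 (.B 2 37 (.L 3 57) (.B 2 119 (.B 2 58 (.L 3 57) (.L 3 376)) (.L 3 472))) (.L 3 960)) (.L 3 376))))) (.B 0 43 (.B 2 147 (.B 2 37 (.L 3 56) (.B 2 119 (.B 2 58 (.L 3 56) (.L 3 376)) (.L 3 480))) (.L 3 960)) (.B 0 44 (.B 2 147 (.B 2 37 (.L 3 56) (.B 2 119 (.B 2 58 (.L 3 56) (.L 3 376)) (.L 3 480))) (.L 3 960)) (.B 0 45 (.B 2 147 (.B 2 37 (.L 3 56) (.B 2 119 (.B 2 58 (.L 3 56) (.L 3 376)) (.L 3 472))) (.L 3 960)) (.B 2 147 (.B 2 37 (.L 3 56) (.B 2 119 (.B 2 58 (.L 3 56) (.L 3 376)) (.L 3 472))) (.L 3 960)))))) (.B 1 126 (.B 0 43 (.B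 2 147 (.B 2 37 (.L 3 56) (.B 2 119 (.B 2 58 (.L 3 56) (.L 3 376)) (.L 3 480))) (.L 3 960)) (.B 0 44 (.B 2 147 (.B 2 37 (.L 3 56) (.B 2 119 (.B 2 58 (.L 3 56) (.L 3 376)) (.L 3 480))) (.L 3 960)) (.B 0 45 (.B 2 147 (.B 2 37 (.L 3 56) (.B 2 119 (.B 2 58 (.L 3 56) (.L 3 376)) (.L 3 472))) (.L 3 960)) (.B 2 147 (.B 2 37 (.L 3 56) (.B 2 119 (.B 2 58 (.L 3 56) (.L 3 376)) (.L 3 472))) (.L 3 960))))) (.B 0 43 (.B 2 147 (.B 2 37 (.L 3 56) (.B 2 119 (.B 2 58 (.L 3 56) (.L 3 376)) (.L 3 480))) (.L 3 960)) (.B 0 44 (.B 2 147 (.B 2 37 (.L 3 56) (.B 2 119 (.B 2 58 (.L 3 56) (.L 3 376)) (.L 3 480))) (.L 3 960)) (.B 0 45 (.B 2 147 (.B 2 37 (.L 3 56) (.B 2 119 (.B 2 58 (.L 3 56) (.L 3 376)) (.L 3 472))) (.L 3 960)) (.B 2 147 (.B 2 37 (.L 3 56) (.B 2 119 (.B 2 58 (.L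 3 56) (.L 3 376)) (.L 3 472))) (.L 3 960))))))))) (.B 1 129 (.B 2 147 (.B 2 37 (.L 3 56) (.B 2 119 (.B 2 58 (.L 3 56) (.L 3 376)) (.L 3 480))) (.L 3 960)) (.B 2 147 (.B 2 37 (.L 3 56) (.B 2 119 (.B 2 58 (.L 3 120) (.L 3 376)) (.L 3 480))) (.L 3 960)))) (.B 1 127 (.B 1 122 (.L 3 376) (.B 1 125 (.L 3 376) (.B 1 126 (.B 2 147 (.B 2 37 (.L 3 56) (.B 2 119 (.B 2 58 (.L 3 56) (.L 3 376)) (.L 3 472))) (.L 3 960)) (.B 2 147 (.B 0 51 (.B 2 37 (.L 3 56) (.B 2 119 (.B 2 58 (.L 3 56) (.L 3 376)) (.L 3 472))) (.L 3 376)) (.L 3 960))))) (.B 1 132 (.B 1 130 (.B 1 129 (.B 1 128 (.B 2 147 (.B 0 51 (.B 2 37 (.L 3 56) (.B 2 119 (.B 2 58 (.L 3 56) (.L 3 376)) (.L 3 472))) (.L 3 376)) (.L 3 960)) (.B 2 147 (.B 0 51 (.B 2 37 (.L 3 56) (.B 2 119 (.B 2 58 (.L 3 56) (.L 3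 376)) (.L 3 472))) (.L 3 376)) (.L 3 960))) (.B 2 147 (.B 0 51 (.B 2 37 (.L 3 56) (.B 2 119 (.B 2 58 (.L 3 56) (.L 3 376)) (.L 3 472))) (.L 3 376)) (.L 3 960))) (.B 1 131 (.B 2 147 (.B 0 51 (.B 2 37 (.L 3 56) (.B 2 119 (.B 2 58 (.L 3 56) (.L 3 376)) (.L 3 472))) (.L 3 376)) (.L 3 960)) (.B 2 147 (.B 0 51 (.B 2 37 (.L 3 56) (.B 2 119 (.B 2 58 (.L 3 120) (.L 3 376)) (.L 3 472))) (.L 3 376)) (.L 3 960)))) (.B 1 133 (.B 0 51 (.B 2 147 (.B 2 37 (.L 3 56) (.B 2 119 (.B 2 58 (.L 3 120) (.L 3 376)) (.L 3 472))) (.L 3 960)) (.B 2 147 (.B 2 37 (.L 3 56) (.B 2 65 (.L 3 120) (.B 2 126 (.L 3 504) (.L 3 464)))) (.L 3 960))) (.B 0 51 (.B 2 147 (.B 2 37 (.L 3 56) (.B 2 119 (.B 2 58 (.L 3 120) (.L 3 376)) (.L 3 472))) (.L 3 960)) (.B 0 55 (.B 0 52 (.B 2 147 (.B 2 37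 (.L 3 56) (.B 2 65 (.L 3 120) (.B 2 126 (.L 3 504) (.L 3 464)))) (.L 3 960)) (.B 2 147 (.B 2 37 (.L 3 56) (.B 2 65 (.L 3 120) (.B 2 126 (.L 3 504) (.L 3 464)))) (.L 3 960))) (.L 3 376)))))))) (.B 2 147 (.B 2 37 (.L 3 59) (.B 2 65 (.L 3 440) (.B 2 126 (.L 3 504) (.L 3 504)))) (.L 3 3968))) (.B 2 240 (.B 0 48 (.B 1 143 (.B 2 228 (.B 0 40 (.B 1 134 (.B 2 221 (.B 0 36 (.B 1 129 (.B 2 217 (.B 0 34 (.B 1 126 (.B 2 215 (.B 0 33 (.B 1 124 (.B 2 214 .R (.L 3 1031)) (.B 2 210 (.L 3 3586) (.L 3 3591))) (.B 1 108 (.L 3 184) (.B 2 199 (.B 1 113 (.L 5 32224) (.L 3 960)) .R))) (.L 3 519)) (.B 2 211 (.L 3 3584) (.L 3 3588))) (.B 1 110 (.B 2 202 (.L 3 496) (.L 4 1520)) (.B 2 200 (.B 1 115 (.L 3 472) (.L 3 960)) (.B 0 35 (.B 1 127 (.B 2 216 .R (.L 3 519)) (.B 2 212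 (.L 3 3584) (.L 3 3589))) (.B 1 111 (.L 3 184) (.B 2 201 (.L 7 2084736) .R)))))) (.B 1 123 (.L 3 47) (.L 4 4111))) (.B 2 213 (.L 3 3584) (.L 3 3589))) (.B 1 112 (.L 3 248) (.B 2 203 (.B 1 118 (.B 1 116 (.L 3 496) (.L 3 464)) (.L 3 1472)) (.B 0 38 (.B 1 132 (.B 2 220 (.B 0 37 (.B 1 130 (.B 2 219 .R (.L 3 7)) (.B 2 214 (.L 4 61441) (.L 3 3589))) (.B 1 113 (.L 3 248) (.B 2 204 (.B 1 118 (.L 3 472) (.L 3 1472)) .R))) (.L 3 7)) (.B 2 215 (.L 3 3585) (.L 3 3589))) (.B 1 115 (.L 3 248) (.B 2 205 (.B 1 120 (.L 3 464) (.L 3 1472)) (.B 0 39 (.B 1 133 (.B 2 220 .R (.B 1 128 (.L 3 55) (.L 5 127))) (.B 2 216 (.L 3 3585) (.L 3 3589))) (.B 1 116 (.L 3 248) (.B 2 206 (.B 1 121 (.L 3 464) (.L 3 1472)) .R))))))))) (.L 7 1791)) (.B 2 217 (.L 3 3587) (.L 4 40975))) (.B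 1 117 (.L 3 248) (.B 2 207 (.B 1 124 (.L 3 464) (.L 3 1472)) (.B 0 44 (.B 1 139 (.B 2 225 (.B 0 42 (.B 1 137 (.B 2 223 (.B 0 41 (.B 1 135 (.B 2 222 .R (.L 3 15)) (.B 2 218 (.B 2 215 (.L 3 3585) (.B 2 217 (.L 3 3585) (.L 5 1015831))) (.L 3 2055))) (.B 1 119 (.L 3 312) (.B 2 209 (.B 1 124 (.B 1 122 (.L 3 480) (.B 1 123 (.L 3 480) (.L 3 456))) (.L 3 1984)) .R))) (.L 3 15)) (.B 2 219 (.L 3 3588) (.L 3 2055))) (.B 1 120 (.L 4 2032) (.B 2 210 (.B 1 125 (.L 4 3888) (.L 3 1984)) (.B 0 43 (.B 1 138 (.B 2 224 .R (.L 3 23)) (.L 4 61451)) (.B 1 121 (.L 3 312) (.B 2 211 (.B 1 126 (.L 3 480) (.L 3 960)) .R)))))) (.L 3 23)) (.B 2 220 (.L 3 3586) (.L 3 3591))) (.B 1 123 (.L 3 376) (.B 2 212 (.B 1 128 (.L 3 456) (.L 3 1984)) (.B 0 46 (.B 1 141 (.B 2 226 (.B 0 45 (.B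 1 140 .R (.B 2 221 (.L 3 3586) (.L 3 3591))) (.B 1 124 (.L 3 312) (.B 2 213 (.B 1 130 (.L 3 448) (.L 3 2496)) .R))) (.B 1 136 (.L 3 62) (.L 3 23))) (.B 2 222 (.L 3 3586) (.L 3 3591))) (.B 1 126 (.L 3 376) (.B 2 214 (.B 1 131 (.L 3 472) (.L 3 1472)) (.B 0 47 (.B 1 142 (.B 2 227 .R (.L 3 23)) (.B 2 223 (.L 3 3589) (.L 3 1543))) (.B 1 127 (.L 3 376) (.B 2 215 (.B 1 133 (.B 1 131 (.L 3 472) (.B 1 132 (.L 3 472) (.L 3 960))) (.L 3 2496)) .R)))))))))))) (.L 3 23)) (.B 2 224 (.L 4 61448) (.L 3 1543))) (.B 1 129 (.B 2 218 (.L 3 472) (.L 3 440)) (.B 2 215 (.B 1 136 (.L 3 960) (.L 3 2496)) (.B 0 56 (.B 1 151 (.B 2 234 (.B 0 52 (.B 1 147 (.B 2 231 (.B 0 50 (.B 1 145 (.B 2 230 (.B 0 49 (.B 1 144 (.B 2 229 .R (.L 3 31)) (.B 2 224 (.L 3 3587) (.L 3 3079))) (.B 1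 130 (.L 3 440) (.B 2 216 (.L 3 1472) .R))) (.L 3 31)) (.B 2 225 (.L 3 3587) (.L 3 3079))) (.B 1 132 (.L 3 440) (.B 2 217 (.L 4 24320) (.B 0 51 (.B 1 146 (.B 2 230 .R (.L 3 31)) (.B 2 226 (.L 3 3590) (.L 3 1031))) (.B 1 133 (.L 3 440) (.B 2 218 (.L 8 1509883904) .R)))))) (.L 3 31)) (.B 2 227 (.L 3 3590) (.L 3 1031))) (.B 1 134 (.L 3 504) (.B 2 219 (.B 1 139 (.L 3 1472) (.L 3 3008)) (.B 0 54 (.B 1 149 (.B 2 233 (.B 0 53 (.B 1 148 (.B 2 232 .R (.L 3 31)) (.L 6 15204415)) (.B 1 135 (.L 3 440) (.B 2 220 (.B 1 139 (.L 4 3904) (.B 1 142 (.L 3 1984) (.L 3 3520))) .R))) (.L 3 39)) (.L 5 917535)) (.B 1 136 (.L 3 504) (.B 2 220 (.L 3 1984) (.B 0 55 (.B 1 150 (.B 2 233 .R (.L 3 39)) (.L 3 3079)) (.B 1 137 (.L 3 496) (.B 2 221 (.L 4 32512) .R))))))))) (.L 3 39))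 (.B 2 230 (.L 3 3591) (.L 3 519))) (.B 1 138 (.L 3 504) (.B 2 222 (.B 1 143 (.L 3 1984) (.L 3 3520)) (.B 0 60 (.B 1 154 (.B 2 237 (.B 0 58 (.B 1 152 (.B 2 236 (.B 0 57 (.B 1 151 (.B 2 235 .R (.L 3 39)) (.B 2 230 (.L 3 3588) (.B 2 232 (.B 2 231 (.L 5 753695) (.L 3 519)) (.L 3 519)))) (.B 1 139 (.L 3 504) (.B 2 223 (.B 1 143 (.L 3 456) (.L 3 2496)) .R))) (.L 3 39)) (.B 2 231 (.L 4 61450) (.L 3 2055))) (.B 1 140 (.L 3 496) (.B 2 223 (.L 3 2496) (.B 0 59 (.B 1 153 (.B 2 236 .R (.L 3 39)) (.B 2 232 (.L 3 3079) (.L 3 519))) (.B 1 141 (.L 3 496) (.B 2 224 (.L 3 2496) .R)))))) (.L 3 47)) (.B 2 233 (.L 3 3079) (.L 3 519))) (.B 1 142 (.B 2 228 (.L 3 496) (.L 4 1520)) (.B 2 225 (.B 1 146 (.L 3 1984) (.L 3 4032)) (.B 0 62 (.B 1 155 (.B 2 238 (.B 0 61 .R .R) (.L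 3 47)) (.B 2 234 (.L 4 49167) (.L 4 4111))) (.B 1 143 (.L 3 496) (.B 2 226 (.L 4 44800) (.B 0 63 (.B 1 156 (.B 2 239 .R (.L 3 47)) (.B 2 235 (.L 3 2567) (.L 3 7))) (.B 1 144 (.L 3 496) (.B 2 227 (.B 1 148 (.L 3 448) (.L 3 3008)) .R))))))))))))))) (.L 3 47))) (.B 1 197 (.B 0 48 (.B 2 114 (.B 2 85 (.B 2 63 (.L 3 63) (.L 3 58)) (.B 2 106 (.L 3 504) (.L 3 480))) (.B 2 150 (.L 3 960) (.B 2 177 (.L 3 3840) (.B 2 197 (.L 3 3776) (.L 3 3079))))) (.B 2 124 (.B 2 93 (.B 2 69 (.B 2 51 (.L 3 62) (.L 3 58)) (.L 3 248)) (.L 3 472)) (.B 2 157 (.L 3 960) (.B 2 182 (.L 3 3904) (.B 2 201 (.L 3 3776) (.B 2 235 (.L 3 3589) (.L 3 1031))))))) (.B 1 240 (.B 2 107 (.B 1 222 (.B 1 211 (.B 1 205 (.B 2 80 (.B 2 60 (.L 3 15) (.L 3 59)) (.L 3 184)) (.B 1 209 (.B 1 207 (.B 1 206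 (.B 0 40 (.B 0 34 (.B 0 33 (.B 2 80 (.B 2 60 (.L 3 23) (.L 3 31)) (.L 3 60)) (.B 2 80 (.B 2 60 (.L 3 23) (.L 3 31)) (.L 3 60))) (.B 2 80 (.B 2 60 (.L 3 23) (.L 3 31)) (.L 3 60))) (.B 2 80 (.B 2 60 (.L 3 23) (.L 3 31)) (.L 3 58))) (.B 0 40 (.B 2 80 (.B 2 60 (.L 3 23) (.L 3 31)) (.L 3 60)) (.B 2 80 (.B 2 60 (.L 3 23) (.L 3 31)) (.L 3 58)))) (.B 1 208 (.B 0 40 (.B 2 80 (.B 2 60 (.L 3 23) (.L 3 31)) (.L 3 60)) (.B 2 80 (.B 2 60 (.L 3 23) (.L 3 31)) (.L 3 58))) (.B 0 40 (.B 2 80 (.B 2 60 (.L 3 31) (.L 3 31)) (.L 3 60)) (.B 2 80 (.B 2 60 (.L 3 31) (.L 3 31)) (.L 3 58))))) (.B 1 210 (.B 0 40 (.B 2 80 (.B 2 60 (.L 3 31) (.L 3 31)) (.L 3 60)) (.B 2 80 (.B 2 60 (.L 3 31) (.L 3 31)) (.L 3 58))) (.B 0 40 (.B 0 37 (.B 0 35 (.B 0 34 (.B 0 33 (.B 2 80 (.B 2 60 (.L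 3 31) (.L 3 31)) (.L 3 60)) (.B 2 80 (.B 2 60 (.L 3 31) (.L 3 31)) (.L 3 60))) (.B 2 80 (.B 2 60 (.L 3 31) (.L 3 31)) (.L 3 60))) (.B 0 36 (.B 2 80 (.B 2 60 (.L 3 31) (.L 3 31)) (.L 3 60)) (.B 2 80 (.B 2 60 (.L 3 31) (.L 3 31)) (.L 3 60)))) (.B 0 38 (.B 2 80 (.B 2 60 (.L 3 31) (.L 3 31)) (.L 3 60)) (.B 2 80 (.B 2 60 (.L 3 31) (.L 3 31)) (.L 3 60)))) (.B 2 80 (.B 2 60 (.L 3 31) (.L 3 31)) (.L 3 58)))))) (.B 1 217 (.B 1 215 (.B 1 213 (.B 1 212 (.B 0 40 (.B 2 80 (.B 2 60 (.L 3 31) (.L 3 31)) (.L 3 60)) (.B 2 80 (.B 2 60 (.L 3 31) (.L 3 31)) (.L 3 58))) (.B 0 40 (.B 2 80 (.B 2 60 (.L 3 31) (.L 3 31)) (.L 3 60)) (.B 2 80 (.B 2 60 (.L 3 31) (.L 3 31)) (.L 3 58)))) (.B 1 214 (.B 0 40 (.B 0 38 (.B 0 36 (.B 0 35 (.B 0 34 (.B 0 33 (.B 2 80 (.B 2 60 (.L 3 39)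 (.L 3 31)) (.L 3 60)) (.B 2 80 (.B 2 60 (.L 3 39) (.L 3 31)) (.L 3 60))) (.B 2 80 (.B 2 60 (.L 3 39) (.L 3 31)) (.L 3 60))) (.B 2 80 (.B 2 60 (.L 3 39) (.L 3 31)) (.L 3 60))) (.B 0 37 (.B 2 80 (.B 2 60 (.L 3 39) (.L 3 31)) (.L 3 60)) (.B 2 80 (.B 2 60 (.L 3 39) (.L 3 31)) (.L 3 60)))) (.B 0 39 (.B 2 80 (.B 2 60 (.L 3 39) (.L 3 39)) (.L 3 60)) (.B 2 80 (.B 2 60 (.L 3 39) (.L 3 39)) (.L 3 60)))) (.B 2 80 (.B 2 60 (.L 3 39) (.L 3 39)) (.L 3 58))) (.B 0 40 (.B 2 80 (.B 2 60 (.L 3 39) (.L 3 31)) (.L 3 62)) (.B 0 46 (.B 2 80 (.B 2 60 (.L 3 39) (.L 3 39)) (.L 3 60)) (.B 2 80 (.B 2 60 (.L 3 39) (.L 3 39)) (.L 3 58)))))) (.B 1 216 (.B 0 41 (.B 2 80 (.B 2 60 (.L 3 39) (.L 3 39)) (.L 3 62)) (.B 0 47 (.B 2 80 (.B 2 60 (.L 3 39) (.L 3 39)) (.L 3 60)) (.B 2 80 (.B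 2 60 (.L 3 39) (.L 3 39)) (.L 3 60)))) (.B 0 42 (.B 2 80 (.B 0 39 (.B 0 37 (.B 0 35 (.B 2 60 (.L 3 39) (.L 3 31)) (.B 0 36 (.B 2 60 (.L 3 39) (.L 3 31)) (.B 2 60 (.L 3 39) (.L 3 31)))) (.B 0 38 (.B 2 60 (.L 3 39) (.L 3 31)) (.B 2 60 (.L 3 39) (.L 3 31)))) (.B 0 41 (.B 0 40 (.B 2 60 (.L 3 39) (.L 3 31)) (.B 2 60 (.L 3 39) (.L 3 31))) (.B 2 60 (.L 3 39) (.L 3 31)))) (.L 3 62)) (.B 0 48 (.B 2 80 (.B 2 60 (.L 3 39) (.L 3 39)) (.L 3 60)) (.B 2 80 (.B 2 60 (.L 3 39) (.L 3 39)) (.L 3 60)))))) (.B 1 219 (.B 1 218 (.B 0 44 (.B 2 80 (.B 0 41 (.B 0 38 (.B 0 36 (.B 2 60 (.L 3 47) (.L 3 31)) (.B 0 37 (.B 2 60 (.L 3 47) (.L 3 31)) (.B 2 60 (.L 3 47) (.L 3 31)))) (.B 0 40 (.B 0 39 (.B 2 60 (.L 3 47) (.L 3 31)) (.B 2 60 (.L 3 47) (.L 3 31))) (.B 2 60 (.L 3 47) (.L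 3 31)))) (.B 0 43 (.B 0 42 (.B 2 60 (.L 3 47) (.L 3 31)) (.B 2 60 (.L 3 47) (.L 3 31))) (.B 2 60 (.L 3 47) (.L 3 47)))) (.L 3 61)) (.B 0 49 (.B 2 80 (.B 2 60 (.L 3 47) (.L 3 47)) (.L 3 60)) (.B 2 80 (.B 2 60 (.L 3 47) (.L 3 47)) (.L 3 60)))) (.B 0 45 (.B 0 41 (.B 0 38 (.B 0 36 (.L 6 3932223) (.B 0 37 (.B 2 80 (.B 2 60 (.L 3 47) (.L 3 31)) (.L 3 60)) (.B 2 80 (.B 2 60 (.L 3 47) (.L 3 31)) (.L 3 60)))) (.B 0 40 (.B 0 39 (.B 2 80 (.B 2 60 (.L 3 47) (.L 3 31)) (.L 3 60)) (.B 2 80 (.B 2 60 (.L 3 47) (.L 3 31)) (.L 3 60))) (.B 2 80 (.B 2 60 (.L 3 47) (.L 3 31)) (.L 3 60)))) (.B 0 44 (.B 0 43 (.B 0 42 (.B 2 80 (.B 2 60 (.L 3 47) (.L 3 31)) (.L 3 60)) (.B 2 80 (.B 2 60 (.L 3 47) (.L 3 31)) (.L 3 60))) (.B 2 80 (.B 2 60 (.L 3 47) (.L 3 31)) (.L 3 60))) (.B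 2 80 (.B 2 60 (.L 3 47) (.L 3 31)) (.L 3 60)))) (.B 0 50 (.B 2 80 (.B 2 60 (.L 3 47) (.L 3 47)) (.L 3 60)) (.B 2 80 (.B 2 60 (.L 3 47) (.L 3 47)) (.L 3 60))))) (.B 1 220 (.B 0 46 (.B 0 42 (.B 0 39 (.B 0 37 (.B 2 80 (.B 2 60 (.L 3 47) (.L 3 31)) (.L 3 62)) (.B 0 38 (.B 2 80 (.B 2 60 (.L 3 47) (.L 3 31)) (.L 3 60)) (.B 2 80 (.B 2 60 (.L 3 47) (.L 3 31)) (.L 3 60)))) (.B 0 41 (.B 0 40 (.B 2 80 (.B 2 60 (.L 3 47) (.L 3 31)) (.L 3 60)) (.B 2 80 (.B 2 60 (.L 3 47) (.L 3 31)) (.L 3 60))) (.B 2 80 (.B 2 60 (.L 3 47) (.L 3 31)) (.L 3 60)))) (.B 2 80 (.B 2 60 (.L 3 47) (.L 3 31)) (.L 3 60))) (.B 0 51 (.B 2 80 (.B 2 60 (.L 3 47) (.L 3 47)) (.L 3 60)) (.B 2 80 (.B 2 60 (.L 3 47) (.L 3 47)) (.L 3 60)))) (.B 1 221 (.B 0 48 (.B 0 44 (.B 0 41 (.B 0 38 (.L 6 1023)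 (.B 0 40 (.B 0 39 (.B 2 80 (.B 2 60 (.L 3 55) (.L 3 31)) (.L 3 60)) (.B 2 80 (.B 2 60 (.L 3 55) (.L 3 31)) (.L 3 60))) (.B 2 80 (.B 2 60 (.L 3 55) (.L 3 31)) (.L 3 60)))) (.B 0 43 (.B 0 42 (.B 2 80 (.B 2 60 (.L 3 55) (.L 3 31)) (.L 3 60)) (.B 2 80 (.B 2 60 (.L 3 55) (.L 3 31)) (.L 3 60))) (.B 2 80 (.B 2 60 (.L 3 55) (.L 3 31)) (.L 3 60)))) (.B 0 47 (.B 0 46 (.B 2 80 (.B 2 60 (.L 3 55) (.L 3 31)) (.L 3 60)) (.B 2 80 (.B 2 60 (.L 3 55) (.L 3 55)) (.L 3 60))) (.B 2 80 (.B 2 60 (.L 3 55) (.L 3 55)) (.L 3 60)))) (.B 2 80 (.B 2 60 (.L 3 55) (.L 3 55)) (.L 3 60))) (.B 0 48 (.B 0 44 (.B 0 41 (.B 0 38 (.L 3 23) (.B 0 40 (.B 2 80 (.B 2 60 (.L 3 55) (.L 3 31)) (.L 3 60)) (.B 2 80 (.B 2 60 (.L 3 55) (.L 3 31)) (.L 3 60)))) (.B 0 43 (.B 0 42 (.B 2 80 (.B 2 60 (.L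 3 55) (.L 3 31)) (.L 3 60)) (.B 2 80 (.B 2 60 (.L 3 55) (.L 3 31)) (.L 3 60))) (.B 2 80 (.B 2 60 (.L 3 55) (.L 3 31)) (.L 3 60)))) (.B 0 47 (.B 0 46 (.B 2 80 (.B 2 60 (.L 3 55) (.L 3 31)) (.L 3 60)) (.B 2 80 (.B 2 60 (.L 3 55) (.L 3 55)) (.L 3 60))) (.B 2 80 (.B 2 60 (.L 3 55) (.L 3 55)) (.L 3 60)))) (.B 0 52 (.B 0 49 (.B 2 80 (.B 2 60 (.L 3 55) (.L 3 55)) (.L 3 60)) (.B 2 80 (.B 2 60 (.L 3 55) (.L 3 55)) (.L 3 60))) (.B 2 80 (.B 2 60 (.L 3 55) (.L 3 55)) (.L 3 60))))))))) (.B 1 231 (.B 1 225 (.B 1 223 (.B 0 49 (.B 0 44 (.B 0 41 (.B 2 80 (.B 2 60 (.L 3 55) (.L 3 31)) (.L 3 62)) (.B 0 43 (.B 0 42 (.B 2 80 (.B 2 60 (.L 3 55) (.L 3 31)) (.L 3 60)) (.B 2 80 (.B 2 60 (.L 3 55) (.L 3 31)) (.L 3 60))) (.B 2 80 (.B 2 60 (.L 3 55) (.L 3 31)) (.L 3 60)))) (.B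 2 80 (.B 2 60 (.L 3 55) (.L 3 55)) (.L 3 60))) (.B 0 53 (.B 0 50 (.B 2 80 (.B 2 60 (.L 3 55) (.L 3 55)) (.L 3 60)) (.B 0 51 (.B 2 80 (.B 2 60 (.L 3 55) (.L 3 55)) (.L 3 60)) (.B 2 80 (.B 2 60 (.L 3 55) (.L 3 55)) (.L 3 60)))) (.B 2 80 (.B 2 60 (.L 3 55) (.L 3 55)) (.L 3 60)))) (.B 1 224 (.B 0 50 (.B 0 45 (.B 0 41 (.L 3 23) (.B 0 44 (.B 0 43 (.B 0 42 (.L 6 1023) (.B 2 80 (.B 2 60 (.L 3 63) (.L 3 31)) (.L 3 60))) (.B 2 80 (.B 2 60 (.L 3 63) (.L 3 31)) (.L 3 60))) (.B 2 80 (.B 2 60 (.L 3 63) (.L 3 31)) (.L 3 60)))) (.B 2 80 (.B 2 60 (.L 3 63) (.L 3 63)) (.L 3 60))) (.B 0 54 (.B 0 51 (.B 2 80 (.B 2 60 (.L 3 63) (.L 3 63)) (.L 3 60)) (.B 0 52 (.B 2 80 (.B 2 60 (.L 3 63) (.L 3 63)) (.L 3 60)) (.B 2 80 (.B 2 60 (.L 3 63) (.L 3 63)) (.L 3 60)))) (.B 2 80 (.B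 2 60 (.L 3 63) (.L 3 63)) (.L 3 60)))) (.B 0 51 (.B 0 46 (.B 0 42 (.L 3 23) (.B 2 80 (.B 2 60 (.L 3 63) (.L 3 31)) (.L 3 60))) (.B 2 80 (.B 2 60 (.L 3 63) (.L 3 63)) (.L 3 60))) (.B 0 55 (.B 0 52 (.B 2 80 (.B 2 60 (.L 3 63) (.L 3 63)) (.L 3 60)) (.B 0 53 (.B 2 80 (.B 2 60 (.L 3 63) (.L 3 63)) (.L 3 60)) (.B 2 80 (.B 2 60 (.L 3 63) (.L 3 63)) (.L 3 60)))) (.B 2 80 (.B 2 60 (.L 3 63) (.L 3 63)) (.L 3 60)))))) (.B 1 227 (.B 1 226 (.B 0 53 (.B 0 47 (.B 0 43 (.L 3 23) (.B 0 46 (.B 2 80 (.B 2 60 (.L 3 63) (.L 3 31)) (.L 3 60)) (.B 2 80 (.B 2 60 (.L 3 63) (.L 3 31)) (.L 3 60)))) (.B 2 80 (.B 2 60 (.L 3 63) (.L 3 63)) (.L 3 60))) (.B 2 80 (.B 0 56 (.B 0 54 (.B 2 60 (.L 3 63) (.L 3 63)) (.B 2 60 (.L 3 63) (.L 3 63))) (.B 2 60 (.L 3 63) (.L 3 63))) (.L 3 60)))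 (.B 0 54 (.B 0 48 (.B 0 44 (.L 3 23) (.B 0 47 (.B 0 46 (.B 2 80 (.B 2 60 (.L 3 63) (.L 3 31)) (.L 3 60)) (.B 2 80 (.B 2 60 (.L 3 63) (.L 3 31)) (.L 3 60))) (.B 2 80 (.B 2 60 (.L 3 63) (.L 3 62)) (.L 3 60)))) (.B 0 52 (.B 0 51 (.B 0 50 (.B 0 49 (.B 2 80 (.B 2 60 (.L 3 63) (.L 3 62)) (.L 3 60)) (.B 2 80 (.B 2 60 (.L 3 63) (.L 3 62)) (.L 3 60))) (.B 2 80 (.B 2 60 (.L 3 63) (.L 3 62)) (.L 3 60))) (.B 2 80 (.B 2 60 (.L 3 63) (.L 3 62)) (.L 3 60))) (.B 0 53 (.B 2 80 (.B 2 60 (.L 3 63) (.L 3 62)) (.L 3 60)) (.B 2 80 (.B 2 60 (.L 3 63) (.L 3 62)) (.L 3 60))))) (.B 2 80 (.B 0 57 (.B 0 55 (.B 2 60 (.L 3 63) (.L 3 62)) (.B 0 56 (.B 2 60 (.L 3 63) (.L 3 62)) (.B 2 60 (.L 3 63) (.L 3 62)))) (.B 2 60 (.L 3 63) (.L 3 62))) (.L 3 60)))) (.B 1 229 (.B 1 228 (.B 0 54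 (.B 0 48 (.B 0 44 (.L 3 23) (.B 0 47 (.B 2 80 (.B 2 60 (.L 3 63) (.L 3 31)) (.L 3 60)) (.B 2 80 (.B 2 60 (.L 3 63) (.L 3 62)) (.L 3 60)))) (.B 0 52 (.B 0 51 (.B 0 50 (.B 0 49 (.B 2 80 (.B 2 60 (.L 3 63) (.L 3 62)) (.L 3 60)) (.B 2 80 (.B 2 60 (.L 3 63) (.L 3 62)) (.L 3 60))) (.B 2 80 (.B 2 60 (.L 3 63) (.L 3 62)) (.L 3 60))) (.B 2 80 (.B 2 60 (.L 3 63) (.L 3 62)) (.L 3 60))) (.B 0 53 (.B 2 80 (.B 2 60 (.L 3 63) (.L 3 62)) (.L 3 60)) (.B 2 80 (.B 2 60 (.L 3 63) (.L 3 62)) (.L 3 60))))) (.B 2 80 (.B 0 57 (.B 0 55 (.B 2 60 (.L 3 63) (.L 3 62)) (.B 0 56 (.B 2 60 (.L 3 63) (.L 3 62)) (.B 2 60 (.L 3 63) (.L 3 62)))) (.B 2 60 (.L 3 63) (.L 3 62))) (.L 3 60))) (.B 0 56 (.B 0 50 (.B 0 45 (.L 3 23) (.B 0 48 (.B 2 80 (.B 2 60 (.L 3 63) (.L 3 31)) (.L 3 60)) (.B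 0 49 (.B 2 80 (.B 2 60 (.L 3 63) (.L 3 62)) (.L 3 60)) (.B 2 80 (.B 2 60 (.L 3 63) (.L 3 62)) (.L 3 60))))) (.B 2 80 (.B 2 60 (.L 3 63) (.L 3 62)) (.L 3 60))) (.B 2 80 (.B 2 60 (.L 3 63) (.L 3 62)) (.L 3 60)))) (.B 1 230 (.B 0 56 (.B 0 50 (.B 0 45 (.L 3 23) (.B 0 48 (.L 3 23) (.B 0 49 (.L 7 4095) (.B 2 80 (.B 2 60 (.L 3 63) (.L 3 61)) (.L 3 60))))) (.B 0 54 (.B 0 53 (.B 0 52 (.B 0 51 (.B 2 80 (.B 2 60 (.L 3 63) (.L 3 61)) (.L 3 60)) (.B 2 80 (.B 2 60 (.L 3 63) (.L 3 61)) (.L 3 60))) (.B 2 80 (.B 2 60 (.L 3 63) (.L 3 61)) (.L 3 60))) (.B 2 80 (.B 2 60 (.L 3 63) (.L 3 61)) (.L 3 60))) (.B 0 55 (.B 2 80 (.B 2 60 (.L 3 63) (.L 3 61)) (.L 3 60)) (.B 2 80 (.B 2 60 (.L 3 63) (.L 3 61)) (.L 3 60))))) (.B 2 80 (.B 2 60 (.L 3 63) (.L 3 61)) (.L 3 60))) (.B 0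 56 (.B 0 50 (.L 3 23) (.B 0 54 (.B 0 53 (.B 0 52 (.B 0 51 (.B 2 80 (.B 2 60 (.L 3 63) (.L 3 61)) (.L 3 60)) (.B 2 80 (.B 2 60 (.L 3 63) (.L 3 61)) (.L 3 60))) (.B 2 80 (.B 2 60 (.L 3 63) (.L 3 61)) (.L 3 60))) (.B 2 80 (.B 2 60 (.L 3 63) (.L 3 61)) (.L 3 60))) (.B 0 55 (.B 2 80 (.B 2 60 (.L 3 63) (.L 3 61)) (.L 3 60)) (.B 2 80 (.B 2 60 (.L 3 63) (.L 3 61)) (.L 3 60))))) (.B 0 59 (.B 0 58 (.B 0 57 (.B 2 80 (.B 2 60 (.L 3 63) (.L 3 61)) (.L 3 60)) (.B 2 80 (.B 2 60 (.L 3 63) (.L 3 61)) (.L 3 60))) (.B 2 80 (.B 2 60 (.L 3 63) (.L 3 61)) (.L 3 60))) (.B 0 61 (.B 0 60 (.B 2 80 (.B 2 60 (.L 3 63) (.L 3 61)) (.L 3 60)) (.B 2 80 (.B 2 60 (.L 3 63) (.L 3 61)) (.L 3 60))) (.B 2 80 (.B 2 60 (.L 3 63) (.L 3 61)) (.L 3 60))))))))) (.B 1 234 (.B 1 232 (.B 0 56 (.B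 0 50 (.L 3 23) (.B 0 54 (.B 0 53 (.B 0 52 (.B 2 80 (.B 2 60 (.L 3 63) (.L 3 61)) (.L 3 60)) (.B 2 80 (.B 2 60 (.L 3 63) (.L 3 61)) (.L 3 60))) (.B 2 80 (.B 2 60 (.L 3 63) (.L 3 61)) (.L 3 60))) (.B 0 55 (.B 2 80 (.B 2 60 (.L 3 63) (.L 3 61)) (.L 3 60)) (.B 2 80 (.B 2 60 (.L 3 63) (.L 3 61)) (.L 3 60))))) (.B 2 80 (.B 2 60 (.L 3 63) (.L 3 61)) (.L 3 60))) (.B 1 233 (.B 0 56 (.B 0 50 (.L 3 23) (.B 0 54 (.B 0 53 (.B 2 80 (.B 2 60 (.L 3 63) (.L 3 60)) (.L 3 60)) (.B 2 80 (.B 2 60 (.L 3 63) (.L 3 60)) (.L 3 60))) (.B 0 55 (.B 2 80 (.B 2 60 (.L 3 63) (.L 3 60)) (.L 3 60)) (.B 2 80 (.B 2 60 (.L 3 63) (.L 3 60)) (.L 3 60))))) (.B 2 80 (.B 2 60 (.L 3 63) (.L 3 60)) (.L 3 60))) (.B 0 56 (.B 0 50 (.L 3 47) (.B 0 54 (.L 3 47) (.B 0 55 (.B 2 80 (.B 2 60 (.L 3 63)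 (.L 3 60)) (.L 3 60)) (.B 2 80 (.B 2 60 (.L 3 63) (.L 3 60)) (.L 3 60))))) (.B 2 80 (.B 2 60 (.L 3 63) (.L 3 60)) (.L 3 60))))) (.B 1 236 (.B 1 235 (.B 0 56 (.L 6 2879) (.B 2 80 (.B 2 60 (.L 3 63) (.L 3 60)) (.L 3 60))) (.B 0 56 (.L 3 47) (.B 2 80 (.B 2 60 (.L 3 63) (.L 3 60)) (.L 3 60)))) (.B 1 237 (.B 0 56 (.L 3 47) (.B 2 80 (.B 2 60 (.L 3 63) (.L 3 59)) (.L 3 60))) (.B 1 238 (.B 0 56 (.L 3 47) (.B 2 80 (.B 2 60 (.L 3 63) (.L 3 59)) (.L 3 60))) (.B 0 56 (.L 3 47) (.B 2 80 (.B 2 60 (.L 3 63) (.L 3 59)) (.L 3 60))))))))) (.B 2 157 (.B 0 48 (.B 1 228 (.B 2 143 (.B 0 40 (.B 1 221 (.B 2 134 (.B 0 36 (.B 1 217 (.B 2 129 (.B 0 34 (.B 1 215 (.B 2 126 (.B 0 33 (.B 1 214 (.B 2 124 .R (.B 1 209 (.L 3 3648) (.L 3 3588))) (.L 3 1031)) (.B 1 199 (.B 2 113 (.L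 3 480) (.L 3 960)) (.B 2 108 (.L 3 184) .R))) (.L 4 61446)) (.L 3 519)) (.B 1 200 (.B 2 114 (.L 3 480) (.L 3 960)) (.B 2 110 (.L 5 10208) (.B 0 35 (.B 1 216 (.B 2 127 .R (.B 1 212 (.L 3 3584) (.L 3 3588))) (.L 3 519)) (.B 1 201 (.B 2 115 (.L 3 472) (.L 3 960)) (.B 2 111 (.L 3 184) .R)))))) (.B 1 212 (.L 3 3584) (.L 3 3589))) (.B 2 126 (.B 2 121 (.L 3 47) (.L 6 1310783)) (.L 4 49167))) (.B 1 203 (.B 2 117 (.B 2 114 (.L 3 496) (.L 5 32096)) (.L 4 20224)) (.B 2 112 (.L 3 248) (.B 0 38 (.B 1 220 (.B 2 132 (.B 0 37 (.B 1 219 (.B 2 130 .R (.B 1 214 (.L 4 61441) (.L 3 3589))) (.L 3 7)) (.B 1 204 (.B 2 118 (.L 3 472) (.L 3 1472)) (.B 2 113 (.L 3 248) .R))) (.L 9 68585259294)) (.L 3 7)) (.B 1 205 (.B 2 119 (.L 3 472) (.L 3 1472)) (.B 2 115 (.L 3 248) (.B 0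 39 (.B 1 220 (.B 2 133 .R (.B 1 216 (.L 3 3585) (.L 3 3589))) (.B 2 129 (.L 3 55) (.L 4 31))) (.B 1 206 (.B 2 120 (.L 3 488) (.L 3 448)) (.B 2 116 (.L 3 248) .R))))))))) (.B 1 215 (.L 3 3585) (.L 4 61452))) (.B 2 132 (.B 2 125 (.L 3 55) (.L 3 15)) (.L 3 2055))) (.B 1 207 (.B 2 121 (.L 3 480) (.L 3 960)) (.B 2 117 (.L 3 312) (.B 0 44 (.B 1 225 (.B 2 139 (.B 0 42 (.B 1 223 (.B 2 137 (.B 0 41 (.B 1 222 (.B 2 135 .R (.B 1 218 (.B 1 215 (.L 3 3585) (.B 1 217 (.L 3 3585) (.L 5 1015831))) (.L 3 2055))) (.L 3 15)) (.B 1 209 (.B 2 123 (.L 3 480) (.B 2 127 (.B 2 124 (.L 3 456) (.L 3 1984)) (.L 3 1984))) (.B 2 119 (.L 3 312) .R))) (.L 4 61450)) (.L 3 15)) (.B 1 210 (.B 2 125 (.L 4 3888) (.L 3 1984)) (.B 2 120 (.L 3 312) (.B 0 43 (.B 1 224 (.B 2 138 .R (.L 3 3589))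 (.L 3 23)) (.B 1 211 (.B 2 126 (.L 3 480) (.L 3 960)) (.B 2 121 (.L 3 312) .R)))))) (.B 1 220 (.L 3 3586) (.L 3 3591))) (.L 4 95)) (.B 1 212 (.B 2 128 (.L 4 3888) (.L 3 1984)) (.B 2 123 (.L 3 312) (.B 0 46 (.B 1 226 (.B 2 141 (.B 0 45 (.B 2 140 .R (.B 1 221 (.L 3 3586) (.L 3 3591))) (.B 1 213 (.B 2 130 (.L 4 3856) (.L 3 2496)) (.B 2 124 (.L 3 376) .R))) (.B 1 222 (.L 3 3586) (.L 3 3591))) (.B 2 138 (.L 3 62) (.L 3 23))) (.B 1 214 (.B 2 131 (.L 3 472) (.L 3 1472)) (.B 2 126 (.L 3 376) (.B 0 47 (.B 1 227 (.B 2 142 .R (.B 1 223 (.L 3 3589) (.L 3 1543))) (.L 3 23)) (.B 1 215 (.B 2 133 (.B 2 131 (.L 3 472) (.B 2 132 (.L 3 472) (.L 3 960))) (.L 3 2496)) (.B 2 127 (.L 3 376) .R)))))))))))) (.B 1 220 (.L 3 3586) (.L 3 3591))) (.L 4 95)) (.B 1 215 (.B 2 133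 (.L 3 472) (.L 4 32512)) (.B 2 129 (.L 3 376) (.B 0 56 (.B 1 234 (.B 2 151 (.B 0 52 (.B 1 231 (.B 2 147 (.B 0 50 (.B 1 230 (.B 2 145 (.B 0 49 (.B 1 229 (.B 2 144 .R (.B 1 224 (.L 3 3587) (.L 3 3079))) (.L 3 31)) (.B 1 216 (.L 3 1472) (.B 2 130 (.L 3 376) .R))) (.B 1 225 (.L 3 3587) (.L 3 3079))) (.L 3 31)) (.B 1 217 (.B 2 136 (.L 3 960) (.L 3 3008)) (.B 2 132 (.L 4 3312) (.B 0 51 (.B 1 230 (.B 2 146 .R (.L 7 266338428)) (.L 3 31)) (.B 1 218 (.B 2 137 (.L 3 464) (.L 3 1984)) (.B 2 133 (.L 3 440) .R)))))) (.B 1 227 (.L 3 3590) (.L 3 1031))) (.L 3 31)) (.B 1 219 (.B 2 138 (.L 3 464) (.L 4 32512)) (.B 2 134 (.L 3 440) (.B 0 54 (.B 1 233 (.B 2 149 (.B 0 53 (.B 1 232 (.B 2 148 .R (.L 4 57359)) (.L 3 31)) (.B 1 220 (.B 2 139 (.L 4 3904) (.B 2 142 (.L 3 1984)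 (.L 3 3520))) (.B 2 135 (.L 3 440) .R))) (.L 4 57359)) (.L 3 39)) (.B 1 220 (.L 3 1984) (.B 2 136 (.L 3 440) (.B 0 55 (.B 1 233 (.B 2 150 .R (.L 3 3079)) (.L 3 39)) (.B 1 221 (.L 5 490496) (.B 2 137 (.L 3 504) .R))))))))) (.L 3 3591)) (.L 3 39)) (.B 1 222 (.B 2 142 (.L 3 456) (.L 4 40704)) (.B 2 138 (.L 3 504) (.B 0 60 (.B 1 237 (.B 2 154 (.B 0 58 (.B 1 236 (.B 2 152 (.B 0 57 (.B 1 235 (.B 2 151 .R (.B 1 230 (.L 3 3588) (.B 1 232 (.B 1 231 (.L 5 753695) (.L 3 519)) (.L 3 519)))) (.L 3 39)) (.B 1 223 (.B 2 143 (.L 3 456) (.L 3 2496)) (.B 2 139 (.L 3 504) .R))) (.B 1 231 (.L 4 61450) (.L 4 40975))) (.L 3 39)) (.B 1 223 (.L 3 2496) (.B 2 140 (.L 3 504) (.B 0 59 (.B 1 236 (.B 2 153 .R (.L 8 3355443455)) (.L 3 39)) (.B 1 224 (.L 3 2496) (.B 2 141 (.L 3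 496) .R)))))) (.L 4 49167)) (.L 3 47)) (.B 1 225 (.B 2 146 (.L 3 1984) (.L 3 4032)) (.B 2 142 (.L 3 496) (.B 0 62 (.B 1 238 (.B 2 155 (.B 0 61 .R .R) (.B 1 234 (.L 4 49167) (.L 4 4111))) (.L 3 47)) (.B 1 226 (.L 4 40704) (.B 2 143 (.L 3 496) (.B 0 63 (.B 1 239 (.B 2 156 .R (.L 3 2567)) (.L 3 47)) (.B 1 227 (.B 2 148 (.L 3 448) (.L 3 3008)) (.B 2 144 (.L 3 496) .R))))))))))))))) (.B 1 222 (.B 1 211 (.B 1 205 (.B 2 182 (.L 3 3712) (.B 2 201 (.L 3 3586) (.L 3 7))) (.B 1 209 (.B 1 207 (.B 1 206 (.B 0 40 (.B 0 34 (.B 0 33 (.B 2 182 (.L 3 3590) (.B 2 201 (.L 3 3591) (.L 3 3079))) (.B 2 182 (.L 3 3590) (.B 2 201 (.L 3 3079) (.L 3 3079)))) (.B 2 182 (.L 3 3590) (.B 2 201 (.L 3 2055) (.L 3 2055)))) (.B 2 182 (.L 3 3712) (.B 2 201 (.L 3 1031) (.L 3 7)))) (.B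 0 40 (.B 2 182 (.L 3 3590) (.B 2 201 (.L 3 2055) (.L 3 2055))) (.B 2 182 (.L 3 3712) (.B 2 201 (.L 3 1031) (.L 3 7))))) (.B 1 208 (.B 0 40 (.B 2 182 (.L 3 3590) (.B 2 201 (.L 3 2055) (.L 3 2055))) (.B 2 182 (.L 3 3712) (.B 2 201 (.L 3 1031) (.L 3 7)))) (.B 0 40 (.B 2 182 (.L 3 3590) (.B 2 201 (.L 3 2055) (.L 3 2055))) (.B 2 182 (.L 3 3712) (.B 2 201 (.L 3 1031) (.L 3 7)))))) (.B 1 210 (.B 0 40 (.B 2 182 (.L 3 3590) (.B 2 201 (.L 3 2055) (.L 3 2055))) (.B 2 182 (.L 3 3712) (.B 2 201 (.L 3 1031) (.L 3 7)))) (.B 0 40 (.B 0 37 (.B 0 35 (.B 0 34 (.B 0 33 (.B 2 182 (.L 3 3590) (.B 2 201 (.L 3 3591) (.L 3 3079))) (.B 2 182 (.L 3 3590) (.B 2 201 (.L 3 3079) (.L 3 3079)))) (.B 2 182 (.L 3 3590) (.B 2 201 (.L 3 3079) (.L 3 3079)))) (.B 0 36 (.B 2 182 (.L 3 3590)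 (.B 2 201 (.L 3 3079) (.L 3 3079))) (.B 2 182 (.L 3 3590) (.B 2 201 (.L 3 2567) (.L 3 2567))))) (.B 0 38 (.B 2 182 (.L 3 3590) (.B 2 201 (.L 3 2567) (.L 3 2567))) (.B 2 182 (.L 3 3590) (.B 2 201 (.L 3 2055) (.L 3 2055))))) (.B 2 182 (.L 3 3712) (.B 2 201 (.L 3 1031) (.L 3 7))))))) (.B 1 217 (.B 1 215 (.B 1 213 (.B 1 212 (.B 0 40 (.B 2 182 (.L 3 3590) (.B 2 201 (.L 3 2055) (.L 3 2055))) (.B 2 182 (.L 3 3712) (.B 2 201 (.L 3 1031) (.L 3 7)))) (.B 0 40 (.B 2 182 (.L 3 3590) (.B 2 201 (.L 3 2055) (.L 3 2055))) (.B 2 182 (.L 3 3712) (.B 2 201 (.L 3 1031) (.L 3 7))))) (.B 1 214 (.B 0 40 (.B 0 38 (.B 0 36 (.B 0 35 (.B 0 34 (.B 0 33 (.B 2 182 (.L 3 3590) (.B 2 201 (.L 3 3591) (.L 3 3079))) (.B 2 182 (.L 3 3590) (.B 2 201 (.L 3 3079) (.L 3 3079)))) (.B 2 182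 (.L 3 3590) (.B 2 201 (.L 3 3079) (.L 3 3079)))) (.B 2 182 (.L 3 3590) (.B 2 201 (.L 3 3079) (.L 3 3079)))) (.B 0 37 (.B 2 182 (.L 3 3590) (.B 2 201 (.L 3 2567) (.L 3 2567))) (.B 2 182 (.L 3 3590) (.B 2 201 (.L 3 2567) (.L 3 2567))))) (.B 0 39 (.B 2 182 (.L 3 3590) (.B 2 201 (.L 3 2567) (.L 3 2567))) (.B 2 182 (.L 3 3590) (.B 2 201 (.L 3 2055) (.L 3 2055))))) (.B 2 182 (.L 3 3712) (.B 2 201 (.L 3 1031) (.L 3 7)))) (.B 0 40 (.B 2 182 (.L 3 3590) (.B 2 201 (.L 3 2055) (.L 3 2055))) (.B 0 46 (.B 2 182 (.L 3 3590) (.B 2 201 (.L 3 1543) (.L 3 1543))) (.B 2 182 (.L 3 3712) (.B 2 201 (.L 3 1031) (.L 3 7))))))) (.B 1 216 (.B 0 41 (.B 2 182 (.L 3 3590) (.B 0 38 (.B 0 36 (.B 0 35 (.B 0 34 (.B 2 201 (.L 3 1031) (.L 3 3079)) (.B 2 201 (.L 3 1031) (.L 3 3079)))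 (.B 2 201 (.L 3 1031) (.L 3 3079))) (.B 0 37 (.B 2 201 (.L 3 1031) (.L 3 2567)) (.B 2 201 (.L 3 1031) (.L 3 2567)))) (.B 0 40 (.B 0 39 (.B 2 201 (.L 3 2567) (.L 3 2567)) (.B 2 201 (.L 3 2055) (.L 3 2055))) (.B 2 201 (.L 3 2055) (.L 3 2055))))) (.B 0 47 (.B 2 182 (.L 3 3590) (.B 2 201 (.L 3 1543) (.L 3 1543))) (.B 2 182 (.L 3 3712) (.B 2 201 (.L 3 1031) (.L 3 7))))) (.B 0 42 (.B 2 182 (.L 3 3590) (.B 0 39 (.B 0 37 (.B 0 35 (.B 2 201 (.L 3 1031) (.L 3 3079)) (.B 0 36 (.B 2 201 (.L 3 1031) (.L 3 3079)) (.B 2 201 (.L 3 1031) (.L 3 2567)))) (.B 0 38 (.B 2 201 (.L 3 1031) (.L 3 2567)) (.B 2 201 (.L 3 1031) (.L 3 2567)))) (.B 0 41 (.B 0 40 (.B 2 201 (.L 3 1031) (.L 3 2055)) (.B 2 201 (.L 3 1031) (.L 3 2055))) (.B 2 201 (.L 3 2055) (.L 3 2055))))) (.B 0 48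 (.B 2 182 (.L 3 3590) (.B 2 201 (.L 3 1543) (.L 3 1543))) (.B 2 182 (.L 3 3648) (.B 2 201 (.L 3 1031) (.L 3 7))))))) (.B 1 219 (.B 1 218 (.B 0 44 (.B 0 41 (.B 0 38 (.B 0 36 (.B 2 182 (.L 3 3590) (.B 2 201 (.L 3 1031) (.L 3 3079))) (.B 0 37 (.B 2 182 (.L 3 3590) (.B 2 201 (.L 3 1031) (.L 3 2567))) (.B 2 182 (.L 3 3590) (.B 2 201 (.L 3 1031) (.L 3 2567))))) (.B 0 40 (.B 0 39 (.B 2 182 (.L 3 3590) (.B 2 201 (.L 3 1031) (.L 3 2567))) (.B 2 182 (.L 3 3590) (.B 2 201 (.L 3 1031) (.L 3 2055)))) (.B 2 182 (.L 3 3590) (.B 2 201 (.L 3 1031) (.L 3 2055))))) (.B 0 43 (.B 0 42 (.B 2 182 (.L 3 3590) (.B 2 201 (.L 3 1031) (.L 3 2055))) (.B 2 182 (.L 3 3590) (.B 2 201 (.L 3 2055) (.L 3 2055)))) (.B 2 182 (.L 3 3590) (.B 2 201 (.L 3 1543) (.L 3 1543))))) (.B 0 49 (.B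 2 182 (.L 3 3590) (.B 2 201 (.L 3 1031) (.L 3 1031))) (.B 2 182 (.L 3 3648) (.B 2 201 (.L 3 1031) (.L 3 7))))) (.B 0 45 (.B 0 41 (.B 0 38 (.B 0 36 (.L 6 3932223) (.B 0 37 (.B 2 182 (.L 3 3590) (.B 2 201 (.L 3 1031) (.L 3 2567))) (.B 2 182 (.L 3 3590) (.B 2 201 (.L 3 1031) (.L 3 2567))))) (.B 0 40 (.B 0 39 (.B 2 182 (.L 3 3590) (.B 2 201 (.L 3 1031) (.L 3 2567))) (.B 2 182 (.L 3 3590) (.B 2 201 (.L 3 1031) (.L 3 2055)))) (.B 2 182 (.L 3 3590) (.B 2 201 (.L 3 1031) (.L 3 2055))))) (.B 0 44 (.B 0 43 (.B 0 42 (.B 2 182 (.L 3 3590) (.B 2 201 (.L 3 1031) (.L 3 2055))) (.B 2 182 (.L 3 3590) (.B 2 201 (.L 3 1031) (.L 3 2055)))) (.B 2 182 (.L 3 3590) (.B 2 201 (.L 3 1543) (.L 3 1543)))) (.B 2 182 (.L 3 3590) (.B 2 201 (.L 3 1543) (.L 3 1543))))) (.B 0 50 (.B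 2 182 (.L 3 3590) (.B 2 201 (.L 3 1031) (.L 3 1031))) (.B 2 182 (.L 3 3648) (.B 2 201 (.L 3 1031) (.L 3 7)))))) (.B 1 220 (.B 0 46 (.B 0 42 (.B 0 39 (.B 0 37 (.B 2 182 (.L 3 3590) (.B 2 201 (.L 3 1031) (.L 3 2567))) (.B 0 38 (.B 2 182 (.L 3 3590) (.B 2 201 (.L 3 1031) (.L 3 2567))) (.B 2 182 (.L 3 3590) (.B 2 201 (.L 3 1031) (.L 3 2567))))) (.B 0 41 (.B 0 40 (.B 2 182 (.L 3 3590) (.B 2 201 (.L 3 1031) (.L 3 2055))) (.B 2 182 (.L 3 3590) (.B 2 201 (.L 3 1031) (.L 3 2055)))) (.B 2 182 (.L 3 3590) (.B 2 201 (.L 3 1031) (.L 3 2055))))) (.B 2 182 (.L 3 3590) (.B 2 201 (.L 3 1543) (.L 3 1543)))) (.B 0 51 (.B 2 182 (.L 3 3590) (.B 2 201 (.L 3 1031) (.L 3 1031))) (.B 2 182 (.L 3 3648) (.B 2 201 (.L 3 1031) (.L 3 7))))) (.B 1 221 (.B 0 48 (.B 0 44 (.B 0 41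 (.B 0 38 (.L 6 1023) (.B 0 40 (.B 0 39 (.B 2 182 (.L 3 3590) (.B 2 201 (.L 3 1031) (.L 3 2567))) (.B 2 182 (.L 3 3590) (.B 2 201 (.L 3 1031) (.L 3 2055)))) (.B 2 182 (.L 3 3590) (.B 2 201 (.L 3 1031) (.L 3 2055))))) (.B 0 43 (.B 0 42 (.B 2 182 (.L 3 3590) (.B 2 201 (.L 3 1031) (.L 3 2055))) (.B 2 182 (.L 3 3590) (.B 2 201 (.L 3 1031) (.L 3 2055)))) (.B 2 182 (.L 3 3590) (.B 2 201 (.L 3 1031) (.L 3 1543))))) (.B 0 47 (.B 0 46 (.B 2 182 (.L 3 3590) (.B 2 201 (.L 3 1031) (.L 3 1543))) (.B 2 182 (.L 3 3590) (.B 2 201 (.L 3 1543) (.L 3 1543)))) (.B 2 182 (.L 3 3590) (.B 2 201 (.L 3 1543) (.L 3 1543))))) (.B 2 182 (.L 3 3648) (.B 2 201 (.L 3 1031) (.L 3 7)))) (.B 0 48 (.B 0 44 (.B 0 41 (.B 0 38 (.L 3 23) (.B 0 40 (.B 2 182 (.L 3 3590) (.B 2 201 (.L 3 1031)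 (.L 3 2055))) (.B 2 182 (.L 3 3590) (.B 2 201 (.L 3 1031) (.L 3 2055))))) (.B 0 43 (.B 0 42 (.B 2 182 (.L 3 3590) (.B 2 201 (.L 3 1031) (.L 3 2055))) (.B 2 182 (.L 3 3590) (.B 2 201 (.L 3 1031) (.L 3 2055)))) (.B 2 182 (.L 3 3590) (.B 2 201 (.L 3 1031) (.L 3 1543))))) (.B 0 47 (.B 0 46 (.B 2 182 (.L 3 3590) (.B 2 201 (.L 3 1031) (.L 3 1543))) (.B 2 182 (.L 3 3590) (.B 2 201 (.L 3 1031) (.L 3 1543)))) (.B 2 182 (.L 3 3590) (.B 2 201 (.L 3 1543) (.L 3 1543))))) (.B 0 52 (.B 0 49 (.B 2 182 (.L 3 3590) (.B 2 201 (.L 3 1031) (.L 3 1031))) (.B 2 182 (.L 3 3590) (.B 2 201 (.L 3 1031) (.L 3 1031)))) (.B 2 182 (.L 3 3648) (.B 2 201 (.L 3 1031) (.L 3 7)))))))))) (.B 1 231 (.B 1 225 (.B 1 223 (.B 0 49 (.B 0 44 (.B 0 41 (.B 2 182 (.L 3 3590) (.B 2 201 (.L 3 1031)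 (.L 3 2055))) (.B 0 43 (.B 0 42 (.B 2 182 (.L 3 3590) (.B 2 201 (.L 3 1031) (.L 3 2055))) (.B 2 182 (.L 3 3590) (.B 2 201 (.L 3 1031) (.L 3 2055)))) (.B 2 182 (.L 3 3590) (.B 2 201 (.L 3 1031) (.L 3 1543))))) (.B 2 182 (.L 3 3590) (.B 2 201 (.L 3 1031) (.L 3 1031)))) (.B 0 53 (.B 0 50 (.B 2 182 (.L 3 3590) (.B 2 201 (.L 3 1031) (.L 3 1031))) (.B 0 51 (.B 2 182 (.L 3 3590) (.B 2 201 (.L 3 1031) (.L 3 1031))) (.B 2 182 (.L 3 3590) (.B 2 201 (.L 3 1031) (.L 3 1031))))) (.B 2 182 (.L 3 3648) (.B 2 201 (.L 3 1031) (.L 3 7))))) (.B 1 224 (.B 0 50 (.B 0 45 (.B 0 41 (.L 3 23) (.B 0 44 (.B 0 43 (.B 0 42 (.L 6 1023) (.B 2 182 (.L 3 3590) (.B 2 201 (.L 3 1031) (.L 3 2055)))) (.B 2 182 (.L 3 3590) (.B 2 201 (.L 3 1031) (.L 3 1543)))) (.B 2 182 (.L 3 3590) (.B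 2 201 (.L 3 1031) (.L 3 1543))))) (.B 2 182 (.L 3 3590) (.B 2 201 (.L 3 1031) (.L 3 1031)))) (.B 0 54 (.B 0 51 (.B 2 182 (.L 3 3590) (.B 2 201 (.L 3 1031) (.L 3 1031))) (.B 0 52 (.B 2 182 (.L 3 3590) (.B 2 201 (.L 3 1031) (.L 3 1031))) (.B 2 182 (.L 3 3590) (.B 2 201 (.L 3 1031) (.L 3 1031))))) (.B 2 182 (.L 3 3648) (.B 2 201 (.L 3 1031) (.L 3 7))))) (.B 0 51 (.B 0 46 (.B 0 42 (.L 3 23) (.B 2 182 (.L 3 3590) (.B 2 201 (.L 3 1031) (.L 3 1543)))) (.B 2 182 (.L 3 3590) (.B 2 201 (.L 3 1031) (.L 3 1031)))) (.B 0 55 (.B 0 52 (.B 2 182 (.L 3 3590) (.B 2 201 (.L 3 1031) (.L 3 1031))) (.B 0 53 (.B 2 182 (.L 3 3590) (.B 2 201 (.L 3 1031) (.L 3 1031))) (.B 2 182 (.L 3 3590) (.B 2 201 (.L 3 1031) (.L 3 519))))) (.B 2 182 (.L 3 3584) (.B 2 201 (.L 3 1031) (.L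 3 7))))))) (.B 1 227 (.B 1 226 (.B 0 53 (.B 0 47 (.B 0 43 (.L 3 23) (.B 0 46 (.B 2 182 (.L 3 3590) (.B 2 201 (.L 3 1031) (.L 3 1543))) (.B 2 182 (.L 3 3590) (.B 2 201 (.L 3 1031) (.L 3 1543))))) (.B 2 182 (.L 3 3590) (.B 2 201 (.L 3 1031) (.L 3 1031)))) (.B 2 182 (.L 3 3584) (.B 0 56 (.B 0 54 (.B 2 201 (.L 3 1031) (.L 3 1031)) (.B 2 201 (.L 3 1031) (.L 3 519))) (.B 2 201 (.L 3 1031) (.L 3 7))))) (.B 0 54 (.B 0 48 (.B 0 44 (.L 3 23) (.B 0 47 (.B 0 46 (.B 2 182 (.L 3 3590) (.B 2 201 (.L 3 1031) (.L 3 1543))) (.B 2 182 (.L 3 3590) (.B 2 201 (.L 3 1031) (.L 3 1543)))) (.B 2 182 (.L 3 3590) (.B 2 201 (.L 3 1031) (.L 3 1543))))) (.B 0 52 (.B 0 51 (.B 0 50 (.B 0 49 (.B 2 182 (.L 3 3590) (.B 2 201 (.L 3 1031) (.L 3 1031))) (.B 2 182 (.L 3 3590) (.B 2 201 (.L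 3 1031) (.L 3 1031)))) (.B 2 182 (.L 3 3590) (.B 2 201 (.L 3 1031) (.L 3 1031)))) (.B 2 182 (.L 3 3590) (.B 2 201 (.L 3 1031) (.L 3 1031)))) (.B 0 53 (.B 2 182 (.L 3 3590) (.B 2 201 (.L 3 1031) (.L 3 1031))) (.B 2 182 (.L 3 3590) (.B 2 201 (.L 3 1031) (.L 3 1031)))))) (.B 2 182 (.L 3 3584) (.B 0 57 (.B 0 55 (.B 2 201 (.L 3 1031) (.L 3 519)) (.B 0 56 (.B 2 201 (.L 3 1031) (.L 3 519)) (.B 2 201 (.L 3 1031) (.L 3 519)))) (.B 2 201 (.L 3 1031) (.L 3 7)))))) (.B 1 229 (.B 1 228 (.B 0 54 (.B 0 48 (.B 0 44 (.L 3 23) (.B 0 47 (.B 2 182 (.L 3 3590) (.B 2 201 (.L 3 1031) (.L 3 1543))) (.B 2 182 (.L 3 3590) (.B 2 201 (.L 3 1031) (.L 3 1543))))) (.B 0 52 (.B 0 51 (.B 0 50 (.B 0 49 (.B 2 182 (.L 3 3590) (.B 2 201 (.L 3 1031) (.L 3 1031))) (.B 2 182 (.L 3 3590)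 (.B 2 201 (.L 3 1031) (.L 3 1031)))) (.B 2 182 (.L 3 3590) (.B 2 201 (.L 3 1031) (.L 3 1031)))) (.B 2 182 (.L 3 3590) (.B 2 201 (.L 3 1031) (.L 3 1031)))) (.B 0 53 (.B 2 182 (.L 3 3590) (.B 2 201 (.L 3 1031) (.L 3 1031))) (.B 2 182 (.L 3 3590) (.B 2 201 (.L 3 1031) (.L 3 1031)))))) (.B 2 182 (.L 3 3590) (.B 0 57 (.B 0 55 (.B 2 201 (.L 3 1031) (.L 3 519)) (.B 0 56 (.B 2 201 (.L 3 1031) (.L 3 519)) (.B 2 201 (.L 3 1031) (.L 3 519)))) (.B 2 201 (.L 3 1031) (.L 3 7))))) (.B 0 56 (.B 0 50 (.B 0 45 (.L 3 23) (.B 0 48 (.B 2 182 (.L 3 3590) (.B 2 201 (.L 3 1031) (.L 3 1543))) (.B 0 49 (.B 2 182 (.L 3 3590) (.B 2 201 (.L 3 1031) (.L 3 1031))) (.B 2 182 (.L 3 3590) (.B 2 201 (.L 3 1031) (.L 3 1031)))))) (.B 2 182 (.L 3 3590) (.B 2 201 (.L 3 1031) (.L 3 519))))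 (.B 2 182 (.L 3 3590) (.B 2 201 (.L 3 1031) (.L 3 7))))) (.B 1 230 (.B 0 56 (.B 0 50 (.B 0 45 (.L 3 23) (.B 0 48 (.L 3 23) (.B 0 49 (.L 7 4095) (.B 2 182 (.L 3 3590) (.B 2 201 (.L 3 1031) (.L 3 1031)))))) (.B 0 54 (.B 0 53 (.B 0 52 (.B 0 51 (.B 2 182 (.L 3 3590) (.B 2 201 (.L 3 1031) (.L 3 1031))) (.B 2 182 (.L 3 3590) (.B 2 201 (.L 3 1031) (.L 3 1031)))) (.B 2 182 (.L 3 3590) (.B 2 201 (.L 3 1031) (.L 3 1031)))) (.B 2 182 (.L 3 3590) (.B 2 201 (.L 3 1031) (.L 3 1031)))) (.B 0 55 (.B 2 182 (.L 3 3590) (.B 2 201 (.L 3 1031) (.L 3 519))) (.B 2 182 (.L 3 3590) (.B 2 201 (.L 3 1031) (.L 3 519)))))) (.B 2 182 (.L 3 3590) (.B 2 201 (.L 3 1031) (.L 3 7)))) (.B 0 56 (.B 0 50 (.L 3 23) (.B 0 54 (.B 0 53 (.B 0 52 (.B 0 51 (.B 2 182 (.L 3 2567) (.B 2 201 (.L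 3 1031) (.L 3 1031))) (.B 2 182 (.L 3 3590) (.B 2 201 (.L 3 1031) (.L 3 1031)))) (.B 2 182 (.L 3 3590) (.B 2 201 (.L 3 1031) (.L 3 1031)))) (.B 2 182 (.L 3 3590) (.B 2 201 (.L 3 1031) (.L 3 1031)))) (.B 0 55 (.B 2 182 (.L 3 3590) (.B 2 201 (.L 3 1031) (.L 3 519))) (.B 2 182 (.L 3 3590) (.B 2 201 (.L 3 1031) (.L 3 519)))))) (.B 0 59 (.B 0 58 (.B 0 57 (.B 2 182 (.L 3 3590) (.B 2 201 (.L 3 1031) (.L 3 519))) (.B 2 182 (.L 3 3590) (.B 2 201 (.L 3 1031) (.L 3 519)))) (.B 2 182 (.L 3 3590) (.B 2 201 (.L 3 1031) (.L 3 519)))) (.B 0 61 (.B 0 60 (.B 2 182 (.L 3 3590) (.B 2 201 (.L 3 1031) (.L 3 519))) (.B 2 182 (.L 3 3590) (.B 2 201 (.L 3 1031) (.L 3 7)))) (.B 2 182 (.L 3 3590) (.B 2 201 (.L 3 1031) (.L 3 7)))))))))) (.B 1 234 (.B 1 232 (.B 0 56 (.B 0 50 (.L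 3 23) (.B 0 54 (.B 0 53 (.B 0 52 (.B 2 182 (.L 3 2567) (.B 2 201 (.L 3 1031) (.L 3 1031))) (.B 2 182 (.L 3 2567) (.B 2 201 (.L 3 1031) (.L 3 1031)))) (.B 2 182 (.L 3 2567) (.B 2 201 (.L 3 1031) (.L 3 1031)))) (.B 0 55 (.B 2 182 (.L 3 3590) (.B 2 201 (.L 3 1031) (.L 3 519))) (.B 2 182 (.L 3 3590) (.B 2 201 (.L 3 1031) (.L 3 519)))))) (.B 2 182 (.L 3 3590) (.B 2 201 (.L 3 1031) (.L 3 7)))) (.B 1 233 (.B 0 56 (.B 0 50 (.L 3 23) (.B 0 54 (.B 0 53 (.B 2 182 (.L 3 1031) (.B 2 201 (.L 3 1031) (.L 3 1031))) (.B 2 182 (.L 3 1031) (.B 2 201 (.L 3 1031) (.L 3 1031)))) (.B 0 55 (.B 2 182 (.L 3 2567) (.B 2 201 (.L 3 1031) (.L 3 519))) (.B 2 182 (.L 3 2567) (.B 2 201 (.L 3 1031) (.L 3 519)))))) (.B 2 182 (.L 3 3590) (.B 2 201 (.L 3 1031) (.L 3 7)))) (.B 0 56 (.B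 0 50 (.L 3 47) (.B 0 54 (.L 3 47) (.B 0 55 (.B 2 182 (.L 3 519) (.B 2 201 (.L 3 1031) (.L 3 519))) (.B 2 182 (.L 3 519) (.B 2 201 (.L 3 1031) (.L 3 519)))))) (.B 2 182 (.L 3 3590) (.B 2 201 (.L 3 1031) (.L 3 7)))))) (.B 1 236 (.B 1 235 (.B 0 56 (.L 6 2879) (.B 2 182 (.L 3 3590) (.B 2 201 (.L 3 1031) (.L 3 7)))) (.B 0 56 (.L 3 47) (.B 2 182 (.L 3 2055) (.B 2 201 (.L 3 1031) (.L 3 7))))) (.B 1 237 (.B 0 56 (.L 3 47) (.B 2 182 (.L 3 7) (.B 2 201 (.L 3 1031) (.L 3 7)))) (.B 1 238 (.B 0 56 (.L 3 47) (.B 2 182 (.L 3 7) (.B 2 201 (.L 3 1031) (.L 3 7)))) (.B 0 56 (.L 3 47) (.B 2 182 (.L 3 7) (.B 2 201 (.L 3 1031) (.L 3 7)))))))))))) (.L 3 47)))))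

theorem t3_1_ok : chk es3 (nat_lit 3) [] (nat_lit 0) acc3 t3_1 (nat_lit 1125908496785440) = true := by decide +kernel

end FD4632
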