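import Pool.Agent.FD4632.Check
import Pool.Agent.FD4632.T3C0
import Pool.Agent.FD4632.T3C1

/-! The triangle lemma. -/

set_option autoImplicit false

namespace FD4632

theorem sub_sound (c d κ : Nat) (hs : sub c d = true) (h : InArc c κ) : InArc d κ := by
  have h0 : (c % 256 + 256 - d % 256) % 256 + c / 256 ≤ d / 256 := Nat.le_of_ble_eq_true hs
  unfold InArc at h ⊢
  omega

theorem up_of_arc (c κ1 κ2 : Nat) (k2 : κ2 < 256) (h1 : c % 256 = κ1) (h2 : c / 256 = 1)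
    (h : InArc (upA c) κ2) : Up κ1 κ2 := by
  rw [upA_eq, inArc_mk, h2] at h
  have e1 : tlk TATAB c = tlk TATAB κ1 := tlk_congr _ (by omega)
  have e2 : tlk TBTAB (c + (1 - 1)) = tlk TBTAB κ1 := tlk_congr _ (by omega)
  rw [e1, e2] at h
  have b1 := c9 κ1
  unfold Up
  generalize tlk TATAB κ1 = A at *
  generalize tlk TBTAB κ1 = B at *
  obtain ⟨v, hv⟩ : ∃ v, v = (κ2 + 256 - (c + A) % 256) % 256 := ⟨_, rfl⟩
  rw [← hv] at h
  have hm : (κ2 + 256 - κ1 % 256) % 256 = A + v := by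
    apply modlem
    · omega
    · omega
  have e4 : κ1 % 256 = κ1 := by omega
  rw [e4] at hm
  omega

theorem dn_of_arc (c κ1 κ2 : Nat) (k2 : κ2 < 256) (h1 : c % 256 = κ1) (h2 : c / 256 = 1)
    (h : InArc (dnA c) κ2) : Dn κ1 κ2 := by
  rw [dnA_eq, inArc_mk, h2] at h
  have e1 : tlk TDTAB c = tlk TDTAB κ1 := tlk_congr _ (by omega)
  have e2 : tlk TCTAB (c + (1 - 1)) = tlk TCTAB κ1 := tlk_congr _ (by omega)
  rw [e1, e2] at h
  have b1 := c9 κ1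
  unfold Dn
  generalize tlk TDTAB κ1 = A at *
  generalize tlk TCTAB κ1 = B at *
  obtain ⟨v, hv⟩ : ∃ v, v = (κ2 + 256 - (c + 256 - A) % 256) % 256 := ⟨_, rfl⟩
  rw [← hv] at h
  have hm : (κ2 + 256 - κ1 % 256) % 256 = 256 - A + v := by
    apply modlem
    · omega
    · omega
  have e4 : κ1 % 256 = κ1 := by omega
  rw [e4] at hm
  omega

theorem acc3_sound (κ : Nat → Nat) (σ : Nat) (hκ : ∀ n < 3, κ n < 256) (hc : Cov 3 κ σ)
    (ha : acc3 σ = true) : TriOK (κ 0) (κ 1) (κ 2) := by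
  have h0 := hc 0 (by norm_num)
  have h1 := hc 1 (by norm_num)
  have h2 := hc 2 (by norm_num)
  have ha' : acc3' (arcOf σ 0) (arcOf σ 1) (arcOf σ 2) = true := ha
  unfold acc3' at ha'
  rw [Bool.and_eq_true, Bool.or_eq_true, Bool.and_eq_true, Bool.and_eq_true] at ha'
  obtain ⟨hb, hb2⟩ := ha'
  have hdiv : arcOf σ 0 / 256 = 1 := Nat.eq_of_beq_eq_true hb
  have k0 : arcOf σ 0 % 256 = κ 0 := by
    unfold InArc at h0
    have := hκ 0 (by norm_num)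
    omega
  unfold TriOK
  rcases hb2 with ⟨g1, g2⟩ | ⟨g1, g2⟩
  · exact Or.inl ⟨up_of_arc _ _ _ (hκ 1 (by norm_num)) k0 hdiv (sub_sound _ _ _ g1 h1),
      dn_of_arc _ _ _ (hκ 2 (by norm_num)) k0 hdiv (sub_sound _ _ _ g2 h2)⟩
  · exact Or.inr ⟨dn_of_arc _ _ _ (hκ 1 (by norm_num)) k0 hdiv (sub_sound _ _ _ g1 h1),
      up_of_arc _ _ _ (hκ 2 (by norm_num)) k0 hdiv (sub_sound _ _ _ g2 h2)⟩

/-- three values -/
def tri3 {α : Type} (a b c : α) : Nat → α := fun n => if n = 0 then a else if n = 1 then b else c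

theorem tri3_adm (x1 x2 x3 y1 y2 y3 : ℝ) (κ1 κ2 κ3 : Nat) (k1 : κ1 < 256) (k2 : κ2 < 256)
    (k3 : κ3 < 256) (s1 : Sec κ1 x1 y1) (s2 : Sec κ2 x2 y2) (s3 : Sec κ3 x3 y3)
    (g1 : 1 ≤ nrm x1 y1) (g2 : 1 ≤ nrm x2 y2) (g3 : 1 ≤ nrm x3 y3)
    (l1 : nrm x1 y1 ≤ 2293 / 2000) (l2 : nrm x2 y2 ≤ 2293 / 2000) (l3 : nrm x3 y3 ≤ 2293 / 2000)
    (hx : x1 + x2 + x3 = 0) (hy : y1 + y2 + y3 = 0) :
    Adm es3 (tri3 x1 x2 x3) (tri3 y1 y2 y3) (tri3 κ1 κ2 κ3) := by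
  have hlen : es3.length = 3 := rfl
  constructor
  · intro n hn
    rw [hlen] at hn
    interval_cases n
    · exact k1
    · exact k2
    · exact k3
  · intro n hn
    rw [hlen] at hn
    interval_cases n
    · exact s1
    · exact s2
    · exact s3
  · intro n hn
    rw [hlen] at hn
    interval_cases n
    · exact g1
    · exact g2
    · exact g3
  · intro n hn
    rw [hlen] at hn
    interval_cases n
    · exact l1
    · exact l2
    · exact l3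
  · intro g
    have : wsum g (tri3 x1 x2 x3) es3 0 = (g 0 - g 1) * x1 + ((g 0 - g 1) * x2 + ((g 0 - g 1) * x3 + 0)) := rfl
    rw [this]
    linear_combination (g 0 - g 1) * hx
  · intro g
    have : wsum g (tri3 y1 y2 y3) es3 0 = (g 0 - g 1) * y1 + ((g 0 - g 1) * y2 + ((g 0 - g 1) * y3 + 0)) := rfl
    rw [this]
    linear_combination (g 0 - g 1) * hy

theorem tri_base (x1 x2 x3 y1 y2 y3 : ℝ) (κ1 κ2 κ3 : Nat) (k1 : κ1 < 64) (k2 : κ2 < 256)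
    (k3 : κ3 < 256) (s1 : Sec κ1 x1 y1) (s2 : Sec κ2 x2 y2) (s3 : Sec κ3 x3 y3)
    (g1 : 1 ≤ nrm x1 y1) (g2 : 1 ≤ nrm x2 y2) (g3 : 1 ≤ nrm x3 y3)
    (l1 : nrm x1 y1 ≤ 2293 / 2000) (l2 : nrm x2 y2 ≤ 2293 / 2000) (l3 : nrm x3 y3 ≤ 2293 / 2000)
    (hx : x1 + x2 + x3 = 0) (hy : y1 + y2 + y3 = 0) : TriOK κ1 κ2 κ3 := by
  have adm := tri3_adm x1 x2 x3 y1 y2 y3 κ1 κ2 κ3 (by omega) k2 k3 s1 s2 s3 g1 g2 g3 l1 l2 l3 hx hy
  have hlen : es3.length = 3 := rfl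
  have hk : ∀ n < 3, tri3 κ1 κ2 κ3 n < 256 := fun n hn => adm.lt n hn
  have main : ∀ σ t, Cov 3 (tri3 κ1 κ2 κ3) σ → chk es3 3 [] 0 acc3 t σ = true →
      TriOK κ1 κ2 κ3 := by
    intro σ t hc ht
    obtain ⟨σ', h1, h2⟩ := chk_sound es3 _ _ _ adm [] 0 (fun n hn => absurd hn (Nat.not_lt_zero n))
      acc3 t σ hc ht
    exact acc3_sound _ σ' hk h2 h1
  by_cases h : κ1 < 32
  · refine main 1125908496785408 t3_0 ?_ t3_0_ok
    intro e he
    rw [arcOf_eq]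
    interval_cases e
    · show InArc _ κ1
      unfold InArc
      norm_num
      omega
    · show InArc _ κ2
      unfold InArc
      norm_num
      omega
    · show InArc _ κ3
      unfold InArc
      norm_num
      omega
  · refine main 1125908496785440 t3_1 ?_ t3_1_ok
    intro e he
    rw [arcOf_eq]
    interval_cases e
    · show InArc _ κ1
      unfold InArc
      norm_num
      omega
    · show InArc _ κ2
      unfold InArc
      norm_num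
      omega
    · show InArc _ κ3
      unfold InArc
      norm_num
      omega

theorem PX_64 (k : Nat) : PX (k + 64) = - PY k := by
  have h := (c7_all (k % 256) (Nat.mod_lt _ (by norm_num))).1
  rw [PY_mod, PX_congr (j := k % 256 + 64) (k := k + 64) (by omega)] at h
  exact h

theorem PY_64 (k : Nat) : PY (k + 64) = PX k := by
  have h := (c7_all (k % 256) (Nat.mod_lt _ (by norm_num))).2
  rw [PX_mod, PY_congr (j := k % 256 + 64) (k := k + 64) (by omega)] at h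
  exact h

theorem PX_192 (k : Nat) : PX (k + 192) = PY k := (PY_eq_PX k).symm

theorem PY_192 (k : Nat) : PY (k + 192) = - PX k := by
  have h : PY (k + 192) = PX (k + 128) := by
    have := PY_64 (k + 128)
    rwa [Nat.add_assoc] at this
  rw [h]
  have h2 := PX_64 (k + 64)
  rw [Nat.add_assoc, PY_64] at h2
  exact h2

/-- rotation by minus 90 degrees -/
theorem Sec_rot (k : Nat) (x y : ℝ) (h : Sec k x y) : Sec ((k + 192) % 256) y (-x) := by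
  rw [Sec_congr (k := k + 192) (by omega)]
  unfold Sec at h ⊢
  have e : k + 192 + 1 = k + 1 + 192 := by omega
  rw [e, PX_192, PY_192, PX_192, PY_192]
  push_cast
  constructor
  · have := h.1
    linarith
  · have := h.2
    linarith

theorem Sec_neg (k : Nat) (x y : ℝ) (h : Sec k x y) : Sec ((k + 128) % 256) (-x) (-y) := by
  have h1 := Sec_rot _ _ _ (Sec_rot _ _ _ h)
  rw [Sec_congr (k := (k + 128) % 256) (by omega)] at h1
  exact h1

theorem Up_rot (κ1 κ2 : Nat) (k1 : κ1 < 256) (k2 : κ2 < 256)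
    (h : Up ((κ1 + 192) % 256) ((κ2 + 192) % 256)) : Up κ1 κ2 := by
  unfold Up at h ⊢
  rw [tlk_congr TATAB (i := (κ1 + 192) % 256) (j := κ1) (by omega),
    tlk_congr TBTAB (i := (κ1 + 192) % 256) (j := κ1) (by omega)] at h
  have e : ((κ2 + 192) % 256 + 256 - (κ1 + 192) % 256) % 256 = (κ2 + 256 - κ1) % 256 := by omega
  rw [e] at h
  exact h

theorem Dn_rot (κ1 κ2 : Nat) (k1 : κ1 < 256) (k2 : κ2 < 256)
    (h : Dn ((κ1 + 192) % 256) ((κ2 + 192) % 256)) : Dn κ1 κ2 := by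
  unfold Dn at h ⊢
  rw [tlk_congr TDTAB (i := (κ1 + 192) % 256) (j := κ1) (by omega),
    tlk_congr TCTAB (i := (κ1 + 192) % 256) (j := κ1) (by omega)] at h
  have e : ((κ2 + 192) % 256 + 256 - (κ1 + 192) % 256) % 256 = (κ2 + 256 - κ1) % 256 := by omega
  rw [e] at h
  exact h

theorem tri_all (n : Nat) : ∀ (x1 x2 x3 y1 y2 y3 : ℝ) (κ1 κ2 κ3 : Nat), κ1 < 64 * (n + 1) →
    κ1 < 256 → κ2 < 256 → κ3 < 256 → Sec κ1 x1 y1 → Sec κ2 x2 y2 → Sec κ3 x3 y3 →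
    1 ≤ nrm x1 y1 → 1 ≤ nrm x2 y2 → 1 ≤ nrm x3 y3 →
    nrm x1 y1 ≤ 2293 / 2000 → nrm x2 y2 ≤ 2293 / 2000 → nrm x3 y3 ≤ 2293 / 2000 →
    x1 + x2 + x3 = 0 → y1 + y2 + y3 = 0 → TriOK κ1 κ2 κ3 := by
  induction n with
  | zero =>
    intro x1 x2 x3 y1 y2 y3 κ1 κ2 κ3 k k1 k2 k3 s1 s2 s3 g1 g2 g3 l1 l2 l3 hx hy
    exact tri_base x1 x2 x3 y1 y2 y3 κ1 κ2 κ3 (by omega) k2 k3 s1 s2 s3 g1 g2 g3 l1 l2 l3 hx hy
  | succ n ih =>
    intro x1 x2 x3 y1 y2 y3 κ1 κ2 κ3 k k1 k2 k3 s1 s2 s3 g1 g2 g3 l1 l2 l3 hx hy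
    by_cases hk : κ1 < 64
    · exact tri_base x1 x2 x3 y1 y2 y3 κ1 κ2 κ3 hk k2 k3 s1 s2 s3 g1 g2 g3 l1 l2 l3 hx hy
    · have hn : ∀ x y : ℝ, nrm y (-x) = nrm x y := fun x y => by rw [nrm_neg_right, nrm_swap]
      have h := ih y1 y2 y3 (-x1) (-x2) (-x3) ((κ1 + 192) % 256) ((κ2 + 192) % 256)
        ((κ3 + 192) % 256) (by omega) (by omega) (by omega) (by omega)
        (Sec_rot _ _ _ s1) (Sec_rot _ _ _ s2) (Sec_rot _ _ _ s3)
        (by rw [hn]; exact g1) (by rw [hn]; exact g2) (by rw [hn]; exact g3)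
        (by rw [hn]; exact l1) (by rw [hn]; exact l2) (by rw [hn]; exact l3) hy (by linarith)
      rcases h with ⟨h1, h2⟩ | ⟨h1, h2⟩
      · exact Or.inl ⟨Up_rot _ _ k1 k2 h1, Dn_rot _ _ k1 k3 h2⟩
      · exact Or.inr ⟨Dn_rot _ _ k1 k2 h1, Up_rot _ _ k1 k3 h2⟩

/-- the triangle lemma -/
theorem tri_ok (x1 x2 x3 y1 y2 y3 : ℝ) (κ1 κ2 κ3 : Nat) (k1 : κ1 < 256) (k2 : κ2 < 256)
    (k3 : κ3 < 256) (s1 : Sec κ1 x1 y1) (s2 : Sec κ2 x2 y2) (s3 : Sec κ3 x3 y3)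
    (g1 : 1 ≤ nrm x1 y1) (g2 : 1 ≤ nrm x2 y2) (g3 : 1 ≤ nrm x3 y3)
    (l1 : nrm x1 y1 ≤ 2293 / 2000) (l2 : nrm x2 y2 ≤ 2293 / 2000) (l3 : nrm x3 y3 ≤ 2293 / 2000)
    (hx : x1 + x2 + x3 = 0) (hy : y1 + y2 + y3 = 0) : TriOK κ1 κ2 κ3 :=
  tri_all 3 x1 x2 x3 y1 y2 y3 κ1 κ2 κ3 (by omega) k1 k2 k3 s1 s2 s3 g1 g2 g3 l1 l2 l3 hx hy

/-- discrete intermediate value theorem -/
theorem ivt (c : Nat → ℝ) (n : Nat) (hn : 0 < n) (h0 : 0 ≤ c 0) (h1 : c n ≤ 0) :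
    ∃ k < n, 0 ≤ c k ∧ c (k + 1) ≤ 0 := by
  induction n with
  | zero => exact absurd hn (lt_irrefl 0)
  | succ n ih =>
    rcases le_total 0 (c n) with h | h
    · exact ⟨n, Nat.lt_succ_self n, h, h1⟩
    · rcases Nat.eq_zero_or_pos n with rfl | hp
      · exact ⟨0, Nat.lt_succ_self 0, h0, h1⟩
      · obtain ⟨k, hk, h2⟩ := ih hp h
        exact ⟨k, by omega, h2⟩

theorem PX0 : PX 0 = 1048576 ∧ PY 0 = 0 := by decide +kernel

theorem PX32 : PX 32 = PY 32 ∧ 0 < PY 32 := by decide +kernel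

/-- vectors in the first octant lie in the first 32 sectors -/
theorem exists_sec_octant (x y : ℝ) (hy : 0 ≤ y) (hxy : y ≤ x) : ∃ k < 32, Sec k x y := by
  obtain ⟨k, hk, h1, h2⟩ := ivt (fun k => (PX k : ℝ) * y - (PY k : ℝ) * x) 32 (by norm_num)
    (by
      show 0 ≤ (PX 0 : ℝ) * y - (PY 0 : ℝ) * x
      rw [PX0.1, PX0.2]; push_cast; linarith)
    (by
      show (PX 32 : ℝ) * y - (PY 32 : ℝ) * x ≤ 0
      rw [PX32.1]
      have : (0 : ℝ) < (PY 32 : ℝ) := by exact_mod_cast PX32.2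
      nlinarith)
  refine ⟨k, hk, h1, ?_⟩
  have h3 : (PX (k + 1) : ℝ) * y - (PY (k + 1) : ℝ) * x ≤ 0 := h2
  linarith

theorem PX64 : PX 64 = 0 ∧ PY 64 = 1048576 := by decide +kernel

/-- vectors in the first quadrant -/
theorem exists_sec_quadrant (x y : ℝ) (hx : 0 ≤ x) (hy : 0 ≤ y) : ∃ k < 64, Sec k x y := by
  obtain ⟨k, hk, h1, h2⟩ := ivt (fun k => (PX k : ℝ) * y - (PY k : ℝ) * x) 64 (by norm_num)
    (by
      show 0 ≤ (PX 0 : ℝ) * y - (PY 0 : ℝ) * x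
      rw [PX0.1, PX0.2]; push_cast; linarith)
    (by
      show (PX 64 : ℝ) * y - (PY 64 : ℝ) * x ≤ 0
      rw [PX64.1, PX64.2]; push_cast; linarith)
  refine ⟨k, hk, h1, ?_⟩
  have h3 : (PX (k + 1) : ℝ) * y - (PY (k + 1) : ℝ) * x ≤ 0 := h2
  linarith

/-- every vector lies in some sector -/
theorem exists_sec (x y : ℝ) : ∃ k < 256, Sec k x y := by
  -- rotation by minus 90 degrees, iterated
  have rot : ∀ x y : ℝ, (∃ k < 256, Sec k x y) → ∃ k < 256, Sec k y (-x) := by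
    rintro x y ⟨k, _, hs⟩
    exact ⟨(k + 192) % 256, Nat.mod_lt _ (by norm_num), Sec_rot k x y hs⟩
  have q1 : ∀ x y : ℝ, 0 ≤ x → 0 ≤ y → ∃ k < 256, Sec k x y := by
    intro x y hx hy
    obtain ⟨k, hk, hs⟩ := exists_sec_quadrant x y hx hy
    exact ⟨k, by omega, hs⟩
  -- fourth quadrant: `x ≥ 0`, `y ≤ 0`
  have q4 : ∀ x y : ℝ, 0 ≤ x → y ≤ 0 → ∃ k < 256, Sec k x y := by
    intro x y hx hy
    have := rot (-y) x (q1 (-y) x (by linarith) hx)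
    rwa [neg_neg] at this
  have q3 : ∀ x y : ℝ, x ≤ 0 → y ≤ 0 → ∃ k < 256, Sec k x y := by
    intro x y hx hy
    have := rot (-y) x (q4 (-y) x (by linarith) hx)
    rwa [neg_neg] at this
  have q2 : ∀ x y : ℝ, x ≤ 0 → 0 ≤ y → ∃ k < 256, Sec k x y := by
    intro x y hx hy
    have := rot (-y) x (q3 (-y) x (by linarith) hx)
    rwa [neg_neg] at this
  rcases le_total 0 x with hx | hx <;> rcases le_total 0 y with hy | hy
  · exact q1 x y hx hy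
  · exact q4 x y hx hy
  · exact q2 x y hx hy
  · exact q3 x y hx hy

end FD4632
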