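import Pool.Agent.FD4632.Top
import Pool.Agent.FD4632.Tri

/-! The lower bound: no flow with all norms in `[1, 2293/2000]`. -/

set_option autoImplicit false

namespace FD4632

theorem rel0 (f : Nat → ℝ) (h : ∀ g : Nat → ℝ, wsum g f es 0 = 0) : f 0 - f 2 + f 5 = 0 := by
  have h1 := h (fun n => if n = 0 then 1 else 0)
  simp [wsum, es] at h1
  linarith

theorem rel1 (f : Nat → ℝ) (h : ∀ g : Nat → ℝ, wsum g f es 0 = 0) : -f 1 + f 2 - f 17 = 0 := by
  have h1 := h (fun n => if n = 1 then 1 else 0)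
  simp [wsum, es] at h1
  linarith

theorem rel2 (f : Nat → ℝ) (h : ∀ g : Nat → ℝ, wsum g f es 0 = 0) : f 1 - f 3 + f 18 = 0 := by
  have h1 := h (fun n => if n = 2 then 1 else 0)
  simp [wsum, es] at h1
  linarith

theorem rel3 (f : Nat → ℝ) (h : ∀ g : Nat → ℝ, wsum g f es 0 = 0) : f 6 - f 7 + f 12 = 0 := by
  have h1 := h (fun n => if n = 3 then 1 else 0)
  simp [wsum, es] at h1
  linarith

theorem rel4 (f : Nat → ℝ) (h : ∀ g : Nat → ℝ, wsum g f es 0 = 0) : -f 6 + f 9 - f 13 = 0 := by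
  have h1 := h (fun n => if n = 4 then 1 else 0)
  simp [wsum, es] at h1
  linarith

theorem rel5 (f : Nat → ℝ) (h : ∀ g : Nat → ℝ, wsum g f es 0 = 0) : f 7 - f 10 + f 14 = 0 := by
  have h1 := h (fun n => if n = 5 then 1 else 0)
  simp [wsum, es] at h1
  linarith

theorem rel6 (f : Nat → ℝ) (h : ∀ g : Nat → ℝ, wsum g f es 0 = 0) : -f 8 + f 10 - f 15 = 0 := by
  have h1 := h (fun n => if n = 6 then 1 else 0)
  simp [wsum, es] at h1
  linarith

theorem rel7 (f : Nat → ℝ) (h : ∀ g : Nat → ℝ, wsum g f es 0 = 0) : f 8 - f 11 + f 16 = 0 := by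
  have h1 := h (fun n => if n = 7 then 1 else 0)
  simp [wsum, es] at h1
  linarith

theorem rel8 (f : Nat → ℝ) (h : ∀ g : Nat → ℝ, wsum g f es 0 = 0) : -f 9 + f 11 - f 20 = 0 := by
  have h1 := h (fun n => if n = 8 then 1 else 0)
  simp [wsum, es] at h1
  linarith

theorem rel9 (f : Nat → ℝ) (h : ∀ g : Nat → ℝ, wsum g f es 0 = 0) : f 17 - f 19 + f 20 = 0 := by
  have h1 := h (fun n => if n = 9 then 1 else 0)
  simp [wsum, es] at h1
  linarith

/-- signed value -/
def sg (s : Nat) (x : ℝ) : ℝ := if s = 0 then x else -x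

theorem nth_eq (l : List TD) : ∀ n, nth l n = l.getD n ⟨0, 0, 0, 0, 0, 0⟩ := by
  induction l with
  | nil => intro n; rfl
  | cons a l ih =>
    intro n
    cases n with
    | zero => rfl
    | succ n => exact ih n

theorem tri_rel : ∀ n < 30, ∀ f : Nat → ℝ, (∀ g : Nat → ℝ, wsum g f es 0 = 0) →
    sg (nth ts n).s1 (f (nth ts n).e1) + sg (nth ts n).s2 (f (nth ts n).e2)
      + sg (nth ts n).s3 (f (nth ts n).e3) = 0 := by
  intro n hn f h
  have r0 := rel0 f h
  have r1 := rel1 f h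
  have r2 := rel2 f h
  have r3 := rel3 f h
  have r4 := rel4 f h
  have r5 := rel5 f h
  have r6 := rel6 f h
  have r7 := rel7 f h
  have r8 := rel8 f h
  have r9 := rel9 f h
  clear h
  rw [nth_eq]
  interval_cases n <;> simp [ts, sg] <;> linarith

theorem tri_bounds : ∀ n < 30, (nth ts n).e1 < 21 ∧ (nth ts n).e2 < 21 ∧ (nth ts n).e3 < 21 ∧
    (nth ts n).s1 ≤ 1 ∧ (nth ts n).s2 ≤ 1 ∧ (nth ts n).s3 ≤ 1 := by
  decide +kernel

theorem Sec_sg (s κ : Nat) (x y : ℝ) (hs : s ≤ 1) (h : Sec κ x y) :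
    Sec ((κ + 128 * s) % 256) (sg s x) (sg s y) := by
  unfold sg
  interval_cases s
  · rw [Sec_congr (k := κ) (by omega)]
    exact h
  · have := Sec_neg κ x y h
    simpa using this

theorem nrm_sg (s : Nat) (x y : ℝ) : nrm (sg s x) (sg s y) = nrm x y := by
  unfold sg
  split_ifs
  · rfl
  · rw [nrm_neg_left, nrm_neg_right]

theorem es_len : es.length = 21 := rfl

theorem accL_sound (l : List Nat) (s : Nat) (h : accL l s = true) : s ∈ l := by
  induction l with
  | nil => exact absurd h (by simp [accL])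
  | cons a l ih =>
    have h1 : bq (Nat.beq s a) true (accL l s) = true := h
    rw [bq_beq] at h1
    split_ifs at h1 with h2
    · rw [h2]; exact List.mem_cons_self
    · exact List.mem_cons_of_mem _ (ih h1)

theorem s0_arcs : ∀ e < 21, arcOf s0 e = if e = 11 then 8192 else 65536 := by decide +kernel

/-- the core statement: the flow on edge 11 points into the first octant -/
theorem no_flow_oct (fx fy : Nat → ℝ) (hx : ∀ g : Nat → ℝ, wsum g fx es 0 = 0)
    (hy : ∀ g : Nat → ℝ, wsum g fy es 0 = 0) (ge : ∀ n < 21, 1 ≤ nrm (fx n) (fy n))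
    (le : ∀ n < 21, nrm (fx n) (fy n) ≤ 2293 / 2000) (h0 : 0 ≤ fy 11) (h1 : fy 11 ≤ fx 11) :
    False := by
  have hκ : ∃ κ : Nat → Nat, ∀ n, κ n < 256 ∧ Sec (κ n) (fx n) (fy n) ∧ (n = 11 → κ n < 32) := by
    have : ∀ n, ∃ k, k < 256 ∧ Sec k (fx n) (fy n) ∧ (n = 11 → k < 32) := by
      intro n
      by_cases hn : n = 11
      · subst hn
        obtain ⟨k, hk, hs⟩ := exists_sec_octant (fx 11) (fy 11) h0 h1
        exact ⟨k, by omega, hs, fun _ => hk⟩
      · obtain ⟨k, hk, hs⟩ := exists_sec (fx n) (fy n)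
        exact ⟨k, hk, hs, fun h => absurd h hn⟩
    exact ⟨fun n => (this n).choose, fun n => (this n).choose_spec⟩
  obtain ⟨κ, hκ⟩ := hκ
  have adm : Adm es fx fy κ :=
    { lt := fun n _ => (hκ n).1
      sec := fun n _ => (hκ n).2.1
      ge := fun n hn => ge n hn
      le := fun n hn => le n hn
      cx := hx
      cy := hy }
  have hts : ∀ n < 30, TriValid es.length (nth ts n) κ := by
    intro n hn
    obtain ⟨a1, a2, a3, b1, b2, b3⟩ := tri_bounds n hn
    refine ⟨a1, a2, a3, b1, b2, b3, ?_⟩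
    exact tri_ok _ _ _ _ _ _ _ _ _ (Nat.mod_lt _ (by norm_num)) (Nat.mod_lt _ (by norm_num))
      (Nat.mod_lt _ (by norm_num))
      (Sec_sg _ _ _ _ b1 (hκ _).2.1) (Sec_sg _ _ _ _ b2 (hκ _).2.1)
      (Sec_sg _ _ _ _ b3 (hκ _).2.1)
      (by rw [nrm_sg]; exact ge _ a1) (by rw [nrm_sg]; exact ge _ a2)
      (by rw [nrm_sg]; exact ge _ a3) (by rw [nrm_sg]; exact le _ a1)
      (by rw [nrm_sg]; exact le _ a2) (by rw [nrm_sg]; exact le _ a3)
      (tri_rel n hn fx hx) (tri_rel n hn fy hy)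
  have hc : Cov es.length κ s0 := by
    intro e he
    rw [s0_arcs e he]
    have h2 := (hκ e).1
    split_ifs with h3
    · have h4 := (hκ e).2.2 h3
      unfold InArc
      omega
    · unfold InArc
      omega
  obtain ⟨σ', g1, g2⟩ := chk_sound es fx fy κ adm ts 30 hts (accL refs) top s0 hc top_ok
  obtain ⟨t, ht⟩ := refs_ok σ' (accL_sound _ _ g1)
  obtain ⟨σ'', g3, _⟩ := chk_sound es fx fy κ adm ts 30 hts (fun _ => false) t σ' g2 ht
  exact absurd g3 (by simp)

theorem wsum_neg (g f : Nat → ℝ) (l : List (Nat × Nat)) : ∀ n,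
    wsum g (fun k => - f k) l n = - wsum g f l n := by
  induction l with
  | nil => intro n; simp [wsum]
  | cons e l ih => intro n; rw [wsum, wsum, ih]; ring

theorem no_flow_quad (fx fy : Nat → ℝ) (hx : ∀ g : Nat → ℝ, wsum g fx es 0 = 0)
    (hy : ∀ g : Nat → ℝ, wsum g fy es 0 = 0) (ge : ∀ n < 21, 1 ≤ nrm (fx n) (fy n))
    (le : ∀ n < 21, nrm (fx n) (fy n) ≤ 2293 / 2000) (h0 : 0 ≤ fx 11) (h1 : 0 ≤ fy 11) :
    False := by
  rcases le_total (fy 11) (fx 11) with h | h
  · exact no_flow_oct fx fy hx hy ge le h1 h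
  · exact no_flow_oct fy fx hy hx (fun n hn => by rw [nrm_swap]; exact ge n hn)
      (fun n hn => by rw [nrm_swap]; exact le n hn) h0 h

/-- no flow with all norms in `[1, 2293/2000]` -/
theorem no_flow (fx fy : Nat → ℝ) (hx : ∀ g : Nat → ℝ, wsum g fx es 0 = 0)
    (hy : ∀ g : Nat → ℝ, wsum g fy es 0 = 0) (ge : ∀ n < 21, 1 ≤ nrm (fx n) (fy n))
    (le : ∀ n < 21, nrm (fx n) (fy n) ≤ 2293 / 2000) : False := by
  have hx' : ∀ g : Nat → ℝ, wsum g (fun k => - fx k) es 0 = 0 := fun g => by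
    rw [wsum_neg, hx, neg_zero]
  have hy' : ∀ g : Nat → ℝ, wsum g (fun k => - fy k) es 0 = 0 := fun g => by
    rw [wsum_neg, hy, neg_zero]
  rcases le_total 0 (fx 11) with h | h <;> rcases le_total 0 (fy 11) with h' | h'
  · exact no_flow_quad fx fy hx hy ge le h h'
  · exact no_flow_quad fx (fun k => - fy k) hx hy'
      (fun n hn => by rw [nrm_neg_right]; exact ge n hn)
      (fun n hn => by rw [nrm_neg_right]; exact le n hn) h (by linarith)
  · exact no_flow_quad (fun k => - fx k) fy hx' hy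
      (fun n hn => by rw [nrm_neg_left]; exact ge n hn)
      (fun n hn => by rw [nrm_neg_left]; exact le n hn) (by linarith) h'
  · exact no_flow_quad (fun k => - fx k) (fun k => - fy k) hx' hy'
      (fun n hn => by rw [nrm_neg_left, nrm_neg_right]; exact ge n hn)
      (fun n hn => by rw [nrm_neg_left, nrm_neg_right]; exact le n hn) (by linarith) (by linarith)

end FD4632
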