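import Mathlib

/-! Facts on the `ℓ_{9/5}` norm of the plane and on rational powers. -/

set_option autoImplicit false

namespace FD4632

theorem rpow_le_of_pow_le {x y : ℝ} (hx : 0 ≤ x) (hy : 0 ≤ y) {a b : ℕ} (hb : b ≠ 0)
    (h : x ^ a ≤ y ^ b) : x ^ ((a : ℝ) / b) ≤ y := by
  have h1 : x ^ ((a : ℝ) / b) = (x ^ a) ^ ((b : ℝ)⁻¹) := by
    rw [← Real.rpow_natCast, ← Real.rpow_mul hx, div_eq_mul_inv]
  rw [h1]
  calc (x ^ a) ^ ((b : ℝ)⁻¹) ≤ (y ^ b) ^ ((b : ℝ)⁻¹) :=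
        Real.rpow_le_rpow (by positivity) h (by positivity)
    _ = y := Real.pow_rpow_inv_natCast hy hb

theorem le_rpow_of_pow_le {x y : ℝ} (hx : 0 ≤ x) (hy : 0 ≤ y) {a b : ℕ} (hb : b ≠ 0)
    (h : y ^ b ≤ x ^ a) : y ≤ x ^ ((a : ℝ) / b) := by
  have h1 : x ^ ((a : ℝ) / b) = (x ^ a) ^ ((b : ℝ)⁻¹) := by
    rw [← Real.rpow_natCast, ← Real.rpow_mul hx, div_eq_mul_inv]
  rw [h1]
  calc y = (y ^ b) ^ ((b : ℝ)⁻¹) := (Real.pow_rpow_inv_natCast hy hb).symm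
    _ ≤ (x ^ a) ^ ((b : ℝ)⁻¹) := Real.rpow_le_rpow (by positivity) h (by positivity)

/-- the `ℓ_{9/5}` norm of the plane -/
noncomputable def nrm (x y : ℝ) : ℝ := (|x| ^ (9 / 5 : ℝ) + |y| ^ (9 / 5 : ℝ)) ^ (5 / 9 : ℝ)

theorem nrm_nonneg (x y : ℝ) : 0 ≤ nrm x y := by unfold nrm; positivity

theorem nrm_swap (x y : ℝ) : nrm y x = nrm x y := by unfold nrm; rw [add_comm]

theorem nrm_neg_left (x y : ℝ) : nrm (-x) y = nrm x y := by unfold nrm; rw [abs_neg]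

theorem nrm_neg_right (x y : ℝ) : nrm x (-y) = nrm x y := by unfold nrm; rw [abs_neg]

theorem nrm_smul (c x y : ℝ) (hc : 0 ≤ c) : nrm (c * x) (c * y) = c * nrm x y := by
  unfold nrm
  rw [abs_mul, abs_mul, abs_of_nonneg hc, Real.mul_rpow hc (abs_nonneg _),
    Real.mul_rpow hc (abs_nonneg _), ← mul_add, Real.mul_rpow (by positivity) (by positivity),
    ← Real.rpow_mul hc]
  norm_num

theorem nrm_add_le (x y z w : ℝ) : nrm (x + z) (y + w) ≤ nrm x y + nrm z w := by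
  have h := Real.Lp_add_le (Finset.univ : Finset (Fin 2)) ![x, y] ![z, w]
    (p := (9 / 5 : ℝ)) (by norm_num)
  simp only [Fin.sum_univ_two, Matrix.cons_val_zero, Matrix.cons_val_one] at h
  unfold nrm
  have h2 : (1 / (9 / 5) : ℝ) = 5 / 9 := by norm_num
  rw [h2] at h
  exact h

theorem nrm_comb_le (a b x y z w : ℝ) (ha : 0 ≤ a) (hb : 0 ≤ b) (h1 : nrm x y ≤ 1)
    (h2 : nrm z w ≤ 1) : nrm (a * x + b * z) (a * y + b * w) ≤ a + b := by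
  calc nrm (a * x + b * z) (a * y + b * w) ≤ nrm (a * x) (a * y) + nrm (b * z) (b * w) :=
        nrm_add_le _ _ _ _
    _ = a * nrm x y + b * nrm z w := by rw [nrm_smul _ _ _ ha, nrm_smul _ _ _ hb]
    _ ≤ a * 1 + b * 1 := by gcongr
    _ = a + b := by ring

theorem holder_le (n m x y : ℝ) (h : |n| ^ (9 / 4 : ℝ) + |m| ^ (9 / 4 : ℝ) ≤ 1) :
    n * x + m * y ≤ nrm x y := by
  have hpq : (9 / 4 : ℝ).HolderConjugate (9 / 5 : ℝ) := by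
    rw [Real.holderConjugate_iff]
    norm_num
  have h0 := Real.inner_le_Lp_mul_Lq (Finset.univ : Finset (Fin 2)) ![n, m] ![x, y] hpq
  simp only [Fin.sum_univ_two, Matrix.cons_val_zero, Matrix.cons_val_one] at h0
  have h2 : (1 / (9 / 5) : ℝ) = 5 / 9 := by norm_num
  rw [h2] at h0
  have h3 : (|n| ^ (9 / 4 : ℝ) + |m| ^ (9 / 4 : ℝ)) ^ (1 / (9 / 4) : ℝ) ≤ 1 :=
    Real.rpow_le_one (by positivity) h (by norm_num)
  calc n * x + m * y ≤ _ := h0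
    _ ≤ 1 * (|x| ^ (9 / 5 : ℝ) + |y| ^ (9 / 5 : ℝ)) ^ (5 / 9 : ℝ) := by
        gcongr
    _ = nrm x y := by rw [one_mul]; rfl

theorem nrm_le_one {x y : ℝ} (h : |x| ^ (9 / 5 : ℝ) + |y| ^ (9 / 5 : ℝ) ≤ 1) : nrm x y ≤ 1 :=
  Real.rpow_le_one (by positivity) h (by norm_num)

end FD4632
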